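import Pool.Agent.Lib.MP_d48993_lc.AE.Node.Interfaces

/-!
# Project NODE (MP_d48993): module ADOPTA

The advice of `y` is continued by a string `μ` of an extension of the data. The new data have the
same public roots; all roots beyond the old bound become private, owned by `y` or by new states.
-/

set_option autoImplicit false

namespace Pool.Agent.Lib.MP_d48993_lc.Node.Adopta

open Pool.Agent.Lib.MP_d48993_lc.Node

/-! ## Finiteness -/

theorem lift_fin (n : ℕ) : ∀ l : List ℕ, (∀ b ∈ l, b < n) → ∃ l' : List (Fin n),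
    l'.map Fin.val = l := by
  intro l
  induction l with
  | nil => exact fun _ => ⟨[], rfl⟩
  | cons a l ih =>
    intro h
    obtain ⟨l', hl'⟩ := ih (fun b hb => h b (List.mem_cons_of_mem _ hb))
    exact ⟨⟨a, h a List.mem_cons_self⟩ :: l', by simp [hl']⟩

theorem finite_lists (n : ℕ) : {l : List ℕ | l.length ≤ n ∧ ∀ b ∈ l, b < n}.Finite := by
  have h := (List.finite_length_le (Fin n) n).image (List.map Fin.val)
  refine h.subset ?_
  rintro l ⟨h1, h2⟩
  obtain ⟨l', hl'⟩ := lift_fin n l h2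
  refine ⟨l', ?_, hl'⟩
  have : l'.length = l.length := by rw [← hl', List.length_map]
  show l'.length ≤ n
  omega

theorem finite_adm (M : ℕ) : {x : St | Adm x ∧ x.1 < M}.Finite := by
  have h : (⋃ r ∈ Set.Iio M, (fun l : List ℕ => ((r, l) : St)) ''
      {l : List ℕ | l.length ≤ sz r ∧ ∀ b ∈ l, b < sz r}).Finite :=
    (Set.finite_Iio M).biUnion (fun r _ => (finite_lists (sz r)).image _)
  refine h.subset ?_
  rintro ⟨r, l⟩ ⟨h1, h2⟩
  simp only [Set.mem_iUnion]
  exact ⟨r, h2, l, h1, rfl⟩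

/-- Every set of pairs of admissible states of bounded roots is given by a list. -/
theorem exists_list (M : ℕ) (P : St → St → Prop)
    (hP : ∀ x t, P x t → Adm x ∧ Adm t ∧ x.1 < M ∧ t.1 < M) :
    ∃ l : List (St × St), ∀ p, p ∈ l ↔ P p.1 p.2 := by
  have hf : {p : St × St | P p.1 p.2}.Finite := by
    refine ((finite_adm M).prod (finite_adm M)).subset ?_
    rintro ⟨x, t⟩ h
    obtain ⟨h1, h2, h3, h4⟩ := hP x t h
    exact ⟨⟨h1, h3⟩, ⟨h2, h4⟩⟩
  exact ⟨hf.toFinset.toList, fun p => by simp⟩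

/-! ## Closures -/

theorem cone_trans {x y z : St} (h1 : Cone x y) (h2 : Cone y z) : Cone x z :=
  ⟨h2.1.trans h1.1, h1.2.trans h2.2⟩

theorem inCl_cone {W : World} {y v v' : St} (h : InCl W y v) (hc : Cone v v') : InCl W y v' := by
  cases h with
  | cone _ h => exact InCl.cone _ (cone_trans h hc)
  | own _ w h hw => exact InCl.own _ w (by rw [hc.1]; exact h) hw

/-! ## Transfer of validity -/

theorem src_sym (hC : CodesStatement) (x t : St) (A : List (List ℕ)) (E : List (ℕ × List ℕ)) :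
    src (sym x t A E) = x := by unfold src; rw [hC.1]

theorem tgt_sym (hC : CodesStatement) (x t : St) (A : List (List ℕ)) (E : List (ℕ × List ℕ)) :
    tgt (sym x t A E) = t := by unfold tgt; rw [hC.1]

theorem ap_sym (hC : CodesStatement) (x t : St) (A : List (List ℕ)) (E : List (ℕ × List ℕ)) :
    Ap (sym x t A E) = A := by unfold Ap; rw [hC.1]

theorem ex_sym (hC : CodesStatement) (x t : St) (A : List (List ℕ)) (E : List (ℕ × List ℕ)) :
    Ex (sym x t A E) = E := by unfold Ex; rw [hC.1]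

/-- A symbol is valid in `W₂` if its hereditary edges are edges of `W₂` and the advice that it uses
is the same. -/
theorem transfer (hC : CodesStatement) {W₁ W₂ : World} {s : ℕ} (hs : VS W₁ s) :
    (∀ v v', HE s v v' → W₂.edge v v') →
    (∀ v v', HE s v v' → 0 < rk v → ∀ a, W₁.adv (ow v 0) = some a → W₂.adv (ow v 0) = some a) →
    VS W₂ s := by
  induction hs with
  | mk x t A E α c hedge h0 hα hαv hαc hA hc hc' hE hEv hE' ihα ihc ihE =>
    intro h1 h2
    have hpos : 0 < rk x → 0 < sz x.1 := fun h => by unfold rk at h; omega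
    have hmem : ∀ (h : 0 < rk x) (i : ℕ), i < 2 * sz x.1 →
        (if i < 2 then α ++ [c i] else [c i]) ∈ Ap (sym x t A E) := by
      intro h i hi
      rw [ap_sym hC, hA h]
      exact List.mem_map.mpr ⟨i, List.mem_range.mpr hi, rfl⟩
    have hαm : ∀ (h : 0 < rk x) (s : ℕ), s ∈ α → ∀ v v', HE s v v' → HE (sym x t A E) v v' := by
      intro h s hs v v' hv
      refine HE.ap _ _ s v v' (hmem h 0 (by have := hpos h; omega)) ?_ hv
      simp [hs]
    have hcm : ∀ (h : 0 < rk x) (i : ℕ), i < 2 * sz x.1 → ∀ v v', HE (c i) v v' →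
        HE (sym x t A E) v v' := by
      intro h i hi v v' hv
      refine HE.ap _ _ (c i) v v' (hmem h i hi) ?_ hv
      split_ifs <;> simp
    have hem : ∀ p ∈ E, ∀ s ∈ p.2, ∀ v v', HE s v v' → HE (sym x t A E) v v' := by
      intro p hp s hs v v' hv
      exact HE.ex _ p s v v' (by rw [ex_sym hC]; exact hp) hs hv
    have htop : HE (sym x t A E) x t := by
      have := HE.top (sym x t A E)
      rwa [src_sym hC, tgt_sym hC] at this
    refine VS.mk x t A E α c (h1 _ _ htop) h0 (fun h => h2 _ _ htop h _ (hα h)) ?_ hαc hA ?_ hc' hE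
      ?_ hE'
    · intro h s hs
      exact ihα h s hs (fun v v' hv => h1 v v' (hαm h s hs v v' hv))
        (fun v v' hv => h2 v v' (hαm h s hs v v' hv))
    · intro h i hi
      exact ihc h i hi (fun v v' hv => h1 v v' (hcm h i hi v v' hv))
        (fun v v' hv => h2 v v' (hcm h i hi v v' hv))
    · intro p hp s hs
      exact ihE p hp s hs (fun v v' hv => h1 v v' (hem p hp s hs v v' hv))
        (fun v v' hv => h2 v v' (hem p hp s hs v v' hv))

/-! ## The configuration of three worlds -/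

/-- `W'` extends `W`; `W''` is the new world, which lies between. -/
structure Conf (W W' W'' : World) (N N' : ℕ) (y : St) : Prop where
  inv : Inv W
  inv' : Inv W'
  ext : Ext N W W'
  lt : ∀ x t, W.edge x t → t.1 < N
  lt' : ∀ x t, W'.edge x t → t.1 < N'
  advLt : ∀ x a, W.adv x = some a → x.1 < N
  hy : y.1 < N
  e1 : ∀ x t, t.1 < N → (W''.edge x t ↔ W.edge x t)
  e2 : ∀ x t, N ≤ t.1 → (W''.edge x t ↔ W'.edge x t ∧ (N ≤ x.1 ∨ InCl W y x))
  o1 : ∀ r, r < N → W''.own r = W.own r
  o2 : ∀ r, N ≤ r → r < N' → ∀ w, W'.own r = some w → N ≤ w.1 → W''.own r = some w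
  o3 : ∀ r w, N ≤ r → W''.own r = some w → w = y ∨ (W'.own r = some w ∧ N ≤ w.1)
  o4 : ∀ r, N ≤ r → r < N' → ∃ w, W''.own r = some w
  a1 : ∀ x, x.1 < N → W''.adv x = W.adv x
  a2 : ∀ x a, N ≤ x.1 → W'.adv x = some a → W''.adv x = some a
  a3 : ∀ x a, N ≤ x.1 → W''.adv x = some a → W'.adv x = some a ∨ a = []

section

variable {W W' W'' : World} {N N' : ℕ} {y : St}

theorem Conf.cl1 (h : Conf W W' W'' N N' y) {a x : St} (hx : InCl W a x) : x.1 < N →
    InCl W'' a x := by
  induction hx with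
  | cone x hc => exact fun _ => InCl.cone _ hc
  | own x w ho _ ih =>
    intro hlt
    have := h.inv.ownLt _ _ ho
    exact InCl.own _ w (by rw [h.o1 _ hlt]; exact ho) (ih (by omega))

theorem Conf.cl2 (hO : OwnStatement) (h : Conf W W' W'' N N' y) {a x : St} (ha : N ≤ a.1)
    (hx : InCl W' a x) : x.1 < N' → InCl W'' a x := by
  induction hx with
  | cone x hc => exact fun _ => InCl.cone _ hc
  | own x w ho hw ih =>
    intro hlt
    have h1 := h.inv'.ownLt _ _ ho
    have h2 := ((hO W' h.inv').1 a w hw).1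
    exact InCl.own _ w (h.o2 _ (by omega) hlt _ ho (by omega)) (ih (by omega))

theorem Conf.cl3 (h : Conf W W' W'' N N' y) : ∀ (n : ℕ) (x : St), x.1 ≤ n → N ≤ x.1 → x.1 < N' →
    InCl W'' y x := by
  intro n
  induction n using Nat.strong_induction_on with
  | _ n ih =>
    intro x hn h1 h2
    obtain ⟨w, hw⟩ := h.o4 x.1 h1 h2
    rcases h.o3 _ _ h1 hw with rfl | ⟨h3, h4⟩
    · exact InCl.own _ _ hw (InCl.cone _ ⟨rfl, List.prefix_rfl⟩)
    · have h5 := h.inv'.ownLt _ _ h3
      exact InCl.own _ _ hw (ih w.1 (by omega) w le_rfl h4 (by omega))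

theorem Conf.cl4 (h : Conf W W' W'' N N' y) {x : St} (hx : InCl W y x ∨ N ≤ x.1)
    (hlt : x.1 < N') : InCl W'' y x := by
  by_cases h1 : N ≤ x.1
  · exact h.cl3 _ x le_rfl h1 hlt
  · exact h.cl1 (hx.resolve_right h1) (by omega)

theorem Conf.vs (hM : MonoStatement) (h : Conf W W' W'' N N' y) {s : ℕ} (hs : VS W s) :
    VS W'' s :=
  hM.1 N W W'' ⟨h.e1, fun x a ha => by rw [h.a1 x (h.advLt x a ha)]; exact ha, h.o1⟩ h.lt s hs

theorem Conf.vs' (hC : CodesStatement) (hB : BasicStatement) (h : Conf W W' W'' N N' y) {s : ℕ}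
    (hs : VS W' s) (hN : N ≤ (src s).1) : VS W'' s := by
  have hB' := (hB W' h.inv'.fit).2.2.2.1 s hs
  refine transfer hC hs (fun v v' hv => ?_) (fun v v' hv _ a ha => ?_)
  · obtain ⟨h1, h2, -⟩ := hB' v v' hv
    have h3 := (h.inv'.fit _ _ h1).2.2.1
    exact (h.e2 v v' (by omega)).mpr ⟨h1, Or.inl (by omega)⟩
  · obtain ⟨h1, h2, -⟩ := hB' v v' hv
    exact h.a2 _ _ (show N ≤ v.1 by omega) ha

end

/-! ## Chains -/

theorem ch_src {W : World} (hB : BasicStatement) (hW : ∀ x t, W.edge x t → Fit x t) :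
    ∀ (τ : List ℕ) (x z : St), Ch x τ z → (∀ s ∈ τ, VS W s) → ∀ s ∈ τ, x.1 ≤ (src s).1 := by
  intro τ
  induction τ with
  | nil => intro x z _ _ s hs; simp at hs
  | cons a τ ih =>
    intro x z hch hv s hs
    obtain ⟨h1, h2⟩ := hch
    rcases List.mem_cons.mp hs with rfl | hs
    · rw [h1]
    · have h3 := ih _ z h2 (fun s hs => hv s (List.mem_cons_of_mem _ hs)) s hs
      have h4 := (hW _ _ ((hB W hW).1 a (hv a List.mem_cons_self))).2.2.1
      rw [h1] at h4
      omega

theorem ch_prev : ∀ (τ : List ℕ) (x z : St), Ch x τ z → ∀ s ∈ τ, src s = x ∨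
    ∃ s₀ ∈ τ, src s = tgt s₀ := by
  intro τ
  induction τ with
  | nil => intro x z _ s hs; simp at hs
  | cons a τ ih =>
    intro x z hch s hs
    obtain ⟨h1, h2⟩ := hch
    rcases List.mem_cons.mp hs with rfl | hs
    · exact Or.inl h1
    · rcases ih _ z h2 s hs with h3 | ⟨s₀, h3, h4⟩
      · exact Or.inr ⟨a, List.mem_cons_self, h3⟩
      · exact Or.inr ⟨s₀, List.mem_cons_of_mem _ h3, h4⟩

/-! ## The invariants of the new world -/

section

variable {W W' W'' : World} {N N' : ℕ} {y : St}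

theorem Conf.inv'' (hC : CodesStatement) (hB : BasicStatement) (hM : MonoStatement)
    (hO : OwnStatement) (h : Conf W W' W'' N N' y) : Inv W'' where
  fit x t hxt := by
    by_cases h1 : t.1 < N
    · exact h.inv.fit _ _ ((h.e1 x t h1).mp hxt)
    · exact h.inv'.fit _ _ ((h.e2 x t (by omega)).mp hxt).1
  advForm x a ha hne := by
    by_cases h1 : x.1 < N
    · rw [h.a1 x h1] at ha
      exact h.inv.advForm _ _ ha hne
    · rcases h.a3 x a (by omega) ha with h2 | h2
      · exact h.inv'.advForm _ _ h2 hne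
      · exact absurd h2 hne
  advValid x a ha := by
    by_cases h1 : x.1 < N
    · rw [h.a1 x h1] at ha
      obtain ⟨h2, h3⟩ := h.inv.advValid _ _ ha
      exact ⟨h2, fun s hs => h.vs hM (h3 s hs)⟩
    · rcases h.a3 x a (by omega) ha with h2 | h2
      · obtain ⟨h3, h4⟩ := h.inv'.advValid _ _ h2
        refine ⟨h3, fun s hs => h.vs' hC hB (h4 s hs) ?_⟩
        have := ch_src hB h.inv'.fit a x _ h3 h4 s hs
        omega
      · subst h2
        exact ⟨rfl, fun s hs => by simp at hs⟩
  ownLt r w hw := by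
    by_cases h1 : r < N
    · rw [h.o1 r h1] at hw
      exact h.inv.ownLt _ _ hw
    · rcases h.o3 r w (by omega) hw with rfl | ⟨h2, -⟩
      · have := h.hy
        omega
      · exact h.inv'.ownLt _ _ h2
  edgeOwn x t w hxt hw := by
    by_cases h1 : t.1 < N
    · rw [h.e1 x t h1] at hxt
      rw [h.o1 _ h1] at hw
      have h2 := (h.inv.fit _ _ hxt).2.2.1
      exact h.cl1 (h.inv.edgeOwn x t w hxt hw) (by omega)
    · obtain ⟨h2, h3⟩ := (h.e2 x t (by omega)).mp hxt
      have h4 := (h.inv'.fit _ _ h2).2.2.1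
      have h5 := h.lt' _ _ h2
      rcases h.o3 t.1 w (by omega) hw with rfl | ⟨h6, h7⟩
      · exact h.cl4 h3.symm (by omega)
      · exact h.cl2 hO h7 (h.inv'.edgeOwn x t w h2 h6) (by omega)
  advOwn x a s v v' ha hs hv := by
    by_cases h1 : x.1 < N
    · rw [h.a1 x h1] at ha
      have h2 := (h.inv.advValid _ _ ha).2 s hs
      have h3 := ((hB W h.inv.fit).2.2.2.1 s h2 v v' hv).1
      exact h.cl1 (h.inv.advOwn x a s v v' ha hs hv) (h.lt _ _ h3)
    · rcases h.a3 x a (by omega) ha with h2 | h2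
      · have h3 := (h.inv'.advValid _ _ h2).2 s hs
        have h4 := ((hB W' h.inv'.fit).2.2.2.1 s h3 v v' hv).1
        exact h.cl2 hO (by omega) (h.inv'.advOwn x a s v v' h2 hs hv) (h.lt' _ _ h4)
      · subst h2
        simp at hs

/-- The string `μ` is valid in the new world, and its hereditary edges are in the closure of `y`. -/
theorem Conf.main (hC : CodesStatement) (hB : BasicStatement) (hO : OwnStatement)
    (h : Conf W W' W'' N N' y)
    (hprv : ∀ x w, W.own x.1 = some w → x.1 < N → (W.adv x).isSome)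
    (h1 : ∀ y', Adm y' → Zero y' → Cone y y' → y' ≠ y → (W.adv y').isSome)
    (h2 : ∀ r, y.1 < r → r < N → ∃ w, W.own r = some w ∧ y.1 ≤ w.1 ∧ (Cone w y → w = y))
    (x₀ : St) (hx₀ : InCl W y x₀) (μ : List ℕ) (w : St) (hμ : VStr W' x₀ μ w) :
    ∀ s ∈ μ, VS W'' s ∧ ∀ v v', HE s v v' → InCl W'' y v' := by
  obtain ⟨hch, hvs⟩ := hμ
  -- one step
  have hstep : ∀ s ∈ μ, ∀ v v', HE s v v' → v'.1 < N → InCl W y v → InCl W y v' := by
    intro s hs v v' hv hN hcl
    have h3 := ((hB W' h.inv'.fit).2.2.2.1 s (hvs s hs) v v' hv).1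
    rw [h.ext.edge v v' hN] at h3
    have h4 := (h.inv.fit _ _ h3).2.2.1
    have h5 := ((hO W h.inv).1 y v hcl).1
    obtain ⟨w, h6, h7, h8⟩ := h2 v'.1 (by omega) hN
    refine InCl.own _ w h6 ?_
    rcases (hO W h.inv).2.2.1 w y v (h.inv.edgeOwn v v' w h3 h6) hcl with h9 | h9
    · obtain ⟨h10, h11⟩ := (hO W h.inv).1 w y h9
      have h12 : w = y := h8 (h11 (by omega))
      rw [h12]
      exact InCl.cone _ ⟨rfl, List.prefix_rfl⟩
    · exact h9
  -- the sources
  have hsrc : ∀ n : ℕ, ∀ s ∈ μ, ∀ v v', HE s v v' → v.1 = n → v.1 < N → InCl W y v := by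
    intro n
    induction n using Nat.strong_induction_on with
    | _ n ih =>
      intro s hs v v' hv hn hN
      have key : ∀ s ∈ μ, ∀ a b, HE s a b → Cone b v → InCl W y v := by
        intro s hs a b hab hbv
        have hb1 := hbv.1
        have h3 := ((hB W' h.inv'.fit).2.2.2.1 s (hvs s hs) a b hab).1
        have h4 := (h.inv'.fit _ _ h3).2.2.1
        have h5 := ih a.1 (by omega) s hs a b hab rfl (by omega)
        exact inCl_cone (hstep s hs a b hab (by omega) h5) hbv
      rcases (hB W' h.inv'.fit).2.2.2.2.1 s (hvs s hs) v v' hv with h3 | ⟨a, b, hab, hbv⟩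
      · rcases ch_prev μ _ _ hch s hs with h4 | ⟨s₀, hs₀, h4⟩
        · rw [h4] at h3
          exact inCl_cone hx₀ h3
        · rw [h4] at h3
          exact key s₀ hs₀ _ _ (HE.top s₀) h3
      · exact key s hs a b hab hbv
  intro s hs
  have hall : ∀ v v', HE s v v' → W'.edge v v' ∧ v.1 < v'.1 ∧ v'.1 < N' ∧ (v.1 < N → InCl W y v) := by
    intro v v' hv
    have h3 := ((hB W' h.inv'.fit).2.2.2.1 s (hvs s hs) v v' hv).1
    exact ⟨h3, (h.inv'.fit _ _ h3).2.2.1, h.lt' _ _ h3, hsrc _ s hs v v' hv rfl⟩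
  refine ⟨transfer hC (hvs s hs) (fun v v' hv => ?_) (fun v v' hv hrk a ha => ?_),
    fun v v' hv => ?_⟩
  · obtain ⟨h3, h4, h5, h6⟩ := hall v v' hv
    by_cases h7 : v'.1 < N
    · exact (h.e1 v v' h7).mpr ((h.ext.edge v v' h7).mp h3)
    · refine (h.e2 v v' (by omega)).mpr ⟨h3, ?_⟩
      by_cases h8 : v.1 < N
      · exact Or.inr (h6 h8)
      · exact Or.inl (by omega)
  · obtain ⟨h3, h4, h5, h6⟩ := hall v v' hv
    by_cases h8 : v.1 < N
    · have h9 : (W.adv (ow v 0)).isSome := by
        cases h6 h8 with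
        | cone _ hc =>
          have hadm := (h.inv'.fit _ _ h3).1
          have hlen : v.2.length < sz v.1 := by unfold rk at hrk; omega
          refine h1 (ow v 0) ⟨?_, ?_⟩ ⟨v, rfl⟩ ⟨hc.1, ?_⟩ ?_
          · show (v.2 ++ [0]).length ≤ sz v.1
            simp only [List.length_append, List.length_cons, List.length_nil]
            omega
          · intro b hb
            rcases List.mem_append.mp hb with hb | hb
            · exact hadm.2 b hb
            · have : b = 0 := by simpa using hb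
              subst this
              show 0 < sz v.1
              omega
          · exact hc.2.trans (List.prefix_append _ _)
          · intro hy
            have h10 := hc.2.length_le
            have h11 : (v.2 ++ [0]).length = y.2.length := by
              rw [← hy]; rfl
            simp only [List.length_append, List.length_cons, List.length_nil] at h11
            omega
        | own _ w ho hw => exact hprv (ow v 0) w ho h8
      obtain ⟨b, hb⟩ := Option.isSome_iff_exists.mp h9
      have h10 := h.ext.adv _ _ hb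
      rw [ha] at h10
      rw [h.a1 (ow v 0) h8, hb, h10]
    · exact h.a2 _ _ (show N ≤ v.1 by omega) ha
  · obtain ⟨h3, h4, h5, h6⟩ := hall v v' hv
    by_cases h7 : v'.1 < N
    · exact h.cl1 (hstep s hs v v' hv h7 (h6 (by omega))) h7
    · exact h.cl3 _ v' le_rfl (by omega) h5

end

/-! ## Finite data -/

theorem find_none {β : Type} (l : List (St × β)) (x : St) (h : ∀ p ∈ l, p.1 ≠ x) :
    l.find? (fun p => p.1 = x) = none := by
  rw [List.find?_eq_none]
  intro p hp
  simpa using h p hp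

theorem find_none' {β : Type} (l : List (ℕ × β)) (x : ℕ) (h : ∀ p ∈ l, p.1 ≠ x) :
    l.find? (fun p => p.1 = x) = none := by
  rw [List.find?_eq_none]
  intro p hp
  simpa using h p hp

theorem find_filter (l : List (St × List ℕ)) (N : ℕ) (x : St) (hx : N ≤ x.1) :
    (l.filter (fun p => N ≤ p.1.1)).find? (fun p => p.1 = x) = l.find? (fun p => p.1 = x) := by
  induction l with
  | nil => rfl
  | cons a l ih =>
    by_cases h : a.1 = x
    · simp [h, hx]
    · by_cases h2 : N ≤ a.1.1
      · simp [h2, h, ih]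
      · simp [h2, h, ih]

theorem find_map (l : List ℕ) (f : ℕ → St) (r : ℕ) (hr : r ∈ l) :
    (l.map (fun r => (r, f r))).find? (fun p => p.1 = r) = some (r, f r) := by
  induction l with
  | nil => simp at hr
  | cons a l ih =>
    by_cases h : a = r
    · subst h
      simp
    · rcases List.mem_cons.mp hr with h2 | h2
      · exact absurd h2.symm h
      · have := ih h2
        simp [h] at this ⊢
        exact this

/-- The owner of a new root. -/
def newOwn (W' : World) (N : ℕ) (y : St) (r : ℕ) : St :=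
  match W'.own r with
  | some w => if N ≤ w.1 then w else y
  | none => y

/-- The new data. -/
def newData (δ δ' : Data) (y : St) (P : List (St × St)) : Data :=
  (δ'.N, δ.pub, δ.prv ++ P, δ.advL ++ δ'.advL.filter (fun p => δ.N ≤ p.1.1),
    δ.ownL ++ (List.range' δ.N (δ'.N - δ.N)).map (fun r => (r, newOwn δ'.W δ.N y r)))

section

variable {δ δ' : Data} {y : St} {P : List (St × St)}

theorem own_lt (r : ℕ) (hr : r < δ.N) : (newData δ δ' y P).W.own r = δ.W.own r := by
  show ((δ.ownL ++ (List.range' δ.N (δ'.N - δ.N)).map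
    (fun r => (r, newOwn δ'.W δ.N y r))).find? (fun p => p.1 = r)).map Prod.snd =
    (δ.ownL.find? (fun p => p.1 = r)).map Prod.snd
  rw [List.find?_append, find_none' (List.map _ _) r, Option.or_none]
  intro p hp
  obtain ⟨a, ha, rfl⟩ := List.mem_map.mp hp
  rw [List.mem_range'_1] at ha
  show a ≠ r
  omega

theorem own_ge (hwf : Wf δ) (r : ℕ) (hr : δ.N ≤ r) (hr' : r < δ'.N) :
    (newData δ δ' y P).W.own r = some (newOwn δ'.W δ.N y r) := by
  show ((δ.ownL ++ (List.range' δ.N (δ'.N - δ.N)).map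
    (fun r => (r, newOwn δ'.W δ.N y r))).find? (fun p => p.1 = r)).map Prod.snd = _
  rw [List.find?_append, find_none' δ.ownL r, Option.none_or, find_map]
  · rfl
  · rw [List.mem_range'_1]
    omega
  · intro p hp
    have := (hwf.own p hp).1
    omega

theorem own_ge_none (hwf : Wf δ) (hN : δ.N ≤ δ'.N) (r : ℕ) (hr' : δ'.N ≤ r) :
    (newData δ δ' y P).W.own r = none := by
  show ((δ.ownL ++ (List.range' δ.N (δ'.N - δ.N)).map
    (fun r => (r, newOwn δ'.W δ.N y r))).find? (fun p => p.1 = r)).map Prod.snd = _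
  rw [find_none']
  · rfl
  · intro p hp
    rcases List.mem_append.mp hp with hp | hp
    · have := (hwf.own p hp).1
      omega
    · obtain ⟨a, ha, rfl⟩ := List.mem_map.mp hp
      rw [List.mem_range'_1] at ha
      show a ≠ r
      omega

theorem adv_lt (hN : δ.N ≤ δ'.N) (x : St) (hx : x.1 < δ.N) :
    (newData δ δ' y P).W.adv x = δ.W.adv x := by
  show (((δ.advL ++ δ'.advL.filter (fun p => δ.N ≤ p.1.1)).find?
    (fun p => p.1 = x)).map Prod.snd).or (if x.1 < δ'.N ∧ x.1 ∉ δ.pub then some [] else none) =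
    ((δ.advL.find? (fun p => p.1 = x)).map Prod.snd).or
      (if x.1 < δ.N ∧ x.1 ∉ δ.pub then some [] else none)
  rw [List.find?_append, find_none (List.filter _ _) x, Option.or_none]
  · have : (x.1 < δ'.N ∧ x.1 ∉ δ.pub) ↔ (x.1 < δ.N ∧ x.1 ∉ δ.pub) :=
      ⟨fun h => ⟨hx, h.2⟩, fun h => ⟨by omega, h.2⟩⟩
    simp only [this]
  · intro p hp hpx
    have h2 := (List.mem_filter.mp hp).2
    simp only [decide_eq_true_eq] at h2
    rw [hpx] at h2
    omega

theorem adv_ge (hwf : Wf δ) (x : St) (hx : δ.N ≤ x.1) :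
    (newData δ δ' y P).W.adv x = ((δ'.advL.find? (fun p => p.1 = x)).map Prod.snd).or
      (if x.1 < δ'.N then some [] else none) := by
  show (((δ.advL ++ δ'.advL.filter (fun p => δ.N ≤ p.1.1)).find?
    (fun p => p.1 = x)).map Prod.snd).or (if x.1 < δ'.N ∧ x.1 ∉ δ.pub then some [] else none) = _
  rw [List.find?_append, find_none δ.advL x, Option.none_or, find_filter _ _ _ hx]
  · have h2 : x.1 ∉ δ.pub := fun h => by
      have := hwf.pub _ h
      omega
    simp only [h2, not_false_eq_true, and_true]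
  · intro p hp hpx
    have := hwf.adv p hp
    rw [hpx] at this
    omega

theorem conf (hM : MonoStatement) (hwf : Wf δ) (hwf' : Wf δ') (hext : DExt δ δ')
    (hy : y.1 ∈ δ.pub)
    (hP : ∀ p, p ∈ P ↔ δ'.W.edge p.1 p.2 ∧ δ.N ≤ p.2.1 ∧ (δ.N ≤ p.1.1 ∨ InCl δ.W y p.1)) :
    Conf δ.W δ'.W (newData δ δ' y P).W δ.N δ'.N y where
  inv := hwf.inv
  inv' := hwf'.inv
  ext := hM.2.2.1 δ δ' hwf hext
  lt x t h := h.2.1
  lt' x t h := h.2.1
  advLt x a ha := by
    by_contra hlt
    have h1 : δ.W.adv x = none := by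
      show ((δ.advL.find? (fun p => p.1 = x)).map Prod.snd).or
        (if x.1 < δ.N ∧ x.1 ∉ δ.pub then some [] else none) = none
      rw [find_none]
      · simp [hlt]
      · intro p hp hpx
        have := hwf.adv p hp
        rw [hpx] at this
        exact hlt this
    rw [h1] at ha
    cases ha
  hy := hwf.pub _ hy
  e1 x t ht := by
    show (Fit x t ∧ t.1 < δ'.N ∧ (t.1 ∈ δ.pub ∨ (x, t) ∈ δ.prv ++ P)) ↔
      (Fit x t ∧ t.1 < δ.N ∧ (t.1 ∈ δ.pub ∨ (x, t) ∈ δ.prv))
    have hN := hext.N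
    constructor
    · rintro ⟨h1, -, h2⟩
      refine ⟨h1, ht, h2.imp id (fun h => ?_)⟩
      rcases List.mem_append.mp h with h | h
      · exact h
      · have := ((hP _).mp h).2.1
        simp only at this
        omega
    · rintro ⟨h1, -, h2⟩
      exact ⟨h1, by omega, h2.imp id (fun h => List.mem_append_left _ h)⟩
  e2 x t ht := by
    show (Fit x t ∧ t.1 < δ'.N ∧ (t.1 ∈ δ.pub ∨ (x, t) ∈ δ.prv ++ P)) ↔ _
    constructor
    · rintro ⟨h1, h2, h3⟩
      rcases h3 with h3 | h3
      · have := hwf.pub _ h3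
        omega
      · rcases List.mem_append.mp h3 with h | h
        · have := (hwf.prv _ h).2.1
          simp only at this
          omega
        · obtain ⟨h4, -, h5⟩ := (hP _).mp h
          exact ⟨h4, h5⟩
    · rintro ⟨h1, h2⟩
      exact ⟨h1.1, h1.2.1, Or.inr (List.mem_append_right _ ((hP (x, t)).mpr ⟨h1, ht, h2⟩))⟩
  o1 r hr := own_lt r hr
  o2 r hr hr' w hw hwN := by
    rw [own_ge hwf r hr hr']
    unfold newOwn
    rw [hw]
    simp only [hwN, if_true]
  o3 r w hr hw := by
    by_cases hr' : r < δ'.N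
    · rw [own_ge hwf r hr hr'] at hw
      have hw2 := Option.some.inj hw
      unfold newOwn at hw2
      split at hw2
      · rename_i w' hw'
        split_ifs at hw2 with h3
        · subst hw2
          exact Or.inr ⟨hw', h3⟩
        · exact Or.inl hw2.symm
      · exact Or.inl hw2.symm
    · rw [own_ge_none hwf hext.N r (by omega)] at hw
      cases hw
  o4 r hr hr' := ⟨_, own_ge hwf r hr hr'⟩
  a1 x hx := adv_lt hext.N x hx
  a2 x a hx ha := by
    rw [adv_ge hwf x hx]
    have ha' : ((δ'.advL.find? (fun p => p.1 = x)).map Prod.snd).or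
        (if x.1 < δ'.N ∧ x.1 ∉ δ'.pub then some [] else none) = some a := ha
    cases hf : (δ'.advL.find? (fun p => p.1 = x)).map Prod.snd with
    | some b =>
      rw [hf] at ha'
      exact ha'
    | none =>
      rw [hf] at ha'
      simp only [Option.none_or] at ha' ⊢
      split_ifs at ha' with h3
      rw [if_pos h3.1]
      exact ha'
  a3 x a hx ha := by
    rw [adv_ge hwf x hx] at ha
    have ha' : δ'.W.adv x = ((δ'.advL.find? (fun p => p.1 = x)).map Prod.snd).or
        (if x.1 < δ'.N ∧ x.1 ∉ δ'.pub then some [] else none) := rfl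
    cases hf : (δ'.advL.find? (fun p => p.1 = x)).map Prod.snd with
    | some b =>
      rw [hf] at ha' ha
      left
      rw [ha']
      exact ha
    | none =>
      rw [hf] at ha
      simp only [Option.none_or] at ha
      split_ifs at ha with h3
      right
      exact (Option.some.inj ha).symm

theorem prv_adv (hwf : Wf δ) (x w : St) (hw : δ.W.own x.1 = some w) (hx : x.1 < δ.N) :
    (δ.W.adv x).isSome := by
  have h1 : x.1 ∉ δ.pub := by
    have hw' : (δ.ownL.find? (fun p => p.1 = x.1)).map Prod.snd = some w := hw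
    rw [Option.map_eq_some_iff] at hw'
    obtain ⟨p, hp, -⟩ := hw'
    have h2 := List.mem_of_find?_eq_some hp
    have h3 := List.find?_some hp
    simp only [decide_eq_true_eq] at h3
    have h4 := (hwf.own p h2).2
    rwa [h3] at h4
  show (((δ.advL.find? (fun p => p.1 = x)).map Prod.snd).or
    (if x.1 < δ.N ∧ x.1 ∉ δ.pub then some [] else none)).isSome
  rw [if_pos ⟨hx, h1⟩]
  cases (δ.advL.find? (fun p => p.1 = x)).map Prod.snd <;> rfl

theorem wf_new (hC : CodesStatement) (hB : BasicStatement) (hM : MonoStatement)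
    (hO : OwnStatement) (hwf : Wf δ) (hwf' : Wf δ') (hext : DExt δ δ') (hy : y.1 ∈ δ.pub)
    (hP : ∀ p, p ∈ P ↔ δ'.W.edge p.1 p.2 ∧ δ.N ≤ p.2.1 ∧ (δ.N ≤ p.1.1 ∨ InCl δ.W y p.1)) :
    Wf (newData δ δ' y P) where
  pos := lt_of_lt_of_le hwf.pos hext.N
  zero := hwf.zero
  pub r hr := lt_of_lt_of_le (hwf.pub r hr) hext.N
  prv p hp := by
    rcases List.mem_append.mp hp with h | h
    · obtain ⟨h1, h2, h3⟩ := hwf.prv p h
      exact ⟨h1, lt_of_lt_of_le h2 hext.N, h3⟩
    · obtain ⟨h1, h2, -⟩ := (hP p).mp h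
      refine ⟨h1.1, h1.2.1, fun h3 => ?_⟩
      have := hwf.pub _ h3
      omega
  adv p hp := by
    rcases List.mem_append.mp hp with h | h
    · exact lt_of_lt_of_le (hwf.adv p h) hext.N
    · exact hwf'.adv p (List.mem_filter.mp h).1
  advNodup := by
    show ((δ.advL ++ δ'.advL.filter (fun p => δ.N ≤ p.1.1)).map Prod.fst).Nodup
    rw [List.map_append, List.nodup_append]
    refine ⟨hwf.advNodup, hwf'.advNodup.sublist (List.filter_sublist.map _), ?_⟩
    intro a ha b hb hab
    obtain ⟨p, hp, rfl⟩ := List.mem_map.mp ha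
    obtain ⟨q, hq, rfl⟩ := List.mem_map.mp hb
    have h1 := hwf.adv p hp
    have h2 := (List.mem_filter.mp hq).2
    simp only [decide_eq_true_eq] at h2
    rw [hab] at h1
    omega
  own p hp := by
    rcases List.mem_append.mp hp with h | h
    · obtain ⟨h1, h2⟩ := hwf.own p h
      exact ⟨lt_of_lt_of_le h1 hext.N, h2⟩
    · obtain ⟨a, ha, rfl⟩ := List.mem_map.mp h
      rw [List.mem_range'_1] at ha
      refine ⟨show a < δ'.N by omega, fun h3 => ?_⟩
      have := hwf.pub _ h3
      omega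
  ownNodup := by
    show ((δ.ownL ++ (List.range' δ.N (δ'.N - δ.N)).map
      (fun r => (r, newOwn δ'.W δ.N y r))).map Prod.fst).Nodup
    rw [List.map_append, List.map_map, List.nodup_append]
    have hid : (List.range' δ.N (δ'.N - δ.N)).map
        (Prod.fst ∘ fun r => (r, newOwn δ'.W δ.N y r)) = List.range' δ.N (δ'.N - δ.N) := by
      have : (Prod.fst ∘ fun r => (r, newOwn δ'.W δ.N y r)) = (id : ℕ → ℕ) := rfl
      rw [this, List.map_id]
    rw [hid]
    refine ⟨hwf.ownNodup, List.nodup_range', ?_⟩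
    intro a ha b hb hab
    obtain ⟨p, hp, rfl⟩ := List.mem_map.mp ha
    have h1 := (hwf.own p hp).1
    rw [List.mem_range'_1] at hb
    omega
  inv := (conf hM hwf hwf' hext hy hP).inv'' hC hB hM hO

end

end Pool.Agent.Lib.MP_d48993_lc.Node.Adopta

namespace Pool.Agent.Lib.MP_d48993_lc.Node

open Adopta

/-- Module ADOPTA. -/
theorem adopta (hC : CodesStatement) (hB : BasicStatement) (hM : MonoStatement)
    (hO : OwnStatement) : AdoptAStatement := by
  intro δ y α hwf hAdm hZero hpub _ h1 h2 hα hαcl δ' hwf' _ hext μ w hμ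
  obtain ⟨P, hP⟩ := exists_list δ'.N
    (fun x t => δ'.W.edge x t ∧ δ.N ≤ t.1 ∧ (δ.N ≤ x.1 ∨ InCl δ.W y x)) (by
      rintro x t ⟨h3, -⟩
      have h4 := h3.1
      have h5 := h3.2.1
      exact ⟨h4.1, h4.2.1, lt_trans h4.2.2.1 h5, h5⟩)
  have hconf := conf (P := P) hM hwf hwf' hext hpub hP
  have hx₀ : InCl δ.W y (endd y α) := by
    unfold endd
    cases hl : α.getLast? with
    | none => exact InCl.cone _ ⟨rfl, List.prefix_rfl⟩
    | some s =>
      have hs : s ∈ α := List.mem_of_getLast? hl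
      exact hαcl s hs _ _ (HE.top s)
  have hmain := hconf.main hC hB hO (prv_adv hwf) h1 h2 (endd y α) hx₀ μ w hμ
  refine ⟨newData δ δ' y P, wf_new hC hB hM hO hwf hwf' hext hpub hP, ?_, rfl,
    ⟨hμ.1, fun s hs => (hmain s hs).1⟩, fun s hs => (hmain s hs).2, ?_, ?_, ?_⟩
  · refine ⟨hext.N, ⟨[], by simp [newData], by simp⟩, ⟨P, rfl, fun p hp => ((hP p).mp hp).2.1⟩,
      ⟨_, rfl, fun p hp => Or.inl ?_⟩, ⟨_, rfl, fun p hp => ?_⟩⟩
    · have := (List.mem_filter.mp hp).2
      simpa using this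
    · obtain ⟨a, ha, rfl⟩ := List.mem_map.mp hp
      rw [List.mem_range'_1] at ha
      exact ha.1
  · intro p hp hnp
    have hp' : p ∈ P := (List.mem_append.mp hp).resolve_left hnp
    obtain ⟨-, -, h3⟩ := (hP p).mp hp'
    rcases h3 with h3 | h3
    · have := hwf.pub _ hpub
      omega
    · exact ((hO δ.W hwf.inv).1 _ _ h3).1
  · intro p hp hnp
    have hp' := (List.mem_append.mp hp).resolve_left hnp
    have := (List.mem_filter.mp hp').2
    simpa using this
  · intro r hr hr'
    obtain ⟨w', hw'⟩ := hconf.o4 r hr hr'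
    rcases hconf.o3 r w' hr hw' with rfl | ⟨-, h3⟩
    · exact Or.inl hw'
    · exact Or.inr ⟨w', hw', h3⟩

end Pool.Agent.Lib.MP_d48993_lc.Node
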