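import Pool.Agent.Lib.MP_d48993_lc.AE.Node.Adoptb2

/-!
# Project NODE (MP_d48993): module ADOPTB

First part: exactly the hereditary edges of the strings of `L` are adopted, together with the
advice that they use.
-/

set_option autoImplicit false

namespace Pool.Agent.Lib.MP_d48993_lc.Node.Adoptb1

open Pool.Agent.Lib.MP_d48993_lc.Node

open Classical in
theorem find_filterG (l : List (St × List ℕ)) (G : St → Prop) (x : St) (hx : G x) :
    (l.filter (fun p => G p.1)).find? (fun p => p.1 = x) = l.find? (fun p => p.1 = x) := by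
  induction l with
  | nil => rfl
  | cons a l ih =>
    by_cases h : a.1 = x
    · simp [h, hx]
    · by_cases h2 : G a.1
      · simp [h2, h, ih]
      · simp [h2, h, ih]

/-- The advice that is used by a valid symbol is a part of it. -/
theorem adv_part {W : World} (hB : BasicStatement) (hF : ∀ x t, W.edge x t → Fit x t) {s : ℕ}
    {z t : St} (h : HE s z t) : VS W s → 0 < rk z → ∃ α, W.adv (ow z 0) = some α ∧
      ∀ s' ∈ α, VS W s' ∧ ∀ v v', HE s' v v' → HE s v v' := by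
  induction h with
  | top s =>
    intro hs hr
    obtain ⟨β, h1, h2⟩ := (hB W hF).2.2.2.2.2.2.1 s hs hr
    refine ⟨β, h1, fun s' hs' => ?_⟩
    obtain ⟨s'', h3, -⟩ := h2 0 (by omega)
    have h4 : β ++ [s''] ∈ Ap s := List.mem_of_getElem? h3
    have h5 : s' ∈ β ++ [s''] := List.mem_append_left _ hs'
    exact ⟨(hB W hF).2.1 s hs _ h4 s' h5, fun v v' hv => HE.ap s _ s' v v' h4 h5 hv⟩
  | ap s α s' v v' hα hs' _ ih =>
    intro hs hr
    obtain ⟨β, h1, h2⟩ := ih ((hB W hF).2.1 s hs α hα s' hs') hr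
    refine ⟨β, h1, fun s'' hs'' => ⟨(h2 s'' hs'').1, fun v v' hv => ?_⟩⟩
    exact HE.ap s α s' v v' hα hs' ((h2 s'' hs'').2 v v' hv)
  | ex s p s' v v' hp hs' _ ih =>
    intro hs hr
    obtain ⟨β, h1, h2⟩ := ih ((hB W hF).2.2.1 s hs p hp s' hs') hr
    refine ⟨β, h1, fun s'' hs'' => ⟨(h2 s'' hs'').1, fun v v' hv => ?_⟩⟩
    exact HE.ex s p s' v v' hp hs' ((h2 s'' hs'').2 v v' hv)

open Classical in
/-- The adopted data: the private edges `P`, and the advice at the states with `G`. -/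
noncomputable def mid (δ δ' : Data) (P : List (St × St)) (G : St → Prop) : Data :=
  (δ'.N, δ.pub, δ.prv ++ P, δ.advL ++ δ'.advL.filter (fun p => G p.1), δ'.ownL)

section

variable {δ δ' : Data} {P : List (St × St)} {G : St → Prop}

theorem mid_adv_lt (hN : δ.N ≤ δ'.N) (hG : ∀ x, G x → δ.N ≤ x.1) (x : St) (hx : x.1 < δ.N) :
    (mid δ δ' P G).W.adv x = δ.W.adv x := by
  classical
  show (((δ.advL ++ δ'.advL.filter (fun p => G p.1)).find?
    (fun p => p.1 = x)).map Prod.snd).or (if x.1 < δ'.N ∧ x.1 ∉ δ.pub then some [] else none) =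
    ((δ.advL.find? (fun p => p.1 = x)).map Prod.snd).or
      (if x.1 < δ.N ∧ x.1 ∉ δ.pub then some [] else none)
  rw [List.find?_append, Adopta.find_none (List.filter _ _) x, Option.or_none]
  · have : (x.1 < δ'.N ∧ x.1 ∉ δ.pub) ↔ (x.1 < δ.N ∧ x.1 ∉ δ.pub) :=
      ⟨fun h => ⟨hx, h.2⟩, fun h => ⟨by omega, h.2⟩⟩
    simp only [this]
  · intro p hp hpx
    have h2 := (List.mem_filter.mp hp).2
    simp only [decide_eq_true_eq] at h2
    have h3 := hG _ h2
    rw [hpx] at h3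
    omega

theorem mid_adv_ge (hwf : Wf δ) (x : St) (hx : δ.N ≤ x.1) (hG : G x) :
    (mid δ δ' P G).W.adv x = ((δ'.advL.find? (fun p => p.1 = x)).map Prod.snd).or
      (if x.1 < δ'.N then some [] else none) := by
  classical
  show (((δ.advL ++ δ'.advL.filter (fun p => G p.1)).find?
    (fun p => p.1 = x)).map Prod.snd).or (if x.1 < δ'.N ∧ x.1 ∉ δ.pub then some [] else none) = _
  rw [List.find?_append, Adopta.find_none δ.advL x, Option.none_or, find_filterG _ _ _ hG]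
  · have h2 : x.1 ∉ δ.pub := fun h => by
      have := hwf.pub _ h
      omega
    simp only [h2, not_false_eq_true, and_true]
  · intro p hp hpx
    have := hwf.adv p hp
    rw [hpx] at this
    omega

theorem mid_a2 (hwf : Wf δ) (x : St) (a : List ℕ) (hx : δ.N ≤ x.1) (hG : G x)
    (ha : δ'.W.adv x = some a) : (mid δ δ' P G).W.adv x = some a := by
  rw [mid_adv_ge hwf x hx hG]
  have ha' : ((δ'.advL.find? (fun p => p.1 = x)).map Prod.snd).or
      (if x.1 < δ'.N ∧ x.1 ∉ δ'.pub then some [] else none) = some a := ha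
  cases hf : (δ'.advL.find? (fun p => p.1 = x)).map Prod.snd with
  | some b =>
    rw [hf] at ha'
    exact ha'
  | none =>
    rw [hf] at ha'
    simp only [Option.none_or] at ha' ⊢
    split_ifs at ha' with h3
    rw [if_pos h3.1]
    exact ha'

/-- New nonempty advice is advice of `δ'`, at a state with `G`. -/
theorem mid_a3 (hwf : Wf δ) (x : St) (a : List ℕ) (hx : δ.N ≤ x.1) (hne : a ≠ [])
    (ha : (mid δ δ' P G).W.adv x = some a) : δ'.W.adv x = some a ∧ G x := by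
  classical
  have h2 : x.1 ∉ δ.pub := fun h => by
    have := hwf.pub _ h
    omega
  have h1 : (((δ.advL ++ δ'.advL.filter (fun p => G p.1)).find?
    (fun p => p.1 = x)).map Prod.snd).or (if x.1 < δ'.N ∧ x.1 ∉ δ.pub then some [] else none) =
      some a := ha
  rw [List.find?_append, Adopta.find_none δ.advL x, Option.none_or] at h1
  · by_cases hG : G x
    · rw [find_filterG _ _ _ hG] at h1
      refine ⟨?_, hG⟩
      show ((δ'.advL.find? (fun p => p.1 = x)).map Prod.snd).or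
        (if x.1 < δ'.N ∧ x.1 ∉ δ'.pub then some [] else none) = some a
      cases hf : (δ'.advL.find? (fun p => p.1 = x)).map Prod.snd with
      | some b =>
        rw [hf] at h1
        exact h1
      | none =>
        rw [hf] at h1
        simp only [Option.none_or] at h1
        split_ifs at h1 with h3
        exact absurd (Option.some.inj h1).symm hne
    · rw [Adopta.find_none (List.filter _ _) x] at h1
      · simp only [Option.map_none, Option.none_or] at h1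
        split_ifs at h1 with h3
        exact absurd (Option.some.inj h1).symm hne
      · intro p hp hpx
        have h3 := (List.mem_filter.mp hp).2
        simp only [decide_eq_true_eq] at h3
        rw [hpx] at h3
        exact hG h3
  · intro p hp hpx
    have := hwf.adv p hp
    rw [hpx] at this
    omega

theorem mid_e1 (hN : δ.N ≤ δ'.N) (hP : ∀ p ∈ P, δ'.W.edge p.1 p.2 ∧ δ.N ≤ p.2.1)
    (x t : St) (ht : t.1 < δ.N) : (mid δ δ' P G).W.edge x t ↔ δ.W.edge x t :=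
  Adoptb2.mid_e1 (P := P) hN hP x t ht

theorem mid_e2 (hwf : Wf δ) (hP : ∀ p ∈ P, δ'.W.edge p.1 p.2 ∧ δ.N ≤ p.2.1)
    (x t : St) (ht : δ.N ≤ t.1) : (mid δ δ' P G).W.edge x t ↔ (x, t) ∈ P :=
  Adoptb2.mid_e2 (P := P) hwf hP x t ht

theorem mid_dext (hext : DExt δ δ') (hP : ∀ p ∈ P, δ'.W.edge p.1 p.2 ∧ δ.N ≤ p.2.1)
    (hG : ∀ x, G x → δ.N ≤ x.1) : DExt δ (mid δ δ' P G) := by
  classical
  refine ⟨hext.N, ⟨[], by simp [mid], by simp⟩, ⟨P, rfl, fun p hp => (hP p hp).2⟩,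
    ⟨_, rfl, fun p hp => Or.inl ?_⟩, hext.own⟩
  have h1 := (List.mem_filter.mp hp).2
  simp only [decide_eq_true_eq] at h1
  exact hG _ h1

theorem mid_full (hext : DExt δ δ') (hG : ∀ x, G x → δ.N ≤ x.1) (hwf : Wf δ) (hf : Full δ) :
    Full (mid δ δ' P G) := by
  intro y h1 h2 h3
  rw [mid_adv_lt hext.N hG y (hwf.pub _ h3)]
  exact hf y h1 h2 h3

theorem mid_sub (hM : MonoStatement) (hwf : Wf δ) (hext : DExt δ δ')
    (hP : ∀ p ∈ P, δ'.W.edge p.1 p.2 ∧ δ.N ≤ p.2.1) (x t : St)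
    (h : (mid δ δ' P G).W.edge x t) : δ'.W.edge x t :=
  Adoptb2.mid_sub (P := P) hM hwf hext hP x t h

/-- Validity in the adopted data, for symbols of `δ'` whose new edges are in `P`. -/
theorem mid_vs (hC : CodesStatement) (hB : BasicStatement) (hM : MonoStatement) (hwf : Wf δ)
    (hf : Full δ) (hwf' : Wf δ') (hext : DExt δ δ')
    (hP : ∀ p ∈ P, δ'.W.edge p.1 p.2 ∧ δ.N ≤ p.2.1)
    (hG : ∀ x, G x → δ.N ≤ x.1)
    (hG' : ∀ z t, (z, t) ∈ P → 0 < rk z → δ.N ≤ z.1 → G (ow z 0)) {s : ℕ} (hs : VS δ'.W s)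
    (h : ∀ v v', HE s v v' → δ.N ≤ v'.1 → (v, v') ∈ P) : VS (mid δ δ' P G).W s := by
  have hE := hM.2.2.1 δ δ' hwf hext
  have hB' := (hB δ'.W hwf'.inv.fit).2.2.2.1 s hs
  refine Adopta.transfer hC hs (fun v v' hv => ?_) (fun v v' hv hr a ha => ?_)
  · obtain ⟨h1, -⟩ := hB' v v' hv
    by_cases ht : v'.1 < δ.N
    · exact (mid_e1 hext.N hP v v' ht).mpr ((hE.edge v v' ht).mp h1)
    · exact (mid_e2 hwf hP v v' (by omega)).mpr (h v v' hv (by omega))
  · obtain ⟨h1, -⟩ := hB' v v' hv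
    have hfit := hwf'.inv.fit _ _ h1
    by_cases ht : v.1 < δ.N
    · obtain ⟨b, hb⟩ := Option.isSome_iff_exists.mp (Adoptb2.adv_isSome hf hfit.1 hr ht)
      have h2 := hE.adv _ _ hb
      rw [ha] at h2
      rw [mid_adv_lt hext.N hG (ow v 0) ht, hb, h2]
    · have h3 := hfit.2.2.1
      exact mid_a2 hwf _ _ (show δ.N ≤ v.1 by omega)
        (hG' v v' (h v v' hv (by omega)) hr (by omega)) ha

/-- The adopted data are well formed, when `P` has all new edges of the advice. -/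
theorem mid_wf (hC : CodesStatement) (hB : BasicStatement) (hM : MonoStatement) (hwf : Wf δ)
    (hf : Full δ) (hwf' : Wf δ') (hext : DExt δ δ')
    (hP : ∀ p ∈ P, δ'.W.edge p.1 p.2 ∧ δ.N ≤ p.2.1)
    (hG : ∀ x, G x → δ.N ≤ x.1)
    (hG' : ∀ z t, (z, t) ∈ P → 0 < rk z → δ.N ≤ z.1 → G (ow z 0))
    (hA : ∀ x a, G x → δ'.W.adv x = some a → ∀ s ∈ a, ∀ v v', HE s v v' → (v, v') ∈ P) :
    Wf (mid δ δ' P G) where
  pos := lt_of_lt_of_le hwf.pos hext.N
  zero := hwf.zero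
  pub r hr := lt_of_lt_of_le (hwf.pub r hr) hext.N
  prv p hp := by
    rcases List.mem_append.mp hp with h | h
    · obtain ⟨h1, h2, h3⟩ := hwf.prv p h
      exact ⟨h1, lt_of_lt_of_le h2 hext.N, h3⟩
    · obtain ⟨h1, h2⟩ := hP p h
      refine ⟨h1.1, h1.2.1, fun h3 => ?_⟩
      have := hwf.pub _ h3
      omega
  adv p hp := by
    rcases List.mem_append.mp hp with h | h
    · exact lt_of_lt_of_le (hwf.adv p h) hext.N
    · exact hwf'.adv p (List.mem_filter.mp h).1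
  advNodup := by
    classical
    show ((δ.advL ++ δ'.advL.filter (fun p => G p.1)).map Prod.fst).Nodup
    rw [List.map_append, List.nodup_append]
    refine ⟨hwf.advNodup, hwf'.advNodup.sublist (List.filter_sublist.map _), ?_⟩
    intro a ha b hb hab
    obtain ⟨p, hp, rfl⟩ := List.mem_map.mp ha
    obtain ⟨q, hq, rfl⟩ := List.mem_map.mp hb
    have h1 := hwf.adv p hp
    have h2 := (List.mem_filter.mp hq).2
    simp only [decide_eq_true_eq] at h2
    have h3 := hG _ h2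
    rw [hab] at h1
    omega
  own p hp := by
    obtain ⟨h1, h2⟩ := hwf'.own p hp
    obtain ⟨l, hl, -⟩ := hext.pub
    exact ⟨h1, fun h3 => h2 (by rw [hl]; exact List.mem_append_left _ h3)⟩
  ownNodup := hwf'.ownNodup
  inv := by
    have hE := hM.2.2.1 δ δ' hwf hext
    have hcl : ∀ a x, InCl δ'.W a x → InCl (mid δ δ' P G).W a x := fun a x hx =>
      Adoptb2.inCl_own (W := δ'.W) (W' := (mid δ δ' P G).W) (fun r w h => h) hx
    have hadv : ∀ x a, (mid δ δ' P G).W.adv x = some a → a ≠ [] → δ'.W.adv x = some a := by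
      intro x a ha hne
      by_cases hx : x.1 < δ.N
      · rw [mid_adv_lt hext.N hG x hx] at ha
        exact hE.adv _ _ ha
      · exact (mid_a3 hwf x a (by omega) hne ha).1
    refine ⟨fun x t h => h.1, ?_, ?_, ?_, ?_, ?_⟩
    · intro x a ha hne
      exact hwf'.inv.advForm _ _ (hadv x a ha hne) hne
    · intro x a ha
      by_cases hne : a = []
      · subst hne
        exact ⟨rfl, fun s hs => by simp at hs⟩
      · have ha' := hadv x a ha hne
        obtain ⟨h1, h2⟩ := hwf'.inv.advValid _ _ ha'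
        refine ⟨h1, fun s hs => ?_⟩
        by_cases hx : x.1 < δ.N
        · rw [mid_adv_lt hext.N hG x hx] at ha
          have h3 := (hwf.inv.advValid _ _ ha).2 s hs
          exact hM.1 δ.N δ.W (mid δ δ' P G).W (hM.2.2.1 δ _ hwf (mid_dext hext hP hG))
            (fun x t h => h.2.1) s h3
        · have h3 := (mid_a3 hwf x a (by omega) hne ha).2
          exact mid_vs hC hB hM hwf hf hwf' hext hP hG hG' (h2 s hs)
            (fun v v' hv _ => hA x a h3 ha' s hs v v' hv)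
    · intro r w hw
      exact hwf'.inv.ownLt r w hw
    · intro x t w hxt hw
      exact hcl _ _ (hwf'.inv.edgeOwn x t w (mid_sub hM hwf hext hP x t hxt) hw)
    · intro x a s v v' ha hs hv
      have hne : a ≠ [] := by
        rintro rfl
        simp at hs
      exact hcl _ _ (hwf'.inv.advOwn x a s v v' (hadv x a ha hne) hs hv)

end

/-- The first part of ADOPTB. -/
theorem part1 (hC : CodesStatement) (hB : BasicStatement) (hM : MonoStatement)
    (δ δ' : Data) (u : ℕ) (L : List (List ℕ)) (hwf : Wf δ) (hf : Full δ) (hwf' : Wf δ')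
    (hext : DExt δ δ')
    (hL : ∀ ρ ∈ L, VStr δ'.W o ρ (endd o ρ) ∧ ∀ s ∈ ρ, ∀ v v', HE s v v' → δ.N ≤ v'.1 → u ≤ v.1) :
    ∃ δ'' : Data, Wf δ'' ∧ Full δ'' ∧ DExt δ δ'' ∧ δ''.pub = δ.pub ∧ δ''.N = δ'.N ∧
      (∀ ρ ∈ L, VStr δ''.W o ρ (endd o ρ)) ∧ (∀ p ∈ δ''.prv, p ∉ δ.prv → u ≤ p.1.1) ∧
      ∀ x t, δ''.W.edge x t → δ.N ≤ t.1 → ∃ ρ ∈ L, ∃ s ∈ ρ, HE s x t := by
  have hB' := (hB δ'.W hwf'.inv.fit).2.2.2.1
  obtain ⟨P, hPm⟩ := Adopta.exists_list δ'.N
    (fun x t => (∃ ρ ∈ L, ∃ s ∈ ρ, HE s x t) ∧ δ.N ≤ t.1) (by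
      rintro x t ⟨⟨ρ, hρ, s, hs, h1⟩, -⟩
      have h3 := (hB' s ((hL ρ hρ).1.2 s hs) x t h1).1
      have h4 := h3.1
      have h5 := h3.2.1
      exact ⟨h4.1, h4.2.1, lt_trans h4.2.2.1 h5, h5⟩)
  have hP : ∀ p ∈ P, δ'.W.edge p.1 p.2 ∧ δ.N ≤ p.2.1 := by
    intro p hp
    obtain ⟨⟨ρ, hρ, s, hs, h1⟩, h2⟩ := (hPm p).mp hp
    exact ⟨(hB' s ((hL ρ hρ).1.2 s hs) _ _ h1).1, h2⟩
  -- the states whose advice is adopted
  let G : St → Prop := fun x => δ.N ≤ x.1 ∧ ∃ z t, x = ow z 0 ∧ 0 < rk z ∧ (z, t) ∈ P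
  have hG : ∀ x, G x → δ.N ≤ x.1 := fun x hx => hx.1
  have hG' : ∀ z t, (z, t) ∈ P → 0 < rk z → δ.N ≤ z.1 → G (ow z 0) :=
    fun z t h1 h2 h3 => ⟨h3, z, t, rfl, h2, h1⟩
  have hA : ∀ x a, G x → δ'.W.adv x = some a → ∀ s ∈ a, ∀ v v', HE s v v' → (v, v') ∈ P := by
    rintro x a ⟨h1, z, t, rfl, h2, h3⟩ ha s hs v v' hv
    obtain ⟨⟨ρ, hρ, s₀, hs₀, h4⟩, h5⟩ := (hPm (z, t)).mp h3
    obtain ⟨β, h6, h7⟩ := adv_part hB hwf'.inv.fit h4 ((hL ρ hρ).1.2 s₀ hs₀) h2
    rw [ha] at h6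
    have h8 : a = β := Option.some.inj h6
    subst h8
    refine (hPm (v, v')).mpr ⟨⟨ρ, hρ, s₀, hs₀, (h7 s hs).2 v v' hv⟩, ?_⟩
    obtain ⟨h9, h10⟩ := hwf'.inv.advValid _ _ ha
    have h11 := Adopta.ch_src hB hwf'.inv.fit a (ow z 0) _ h9 h10 s hs
    obtain ⟨h12, h13, -⟩ := hB' s (h10 s hs) v v' hv
    have h14 := (hwf'.inv.fit _ _ h12).2.2.1
    show δ.N ≤ v'.1
    omega
  refine ⟨mid δ δ' P G, mid_wf hC hB hM hwf hf hwf' hext hP hG hG' hA,
    mid_full hext hG hwf hf, mid_dext hext hP hG, rfl, rfl, ?_, ?_, ?_⟩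
  · intro ρ hρ
    obtain ⟨⟨h1, h2⟩, -⟩ := hL ρ hρ
    refine ⟨h1, fun s hs => mid_vs hC hB hM hwf hf hwf' hext hP hG hG' (h2 s hs)
      (fun v v' hv hN => ?_)⟩
    exact (hPm (v, v')).mpr ⟨⟨ρ, hρ, s, hs, hv⟩, hN⟩
  · intro p hp hnp
    have hp' : p ∈ P := (List.mem_append.mp hp).resolve_left hnp
    obtain ⟨⟨ρ, hρ, s, hs, h1⟩, h2⟩ := (hPm p).mp hp'
    exact (hL ρ hρ).2 s hs _ _ h1 h2
  · intro x t hxt hN
    rw [mid_e2 hwf hP x t hN] at hxt
    exact ((hPm (x, t)).mp hxt).1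

end Pool.Agent.Lib.MP_d48993_lc.Node.Adoptb1

namespace Pool.Agent.Lib.MP_d48993_lc.Node

/-- Module ADOPTB. -/
theorem adoptb (hC : CodesStatement) (hB : BasicStatement) (hM : MonoStatement) :
    AdoptBStatement := by
  intro δ δ' u L hwf hf hwf' hf' hext hu hL
  exact ⟨Adoptb1.part1 hC hB hM δ δ' u L hwf hf hwf' hext hL,
    Adoptb2.part2 hC hB hM δ δ' u L hwf hf hwf' hf' hext hu hL⟩

end Pool.Agent.Lib.MP_d48993_lc.Node
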