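import Pool.Agent.Lib.MP_d48993_lc.AE.Node.Interfaces

/-!
# Module BASIC (helper49): basic facts about valid symbols
-/

set_option autoImplicit false

namespace Pool.Agent.Lib.MP_d48993_lc.Node

namespace Basic

theorem cone_refl (x : St) : Cone x x := ⟨rfl, List.prefix_refl _⟩

theorem cone_trans {x y z : St} (h : Cone x y) (h' : Cone y z) : Cone x z :=
  ⟨h'.1.trans h.1, h.2.trans h'.2⟩

theorem cone_ow (x : St) (j : ℕ) : Cone x (ow x j) := ⟨rfl, List.prefix_append _ _⟩

theorem endd_nil (x : St) : endd x [] = x := rfl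

theorem endd_cons (x : St) (s : ℕ) (τ : List ℕ) : endd x (s :: τ) = endd (tgt s) τ := by
  unfold endd
  rw [List.getLast?_cons]
  cases τ.getLast? <;> rfl

theorem ch_append (x : St) (σ τ : List ℕ) (z : St) :
    Ch x (σ ++ τ) z ↔ Ch x σ (endd x σ) ∧ Ch (endd x σ) τ z := by
  induction σ generalizing x with
  | nil => simp [endd_nil, Ch]
  | cons s σ ih =>
    rw [List.cons_append, endd_cons]
    change (src s = x ∧ Ch (tgt s) (σ ++ τ) z) ↔
      (src s = x ∧ Ch (tgt s) σ (endd (tgt s) σ)) ∧ Ch (endd (tgt s) σ) τ z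
    rw [ih]
    tauto

/-- roots along a chain of symbols whose edges go up -/
theorem ch_roots {x : St} {τ : List ℕ} {y : St} (h : Ch x τ y)
    (hup : ∀ s ∈ τ, (src s).1 < (tgt s).1) :
    x.1 ≤ y.1 ∧ ∀ s ∈ τ, x.1 ≤ (src s).1 ∧ ((src s).1 = x.1 → src s = x) ∧ (tgt s).1 ≤ y.1 ∧
      ((tgt s).1 = y.1 → tgt s = y) := by
  induction τ generalizing x with
  | nil =>
    have h0 : x = y := h
    exact ⟨le_of_eq (by rw [h0]), by simp⟩
  | cons s τ ih =>
    obtain ⟨h1, h2⟩ := h
    obtain ⟨i1, i2⟩ := ih h2 (fun s' hs' => hup s' (List.mem_cons_of_mem _ hs'))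
    have hs := hup s (List.mem_cons_self)
    rw [h1] at hs
    refine ⟨hs.le.trans i1, ?_⟩
    intro s' hs'
    rcases List.mem_cons.1 hs' with rfl | hs''
    · refine ⟨le_of_eq (by rw [h1]), fun _ => h1, i1, ?_⟩
      intro he
      cases τ with
      | nil => exact h2
      | cons s2 τ2 =>
        exfalso
        obtain ⟨j1, -⟩ := i2 s2 List.mem_cons_self
        have j3 := (i2 s2 List.mem_cons_self).2.2.1
        have hs2 := hup s2 (List.mem_cons_of_mem _ List.mem_cons_self)
        omega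
    · obtain ⟨k1, -, k3, k4⟩ := i2 s' hs''
      refine ⟨hs.le.trans k1, ?_, k3, k4⟩
      intro he
      exfalso
      omega

/-- sources along a chain -/
theorem ch_src {x : St} {τ : List ℕ} {y : St} (h : Ch x τ y) :
    ∀ s ∈ τ, src s = x ∨ ∃ s' ∈ τ, src s = tgt s' := by
  induction τ generalizing x with
  | nil => simp
  | cons s τ ih =>
    obtain ⟨h1, h2⟩ := h
    intro s' hs'
    rcases List.mem_cons.1 hs' with rfl | hs''
    · exact Or.inl h1
    · rcases ih h2 s' hs'' with h3 | ⟨s2, hs2, h3⟩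
      · exact Or.inr ⟨s, List.mem_cons_self, h3⟩
      · exact Or.inr ⟨s2, List.mem_cons_of_mem _ hs2, h3⟩

/-- inversion of validity -/
theorem inv (hC : CodesStatement) {W : World} {s : ℕ} (h : VS W s) :
    W.edge (src s) (tgt s) ∧ (rk (src s) = 0 → Ap s = [] ∧ Ex s = []) ∧
    (0 < rk (src s) → ∃ (α : List ℕ) (c : ℕ → ℕ),
      W.adv (ow (src s) 0) = some α ∧ (∀ s' ∈ α, VS W s') ∧
      Ch (ow (src s) 0) α (endd (ow (src s) 0) α) ∧
      Ap s = (List.range (2 * sz (src s).1)).map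
        (fun i => if i < 2 then α ++ [c i] else [c i]) ∧
      (∀ i < 2 * sz (src s).1, VS W (c i)) ∧
      (∀ i < 2 * sz (src s).1, Ex (c i) = [] ∧ tgt (c i) = ow (tgt s) i ∧
        src (c i) = if i < 2 then endd (ow (src s) 0) α else ow (src s) (i / 2))) ∧
    (Ex s).Nodup ∧ (∀ p ∈ Ex s, p.1 < sz (src s).1) ∧ (∀ p ∈ Ex s, ∀ s' ∈ p.2, VS W s') ∧
    (∀ p ∈ Ex s, ∃ j < sz (tgt s).1, Ch (ow (src s) p.1) p.2 (ow (tgt s) j)) := by
  cases h with
  | mk x t A E α c hedge h0 hα hαv hαc hA hc hc' hE hEv hE' =>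
    have hp := hC.1 x t A E
    have e1 : src (sym x t A E) = x := by unfold src; rw [hp]
    have e2 : tgt (sym x t A E) = t := by unfold tgt; rw [hp]
    have e3 : Ap (sym x t A E) = A := by unfold Ap; rw [hp]
    have e4 : Ex (sym x t A E) = E := by unfold Ex; rw [hp]
    rw [e1, e2, e3, e4]
    exact ⟨hedge, h0, fun hr => ⟨α, c, hα hr, hαv hr, hαc hr, hA hr, hc hr, hc' hr⟩, hE.1, hE.2,
      hEv, hE'⟩

end Basic

open Basic

theorem basic (hC : CodesStatement) : BasicStatement := by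
  intro W hfit
  -- edges
  have p1 : ∀ s, VS W s → W.edge (src s) (tgt s) := fun s hs => (inv hC hs).1
  have hup : ∀ s, VS W s → (src s).1 < (tgt s).1 := fun s hs => (hfit _ _ (p1 s hs)).2.2.1
  -- the side strings
  have p7 : ∀ s, VS W s → 0 < rk (src s) → ∃ β, W.adv (ow (src s) 0) = some β ∧
      ∀ i < 2, ∃ s', (Ap s)[i]? = some (β ++ [s']) ∧ VS W s' ∧ Ex s' = [] ∧
        src s' = endd (ow (src s) 0) β ∧ tgt s' = ow (tgt s) i := by
    intro s hs hr
    obtain ⟨-, -, h3, -⟩ := inv hC hs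
    obtain ⟨α, c, a1, -, -, a4, a5, a6⟩ := h3 hr
    have hsz : 0 < sz (src s).1 := by
      have := hr; unfold rk at this; omega
    refine ⟨α, a1, ?_⟩
    intro i hi
    have hi' : i < 2 * sz (src s).1 := by omega
    refine ⟨c i, ?_, a5 i hi', (a6 i hi').1, ?_, (a6 i hi').2.1⟩
    · rw [a4, List.getElem?_map, List.getElem?_range hi', Option.map_some, if_pos hi]
    · rw [(a6 i hi').2.2, if_pos hi]
  have p8 : ∀ s, VS W s → 0 < rk (src s) → ∀ i, 2 ≤ i → i < 2 * sz (src s).1 → ∃ s',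
      (Ap s)[i]? = some [s'] ∧ VS W s' ∧ Ex s' = [] ∧ src s' = ow (src s) (i / 2) ∧
        tgt s' = ow (tgt s) i := by
    intro s hs hr i hi hi'
    obtain ⟨-, -, h3, -⟩ := inv hC hs
    obtain ⟨α, c, a1, -, -, a4, a5, a6⟩ := h3 hr
    have hn : ¬ i < 2 := by omega
    refine ⟨c i, ?_, a5 i hi', (a6 i hi').1, ?_, (a6 i hi').2.1⟩
    · rw [a4, List.getElem?_map, List.getElem?_range hi', Option.map_some, if_neg hn]
    · rw [(a6 i hi').2.2, if_neg hn]
  have p6' : ∀ s, VS W s → 0 < rk (src s) → ∀ α ∈ Ap s, ∃ i < 2 * sz (src s).1,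
      (Ap s)[i]? = some α ∧ VStr W (ow (src s) (i / 2)) α (ow (tgt s) i) := by
    intro s hs hr β hβ
    obtain ⟨-, -, h3, -⟩ := inv hC hs
    obtain ⟨α, c, a1, a2, a3, a4, a5, a6⟩ := h3 hr
    rw [a4, List.mem_map] at hβ
    obtain ⟨i, hi, rfl⟩ := hβ
    rw [List.mem_range] at hi
    refine ⟨i, hi, by rw [a4, List.getElem?_map, List.getElem?_range hi, Option.map_some], ?_⟩
    by_cases h2 : i < 2
    · have hz : i / 2 = 0 := by omega
      simp only [h2, if_true]
      rw [hz]
      constructor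
      · rw [ch_append]
        refine ⟨a3, ?_⟩
        refine ⟨?_, ?_⟩
        · rw [(a6 i hi).2.2, if_pos h2]
        · exact (a6 i hi).2.1
      · intro s' hs'
        rcases List.mem_append.1 hs' with h | h
        · exact a2 s' h
        · rw [List.mem_singleton] at h; subst h; exact a5 i hi
    · simp only [h2, if_false]
      constructor
      · exact ⟨by rw [(a6 i hi).2.2, if_neg h2], (a6 i hi).2.1⟩
      · intro s' hs'
        rw [List.mem_singleton] at hs'; subst hs'; exact a5 i hi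
  have p6 : ∀ s, VS W s → 0 < rk (src s) → ∀ i < 2 * sz (src s).1, ∃ α, (Ap s)[i]? = some α ∧
      VStr W (ow (src s) (i / 2)) α (ow (tgt s) i) := by
    intro s hs hr i hi
    obtain ⟨-, -, h3, -⟩ := inv hC hs
    obtain ⟨α, c, a1, a2, a3, a4, a5, a6⟩ := h3 hr
    have hlen : i < (Ap s).length := by rw [a4]; simpa using hi
    refine ⟨(Ap s)[i], List.getElem?_eq_getElem hlen, ?_⟩
    have e : (Ap s)[i] = (if i < 2 then α ++ [c i] else [c i]) := by
      simp [a4]
    rw [e]
    by_cases h2 : i < 2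
    · have hz : i / 2 = 0 := by omega
      simp only [h2, if_true]
      rw [hz]
      constructor
      · rw [ch_append]
        refine ⟨a3, ?_⟩
        refine ⟨?_, ?_⟩
        · rw [(a6 i hi).2.2, if_pos h2]
        · exact (a6 i hi).2.1
      · intro s' hs'
        rcases List.mem_append.1 hs' with h | h
        · exact a2 s' h
        · rw [List.mem_singleton] at h; subst h; exact a5 i hi
    · simp only [h2, if_false]
      constructor
      · exact ⟨by rw [(a6 i hi).2.2, if_neg h2], (a6 i hi).2.1⟩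
      · intro s' hs'
        rw [List.mem_singleton] at hs'; subst hs'; exact a5 i hi
  have apv : ∀ s, VS W s → ∀ α ∈ Ap s, 0 < rk (src s) := by
    intro s hs α hα
    rcases Nat.eq_zero_or_pos (rk (src s)) with h | h
    · obtain ⟨-, h2, -⟩ := inv hC hs
      rw [(h2 h).1] at hα
      simp at hα
    · exact h
  have p2 : ∀ s, VS W s → ∀ α ∈ Ap s, ∀ s' ∈ α, VS W s' := by
    intro s hs α hα s' hs'
    obtain ⟨i, hi, -, h⟩ := p6' s hs (apv s hs α hα) α hα
    exact h.2 s' hs'
  have p3 : ∀ s, VS W s → ∀ p ∈ Ex s, ∀ s' ∈ p.2, VS W s' :=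
    fun s hs => (inv hC hs).2.2.2.2.2.1
  have p3' : ∀ s, VS W s → ∀ p ∈ Ex s, ∃ j < sz (tgt s).1,
      Ch (ow (src s) p.1) p.2 (ow (tgt s) j) := fun s hs => (inv hC hs).2.2.2.2.2.2
  -- roots of a side string or an extra string
  have side : ∀ s (τ : List ℕ) (i j : ℕ), Ch (ow (src s) i) τ (ow (tgt s) j) →
      (∀ s' ∈ τ, VS W s') → ∀ s' ∈ τ, (src s).1 ≤ (src s').1 ∧
        ((src s').1 = (src s).1 → Cone (src s) (src s')) ∧ (tgt s').1 ≤ (tgt s).1 ∧
        ((tgt s').1 = (tgt s).1 → Cone (tgt s) (tgt s')) := by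
    intro s τ i j hch hv s' hs'
    obtain ⟨-, h⟩ := ch_roots hch (fun s'' hs'' => hup s'' (hv s'' hs''))
    obtain ⟨h1, h2, h3, h4⟩ := h s' hs'
    refine ⟨h1, fun he => ?_, h3, fun he => ?_⟩
    · rw [h2 he]; exact cone_ow _ _
    · rw [h4 he]; exact cone_ow _ _
  have p4 : ∀ s, VS W s → ∀ v v', HE s v v' → W.edge v v' ∧ (src s).1 ≤ v.1 ∧
      v'.1 ≤ (tgt s).1 ∧ (v.1 = (src s).1 → Cone (src s) v) ∧
      (v'.1 = (tgt s).1 → Cone (tgt s) v') := by
    intro s hs v v' h
    induction h with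
    | top s => exact ⟨p1 s hs, le_refl _, le_refl _, fun _ => cone_refl _, fun _ => cone_refl _⟩
    | ap s α s' v v' hα hs' h ih =>
      obtain ⟨i, hi, -, hstr⟩ := p6' s hs (apv s hs α hα) α hα
      obtain ⟨a1, a2, a3, a4⟩ := side s α _ _ hstr.1 hstr.2 s' hs'
      obtain ⟨b1, b2, b3, b4, b5⟩ := ih (p2 s hs α hα s' hs')
      refine ⟨b1, a1.trans b2, b3.trans a3, fun he => ?_, fun he => ?_⟩
      · have e1 : (src s').1 = (src s).1 := by omega
        exact cone_trans (a2 e1) (b4 (by omega))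
      · have e1 : (tgt s').1 = (tgt s).1 := by omega
        exact cone_trans (a4 e1) (b5 (by omega))
    | ex s p s' v v' hp hs' h ih =>
      obtain ⟨j, hj, hch⟩ := p3' s hs p hp
      obtain ⟨a1, a2, a3, a4⟩ := side s p.2 _ _ hch (p3 s hs p hp) s' hs'
      obtain ⟨b1, b2, b3, b4, b5⟩ := ih (p3 s hs p hp s' hs')
      refine ⟨b1, a1.trans b2, b3.trans a3, fun he => ?_, fun he => ?_⟩
      · have e1 : (src s').1 = (src s).1 := by omega
        exact cone_trans (a2 e1) (b4 (by omega))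
      · have e1 : (tgt s').1 = (tgt s).1 := by omega
        exact cone_trans (a4 e1) (b5 (by omega))
  have p5 : ∀ s, VS W s → ∀ v v', HE s v v' → Cone (src s) v ∨ ∃ a b, HE s a b ∧ Cone b v := by
    intro s hs v v' h
    induction h with
    | top s => exact Or.inl (cone_refl _)
    | ap s α s' v v' hα hs' h ih =>
      obtain ⟨i, hi, -, hstr⟩ := p6' s hs (apv s hs α hα) α hα
      rcases ih (p2 s hs α hα s' hs') with h1 | ⟨a, b, h1, h2⟩
      · rcases ch_src hstr.1 s' hs' with h3 | ⟨s2, hs2, h3⟩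
        · rw [h3] at h1
          exact Or.inl (cone_trans (cone_ow _ _) h1)
        · rw [h3] at h1
          exact Or.inr ⟨src s2, tgt s2, HE.ap s α s2 _ _ hα hs2 (HE.top s2), h1⟩
      · exact Or.inr ⟨a, b, HE.ap s α s' _ _ hα hs' h1, h2⟩
    | ex s p s' v v' hp hs' h ih =>
      obtain ⟨j, hj, hch⟩ := p3' s hs p hp
      rcases ih (p3 s hs p hp s' hs') with h1 | ⟨a, b, h1, h2⟩
      · rcases ch_src hch s' hs' with h3 | ⟨s2, hs2, h3⟩
        · rw [h3] at h1
          exact Or.inl (cone_trans (cone_ow _ _) h1)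
        · rw [h3] at h1
          exact Or.inr ⟨src s2, tgt s2, HE.ex s p s2 _ _ hp hs2 (HE.top s2), h1⟩
      · exact Or.inr ⟨a, b, HE.ex s p s' _ _ hp hs' h1, h2⟩
  have p9 : ∀ n s s', s ≤ n → VS W s → VS W s' → Ex s = [] → Ex s' = [] → src s = src s' →
      tgt s = tgt s' → s = s' := by
    intro n
    induction n using Nat.strong_induction_on with
    | _ n ih =>
      intro s s' hn hs hs' he he' hsrc htgt
      obtain ⟨-, h2, h3, -⟩ := inv hC hs
      obtain ⟨-, h2', h3', -⟩ := inv hC hs'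
      have hAp : Ap s = Ap s' := by
        rcases Nat.eq_zero_or_pos (rk (src s)) with hr | hr
        · rw [(h2 hr).1, (h2' (by rw [← hsrc]; exact hr)).1]
        · obtain ⟨α, c, a1, a2, a3, a4, a5, a6⟩ := h3 hr
          obtain ⟨α', c', a1', a2', a3', a4', a5', a6'⟩ := h3' (by rw [← hsrc]; exact hr)
          have eα : α = α' := by
            rw [← hsrc, a1] at a1'
            exact Option.some.inj a1'
          rw [a4, a4', ← hsrc]
          apply List.map_congr_left
          intro i hi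
          rw [List.mem_range] at hi
          have hi' : i < 2 * sz (src s').1 := by rw [← hsrc]; exact hi
          have hlt : c i < s := by
            have hm : (if i < 2 then α ++ [c i] else [c i]) ∈ Ap s := by
              rw [a4, List.mem_map]
              exact ⟨i, List.mem_range.2 hi, rfl⟩
            refine hC.2.2.1 s _ (c i) hm ?_
            split_ifs <;> simp
          have ec : c i = c' i := by
            refine ih (c i) (by omega) (c i) (c' i) (le_refl _) (a5 i hi) (a5' i hi') (a6 i hi).1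
              (a6' i hi').1 ?_ ?_
            · rw [(a6 i hi).2.2, (a6' i hi').2.2, eα, hsrc]
            · rw [(a6 i hi).2.1, (a6' i hi').2.1, htgt]
          rw [ec, eα]
      rw [← hC.2.1 s, ← hC.2.1 s', hsrc, htgt, hAp, he, he']
  have p10 : ∀ s, VS W s → 0 < rk (src s) → ∀ E : List (ℕ × List ℕ), E.Nodup →
      (∀ p ∈ E, p.1 < sz (src s).1 ∧
        ∃ j < sz (tgt s).1, VStr W (ow (src s) p.1) p.2 (ow (tgt s) j)) →
      VS W (sym (src s) (tgt s) (Ap s) E) := by
    intro s hs hr E hnd hE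
    obtain ⟨h1, -, h3, -⟩ := inv hC hs
    obtain ⟨α, c, a1, a2, a3, a4, a5, a6⟩ := h3 hr
    refine VS.mk (src s) (tgt s) (Ap s) E α c h1 (fun h => absurd h (by omega)) (fun _ => a1)
      (fun _ => a2) (fun _ => a3) (fun _ => a4) (fun _ => a5) (fun _ => a6)
      ⟨hnd, fun p hp => (hE p hp).1⟩ ?_ ?_
    · intro p hp
      obtain ⟨-, j, -, h⟩ := hE p hp
      exact h.2
    · intro p hp
      obtain ⟨-, j, hj, h⟩ := hE p hp
      exact ⟨j, hj, h.1⟩
  exact ⟨p1, p2, p3, p4, p5, p6, p7, p8, fun s s' => p9 s s s' (le_refl _), p10⟩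

end Pool.Agent.Lib.MP_d48993_lc.Node
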