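import Pool.Agent.Lib.MP_d48993_lc.AE.Node.Interfaces

/-!
# Project NODE (MP_d48993), module CODES
-/

set_option autoImplicit false

namespace Pool.Agent.Lib.MP_d48993_lc.Node.Codes

open Encodable

theorem parts_sym (x t : St) (A : List (List ℕ)) (E : List (ℕ × List ℕ)) :
    parts (sym x t A E) = (x, t, A, E) := by
  unfold parts sym
  rw [Encodable.encodek]
  rfl

theorem sym_parts (s : ℕ) : sym (src s) (tgt s) (Ap s) (Ex s) = s := by
  have h : ∃ v : St × St × List (List ℕ) × List (ℕ × List ℕ), Encodable.encode v = s :=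
    ⟨Denumerable.ofNat _ s, Denumerable.encode_ofNat s⟩
  obtain ⟨⟨x, t, A, E⟩, rfl⟩ := h
  have h1 := parts_sym x t A E
  unfold sym at h1
  unfold src tgt Ap Ex
  rw [h1]
  rfl

theorem lt_encode_list {α : Type} [Encodable α] (l : List α) (a : α) (h : a ∈ l) :
    encode a < encode l := by
  induction l with
  | nil => simp at h
  | cons b l ih =>
    rw [Encodable.encode_list_cons]
    rcases List.mem_cons.1 h with rfl | h
    · exact Nat.lt_succ_of_le (Nat.left_le_pair _ _)
    · exact (ih h).trans_le ((Nat.right_le_pair _ _).trans (Nat.le_succ _))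

theorem encode_le (s : ℕ) : encode (Ap s) ≤ s ∧ encode (Ex s) ≤ s := by
  have h := sym_parts s
  unfold sym at h
  have h0 : ∀ (x t : St) (A : List (List ℕ)) (E : List (ℕ × List ℕ)),
      encode (x, t, A, E) =
        Nat.pair (encode x) (Nat.pair (encode t) (Nat.pair (encode A) (encode E))) :=
    fun _ _ _ _ => rfl
  have h1 := h0 (src s) (tgt s) (Ap s) (Ex s)
  rw [h1] at h
  constructor
  · calc encode (Ap s) ≤ Nat.pair (encode (Ap s)) (encode (Ex s)) := Nat.left_le_pair _ _
      _ ≤ Nat.pair (encode (tgt s)) (Nat.pair (encode (Ap s)) (encode (Ex s))) :=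
          Nat.right_le_pair _ _
      _ ≤ _ := Nat.right_le_pair _ _
      _ = s := h
  · calc encode (Ex s) ≤ Nat.pair (encode (Ap s)) (encode (Ex s)) := Nat.right_le_pair _ _
      _ ≤ Nat.pair (encode (tgt s)) (Nat.pair (encode (Ap s)) (encode (Ex s))) :=
          Nat.right_le_pair _ _
      _ ≤ _ := Nat.right_le_pair _ _
      _ = s := h

theorem ap_lt (s : ℕ) (α : List ℕ) (s' : ℕ) (h1 : α ∈ Ap s) (h2 : s' ∈ α) : s' < s := by
  have h3 : s' < encode α := lt_encode_list α s' h2
  have h4 := lt_encode_list (Ap s) α h1
  have h5 := (encode_le s).1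
  omega

theorem ex_lt (s : ℕ) (p : ℕ × List ℕ) (s' : ℕ) (h1 : p ∈ Ex s) (h2 : s' ∈ p.2) : s' < s := by
  have h3 : s' < encode p.2 := lt_encode_list p.2 s' h2
  have h4 := lt_encode_list (Ex s) p h1
  have h5 := (encode_le s).2
  have h6 : encode p.2 ≤ encode p := by
    obtain ⟨a, b⟩ := p
    exact Nat.right_le_pair _ _
  omega

theorem primrec_parts : Primrec parts := by
  unfold parts
  exact Primrec.option_getD.comp Primrec.decode (Primrec.const _)

theorem primrec_src : Primrec src := Primrec.fst.comp primrec_parts

theorem primrec_tgt : Primrec tgt := Primrec.fst.comp (Primrec.snd.comp primrec_parts)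

theorem primrec_Ap : Primrec Ap :=
  Primrec.fst.comp (Primrec.snd.comp (Primrec.snd.comp primrec_parts))

theorem primrec_Ex : Primrec Ex :=
  Primrec.snd.comp (Primrec.snd.comp (Primrec.snd.comp primrec_parts))

theorem endd_nil (x : St) : endd x [] = x := rfl

theorem endd_cons (x : St) (s : ℕ) (τ : List ℕ) : endd x (s :: τ) = endd (tgt s) τ := by
  cases τ with
  | nil => rfl
  | cons s' τ =>
    unfold endd
    rw [List.getLast?_cons_cons]
    cases h : (s' :: τ).getLast? with
    | none => simp at h
    | some a => rfl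

theorem endd_append (x : St) (σ τ : List ℕ) : endd x (σ ++ τ) = endd (endd x σ) τ := by
  induction σ generalizing x with
  | nil => rfl
  | cons s σ ih => rw [List.cons_append, endd_cons, endd_cons, ih]

theorem ch_endd (x : St) (τ : List ℕ) (y : St) (h : Ch x τ y) : y = endd x τ := by
  induction τ generalizing x with
  | nil => exact h.symm
  | cons s τ ih =>
    rw [endd_cons]
    exact ih _ h.2

theorem ch_append (x : St) (σ τ : List ℕ) (z : St) :
    Ch x (σ ++ τ) z ↔ Ch x σ (endd x σ) ∧ Ch (endd x σ) τ z := by
  induction σ generalizing x with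
  | nil =>
    show Ch x τ z ↔ (x = x) ∧ Ch x τ z
    simp
  | cons s σ ih =>
    rw [endd_cons]
    show (src s = x ∧ Ch (tgt s) (σ ++ τ) z) ↔
      (src s = x ∧ Ch (tgt s) σ (endd (tgt s) σ)) ∧ Ch (endd (tgt s) σ) τ z
    rw [ih, and_assoc]

/-- Reading a string. -/
def step (p : Option St) (s : ℕ) : Option St :=
  p.bind fun x => if src s = x then some (tgt s) else none

theorem foldl_none (τ : List ℕ) : τ.foldl step none = none := by
  induction τ with
  | nil => rfl
  | cons s τ ih => exact ih

theorem ch_iff (x : St) (τ : List ℕ) (y : St) : Ch x τ y ↔ τ.foldl step (some x) = some y := by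
  induction τ generalizing x with
  | nil =>
    show x = y ↔ some x = some y
    simp
  | cons s τ ih =>
    show (src s = x ∧ Ch (tgt s) τ y) ↔ τ.foldl step (step (some x) s) = some y
    by_cases h : src s = x
    · have h1 : step (some x) s = some (tgt s) := by
        simp [step, h]
      rw [h1, ← ih]
      exact and_iff_right h
    · have h1 : step (some x) s = none := by
        simp [step, h]
      rw [h1, foldl_none]
      simp [h]

theorem primrec_step : Primrec₂ step := by
  unfold step
  refine Primrec.option_bind Primrec.fst ?_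
  refine Primrec.ite ?_ ?_ (Primrec.const none)
  · exact Primrec.eq.comp (primrec_src.comp (Primrec.snd.comp Primrec.fst)) Primrec.snd
  · exact Primrec.option_some.comp (primrec_tgt.comp (Primrec.snd.comp Primrec.fst))

theorem primrec_fold : Primrec fun p : St × List ℕ × St => p.2.1.foldl step (some p.1) := by
  refine Primrec.list_foldl (f := fun p : St × List ℕ × St => p.2.1)
    (g := fun p : St × List ℕ × St => some p.1)
    (h := fun (_ : St × List ℕ × St) (q : Option St × ℕ) => step q.1 q.2) ?_ ?_ ?_
  · exact Primrec.fst.comp Primrec.snd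
  · exact Primrec.option_some.comp Primrec.fst
  · exact primrec_step.comp (Primrec.fst.comp Primrec.snd) (Primrec.snd.comp Primrec.snd)

theorem primrec_ch : PrimrecPred fun p : St × List ℕ × St => Ch p.1 p.2.1 p.2.2 := by
  have h := Primrec.eq.comp primrec_fold
    (Primrec.option_some.comp (Primrec.snd.comp (Primrec.snd (α := St) (β := List ℕ × St))))
  exact h.of_eq fun p => (ch_iff p.1 p.2.1 p.2.2).symm

theorem primrec_endd : Primrec fun p : St × List ℕ => endd p.1 p.2 := by
  have h : Primrec fun p : St × List ℕ => ((p.2.reverse.head?).map tgt).getD p.1 := by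
    refine Primrec.option_getD.comp ?_ Primrec.fst
    exact Primrec.option_map (Primrec.list_head?.comp (Primrec.list_reverse.comp Primrec.snd))
      (primrec_tgt.comp Primrec.snd).to₂
  refine h.of_eq fun p => ?_
  unfold endd
  rw [List.head?_reverse]

end Pool.Agent.Lib.MP_d48993_lc.Node.Codes

namespace Pool.Agent.Lib.MP_d48993_lc.Node

open Codes in
/-- Module CODES. -/
theorem codes : CodesStatement := by
  classical
  refine ⟨parts_sym, sym_parts, ap_lt, ex_lt, primrec_src.to_comp, primrec_tgt.to_comp,
    primrec_Ap.to_comp, primrec_Ex.to_comp, ?_, primrec_endd.to_comp, ch_endd, ch_append,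
    endd_append⟩
  exact ⟨inferInstance, primrec_ch.decide.to_comp⟩

end Pool.Agent.Lib.MP_d48993_lc.Node
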