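import Pool.Agent.Lib.MP_d48993_lc.AE.Node.Interfaces

/-!
# Module MONO (helper94): extensions of worlds and of finite data
-/

set_option autoImplicit false

namespace Pool.Agent.Lib.MP_d48993_lc.Node

namespace Mono

/-- validity is preserved by extensions -/
theorem vs_ext {N : ℕ} {W W' : World} (h : Ext N W W') (hN : ∀ x t, W.edge x t → t.1 < N)
    (s : ℕ) (hs : VS W s) : VS W' s := by
  induction hs with
  | mk x t A E α c hedge h0 hα hαv hαc hA hc hc' hE hEv hE' ih1 ih2 ih3 =>
    exact VS.mk x t A E α c ((h.edge x t (hN x t hedge)).2 hedge) h0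
      (fun hr => h.adv _ _ (hα hr)) ih1 hαc hA ih2 hc' hE ih3 hE'

/-- locality -/
theorem vs_loc (hP : ∀ x t A E, parts (sym x t A E) = (x, t, A, E)) (hB : BasicStatement)
    {N : ℕ} {W W' : World} (h : Ext N W W') (hF : ∀ x t, W'.edge x t → Fit x t)
    (s : ℕ) (hs : VS W' s) : (tgt s).1 < N →
    (∀ v v', HE s v v' → 0 < rk v → (W.adv (ow v 0)).isSome) → VS W s := by
  induction hs with
  | mk x t A E α c hedge h0 hα hαv hαc hA hc hc' hE hEv hE' ih1 ih2 ih3 =>
    intro hlt hadv
    have hvs : VS W' (sym x t A E) := VS.mk x t A E α c hedge h0 hα hαv hαc hA hc hc' hE hEv hE'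
    have hsrc : src (sym x t A E) = x := by unfold src; rw [hP]
    have htgt : tgt (sym x t A E) = t := by unfold tgt; rw [hP]
    have hAp : Ap (sym x t A E) = A := by unfold Ap; rw [hP]
    have hEx : Ex (sym x t A E) = E := by unfold Ex; rw [hP]
    have hb := (hB W' hF).2.2.2.1 _ hvs
    rw [htgt] at hlt
    have hroot : ∀ v v', HE (sym x t A E) v v' → v'.1 < N := by
      intro v v' hh
      have h1 := (hb v v' hh).2.2.1
      rw [htgt] at h1
      omega
    have hap : ∀ β ∈ A, ∀ s' ∈ β, ∀ v v', HE s' v v' → HE (sym x t A E) v v' := by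
      intro β hβ s' hs' v v' hh
      exact HE.ap _ β s' v v' (by rw [hAp]; exact hβ) hs' hh
    have hex : ∀ p ∈ E, ∀ s' ∈ p.2, ∀ v v', HE s' v v' → HE (sym x t A E) v v' := by
      intro p hp s' hs' v v' hh
      exact HE.ex _ p s' v v' (by rw [hEx]; exact hp) hs' hh
    have hpos : 0 < rk x → 0 < 2 * sz x.1 := by
      intro hr
      unfold rk at hr
      omega
    have hmemα : 0 < rk x → ∀ s' ∈ α, ∃ β ∈ A, s' ∈ β := by
      intro hr s' hs'
      refine ⟨α ++ [c 0], ?_, List.mem_append_left _ hs'⟩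
      rw [hA hr, List.mem_map]
      exact ⟨0, List.mem_range.2 (hpos hr), by simp⟩
    have hmemc : 0 < rk x → ∀ i < 2 * sz x.1, ∃ β ∈ A, c i ∈ β := by
      intro hr i hi
      by_cases hi2 : i < 2
      · refine ⟨α ++ [c i], ?_, by simp⟩
        rw [hA hr, List.mem_map]
        exact ⟨i, List.mem_range.2 hi, by simp [hi2]⟩
      · refine ⟨[c i], ?_, by simp⟩
        rw [hA hr, List.mem_map]
        exact ⟨i, List.mem_range.2 hi, by simp [hi2]⟩
    refine VS.mk x t A E α c ((h.edge x t hlt).1 hedge) h0 ?_ ?_ hαc hA ?_ hc' hE ?_ hE'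
    · intro hr
      have h1 := hadv (src (sym x t A E)) (tgt (sym x t A E)) (HE.top _) (by rwa [hsrc])
      rw [hsrc] at h1
      obtain ⟨β, hβ⟩ := Option.isSome_iff_exists.1 h1
      have h2 := h.adv _ _ hβ
      rw [hα hr] at h2
      rw [hβ, Option.some.inj h2]
    · intro hr s' hs'
      obtain ⟨β, hβ, hs''⟩ := hmemα hr s' hs'
      exact ih1 hr s' hs' (hroot _ _ (hap β hβ s' hs'' _ _ (HE.top s')))
        fun v v' hh => hadv v v' (hap β hβ s' hs'' v v' hh)
    · intro hr i hi
      obtain ⟨β, hβ, hs''⟩ := hmemc hr i hi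
      exact ih2 hr i hi (hroot _ _ (hap β hβ _ hs'' _ _ (HE.top _)))
        fun v v' hh => hadv v v' (hap β hβ _ hs'' v v' hh)
    · intro p hp s' hs'
      exact ih3 p hp s' hs' (hroot _ _ (hex p hp s' hs' _ _ (HE.top s')))
        fun v v' hh => hadv v v' (hex p hp s' hs' v v' hh)

/-- extensions of finite data -/
theorem ext_of_dext (δ δ' : Data) (h : DExt δ δ') : Ext δ.N δ.W δ'.W := by
  obtain ⟨lp, hp, hp'⟩ := h.pub
  obtain ⟨lv, hv, hv'⟩ := h.prv
  obtain ⟨la, ha, ha'⟩ := h.adv
  obtain ⟨lo, ho, ho'⟩ := h.own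
  have hN := h.N
  refine ⟨?_, ?_, ?_⟩
  · intro x t ht
    change (Fit x t ∧ t.1 < δ'.N ∧ (t.1 ∈ δ'.pub ∨ (x, t) ∈ δ'.prv)) ↔
      (Fit x t ∧ t.1 < δ.N ∧ (t.1 ∈ δ.pub ∨ (x, t) ∈ δ.prv))
    rw [hp, hv, List.mem_append, List.mem_append]
    constructor
    · rintro ⟨h1, h2, (h3 | h3) | (h3 | h3)⟩
      · exact ⟨h1, ht, Or.inl h3⟩
      · exact absurd (hp' _ h3) (by omega)
      · exact ⟨h1, ht, Or.inr h3⟩
      · exact absurd (hv' _ h3) (by simp only [not_le]; exact ht)
    · rintro ⟨h1, h2, h3 | h3⟩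
      · exact ⟨h1, by omega, Or.inl (Or.inl h3)⟩
      · exact ⟨h1, by omega, Or.inr (Or.inl h3)⟩
  · intro y α hα
    change ((δ'.advL.find? (fun p => p.1 = y)).map Prod.snd).or
      (if y.1 < δ'.N ∧ y.1 ∉ δ'.pub then some [] else none) = some α
    change ((δ.advL.find? (fun p => p.1 = y)).map Prod.snd).or
      (if y.1 < δ.N ∧ y.1 ∉ δ.pub then some [] else none) = some α at hα
    rw [ha, List.find?_append]
    rcases hf : δ.advL.find? (fun p => decide (p.1 = y)) with _ | p
    · rw [hf, Option.map_none, Option.none_or] at hα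
      split_ifs at hα with hc
      have hl : la.find? (fun p => decide (p.1 = y)) = none := by
        rw [List.find?_eq_none]
        intro p hp2 hpy
        have hpy' : p.1 = y := of_decide_eq_true hpy
        rcases ha' p hp2 with h1 | ⟨h1, -, -⟩
        · rw [hpy'] at h1; omega
        · rw [hpy'] at h1; exact hc.2 h1
      rw [hf, Option.none_or, hl, Option.map_none, Option.none_or, if_pos]
      · exact hα
      · refine ⟨by omega, ?_⟩
        rw [hp, List.mem_append]
        rintro (h1 | h1)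
        · exact hc.2 h1
        · exact absurd (hp' _ h1) (by omega)
    · rw [hf, Option.map_some, Option.some_or] at hα
      rw [hf, Option.some_or, Option.map_some, Option.some_or]
      exact hα
  · intro r hr
    change (δ'.ownL.find? (fun p => p.1 = r)).map Prod.snd =
      (δ.ownL.find? (fun p => p.1 = r)).map Prod.snd
    rw [ho, List.find?_append]
    have hl : lo.find? (fun p => decide (p.1 = r)) = none := by
      rw [List.find?_eq_none]
      intro p hp2 hpy
      have hpy' : p.1 = r := of_decide_eq_true hpy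
      have := ho' p hp2
      omega
    rw [hl, Option.or_none]

/-- transitivity -/
theorem dext_trans (δ δ' δ'' : Data) (h : DExt δ δ') (h' : DExt δ' δ'') : DExt δ δ'' := by
  obtain ⟨lp, hp, hp'⟩ := h.pub
  obtain ⟨lv, hv, hv'⟩ := h.prv
  obtain ⟨la, ha, ha'⟩ := h.adv
  obtain ⟨lo, ho, ho'⟩ := h.own
  obtain ⟨mp, kp, kp'⟩ := h'.pub
  obtain ⟨mv, kv, kv'⟩ := h'.prv
  obtain ⟨ma, ka, ka'⟩ := h'.adv
  obtain ⟨mo, ko, ko'⟩ := h'.own
  have hN := h.N
  refine ⟨le_trans h.N h'.N, ⟨lp ++ mp, ?_, ?_⟩, ⟨lv ++ mv, ?_, ?_⟩, ⟨la ++ ma, ?_, ?_⟩,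
    ⟨lo ++ mo, ?_, ?_⟩⟩
  · rw [kp, hp, List.append_assoc]
  · intro r hr
    rcases List.mem_append.1 hr with h1 | h1
    · exact hp' r h1
    · exact le_trans hN (kp' r h1)
  · rw [kv, hv, List.append_assoc]
  · intro r hr
    rcases List.mem_append.1 hr with h1 | h1
    · exact hv' r h1
    · exact le_trans hN (kv' r h1)
  · rw [ka, ha, List.append_assoc]
  · intro p hr
    rcases List.mem_append.1 hr with h1 | h1
    · exact ha' p h1
    · rcases ka' p h1 with h2 | ⟨h2, h3, h4⟩
      · exact Or.inl (le_trans hN h2)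
      · rw [hp, List.mem_append] at h2
        rcases h2 with h2 | h2
        · exact Or.inr ⟨h2, h3, fun q hq => h4 q (by rw [ha]; exact List.mem_append_left _ hq)⟩
        · exact Or.inl (hp' _ h2)
  · rw [ko, ho, List.append_assoc]
  · intro r hr
    rcases List.mem_append.1 hr with h1 | h1
    · exact ho' r h1
    · exact le_trans hN (ko' r h1)

/-- closures in extensions -/
theorem inCl_iff {N : ℕ} {W W' : World} (h : ∀ r < N, W'.own r = W.own r)
    (hlt : ∀ r w, W.own r = some w → w.1 < r) (y x : St) (hx : x.1 < N)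
    (hi : InCl W y x) : InCl W' y x := by
  induction hi with
  | cone x hc => exact InCl.cone x hc
  | own x w hw _ ih =>
    refine InCl.own x w ?_ (ih ?_)
    · rw [h _ hx, hw]
    · have := hlt _ _ hw
      omega

end Mono

/-- Module MONO. -/
theorem mono (hC : CodesStatement) (hB : BasicStatement) : MonoStatement := by
  refine ⟨fun N W W' h hN s hs => Mono.vs_ext h hN s hs,
    fun N W W' h hF s hs => Mono.vs_loc hC.1 hB h hF s hs,
    fun δ δ' _ h => Mono.ext_of_dext δ δ' h,
    fun δ δ' δ'' h _ _ h' => Mono.dext_trans δ δ' δ'' h h', ?_⟩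
  intro δ δ' hw hw' h y x hx
  have hE := Mono.ext_of_dext δ δ' h
  exact ⟨Mono.inCl_iff hE.own hw.inv.ownLt y x hx,
    Mono.inCl_iff (fun r hr => (hE.own r hr).symm) hw'.inv.ownLt y x hx⟩

end Pool.Agent.Lib.MP_d48993_lc.Node
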