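import Pool.Agent.Lib.MP_d48993_lc.AE.Node.Interfaces

/-!
# Project NODE (MP_d48993): module OWN (closures)
-/

set_option autoImplicit false

namespace Pool.Agent.Lib.MP_d48993_lc.Node.Own

theorem parts_sym (x t : St) (A : List (List ℕ)) (E : List (ℕ × List ℕ)) :
    parts (sym x t A E) = (x, t, A, E) := by
  unfold parts sym
  rw [Encodable.encodek]
  rfl

theorem src_sym (x t : St) (A : List (List ℕ)) (E : List (ℕ × List ℕ)) :
    src (sym x t A E) = x := by
  unfold src
  rw [parts_sym]

theorem tgt_sym (x t : St) (A : List (List ℕ)) (E : List (ℕ × List ℕ)) :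
    tgt (sym x t A E) = t := by
  unfold tgt
  rw [parts_sym]

theorem ap_sym (x t : St) (A : List (List ℕ)) (E : List (ℕ × List ℕ)) :
    Ap (sym x t A E) = A := by
  unfold Ap
  rw [parts_sym]

theorem ex_sym (x t : St) (A : List (List ℕ)) (E : List (ℕ × List ℕ)) :
    Ex (sym x t A E) = E := by
  unfold Ex
  rw [parts_sym]

theorem cone_trans {a b c : St} (h1 : Cone a b) (h2 : Cone b c) : Cone a c :=
  ⟨h2.1.trans h1.1, h1.2.trans h2.2⟩

theorem cone_rfl (a : St) : Cone a a := ⟨rfl, List.prefix_rfl⟩

theorem cone_ow (a : St) (j : ℕ) : Cone a (ow a j) := ⟨rfl, List.prefix_append _ _⟩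

section

variable {W : World}

/-- (1) -/
theorem inCl_le (hW : ∀ r w, W.own r = some w → w.1 < r) {y x : St} (h : InCl W y x) :
    y.1 ≤ x.1 ∧ (x.1 = y.1 → Cone y x) := by
  induction h with
  | cone x h => exact ⟨le_of_eq h.1.symm, fun _ => h⟩
  | own x w h hw ih =>
    have h1 := hW _ _ h
    have h2 := lt_of_le_of_lt ih.1 h1
    exact ⟨h2.le, fun e => absurd e (ne_of_gt h2)⟩

theorem inCl_root {y x x' : St} (h : InCl W y x) (e : x'.1 = x.1) (hc : Cone x x') :
    InCl W y x' := by
  cases h with
  | cone _ h => exact InCl.cone x' (cone_trans h hc)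
  | own _ w h hw => exact InCl.own x' w (by rw [e]; exact h) hw

theorem inCl_cone {y x x' : St} (h : InCl W y x) (hc : Cone x x') : InCl W y x' :=
  inCl_root h hc.1 hc

/-- (2) -/
theorem inCl_trans {a b v : St} (h1 : InCl W a b) (h2 : InCl W b v) : InCl W a v := by
  induction h2 with
  | cone x h => exact inCl_cone h1 h
  | own x w h hw ih => exact InCl.own x w h ih

/-- (3) -/
theorem inCl_laminar {a b v : St} (h1 : InCl W a v) (h2 : InCl W b v) :
    InCl W a b ∨ InCl W b a := by
  induction h1 with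
  | cone v h =>
    cases h2 with
    | cone _ h' =>
      rcases List.prefix_or_prefix_of_prefix h.2 h'.2 with h3 | h3
      · exact Or.inl (InCl.cone b ⟨h'.1.symm.trans h.1, h3⟩)
      · exact Or.inr (InCl.cone a ⟨h.1.symm.trans h'.1, h3⟩)
    | own _ w h' hw => exact Or.inr (InCl.own a w (by rw [← h.1]; exact h') hw)
  | own v w h hw ih =>
    cases h2 with
    | cone _ h' => exact Or.inl (InCl.own b w (by rw [← h'.1]; exact h) hw)
    | own _ w' h' hw' =>
      rw [h] at h'
      have e : w = w' := Option.some.inj h'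
      subst e
      exact ih hw'

/-- (4) -/
theorem inCl_ow (hW : ∀ r w, W.own r = some w → w.1 < r) {z : St} {i j : ℕ} {v : St}
    (hij : i ≠ j) (h1 : InCl W (ow z i) v) (h2 : InCl W (ow z j) v) : False := by
  have key : ∀ i j, i ≠ j → InCl W (ow z i) (ow z j) → False := by
    intro i j hij h
    have hc := ((inCl_le hW h).2 rfl).2
    have hc' : z.2 ++ [i] <+: z.2 ++ [j] := hc
    have e := List.prefix_append_right_inj z.2 |>.1 hc'
    exact hij (by simpa using e)
  rcases inCl_laminar h1 h2 with h | h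
  · exact key i j hij h
  · exact key j i hij.symm h

/-- (6) -/
theorem inCl_same {a v v' : St} (h : InCl W a v) (e : v.1 = v'.1) (hlt : a.1 < v.1) :
    InCl W a v' := by
  cases h with
  | cone _ h => exact absurd h.1 (ne_of_gt hlt)
  | own _ w h hw => exact InCl.own v' w (by rw [← e]; exact h) hw

/-- The sources of the symbols of a chain. -/
theorem src_mem {y z : St} {α : List ℕ} (h : Ch y α z) {s : ℕ} (hs : s ∈ α) :
    src s = y ∨ ∃ s' ∈ α, src s = tgt s' := by
  induction α generalizing y with
  | nil => simp at hs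
  | cons a α ih =>
    obtain ⟨h1, h2⟩ := h
    rcases List.mem_cons.1 hs with rfl | hs
    · exact Or.inl h1
    · rcases ih h2 hs with h3 | ⟨s', hs', h3⟩
      · exact Or.inr ⟨a, List.mem_cons_self, h3⟩
      · exact Or.inr ⟨s', List.mem_cons_of_mem _ hs', h3⟩

theorem endd_mem (y : St) (α : List ℕ) : endd y α = y ∨ ∃ s' ∈ α, endd y α = tgt s' := by
  unfold endd
  cases h : α.getLast? with
  | none => exact Or.inl rfl
  | some s => exact Or.inr ⟨s, List.mem_of_getLast? h, rfl⟩

/-- (7) -/
theorem canon (hB : BasicStatement) (hI : Inv W) {s : ℕ} {v v' : St} (h : HE s v v') :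
    VS W s → Ex s = [] → (v = src s ∧ v' = tgt s) ∨
      ∃ j, InCl W (ow (src s) j) v ∧ (InCl W (ow (src s) j) v' ∨ ∃ i, i / 2 = j ∧
        Cone (ow (tgt s) i) v') := by
  obtain ⟨-, -, -, -, hsource, -⟩ := hB W hI.fit
  induction h with
  | top s => exact fun _ _ => Or.inl ⟨rfl, rfl⟩
  | ex s p s' v v' hp hs h ih =>
    intro _ hE
    rw [hE] at hp
    exact absurd hp List.not_mem_nil
  | ap s β s' v v' hβ hs' h ih =>
    intro hs hE
    cases hs with
    | mk x t A E α c hedge h0 hα hαv hαc hA hc hc' hE0 hEv hE' =>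
    rw [ap_sym] at hβ
    rw [src_sym, tgt_sym]
    have hrk : 0 < rk x := by
      rcases Nat.eq_zero_or_pos (rk x) with h1 | h1
      · rw [(h0 h1).1] at hβ
        exact absurd hβ List.not_mem_nil
      · exact h1
    have ha := hα hrk
    -- the states of the advice
    have hin : ∀ s'' ∈ α, InCl W (ow x 0) (tgt s'') := fun s'' h'' =>
      hI.advOwn _ _ s'' _ _ ha h'' (HE.top s'')
    have hend : InCl W (ow x 0) (endd (ow x 0) α) := by
      rcases endd_mem (ow x 0) α with h1 | ⟨s'', h1, h2⟩
      · rw [h1]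
        exact InCl.cone _ (cone_rfl _)
      · rw [h2]
        exact hin s'' h1
    -- a canonical symbol from the closure of `ow x j` to `ow t i`
    have hcan : ∀ i < 2 * sz x.1, ∀ j, i / 2 = j → InCl W (ow x j) (src (c i)) → s' = c i →
        ∃ j, InCl W (ow x j) v ∧ (InCl W (ow x j) v' ∨ ∃ i, i / 2 = j ∧ Cone (ow t i) v') := by
      intro i hi j hij hj hsc
      obtain ⟨h1, h2, -⟩ := hc' hrk i hi
      have hvs := hc hrk i hi
      rw [← hsc] at h1 h2 hj hvs
      rcases ih hvs h1 with ⟨e1, e2⟩ | ⟨j', h3, h4⟩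
      · refine ⟨j, ?_, Or.inr ⟨i, hij, ?_⟩⟩
        · rw [e1]
          exact hj
        · rw [e2, h2]
          exact cone_rfl _
      · have h5 : InCl W (ow x j) (ow (src s') j') := inCl_cone hj (cone_ow _ _)
        refine ⟨j, inCl_trans h5 h3, ?_⟩
        rcases h4 with h4 | ⟨i', -, h4⟩
        · exact Or.inl (inCl_trans h5 h4)
        · rw [h2] at h4
          exact Or.inr ⟨i, hij, cone_trans (cone_ow _ _) h4⟩
    right
    rw [hA hrk, List.mem_map] at hβ
    obtain ⟨i, hi, rfl⟩ := hβ
    rw [List.mem_range] at hi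
    have hsrc := (hc' hrk i hi).2.2
    by_cases h2 : i < 2
    · rw [if_pos h2] at hs' hsrc
      rcases List.mem_append.1 hs' with h3 | h3
      · -- a symbol of the advice
        refine ⟨0, ?_, Or.inl (hI.advOwn _ _ s' _ _ ha h3 h)⟩
        rcases hsource s' (hαv hrk s' h3) v v' h with h4 | ⟨a, b, h4, h5⟩
        · have h6 : InCl W (ow x 0) (src s') := by
            rcases src_mem (hαc hrk) h3 with h7 | ⟨s'', h7, h8⟩
            · rw [h7]
              exact InCl.cone _ (cone_rfl _)
            · rw [h8]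
              exact hin s'' h7
          exact inCl_cone h6 h4
        · exact inCl_cone (hI.advOwn _ _ s' _ _ ha h3 h4) h5
      · have h4 : s' = c i := by simpa using h3
        refine hcan i hi 0 (by omega) ?_ h4
        rw [hsrc]
        exact hend
    · rw [if_neg h2] at hs' hsrc
      have h4 : s' = c i := by simpa using hs'
      refine hcan i hi (i / 2) rfl ?_ h4
      rw [hsrc]
      exact InCl.cone _ (cone_rfl _)

end

end Pool.Agent.Lib.MP_d48993_lc.Node.Own

namespace Pool.Agent.Lib.MP_d48993_lc.Node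

/-- Module OWN (from BASIC): closures. -/
theorem own (hB : BasicStatement) : OwnStatement := by
  intro W hI
  refine ⟨fun y x h => Own.inCl_le hI.ownLt h, fun a b v => Own.inCl_trans,
    fun a b v => Own.inCl_laminar, fun z i j v hij h => Own.inCl_ow hI.ownLt hij h.1 h.2,
    fun a v v' hE h hlt => ?_, fun a v v' h e hlt => Own.inCl_same h e hlt,
    fun s hs hE v v' h => Own.canon hB hI h hs hE⟩
  cases h with
  | cone _ h => exact absurd h.1 (ne_of_gt hlt)
  | own _ w h hw => exact Own.inCl_trans hw (hI.edgeOwn v v' w hE h)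

end Pool.Agent.Lib.MP_d48993_lc.Node
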