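import Pool.Agent.Lib.MP_d48993_lc.AE.Node.LimitRel

/-!
# Project NODE (MP_d48993), module LIMIT: one stage
-/

set_option autoImplicit false

namespace Pool.Agent.Lib.MP_d48993_lc.Node.Limit

open MP_8c048d_lc (pre join RecF Sig Clo Cop Del)

/-! ### Conditions -/

theorem cle_trans {T : List ℕ → Prop} {c c' c'' : Cnd3} (h : CLe T c c') (h' : CLe T c' c'')
    (hu : ∀ e ∈ c''.2, ∀ e' ∈ c''.2, e.1 = e'.1 → e = e') : CLe T c c'' where
  px := h.px.trans h'.px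
  old := by
    intro e he
    obtain ⟨p', h1, h2⟩ := h.old e he
    obtain ⟨p'', h3, h4⟩ := h'.old _ h2
    exact ⟨p'', h1.trans h3, h4⟩
  new := by
    intro e he hne e₁ he₁ hp
    by_cases hex : ∃ e' ∈ c'.2, e'.1 = e.1
    · obtain ⟨e', he', h1⟩ := hex
      obtain ⟨p'', _, h2⟩ := h'.old e' he'
      have h3 : e = (e'.1, e'.2.1, p'') := hu e he _ h2 h1.symm
      have h4 := h.new e' he' (fun e₀ h0 => by rw [h1]; exact hne e₀ h0) e₁ he₁ (by rw [h1]; exact hp)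
      rw [h3]
      exact h4
    · push Not at hex
      obtain ⟨p', h1, h2⟩ := h.old e₁ he₁
      exact h1.trans (h'.new e he hex _ h2 hp)
  fact := by
    intro n hn s ρ hf hT
    obtain ⟨t, ht⟩ := h.px
    obtain ⟨t', ht'⟩ := h'.px
    have e1 : c''.1.drop c.1.length = t ++ t' := by
      rw [← ht', ← ht, List.append_assoc, List.drop_left]
    have e2 : c'.1.drop c.1.length = t := by rw [← ht, List.drop_left]
    have e3 : c''.1.drop c'.1.length = t' := by rw [← ht', List.drop_left]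
    rw [e1, List.mem_append] at hn
    rcases hn with hn | hn
    · obtain ⟨p, hp⟩ := h.fact n (by rw [e2]; exact hn) s ρ hf hT
      obtain ⟨p'', _, h2⟩ := h'.old _ hp
      exact ⟨p'', h2⟩
    · exact h'.fact n (by rw [e3]; exact hn) s ρ hf hT

/-! ### Data -/

theorem dext_refl (δ : Data) : DExt δ δ where
  N := le_rfl
  pub := ⟨[], by simp, by simp⟩
  prv := ⟨[], by simp, by simp⟩
  adv := ⟨[], by simp, by simp⟩
  own := ⟨[], by simp, by simp⟩

theorem adv_mem {δ : Data} {y : St} {α : List ℕ} (hy : y.1 ∈ δ.pub) (h : δ.W.adv y = some α) :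
    (y, α) ∈ δ.advL := by
  have h1 : ((δ.2.2.2.1.find? (fun p => p.1 = y)).map Prod.snd).or
    (if y.1 < δ.1 ∧ y.1 ∉ δ.2.1 then some [] else none) = some α := h
  have h2 : ¬ (y.1 < δ.1 ∧ y.1 ∉ δ.2.1) := fun h => h.2 hy
  rw [if_neg h2, Option.or_none, Option.map_eq_some_iff] at h1
  obtain ⟨p, hp, rfl⟩ := h1
  have h3 := List.find?_some hp
  have h4 := List.mem_of_find?_eq_some hp
  have h5 : p.1 = y := by simpa using h3
  subst h5
  exact h4

theorem adv_of_mem {δ : Data} (hn : (δ.advL.map Prod.fst).Nodup) {y : St} {α : List ℕ}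
    (h : (y, α) ∈ δ.advL) : δ.W.adv y = some α := by
  have key : ∀ l : List (St × List ℕ), (l.map Prod.fst).Nodup → (y, α) ∈ l →
      l.find? (fun p => p.1 = y) = some (y, α) := by
    intro l
    induction l with
    | nil => intro _ h; simp at h
    | cons p l ih =>
      intro hn h
      rw [List.map_cons, List.nodup_cons] at hn
      rw [List.find?_cons]
      by_cases hp : p.1 = y
      · have : p = (y, α) := by
          rcases List.mem_cons.1 h with h | h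
          · exact h.symm
          · exact absurd (List.mem_map.2 ⟨_, h, hp.symm⟩) hn.1
        simp [this]
      · rcases List.mem_cons.1 h with h | h
        · exact absurd (congrArg Prod.fst h.symm) hp
        · simp [hp, ih hn.2 h]
  show ((δ.2.2.2.1.find? (fun p => p.1 = y)).map Prod.snd).or _ = some α
  rw [key _ hn h]
  rfl

theorem ch_le {W : World} (hW : ∀ s, VS W s → (src s).1 < (tgt s).1) (τ : List ℕ) :
    ∀ x y, VStr W x τ y → x.1 ≤ y.1 ∧ ∀ s ∈ τ, (tgt s).1 ≤ y.1 := by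
  induction τ with
  | nil =>
    rintro x y ⟨h, _⟩
    have : x = y := h
    subst this
    exact ⟨le_rfl, by simp⟩
  | cons s τ ih =>
    rintro x y ⟨⟨h1, h2⟩, h3⟩
    obtain ⟨h4, h5⟩ := ih (tgt s) y ⟨h2, fun s' hs' => h3 s' (List.mem_cons_of_mem _ hs')⟩
    have h6 := hW s (h3 s List.mem_cons_self)
    rw [h1] at h6
    refine ⟨by omega, fun s' hs' => ?_⟩
    rcases List.mem_cons.1 hs' with rfl | h
    · exact h4
    · exact h5 s' h

theorem src_lt (hb : BasicStatement) {δ : Data} (hδ : Wf δ) (s : ℕ) (h : VS δ.W s) :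
    (src s).1 < (tgt s).1 :=
  (hδ.inv.fit _ _ ((hb δ.W hδ.inv.fit).1 s h)).2.2.1

/-- valid symbols with targets below the bound are valid in the smaller data -/
theorem vs_back (hb : BasicStatement) (hm : MonoStatement) {δ δ' : Data} (hδ : Wf δ) (hF : Full δ)
    (hδ' : Wf δ') (hE : DExt δ δ') {s : ℕ} (h : VS δ'.W s) (hs : (tgt s).1 < δ.N) : VS δ.W s := by
  refine hm.2.1 δ.N δ.W δ'.W (hm.2.2.1 δ δ' hδ hE) hδ'.inv.fit s h hs (fun v v' hv hr => ?_)
  obtain ⟨h1, _, h3, _⟩ := (hb δ'.W hδ'.inv.fit).2.2.2.1 s h v v' hv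
  obtain ⟨h4, _, h5, _⟩ := hδ'.inv.fit _ _ h1
  have hvN : v.1 < δ.N := by omega
  by_cases hp : v.1 ∈ δ.pub
  · refine hF (ow v 0) ⟨?_, ?_⟩ ⟨v, rfl⟩ hp
    · have : 0 < sz v.1 - v.2.length := hr
      show (v.2 ++ [0]).length ≤ sz v.1
      rw [List.length_append, List.length_singleton]
      omega
    · intro b hb
      have : 0 < sz v.1 - v.2.length := hr
      rcases List.mem_append.1 hb with h | h
      · exact h4.2 b h
      · rw [List.mem_singleton.1 h]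
        show 0 < sz v.1
        omega
  · show (((δ.2.2.2.1.find? (fun p => p.1 = ow v 0)).map Prod.snd).or
      (if (ow v 0).1 < δ.1 ∧ (ow v 0).1 ∉ δ.2.1 then some [] else none)).isSome
    have h6 : (ow v 0).1 < δ.1 ∧ (ow v 0).1 ∉ δ.2.1 := ⟨hvN, hp⟩
    rw [if_pos h6]
    cases (δ.2.2.2.1.find? (fun p => p.1 = ow v 0)).map Prod.snd <;> simp

theorem vstr_back (hb : BasicStatement) (hm : MonoStatement) {δ δ' : Data} (hδ : Wf δ)
    (hF : Full δ) (hδ' : Wf δ') (hE : DExt δ δ') {x y : St} {τ : List ℕ}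
    (h : VStr δ'.W x τ y) (hy : y.1 < δ.N) : VStr δ.W x τ y := by
  have h1 := (ch_le (src_lt hb hδ') τ x y h).2
  exact ⟨h.1, fun s hs => vs_back hb hm hδ hF hδ' hE (h.2 s hs) (by have := h1 s hs; omega)⟩

/-! ### The first relations -/

/-- The properties of STAGEA. -/
structure StA (Φ : ℕ → List ℕ → List ℕ) (V : ℕ → ℕ) (n : ℕ) (δ δ₁ : Data) (u : ℕ) : Prop where
  wf : Wf δ₁
  full : Full δ₁
  ext : DExt δ δ₁
  pub : δ₁.pub = δ.pub ++ [u]
  nu : δ.N ≤ u
  nsz : n ≤ sz u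
  lt : u < δ₁.N
  prv : ∀ p ∈ δ₁.prv, p ∉ δ.prv → u ≤ p.1.1
  hit : ∀ y : St, Adm y → Zero y → y.1 = u → ∃ α, δ₁.W.adv y = some α ∧
    ∀ μ, VStr δ₁.W o μ y → ∀ i < n, ∀ m < n, m ≤ (phi Φ V i (μ ++ α)).length ∨
      ∀ δ'', DExt δ₁ δ'' → Wf δ'' → Full δ'' → ∀ μ' w, VStr δ''.W (endd y α) μ' w →
        (phi Φ V i (μ ++ α ++ μ')).length < m

theorem zero_of {y : St} (h : y.2.reverse.head? = some 0) : Zero y := by
  rw [List.head?_reverse] at h
  obtain ⟨l, hl⟩ := List.getLast?_eq_some_iff.1 h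
  exact ⟨(y.1, l), by rw [ow, ← hl]⟩

theorem base_ok (hb : BasicStatement) (hm : MonoStatement) {Φ : ℕ → List ℕ → List ℕ} {V : ℕ → ℕ}
    {t : Task} {n : ℕ} {δ δ₁ δ' : Data} {u fl : ℕ} {c' : Cnd3} {ρ' : List ℕ} (hδ : Wf δ)
    (hA : StA Φ V n δ δ₁ u) (hw : Wf δ') (hf : Full δ') (he : DExt δ₁ δ') (hp : δ'.pub = δ₁.pub)
    (hpr : ∀ p ∈ δ'.prv, p ∉ δ₁.prv → u ≤ p.1.1) :
    R1 (t, n, δ, δ', u, fl, c', ρ') ∧ R2 (t, n, δ, δ', u, fl, c', ρ') ∧
      R3 Φ V (t, n, δ, δ', u, fl, c', ρ') := by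
  have hE : DExt δ δ' := hm.2.2.2.1 δ δ₁ δ' hA.ext hδ hA.wf he
  have hlt : u < δ'.N := lt_of_lt_of_le hA.lt he.N
  refine ⟨⟨⟨hw, hf, hE⟩, hp.trans hA.pub, hA.nu, hA.nsz, hlt⟩, ?_, ?_⟩
  · rintro p ⟨h1, h2⟩
    by_cases h3 : p ∈ δ₁.prv
    · exact hA.prv p h3 h2
    · exact hpr p h1 h3
  · rintro ⟨⟨y, α⟩, μ, ⟨i, m⟩, δ'', μ', w⟩ ⟨⟨hy, hz, hyu, hmem⟩, ⟨hμ, hi, hmn, hlen⟩,
      ⟨hw'', hf'', he''⟩, hμ'⟩
    have hy : Adm y := hy
    have hz : y.2.reverse.head? = some 0 := hz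
    have hyu : y.1 = u := hyu
    have hmem : (y, α) ∈ δ'.advL := hmem
    have hμ : VStr δ'.W o μ y := hμ
    have hi : i < n := hi
    have hmn : m < n := hmn
    have hlen : (phi Φ V i (μ ++ α)).length < m := hlen
    have hμ' : VStr δ''.W (endd y α) μ' w := hμ'
    show (phi Φ V i (μ ++ α ++ μ')).length < m
    obtain ⟨α₁, h1, h2⟩ := hA.hit y hy (zero_of hz) hyu
    have h3 : δ'.W.adv y = some α₁ := (hm.2.2.1 δ₁ δ' hA.wf he).adv y α₁ h1
    have h4 : δ'.W.adv y = some α := adv_of_mem hw.advNodup hmem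
    have h5 : α₁ = α := by
      rw [h3] at h4
      exact Option.some.inj h4
    subst h5
    have hyN : y.1 < δ₁.N := by rw [hyu]; exact hA.lt
    have h6 := vstr_back hb hm hA.wf hA.full hw he hμ hyN
    rcases h2 μ h6 i hi m hmn with h7 | h7
    · omega
    · exact h7 δ'' (hm.2.2.2.1 δ₁ δ' δ'' he hA.wf hw he'') hw'' hf'' μ' w hμ'

end Pool.Agent.Lib.MP_d48993_lc.Node.Limit
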