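import Pool.Agent.Lib.MP_d48993_lc.AE.Node.Interfaces

/-!
# Project NODE (MP_d48993), module STAGEA: a new public root with its advice (helper74)
-/

set_option autoImplicit false

namespace Pool.Agent.Lib.MP_d48993_lc.Node

namespace Stagea

lemma inCl_congr (W W' : World) (h : ∀ r, W'.own r = W.own r) {y x : St} (hx : InCl W y x) :
    InCl W' y x := by
  induction hx with
  | cone x h' => exact InCl.cone x h'
  | own x w hw _ ih => exact InCl.own x w (by rw [h]; exact hw) ih

lemma vstr_append (hC : CodesStatement) {W : World} {x : St} {σ τ : List ℕ} {z : St} :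
    VStr W x (σ ++ τ) z ↔ VStr W x σ (endd x σ) ∧ VStr W (endd x σ) τ z := by
  obtain ⟨-, -, -, -, -, -, -, -, -, -, -, h2, -⟩ := hC
  constructor
  · rintro ⟨h, h'⟩
    rw [h2] at h
    exact ⟨⟨h.1, fun s hs => h' s (List.mem_append_left _ hs)⟩,
      ⟨h.2, fun s hs => h' s (List.mem_append_right _ hs)⟩⟩
  · rintro ⟨⟨h, h'⟩, ⟨k, k'⟩⟩
    refine ⟨(h2 _ _ _ _).2 ⟨h, k⟩, fun s hs => ?_⟩
    rcases List.mem_append.1 hs with hs | hs
    · exact h' s hs
    · exact k' s hs

lemma endd_append (hC : CodesStatement) (x : St) (σ τ : List ℕ) :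
    endd x (σ ++ τ) = endd (endd x σ) τ := by
  obtain ⟨-, -, -, -, -, -, -, -, -, -, -, -, h3⟩ := hC
  exact h3 x σ τ

lemma vstr_end (hC : CodesStatement) {W : World} {x : St} {σ : List ℕ} {z : St}
    (h : VStr W x σ z) : z = endd x σ := by
  obtain ⟨-, -, -, -, -, -, -, -, -, -, h1, -, -⟩ := hC
  exact h1 x σ z h.1

/-! ## Data -/

lemma find_none {l : List (St × List ℕ)} {y : St} :
    l.find? (fun p => decide (p.1 = y)) = none ↔ ∀ q ∈ l, q.1 ≠ y := by
  rw [List.find?_eq_none]
  constructor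
  · intro h q hq hy
    exact h q hq (decide_eq_true hy)
  · intro h q hq hy
    exact h q hq (of_decide_eq_true hy)

lemma adv_cases {δ : Data} {y : St} {α : List ℕ} (h : δ.W.adv y = some α) :
    ((∃ p ∈ δ.advL, p.1 = y) ∧
      (δ.advL.find? (fun p => decide (p.1 = y))).map Prod.snd = some α) ∨
    (α = [] ∧ (∀ q ∈ δ.advL, q.1 ≠ y) ∧ y.1 < δ.N ∧ y.1 ∉ δ.pub) := by
  change ((δ.advL.find? (fun p => decide (p.1 = y))).map Prod.snd).or
    (if y.1 < δ.1 ∧ y.1 ∉ δ.2.1 then some [] else none) = some α at h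
  rcases hf : δ.advL.find? (fun p => decide (p.1 = y)) with _ | p
  · rw [hf] at h
    right
    by_cases hc : y.1 < δ.1 ∧ y.1 ∉ δ.2.1
    · rw [if_pos hc] at h
      have h' : some ([] : List ℕ) = some α := h
      exact ⟨(Option.some.inj h').symm, find_none.1 hf, hc.1, hc.2⟩
    · rw [if_neg hc] at h
      have h' : (none : Option (List ℕ)) = some α := h
      exact absurd h' (by simp)
  · rw [hf] at h
    left
    have h' : some p.2 = some α := h
    refine ⟨⟨p, List.mem_of_find?_eq_some hf, ?_⟩, by rw [hf]; exact h'⟩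
    exact of_decide_eq_true (List.find?_some (p := fun p : St × List ℕ => decide (p.1 = y)) hf)

lemma adv_none {δ : Data} {y : St} (h : δ.W.adv y = none) : ∀ q ∈ δ.advL, q.1 ≠ y := by
  change ((δ.advL.find? (fun p => decide (p.1 = y))).map Prod.snd).or
    (if y.1 < δ.1 ∧ y.1 ∉ δ.2.1 then some [] else none) = none at h
  rcases hf : δ.advL.find? (fun p => decide (p.1 = y)) with _ | p
  · exact find_none.1 hf
  · rw [hf] at h
    have h' : some p.2 = none := h
    exact absurd h' (by simp)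

lemma adv_none_of {δ : Data} {y : St} (h : ∀ q ∈ δ.advL, q.1 ≠ y) (h' : y.1 ∈ δ.pub) :
    δ.W.adv y = none := by
  change ((δ.advL.find? (fun p => decide (p.1 = y))).map Prod.snd).or
    (if y.1 < δ.1 ∧ y.1 ∉ δ.2.1 then some [] else none) = none
  rw [find_none.2 h, if_neg (fun hc => hc.2 h')]
  rfl

lemma adv_default {δ : Data} {y : St} (h : y.1 < δ.N) (h' : y.1 ∉ δ.pub) :
    (δ.W.adv y).isSome := by
  change (((δ.advL.find? (fun p => decide (p.1 = y))).map Prod.snd).or
    (if y.1 < δ.1 ∧ y.1 ∉ δ.2.1 then some [] else none)).isSome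
  rw [if_pos ⟨h, h'⟩]
  rcases hf : δ.advL.find? (fun p => decide (p.1 = y)) with _ | p
  · rw [hf]; rfl
  · rw [hf]; rfl

/-- Add the public root `u`. -/
def addRoot (δ : Data) (u : ℕ) : Data :=
  (u + 1, δ.2.1 ++ [u], δ.2.2.1, δ.2.2.2.1, δ.2.2.2.2)

/-- Define the advice of `y`. -/
def addAdv (δ : Data) (y : St) (α : List ℕ) : Data :=
  (δ.1, δ.2.1, δ.2.2.1, δ.2.2.2.1 ++ [(y, α)], δ.2.2.2.2)

lemma addAdv_self {δ : Data} {y : St} {α : List ℕ} (h : δ.W.adv y = none) :
    (addAdv δ y α).W.adv y = some α := by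
  change (((δ.advL ++ [(y, α)]).find? (fun p => decide (p.1 = y))).map Prod.snd).or
    (if y.1 < δ.1 ∧ y.1 ∉ δ.2.1 then some [] else none) = some α
  rw [List.find?_append, find_none.2 (adv_none h)]
  simp

lemma addAdv_ne {δ : Data} {y z : St} {α : List ℕ} (h : z ≠ y) :
    (addAdv δ y α).W.adv z = δ.W.adv z := by
  change (((δ.advL ++ [(y, α)]).find? (fun p => decide (p.1 = z))).map Prod.snd).or
    (if z.1 < δ.1 ∧ z.1 ∉ δ.2.1 then some [] else none) =
    ((δ.advL.find? (fun p => decide (p.1 = z))).map Prod.snd).or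
    (if z.1 < δ.1 ∧ z.1 ∉ δ.2.1 then some [] else none)
  rw [List.find?_append]
  have h1 : [(y, α)].find? (fun p => decide (p.1 = z)) = none := by
    rw [find_none]
    intro q hq
    rw [List.mem_singleton] at hq
    rw [hq]
    exact fun h' => h h'.symm
  rw [h1, Option.or_none]

lemma dext_refl (δ : Data) : DExt δ δ :=
  ⟨le_refl _, ⟨[], (List.append_nil _).symm, fun r hr => absurd hr List.not_mem_nil⟩,
    ⟨[], (List.append_nil _).symm, fun r hr => absurd hr List.not_mem_nil⟩,
    ⟨[], (List.append_nil _).symm, fun r hr => absurd hr List.not_mem_nil⟩,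
    ⟨[], (List.append_nil _).symm, fun r hr => absurd hr List.not_mem_nil⟩⟩

lemma dext_addAdv {δ : Data} {y : St} {α : List ℕ} (h : δ.W.adv y = none) (hy : y.1 ∈ δ.pub)
    (hz : Zero y) : DExt δ (addAdv δ y α) := by
  refine ⟨le_refl _, ⟨[], (List.append_nil _).symm, fun r hr => absurd hr List.not_mem_nil⟩,
    ⟨[], (List.append_nil _).symm, fun r hr => absurd hr List.not_mem_nil⟩,
    ⟨[(y, α)], rfl, fun p hp => ?_⟩,
    ⟨[], (List.append_nil _).symm, fun r hr => absurd hr List.not_mem_nil⟩⟩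
  rw [List.mem_singleton] at hp
  rw [hp]
  exact Or.inr ⟨hy, hz, adv_none h⟩

lemma vs_mono (hM : MonoStatement) {δ δ' : Data} (hw : Wf δ) (h : DExt δ δ') {s : ℕ}
    (hs : VS δ.W s) : VS δ'.W s :=
  hM.1 δ.N δ.W δ'.W (hM.2.2.1 δ δ' hw h) (fun _ _ he => he.2.1) s hs

lemma vstr_mono (hM : MonoStatement) {δ δ' : Data} (hw : Wf δ) (h : DExt δ δ') {x y : St}
    {τ : List ℕ} (hs : VStr δ.W x τ y) : VStr δ'.W x τ y :=
  ⟨hs.1, fun s hs' => vs_mono hM hw h (hs.2 s hs')⟩

lemma wf_addAdv (hM : MonoStatement) {δ : Data} {y : St} {α : List ℕ} (hw : Wf δ)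
    (h : δ.W.adv y = none) (hy : y.1 ∈ δ.pub) (hz : Zero y) (ha : Adm y)
    (hv : VStr δ.W y α (endd y α)) (ho : ∀ s ∈ α, ∀ v v', HE s v v' → InCl δ.W y v') :
    Wf (addAdv δ y α) := by
  have he := dext_addAdv (α := α) h hy hz
  refine ⟨hw.pos, hw.zero, hw.pub, hw.prv, ?_, ?_, hw.own, hw.ownNodup, ?_⟩
  · intro p hp
    rcases List.mem_append.1 hp with hp | hp
    · exact hw.adv p hp
    · rw [List.mem_singleton] at hp
      rw [hp]
      exact hw.pub _ hy
  · change ((δ.advL ++ [(y, α)]).map Prod.fst).Nodup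
    rw [List.map_append, List.nodup_append]
    refine ⟨hw.advNodup, by simp, ?_⟩
    intro a ha' b hb hab
    rw [List.map_cons, List.map_nil, List.mem_singleton] at hb
    obtain ⟨q, hq, hqa⟩ := List.mem_map.1 ha'
    exact adv_none h q hq (by rw [hqa, hab, hb])
  · refine ⟨hw.inv.fit, ?_, ?_, hw.inv.ownLt, ?_, ?_⟩
    · intro z β hz' hβ
      by_cases hzy : z = y
      · obtain ⟨x, hx⟩ := hz
        exact ⟨x, by rw [hzy]; exact hx, by rw [hzy]; exact ha⟩
      · rw [addAdv_ne hzy] at hz'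
        exact hw.inv.advForm z β hz' hβ
    · intro z β hz'
      by_cases hzy : z = y
      · rw [hzy, addAdv_self h] at hz'
        rw [← Option.some.inj hz', hzy]
        exact vstr_mono hM hw he hv
      · rw [addAdv_ne hzy] at hz'
        exact vstr_mono hM hw he (hw.inv.advValid z β hz')
    · intro x t w hx ht
      exact inCl_congr δ.W (addAdv δ y α).W (fun _ => rfl) (hw.inv.edgeOwn x t w hx ht)
    · intro z β s v v' hz' hs hh
      by_cases hzy : z = y
      · rw [hzy, addAdv_self h] at hz'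
        rw [← Option.some.inj hz'] at hs
        rw [hzy]
        exact inCl_congr δ.W (addAdv δ y α).W (fun _ => rfl) (ho s hs v v' hh)
      · rw [addAdv_ne hzy] at hz'
        exact inCl_congr δ.W (addAdv δ y α).W (fun _ => rfl) (hw.inv.advOwn z β s v v' hz' hs hh)

lemma dext_addRoot {δ : Data} {u : ℕ} (hu : δ.N ≤ u) : DExt δ (addRoot δ u) := by
  refine ⟨Nat.le_succ_of_le hu, ⟨[u], rfl, fun r hr => ?_⟩,
    ⟨[], (List.append_nil _).symm, fun r hr => absurd hr List.not_mem_nil⟩,
    ⟨[], (List.append_nil _).symm, fun r hr => absurd hr List.not_mem_nil⟩,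
    ⟨[], (List.append_nil _).symm, fun r hr => absurd hr List.not_mem_nil⟩⟩
  rw [List.mem_singleton] at hr
  rw [hr]
  exact hu

lemma own_mem {δ : Data} {r : ℕ} {w : St} (h : δ.W.own r = some w) : ∃ p ∈ δ.ownL, p.1 = r := by
  change (δ.ownL.find? (fun p => decide (p.1 = r))).map Prod.snd = some w at h
  rcases hf : δ.ownL.find? (fun p => decide (p.1 = r)) with _ | p
  · rw [hf] at h
    have h' : (none : Option St) = some w := h
    exact absurd h' (by simp)
  · exact ⟨p, List.mem_of_find?_eq_some hf,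
      of_decide_eq_true (List.find?_some (p := fun p : ℕ × St => decide (p.1 = r)) hf)⟩

lemma wf_addRoot (hM : MonoStatement) {δ : Data} {u : ℕ} (hw : Wf δ) (hu : δ.N ≤ u) :
    Wf (addRoot δ u) := by
  have he := dext_addRoot hu
  have hadv : ∀ z α, (addRoot δ u).W.adv z = some α → δ.W.adv z = some α ∨ α = [] := by
    intro z α hz
    rcases adv_cases hz with ⟨-, h2⟩ | ⟨h1, -⟩
    · left
      have h3 : (δ.advL.find? (fun p => decide (p.1 = z))).map Prod.snd = some α := h2
      change ((δ.advL.find? (fun p => decide (p.1 = z))).map Prod.snd).or _ = some α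
      rw [h3]
      rfl
    · exact Or.inr h1
  refine ⟨Nat.succ_pos u, ?_, ?_, ?_, ?_, hw.advNodup, ?_, hw.ownNodup, ?_⟩
  · intro h
    rcases List.mem_append.1 h with h | h
    · exact hw.zero h
    · rw [List.mem_singleton] at h
      have := hw.pos
      omega
  · intro r hr
    rcases List.mem_append.1 hr with h | h
    · exact Nat.lt_succ_of_lt (lt_of_lt_of_le (hw.pub r h) hu)
    · rw [List.mem_singleton] at h
      rw [h]
      exact Nat.lt_succ_self u
  · intro p hp
    obtain ⟨h1, h2, h3⟩ := hw.prv p hp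
    refine ⟨h1, Nat.lt_succ_of_lt (lt_of_lt_of_le h2 hu), fun h => ?_⟩
    rcases List.mem_append.1 h with h | h
    · exact h3 h
    · rw [List.mem_singleton] at h
      omega
  · intro p hp
    exact Nat.lt_succ_of_lt (lt_of_lt_of_le (hw.adv p hp) hu)
  · intro p hp
    obtain ⟨h1, h2⟩ := hw.own p hp
    refine ⟨Nat.lt_succ_of_lt (lt_of_lt_of_le h1 hu), fun h => ?_⟩
    rcases List.mem_append.1 h with h | h
    · exact h2 h
    · rw [List.mem_singleton] at h
      omega
  · refine ⟨fun x t h => h.1, ?_, ?_, hw.inv.ownLt, ?_, ?_⟩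
    · intro z α hz hα
      rcases hadv z α hz with h | h
      · exact hw.inv.advForm z α h hα
      · exact absurd h hα
    · intro z α hz
      rcases hadv z α hz with h | h
      · exact vstr_mono hM hw he (hw.inv.advValid z α h)
      · rw [h]
        exact ⟨rfl, fun s hs => absurd hs List.not_mem_nil⟩
    · intro x t w hx ht
      obtain ⟨p, hp, hpt⟩ := own_mem (δ := δ) ht
      obtain ⟨h1, h2⟩ := hw.own p hp
      rw [hpt] at h1 h2
      have hx' : δ.W.edge x t := by
        refine ⟨hx.1, h1, ?_⟩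
        rcases hx.2.2 with h | h
        · rcases List.mem_append.1 h with h | h
          · exact absurd h h2
          · rw [List.mem_singleton] at h
            exact absurd (h ▸ h1 : u < δ.N) (not_lt.2 hu)
        · exact Or.inr h
      exact inCl_congr δ.W (addRoot δ u).W (fun _ => rfl) (hw.inv.edgeOwn x t w hx' ht)
    · intro z α s v v' hz hs hh
      rcases hadv z α hz with h | h
      · exact inCl_congr δ.W (addRoot δ u).W (fun _ => rfl) (hw.inv.advOwn z α s v v' h hs hh)
      · rw [h] at hs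
        exact absurd hs List.not_mem_nil

/-! ## Locality -/

lemma tgt_le {W : World} (hlt : ∀ s, VS W s → (src s).1 < (tgt s).1) :
    ∀ (μ : List ℕ) (x y : St), VStr W x μ y → x.1 ≤ y.1 ∧ ∀ s ∈ μ, (tgt s).1 ≤ y.1 := by
  intro μ
  induction μ with
  | nil =>
    intro x y h
    have : x = y := h.1
    exact ⟨by rw [this], fun s hs => absurd hs List.not_mem_nil⟩
  | cons s μ ih =>
    intro x y h
    obtain ⟨h1, h2⟩ : src s = x ∧ Ch (tgt s) μ y := h.1
    obtain ⟨h3, h4⟩ := ih (tgt s) y ⟨h2, fun s' hs' => h.2 s' (List.mem_cons_of_mem _ hs')⟩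
    have h5 := hlt s (h.2 s List.mem_cons_self)
    rw [h1] at h5
    refine ⟨h5.le.trans h3, fun s' hs' => ?_⟩
    rcases List.mem_cons.1 hs' with rfl | hs'
    · exact h3
    · exact h4 s' hs'

lemma loc (hB : BasicStatement) (hM : MonoStatement) {D D1 : Data} {u : ℕ} (hw : Wf D)
    (hw1 : Wf D1) (he : DExt D D1) (hlt : u < D.N)
    (hadv : ∀ v, Adm v → 0 < rk v → v.1 < u → (D.W.adv (ow v 0)).isSome) (μ : List ℕ) (x y : St)
    (hy : y.1 ≤ u) (h : VStr D1.W x μ y) : VStr D.W x μ y := by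
  obtain ⟨hb1, -, -, hb4, -⟩ := hB D1.W hw1.inv.fit
  have h1 := (tgt_le (fun s hs => (hw1.inv.fit _ _ (hb1 s hs)).2.2.1) μ x y h).2
  refine ⟨h.1, fun s hs => ?_⟩
  refine hM.2.1 D.N D.W D1.W (hM.2.2.1 D D1 hw he) hw1.inv.fit s (h.2 s hs)
    (lt_of_le_of_lt ((h1 s hs).trans hy) hlt) ?_
  intro v v' hh hr
  obtain ⟨h2, -, h3, -⟩ := hb4 s (h.2 s hs) v v' hh
  have h4 := hw1.inv.fit _ _ h2
  exact hadv v h4.1 hr (lt_of_lt_of_le h4.2.2.1 (h3.trans ((h1 s hs).trans hy)))

lemma adm_ow {v : St} (h : Adm v) (hr : 0 < rk v) : Adm (ow v 0) := by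
  unfold rk at hr
  refine ⟨?_, ?_⟩
  · change (v.2 ++ [0]).length ≤ sz v.1
    rw [List.length_append, List.length_singleton]
    omega
  · intro b hb
    change b < sz v.1
    rcases List.mem_append.1 (show b ∈ v.2 ++ [0] from hb) with hb | hb
    · exact h.2 b hb
    · rw [List.mem_singleton] at hb
      omega

/-! ## The invariants -/

/-- The advice of `y` after the string `μ`. -/
def Q (φ : ℕ → List ℕ → List ℕ) (D : Data) (y : St) (α : List ℕ) (t : List ℕ × ℕ × ℕ) : Prop :=
  t.2.2 ≤ (φ t.2.1 (t.1 ++ α)).length ∨ ∀ δ'', DExt D δ'' → Wf δ'' → Full δ'' → ∀ μ' w,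
    VStr δ''.W (endd y α) μ' w → (φ t.2.1 (t.1 ++ α ++ μ')).length < t.2.2

lemma q_mono (hC : CodesStatement) (hM : MonoStatement) {φ : ℕ → List ℕ → List ℕ}
    (hφ : ∀ i, Mon (φ i)) {D D' : Data} {y : St} {α β : List ℕ} {t : List ℕ × ℕ × ℕ}
    (hw : Wf D) (hw' : Wf D') (he : DExt D D') (hβ : VStr D'.W (endd y α) β (endd y (α ++ β)))
    (h : Q φ D y α t) : Q φ D' y (α ++ β) t := by
  rcases h with h | h
  · left
    refine h.trans ?_
    have := hφ t.2.1 (t.1 ++ α) (t.1 ++ (α ++ β)) (by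
      rw [← List.append_assoc]; exact List.prefix_append _ _)
    exact this.length_le
  · right
    intro δ'' h1 h2 h3 μ' w hμ
    have h4 := h δ'' (hM.2.2.2.1 D D' δ'' he hw hw' h1) h2 h3 (β ++ μ') w (by
      rw [vstr_append hC, ← endd_append hC]
      exact ⟨vstr_mono hM hw' h1 hβ, hμ⟩)
    rw [← List.append_assoc, List.append_assoc t.1 α β] at h4
    exact h4

/-- The state `y` has a good advice. -/
def P (φ : ℕ → List ℕ → List ℕ) (n : ℕ) (D : Data) (y : St) : Prop :=
  ∃ α, D.W.adv y = some α ∧ ∀ μ, VStr D.W o μ y → ∀ i < n, ∀ m < n, Q φ D y α (μ, i, m)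

structure Iv (φ : ℕ → List ℕ → List ℕ) (δ : Data) (n u : ℕ) (S S' : Set St) (D : Data) :
    Prop where
  wf : Wf D
  ext : DExt δ D
  pub : D.pub = δ.pub ++ [u]
  lt : u < D.N
  prv : ∀ p ∈ D.prv, p ∉ δ.prv → u ≤ p.1.1
  adv0 : ∀ y, Adm y → Zero y → y.1 = u → y ∉ S → D.W.adv y = none
  own : ∀ r, u < r → r < D.N → ∃ w, D.W.own r = some w ∧ (u < w.1 ∨ w ∈ S')
  hit : ∀ y ∈ S, P φ n D y

lemma hadv (hM : MonoStatement) {δ D : Data} {u : ℕ} (hw : Wf δ) (hf : Full δ) (he : DExt δ D)
    (hp : D.pub = δ.pub ++ [u]) (hlt : u < D.N) (v : St) (h1 : Adm v) (h2 : 0 < rk v)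
    (h3 : v.1 < u) : (D.W.adv (ow v 0)).isSome := by
  by_cases hv : v.1 ∈ δ.pub
  · have h4 := hf (ow v 0) (adm_ow h1 h2) ⟨v, rfl⟩ hv
    obtain ⟨α, hα⟩ := Option.isSome_iff_exists.1 h4
    rw [(hM.2.2.1 δ D hw he).adv _ _ hα]
    rfl
  · refine adv_default (y := ow v 0) (h3.trans hlt) ?_
    rw [hp]
    intro h
    rcases List.mem_append.1 h with h | h
    · exact hv h
    · rw [List.mem_singleton] at h
      have : v.1 = u := h
      omega

lemma p_mono (hC : CodesStatement) (hB : BasicStatement) (hM : MonoStatement)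
    {φ : ℕ → List ℕ → List ℕ} (hφ : ∀ i, Mon (φ i)) {δ D D1 : Data} {n u : ℕ} {y : St}
    (hwδ : Wf δ) (hf : Full δ) (heδ : DExt δ D) (hp : D.pub = δ.pub ++ [u]) (hlt : u < D.N)
    (hw : Wf D) (hw1 : Wf D1) (he : DExt D D1) (hy : y.1 = u) (h : P φ n D y) :
    P φ n D1 y := by
  obtain ⟨α, h1, h2⟩ := h
  refine ⟨α, (hM.2.2.1 D D1 hw he).adv _ _ h1, fun μ hμ i hi m hm => ?_⟩
  have h3 := h2 μ (loc hB hM hw hw1 he hlt (hadv hM hwδ hf heδ hp hlt) μ o y hy.le hμ) i hi m hm
  have h4 := q_mono hC hM hφ (β := []) hw hw1 he (by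
    rw [List.append_nil]
    exact ⟨rfl, fun s hs => absurd hs List.not_mem_nil⟩) h3
  rw [List.append_nil] at h4
  exact h4

/-! ## The advice of one state -/

lemma inner (hC : CodesStatement) (hA : AdoptAStatement) (hM : MonoStatement)
    (hB : BasicStatement) {φ : ℕ → List ℕ → List ℕ} (hφ : ∀ i, Mon (φ i)) {δ : Data} {n u : ℕ}
    (hwδ : Wf δ) (hf : Full δ) {S : Set St} {y : St} (hSA : ∀ w ∈ S, w.1 = u)
    (hya : Adm y) (hyz : Zero y) (hyu : y.1 = u) (hyS : y ∉ S)
    (hup : ∀ y', Adm y' → Zero y' → y'.1 = u → y.2.length < y'.2.length → y' ∈ S)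
    (hle : ∀ w ∈ S, y.2.length ≤ w.2.length) :
    ∀ (L : List (List ℕ × ℕ × ℕ)) (D : Data) (α : List ℕ), Iv φ δ n u S (insert y S) D →
      VStr D.W y α (endd y α) → (∀ s ∈ α, ∀ v v', HE s v v' → InCl D.W y v') →
      ∃ (D' : Data) (β : List ℕ), Iv φ δ n u S (insert y S) D' ∧ DExt D D' ∧
        VStr D'.W (endd y α) β (endd y (α ++ β)) ∧
        (∀ s ∈ α ++ β, ∀ v v', HE s v v' → InCl D'.W y v') ∧ ∀ t ∈ L, Q φ D' y (α ++ β) t := by
  intro L
  induction L with
  | nil =>
    intro D α hI hα hα'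
    refine ⟨D, [], hI, dext_refl D, ?_, ?_, fun t ht => absurd ht List.not_mem_nil⟩
    · rw [List.append_nil]
      exact ⟨rfl, fun s hs => absurd hs List.not_mem_nil⟩
    · rw [List.append_nil]; exact hα'
  | cons t L ih =>
    intro D α hI hα hα'
    have step : ∃ (D1 : Data) (β : List ℕ), Iv φ δ n u S (insert y S) D1 ∧ DExt D D1 ∧
        VStr D1.W (endd y α) β (endd y (α ++ β)) ∧
        (∀ s ∈ α ++ β, ∀ v v', HE s v v' → InCl D1.W y v') ∧ Q φ D1 y (α ++ β) t := by
      by_cases hQ : Q φ D y α t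
      · refine ⟨D, [], hI, dext_refl D, ?_, ?_, ?_⟩
        · rw [List.append_nil]
          exact ⟨rfl, fun s hs => absurd hs List.not_mem_nil⟩
        · rw [List.append_nil]; exact hα'
        · rw [List.append_nil]; exact hQ
      · unfold Q at hQ
        push Not at hQ
        obtain ⟨-, δ'', h1, h2, h3, μ', w, h4, h5⟩ := hQ
        have hpub : y.1 ∈ D.pub := by
          rw [hI.pub, hyu]
          exact List.mem_append_right _ (List.mem_singleton.2 rfl)
        have hlong : ∀ y', Adm y' → Zero y' → Cone y y' → y' ≠ y → (D.W.adv y').isSome := by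
          intro y' k1 k2 k3 k4
          have k5 : y.2.length < y'.2.length := by
            refine lt_of_le_of_ne k3.2.length_le fun hlen => k4 ?_
            exact Prod.ext k3.1 (k3.2.eq_of_length hlen).symm
          obtain ⟨β, hβ, -⟩ := hI.hit y' (hup y' k1 k2 (k3.1.trans hyu) k5)
          rw [hβ]; rfl
        have hown : ∀ r, y.1 < r → r < D.N → ∃ w, D.W.own r = some w ∧ y.1 ≤ w.1 ∧
            (Cone w y → w = y) := by
          intro r k1 k2
          rw [hyu] at k1
          obtain ⟨w, k3, k4⟩ := hI.own r k1 k2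
          refine ⟨w, k3, ?_, ?_⟩
          · rcases k4 with k4 | k4
            · rw [hyu]; exact k4.le
            · rcases k4 with k4 | k4
              · rw [k4]
              · rw [hyu, hSA w k4]
          · intro k5
            rcases k4 with k4 | k4
            · have := k5.1
              omega
            · rcases k4 with k4 | k4
              · exact k4
              · have k6 := hle w k4
                have k7 := k5.2.length_le
                exact Prod.ext k5.1.symm (k5.2.eq_of_length (le_antisymm k7 k6))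
        obtain ⟨D1, m1, m2, m3, m4, m5, m6, m7, m8⟩ := hA D y α hI.wf hya hyz hpub
          (hI.adv0 y hya hyz hyu hyS) hlong hown hα hα' δ'' h2 h3 h1 μ' w h4
        have hE := hM.2.2.1 D D1 hI.wf m2
        have hend : w = endd y (α ++ μ') := by
          rw [endd_append hC]
          exact vstr_end hC m4
        rw [hend] at m4
        refine ⟨D1, μ', ?_, m2, m4, ?_, ?_⟩
        · refine ⟨m1, hM.2.2.2.1 δ D D1 hI.ext hwδ hI.wf m2, ?_, ?_, ?_, ?_, ?_, ?_⟩
          · rw [m3]; exact hI.pub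
          · exact lt_of_lt_of_le hI.lt m2.N
          · intro p hp hp'
            by_cases hpD : p ∈ D.prv
            · exact hI.prv p hpD hp'
            · have := m6 p hp hpD
              rw [hyu] at this
              exact this
          · intro y' k1 k2 k3 k4
            refine adv_none_of ?_ ?_
            · intro q hq hqy
              by_cases hqD : q ∈ D.advL
              · exact adv_none (hI.adv0 y' k1 k2 k3 k4) q hqD hqy
              · have k5 := m7 q hq hqD
                rw [hqy, k3] at k5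
                exact absurd hI.lt (not_lt.2 k5)
            · rw [m3, hI.pub, k3]
              exact List.mem_append_right _ (List.mem_singleton.2 rfl)
          · intro r k1 k2
            by_cases hr : r < D.N
            · obtain ⟨w', k3, k4⟩ := hI.own r k1 hr
              exact ⟨w', by rw [hE.own r hr]; exact k3, k4⟩
            · rcases m8 r (not_lt.1 hr) k2 with k3 | ⟨w', k3, k4⟩
              · exact ⟨y, k3, Or.inr (Set.mem_insert _ _)⟩
              · exact ⟨w', k3, Or.inl (lt_of_lt_of_le hI.lt k4)⟩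
          · intro y' hy'
            exact p_mono hC hB hM hφ hwδ hf hI.ext hI.pub hI.lt hI.wf m1 m2 (hSA y' hy')
              (hI.hit y' hy')
        · intro s hs v v' hh
          rcases List.mem_append.1 hs with hs | hs
          · by_cases hv : v'.1 < D.N
            · exact (hM.2.2.2.2 D D1 hI.wf m1 m2 y v' hv).1 (hα' s hs v v' hh)
            · obtain ⟨hb1, -, -, hb4, -⟩ := hB D.W hI.wf.inv.fit
              exact absurd (hb4 s (hα.2 s hs) v v' hh).1.2.1 hv
          · exact m5 s hs v v' hh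
        · left
          rw [← List.append_assoc]
          exact h5
    obtain ⟨D1, β1, h1, h2, h3, h4, h5⟩ := step
    have h6 : VStr D1.W y (α ++ β1) (endd y (α ++ β1)) := by
      rw [vstr_append hC]
      exact ⟨vstr_mono hM hI.wf h2 hα, h3⟩
    obtain ⟨D', β2, k1, k2, k3, k4, k5⟩ := ih D1 (α ++ β1) h1 h6 h4
    refine ⟨D', β1 ++ β2, k1, hM.2.2.2.1 D D1 D' h2 hI.wf h1.wf k2, ?_, ?_, ?_⟩
    · rw [vstr_append hC, ← endd_append hC, ← List.append_assoc]
      exact ⟨vstr_mono hM h1.wf k2 h3, k3⟩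
    · rw [← List.append_assoc]; exact k4
    · intro t' ht'
      rw [← List.append_assoc]
      rcases List.mem_cons.1 ht' with rfl | ht'
      · exact q_mono hC hM hφ h1.wf k1.wf k2 k3 h5
      · exact k5 t' ht'

lemma finite_adm (u : ℕ) : {y : St | Adm y ∧ y.1 = u}.Finite := by
  have h1 : ({l : List (Fin (sz u)) | l.length ≤ sz u}).Finite := List.finite_length_le _ _
  refine (h1.image (fun l => ((u, l.map Fin.val) : St))).subset ?_
  rintro y ⟨⟨h2, h3⟩, h4⟩
  rw [h4] at h2 h3
  have h5 : ∀ l : List ℕ, (∀ b ∈ l, b < sz u) → ∃ l' : List (Fin (sz u)), l'.map Fin.val = l := by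
    intro l
    induction l with
    | nil => exact fun _ => ⟨[], rfl⟩
    | cons a l ih =>
      intro h
      obtain ⟨l', hl'⟩ := ih (fun b hb => h b (List.mem_cons_of_mem _ hb))
      exact ⟨⟨a, h a List.mem_cons_self⟩ :: l', by rw [List.map_cons, hl']⟩
  obtain ⟨l', hl'⟩ := h5 y.2 h3
  refine ⟨l', ?_, ?_⟩
  · change l'.length ≤ sz u
    rw [← List.length_map (f := Fin.val), hl']
    exact h2
  · exact Prod.ext h4.symm hl'

lemma outer (hC : CodesStatement) (hA : AdoptAStatement) (hF : FinvStatement)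
    (hM : MonoStatement) (hB : BasicStatement) {φ : ℕ → List ℕ → List ℕ} (hφ : ∀ i, Mon (φ i))
    {δ : Data} {n u : ℕ} (hwδ : Wf δ) (hf : Full δ) (A : Set St)
    (hAd : A = {y | (Adm y ∧ y.1 = u) ∧ Zero y}) :
    ∀ (k : ℕ) (S : Set St) (D : Data), (A \ S).ncard = k → S ⊆ A →
      (∀ y ∈ S, ∀ y' ∈ A, y.2.length < y'.2.length → y' ∈ S) → Iv φ δ n u S S D →
      ∃ D', Iv φ δ n u A A D' := by
  have hAf : A.Finite := by
    rw [hAd]
    exact (finite_adm u).subset fun y hy => hy.1
  intro k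
  induction k with
  | zero =>
    intro S D hk hS _ hI
    have h1 : A \ S = ∅ := (Set.ncard_eq_zero (hAf.subset Set.sdiff_subset)).1 hk
    have h2 : S = A := Set.Subset.antisymm hS (Set.sdiff_eq_empty.1 h1)
    rw [h2] at hI
    exact ⟨D, hI⟩
  | succ k ih =>
    intro S D hk hS hup hI
    have hne : (A \ S).Nonempty := by
      rw [Set.nonempty_iff_ne_empty]
      intro h
      rw [h, Set.ncard_empty] at hk
      omega
    obtain ⟨y, hy, hmax⟩ := Set.exists_max_image (A \ S) (fun z : St => z.2.length)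
      (hAf.subset Set.sdiff_subset) hne
    have hyA : (Adm y ∧ y.1 = u) ∧ Zero y := by
      have := hy.1
      rw [hAd] at this
      exact this
    have hSA : ∀ w ∈ S, w.1 = u := by
      intro w hw
      have := hS hw
      rw [hAd] at this
      exact this.1.2
    have hup' : ∀ y', Adm y' → Zero y' → y'.1 = u → y.2.length < y'.2.length → y' ∈ S := by
      intro y' h1 h2 h3 h4
      by_contra h5
      have h6 : y' ∈ A := by rw [hAd]; exact ⟨⟨h1, h3⟩, h2⟩
      exact absurd (hmax y' ⟨h6, h5⟩) (not_le.2 h4)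
    have hle : ∀ w ∈ S, y.2.length ≤ w.2.length := by
      intro w hw
      by_contra h
      exact hy.2 (hup w hw y hy.1 (not_le.1 h))
    have hI' : Iv φ δ n u S (insert y S) D := by
      refine ⟨hI.wf, hI.ext, hI.pub, hI.lt, hI.prv, hI.adv0, ?_, hI.hit⟩
      intro r h1 h2
      obtain ⟨w, h3, h4⟩ := hI.own r h1 h2
      exact ⟨w, h3, h4.imp_right (Set.mem_insert_of_mem _)⟩
    have hfin : {μ | VStr D.W o μ y}.Finite := (hF D).2 o y
    obtain ⟨L, hL⟩ : ∃ L : List (List ℕ × ℕ × ℕ), ∀ μ, VStr D.W o μ y → ∀ i < n, ∀ m < n,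
        (μ, i, m) ∈ L := by
      refine ⟨(hfin.toFinset ×ˢ Finset.range n ×ˢ Finset.range n).toList, ?_⟩
      intro μ hμ i hi m hm
      rw [Finset.mem_toList, Finset.mem_product, Finset.mem_product]
      exact ⟨hfin.mem_toFinset.2 hμ, Finset.mem_range.2 hi, Finset.mem_range.2 hm⟩
    obtain ⟨D1, α, h1, h2, h3, h4, h5⟩ := inner hC hA hM hB hφ hwδ hf hSA hyA.1.1 hyA.2 hyA.1.2
      hy.2 hup' hle L D [] hI' ⟨rfl, fun s hs => absurd hs List.not_mem_nil⟩
      (fun s hs => absurd hs List.not_mem_nil)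
    rw [List.nil_append] at h3 h4 h5
    have h3' : VStr D1.W y α (endd y α) := h3
    have hpub : y.1 ∈ D1.pub := by
      rw [h1.pub, hyA.1.2]
      exact List.mem_append_right _ (List.mem_singleton.2 rfl)
    have hnone : D1.W.adv y = none := h1.adv0 y hyA.1.1 hyA.2 hyA.1.2 hy.2
    have hw2 := wf_addAdv hM h1.wf hnone hpub hyA.2 hyA.1.1 h3' h4
    have he2 := dext_addAdv (α := α) hnone hpub hyA.2
    have hD2 : Iv φ δ n u (insert y S) (insert y S) (addAdv D1 y α) := by
      refine ⟨hw2, hM.2.2.2.1 δ D1 _ h1.ext hwδ h1.wf he2, h1.pub, h1.lt, h1.prv, ?_, h1.own, ?_⟩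
      · intro y' k1 k2 k3 k4
        rw [Set.mem_insert_iff, not_or] at k4
        rw [addAdv_ne k4.1]
        exact h1.adv0 y' k1 k2 k3 k4.2
      · intro y' hy'
        rcases hy' with hy' | hy'
        · rw [hy']
          refine ⟨α, addAdv_self hnone, fun μ hμ i hi m hm => ?_⟩
          have k1 := loc hB hM h1.wf hw2 he2 h1.lt
            (hadv hM hwδ hf h1.ext h1.pub h1.lt) μ o y hyA.1.2.le hμ
          have k2 := loc hB hM hI.wf h1.wf h2 hI.lt
            (hadv hM hwδ hf hI.ext hI.pub hI.lt) μ o y hyA.1.2.le k1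
          have k3 := h5 _ (hL μ k2 i hi m hm)
          have k4 := q_mono hC hM hφ (β := []) h1.wf hw2 he2 (by
            rw [List.append_nil]
            exact ⟨rfl, fun s hs => absurd hs List.not_mem_nil⟩) k3
          rw [List.append_nil] at k4
          exact k4
        · exact p_mono hC hB hM hφ hwδ hf h1.ext h1.pub h1.lt h1.wf hw2 he2 (hSA y' hy')
            (h1.hit y' hy')
    refine ih (insert y S) (addAdv D1 y α) ?_ ?_ ?_ hD2
    · have k1 : A \ insert y S = (A \ S) \ {y} := by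
        ext z
        simp only [Set.mem_sdiff, Set.mem_insert_iff, Set.mem_singleton_iff, not_or]
        tauto
      rw [k1, Set.ncard_sdiff_singleton_of_mem hy, hk]
      rfl
    · intro z hz
      rcases hz with hz | hz
      · rw [hz]; exact hy.1
      · exact hS hz
    · intro z hz y' hy' hlen
      rcases hz with hz | hz
      · rw [hz] at hlen
        rw [hAd] at hy'
        exact Or.inr (hup' y' hy'.1.1 hy'.2 hy'.1.2 hlen)
      · exact Or.inr (hup z hz y' hy' hlen)

end Stagea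

open Stagea in
theorem stagea (hC : CodesStatement) (hA : AdoptAStatement) (hF : FinvStatement)
    (hM : MonoStatement) (hB : BasicStatement) : StageAStatement := by
  intro φ hφ δ n hw hf
  obtain ⟨u, hu⟩ : ∃ u, u = Nat.pair n δ.N := ⟨_, rfl⟩
  have hNu : δ.N ≤ u := by rw [hu]; exact Nat.right_le_pair _ _
  have hsz : n ≤ sz u := by
    unfold sz
    rw [hu, Nat.unpair_pair]
  have hw0 := wf_addRoot hM hw hNu
  have he0 := dext_addRoot hNu
  have hI0 : Iv φ δ n u ∅ ∅ (addRoot δ u) := by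
    refine ⟨hw0, he0, rfl, Nat.lt_succ_self u, fun p hp hp' => absurd hp hp', ?_, ?_, ?_⟩
    · intro y h1 h2 h3 _
      refine adv_none_of ?_ ?_
      · intro q hq hqy
        have := hw.adv q hq
        rw [hqy, h3] at this
        exact absurd this (not_lt.2 hNu)
      · rw [h3]
        exact List.mem_append_right _ (List.mem_singleton.2 rfl)
    · intro r h1 h2
      exact absurd (show r < u + 1 from h2) (by omega)
    · intro y hy
      exact absurd hy (Set.notMem_empty y)
  obtain ⟨A, hAd⟩ : ∃ A : Set St, A = {y | (Adm y ∧ y.1 = u) ∧ Zero y} := ⟨_, rfl⟩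
  obtain ⟨D, hD⟩ := outer hC hA hF hM hB hφ hw hf A hAd (A \ ∅).ncard ∅ (addRoot δ u) rfl
    (Set.empty_subset _) (fun y hy => absurd hy (Set.notMem_empty y)) hI0
  have hyA : ∀ y, Adm y → Zero y → y.1 = u → y ∈ A := by
    intro y h1 h2 h3
    rw [hAd]
    exact ⟨⟨h1, h3⟩, h2⟩
  refine ⟨D, u, hD.wf, ?_, hD.ext, hD.pub, hNu, hsz, hD.lt, hD.prv, ?_⟩
  · intro y h1 h2 h3
    rw [hD.pub] at h3
    rcases List.mem_append.1 h3 with h3 | h3
    · obtain ⟨α, hα⟩ := Option.isSome_iff_exists.1 (hf y h1 h2 h3)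
      rw [(hM.2.2.1 δ D hw hD.ext).adv _ _ hα]
      rfl
    · rw [List.mem_singleton] at h3
      obtain ⟨α, hα, -⟩ := hD.hit y (hyA y h1 h2 h3)
      rw [hα]
      rfl
  · intro y h1 h2 h3
    obtain ⟨α, hα, h4⟩ := hD.hit y (hyA y h1 h2 h3)
    exact ⟨α, hα, fun μ hμ i hi m hm => h4 μ hμ i hi m hm⟩

end Pool.Agent.Lib.MP_d48993_lc.Node
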