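import Pool.Agent.Lib.MP_d48993_lc.AE.Node.Interfaces
import Pool.Agent.Lib.MP_d48993_lc.Step3

/-!
# Module BAIRE (helper70): a generic path which computes no path of finitely many trees
-/

set_option autoImplicit false

namespace Pool.Agent.Lib.MP_d48993_lc.Node

open MP_8c048d_lc (pre join RecF Sig Clo Cop Del)

namespace Baire

theorem pre_len (F : ℕ → ℕ) (k : ℕ) : (pre F k).length = k := by simp [pre]

theorem pre_pre (F : ℕ → ℕ) {j k : ℕ} (h : j ≤ k) : pre F j <+: pre F k := by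
  have h4 := MP_8c048d_lc.pre_take F k j
  rw [min_eq_left h] at h4
  rw [← h4]
  exact List.take_prefix _ _

theorem pre_le (F : ℕ → ℕ) {j k : ℕ} (h : pre F j <+: pre F k) : j ≤ k := by
  have := h.length_le
  rwa [pre_len, pre_len] at this

/-- The finite part of the join. -/
theorem jnV_pre (V O : ℕ → ℕ) (k : ℕ) : jnV V (pre O k) = pre (join V O) (2 * k) := by
  unfold jnV
  rw [pre_len]
  refine MP_8c048d_lc.pre_congr (fun i hi => ?_)
  obtain ⟨j, rfl | rfl⟩ : ∃ j, i = 2 * j ∨ i = 2 * j + 1 := ⟨i / 2, by omega⟩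
  · rw [MP_8c048d_lc.join_even, MP_8c048d_lc.join_even]
  · rw [MP_8c048d_lc.join_odd, MP_8c048d_lc.join_odd, MP_8c048d_lc.pre_getElem?,
      if_pos (by omega)]
    rfl

/-- A functional which computes `f` from `join V O`, at a finite part of `O`. -/
theorem comp_pre {Φ : ℕ → List ℕ → List ℕ} {V O f : ℕ → ℕ} {i : ℕ}
    (h : CompBy (Φ i) (join V O) f) (k : ℕ) :
    phi Φ V i (pre O k) = pre f (phi Φ V i (pre O k)).length := by
  unfold phi
  rw [jnV_pre]
  exact h.1 _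

theorem comp_len {Φ : ℕ → List ℕ → List ℕ} (hΦ : IsEnum Φ) {V O f : ℕ → ℕ} {i : ℕ}
    (h : CompBy (Φ i) (join V O) f) (m : ℕ) :
    ∃ k, ∀ k', k ≤ k' → m ≤ (phi Φ V i (pre O k')).length := by
  obtain ⟨k, hk⟩ := h.2 m
  refine ⟨k, fun k' hk' => hk.trans ?_⟩
  unfold phi
  rw [jnV_pre]
  exact (hΦ.mono i _ _ (pre_pre _ (by omega))).length_le

/-- A path through a tree without dead ends which meets countably many dense sets. -/
theorem exists_path {ι : Type} [Countable ι] (E : List ℕ → Prop) (h0 : E []) (hpc : PC E)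
    (hex : ∀ σ, E σ → ∃ n, E (σ ++ [n])) (R : ι → List ℕ → Prop)
    (hR : ∀ i σ, E σ → ∃ τ, σ <+: τ ∧ E τ ∧ R i τ) :
    ∃ G : ℕ → ℕ, (∀ k, E (pre G k)) ∧ ∀ i, ∃ n, R i (pre G n) := by
  have hlong : ∀ m σ, E σ → ∃ τ, σ <+: τ ∧ E τ ∧ m ≤ τ.length := by
    intro m
    induction m with
    | zero => exact fun σ h => ⟨σ, List.prefix_rfl, h, Nat.zero_le _⟩
    | succ m ih =>
      intro σ h
      obtain ⟨τ, h1, h2, h3⟩ := ih σ h
      obtain ⟨n, hn⟩ := hex τ h2
      exact ⟨τ ++ [n], h1.trans (List.prefix_append _ _), hn, by simp; omega⟩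
  let D : ι ⊕ ℕ → {σ // E σ} → Prop := fun r σ => match r with
    | .inl i => R i σ.1
    | .inr m => m ≤ σ.1.length
  obtain ⟨P, hstep, hD⟩ := exists_generic_seq (α := {σ // E σ}) (fun a b => a.1 <+: b.1) D
    (by
      rintro (i | m) ⟨σ, hσ⟩
      · obtain ⟨τ, h1, h2, h3⟩ := hR i σ hσ
        exact ⟨⟨τ, h2⟩, h1, h3⟩
      · obtain ⟨τ, h1, h2, h3⟩ := hlong m σ hσ
        exact ⟨⟨τ, h2⟩, h1, h3⟩) ⟨[], h0⟩
  have hle : ∀ i j, i ≤ j → (P i).1 <+: (P j).1 := by
    intro i j hij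
    induction j, hij using Nat.le_induction with
    | base => exact List.prefix_rfl
    | succ j _ ih => exact ih.trans (hstep j)
  obtain ⟨G, hG⟩ := exists_limit (fun j => (P j).1) hle (fun m => by
    obtain ⟨j, -, hj⟩ := hD (.inr m) 0
    exact ⟨j, hj⟩)
  refine ⟨G, fun k => ?_, fun i => ?_⟩
  · obtain ⟨j, -, hj⟩ := hD (.inr k) 0
    refine hpc _ _ ?_ (P j).2
    have h1 : (P j).1 = pre G (P j).1.length := hG j
    rw [h1]
    exact pre_pre G hj
  · obtain ⟨j, -, hj⟩ := hD (.inl i) 0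
    refine ⟨(P j).1.length, ?_⟩
    have h1 : (P j).1 = pre G (P j).1.length := hG j
    rw [← h1]
    exact hj

end Baire

open Baire in
/-- Module BAIRE. -/
theorem baire : BaireStatement := by
  intro Φ Tr V E E₀ D hΦ hTr h0 hpc hex hgen hD
  -- the requirements
  let R : ℕ ⊕ (ℕ × ℕ) → List ℕ → Prop := fun r τ => match r with
    | .inl k => D k τ
    | .inr (e, i) => e ∈ E₀ → (¬ Tr e (Φ i (jnV V τ)) ∨
        ∃ m : ℕ, ∀ τ', τ <+: τ' → E τ' → (Φ i (jnV V τ')).length < m)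
  obtain ⟨G, hG, hRG⟩ := exists_path E h0 hpc hex R (by
    rintro (k | ⟨e, i⟩) σ hσ
    · exact hD k σ hσ
    · by_cases he : e ∈ E₀
      · have h1 := hgen e he
        unfold GenF at h1
        push Not at h1
        obtain ⟨τ, h2, h3, h4⟩ := h1 i σ hσ
        refine ⟨τ, h2, h3, fun _ => ?_⟩
        by_cases h5 : Tr e (Φ i (jnV V τ))
        · right
          obtain ⟨m, hm⟩ := h4 h5
          exact ⟨m, fun τ' h6 h7 => hm τ' h6 h7⟩
        · exact Or.inl h5
      · exact ⟨σ, List.prefix_rfl, hσ, fun h => absurd h he⟩)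
  refine ⟨G, hG, fun k => hRG (.inl k), ?_⟩
  rintro e he ⟨f, hf, hf'⟩
  obtain ⟨i, hi⟩ := (hΦ.spec f (join V G)).1 hf
  obtain ⟨n, hn⟩ := hRG (.inr (e, i))
  rcases hn he with h | ⟨m, hm⟩
  · apply h
    have := comp_pre hi n
    unfold phi at this
    rw [this]
    exact hf' _
  · obtain ⟨k, hk⟩ := comp_len hΦ hi m
    have h1 := hk (max k n) (le_max_left _ _)
    have h2 := hm (pre G (max k n)) (pre_pre G (le_max_right _ _)) (hG _)
    unfold phi at h1
    omega

end Pool.Agent.Lib.MP_d48993_lc.Node
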