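import Pool.Agent.Lib.MP_d48993_lc.AE.Node.Interfaces

/-!
# Module LTREE0 (helper70): the tree of the limit, the parts of LTREE which do not need `g`
-/

set_option autoImplicit false

namespace Pool.Agent.Lib.MP_d48993_lc.Node

open MP_8c048d_lc (pre join RecF Sig Clo Cop Del)

/-- The parts of LTREE without computability. -/
def Ltree0Statement : Prop :=
  ∀ (Φ : ℕ → List ℕ → List ℕ) (Tr : ℕ → List ℕ → Prop) (TU : List ℕ → Prop) (V : ℕ → ℕ)
    (δ : ℕ → Data) (u : ℕ → ℕ), Lim Φ Tr TU V δ u →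
    LE δ [] ∧ PC (LE δ) ∧ (∀ σ, LE δ σ → ∃ n, LE δ (σ ++ [n])) ∧
    -- a string is valid in the limit iff it is valid as soon as its roots are below the bound
    (∀ σ n, (endd o σ).1 < (δ n).N → (LE δ σ ↔ VStr (δ n).W o σ (endd o σ))) ∧
    (∀ m n, m ≤ n → DExt (δ m) (δ n)) ∧ ∀ n, n ≤ (δ n).N

namespace Ltree0

theorem dext_refl (δ : Data) : DExt δ δ :=
  ⟨le_refl _, ⟨[], by simp⟩, ⟨[], by simp⟩, ⟨[], by simp⟩, ⟨[], by simp⟩⟩

/-- Admissible state of a root below the bound has its advice in full data. -/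
theorem adv_some {δ : Data} (hf : Full δ) {v : St} (hv : Adm v) (hr : 0 < rk v)
    (hN : v.1 < δ.N) : (δ.W.adv (ow v 0)).isSome := by
  by_cases hp : v.1 ∈ δ.pub
  · refine hf (ow v 0) ⟨?_, ?_⟩ ⟨v, rfl⟩ hp
    · show (v.2 ++ [0]).length ≤ sz v.1
      unfold rk at hr
      rw [List.length_append, List.length_singleton]
      omega
    · intro b hb
      show b < sz v.1
      have hb' : b ∈ v.2 ++ [0] := hb
      rcases List.mem_append.1 hb' with h | h
      · exact hv.2 b h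
      · rw [List.mem_singleton.1 h]
        unfold rk at hr
        omega
  · show (((δ.2.2.2.1.find? (fun p => p.1 = ow v 0)).map Prod.snd).or
      (if (ow v 0).1 < δ.1 ∧ (ow v 0).1 ∉ δ.2.1 then some [] else none)).isSome
    have h1 : (ow v 0).1 < δ.1 ∧ (ow v 0).1 ∉ δ.2.1 := ⟨hN, hp⟩
    rw [if_pos h1]
    cases ((δ.2.2.2.1.find? (fun p => p.1 = ow v 0)).map Prod.snd) <;> rfl

/-- The targets of a valid string. -/
theorem tgt_le {W : World} (hF : ∀ x t, W.edge x t → Fit x t) (hB : BasicStatement) :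
    ∀ (σ : List ℕ) (x y : St), VStr W x σ y → x.1 ≤ y.1 ∧ ∀ s ∈ σ, (tgt s).1 ≤ y.1 := by
  intro σ
  induction σ with
  | nil =>
    rintro x y ⟨h1, -⟩
    have h1' : x = y := h1
    subst h1'
    exact ⟨le_refl _, fun s hs => absurd hs (List.not_mem_nil)⟩
  | cons s σ ih =>
    rintro x y ⟨⟨h1, h2⟩, h3⟩
    obtain ⟨h4, h5⟩ := ih (tgt s) y ⟨h2, fun s' hs' => h3 s' (List.mem_cons_of_mem _ hs')⟩
    have h6 := (hB W hF).1 s (h3 s List.mem_cons_self)
    have h7 := (hF _ _ h6).2.2.1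
    rw [h1] at h7
    refine ⟨by omega, fun s' hs' => ?_⟩
    rcases List.mem_cons.1 hs' with rfl | h
    · exact h4
    · exact h5 s' h

/-- The state after a valid string is admissible, with a root below the bound. -/
theorem endd_adm {δ : Data} (hw : Wf δ) (hB : BasicStatement) {x : St} (hx : Adm x)
    (hxN : x.1 < δ.N) : ∀ (σ : List ℕ), (∀ s ∈ σ, VS δ.W s) →
    Adm (endd x σ) ∧ (endd x σ).1 < δ.N := by
  intro σ hσ
  unfold endd
  cases hl : σ.getLast? with
  | none => exact ⟨hx, hxN⟩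
  | some s =>
    have hs : s ∈ σ := List.mem_of_getLast? hl
    have h6 := (hB δ.W hw.inv.fit).1 s (hσ s hs)
    exact ⟨(hw.inv.fit _ _ h6).2.1, h6.2.1⟩

theorem adm_o : Adm o := ⟨Nat.zero_le _, fun _ hb => absurd hb (List.not_mem_nil)⟩

end Ltree0

open Ltree0 in
/-- Module LTREE0, from CODES, BASIC, MONO, CAN. -/
theorem ltree0 (hC : CodesStatement) (hB : BasicStatement) (hM : MonoStatement)
    (hCan : CanStatement) : Ltree0Statement := by
  intro Φ Tr TU V δ u hL
  obtain ⟨-, -, -, -, -, -, -, -, -, -, hend, happ, henda⟩ := hC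
  obtain ⟨hm1, hm2, hm3, hm4, -⟩ := hM
  have hD : ∀ m n, m ≤ n → DExt (δ m) (δ n) := by
    intro m n hmn
    induction n, hmn using Nat.le_induction with
    | base => exact dext_refl _
    | succ n _ ih => exact hm4 _ _ _ ih (hL.wf m) (hL.wf n) (hL.ext n)
  have hN : ∀ n, n ≤ (δ n).N := by
    intro n
    induction n with
    | zero => exact Nat.zero_le _
    | succ n ih =>
      have h1 := (hL.root n).1
      have h2 := hL.lt n
      omega
  have hfit : ∀ n, ∀ x t, (δ n).W.edge x t → Fit x t := fun n => (hL.wf n).inv.fit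
  have hup : ∀ m n, m ≤ n → ∀ s, VS (δ m).W s → VS (δ n).W s := by
    intro m n hmn s hs
    exact hm1 _ _ _ (hm3 _ _ (hL.wf m) (hD m n hmn)) (fun x t h => h.2.1) s hs
  have hdown : ∀ m n, m ≤ n → ∀ s, VS (δ n).W s → (tgt s).1 < (δ m).N → VS (δ m).W s := by
    intro m n hmn s hs ht
    refine hm2 _ _ _ (hm3 _ _ (hL.wf m) (hD m n hmn)) (hfit n) s hs ht ?_
    intro v v' hv hr
    have h1 := (hB _ (hfit n)).2.2.2.1 s hs v v' hv
    have h2 := hfit n _ _ h1.1
    exact adv_some (hL.full m) h2.1 hr (by have := h2.2.2.1; have := h1.2.2.1; omega)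
  refine ⟨⟨0, rfl, fun s hs => absurd hs (List.not_mem_nil)⟩, ?_, ?_, ?_, hD, hN⟩
  · rintro σ τ ⟨ρ, rfl⟩ ⟨n, h1, h2⟩
    exact ⟨n, ((happ o σ ρ _).1 h1).1, fun s hs => h2 s (List.mem_append_left _ hs)⟩
  · rintro σ ⟨n, h1, h2⟩
    obtain ⟨h3, h4⟩ := endd_adm (hL.wf n) hB adm_o (hL.wf n).pos σ h2
    obtain ⟨K, hK⟩ := hCan (δ n) (hL.wf n) (hL.full n) (endd o σ) h3 h4
    obtain ⟨m, hm⟩ : ∃ m, m = max n K := ⟨_, rfl⟩
    have h5 : K ≤ sz (u m) := by have := (hL.root m).2; omega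
    have h6 : Adm ((u m, []) : St) := ⟨Nat.zero_le _, fun b hb => absurd hb (List.not_mem_nil)⟩
    obtain ⟨s, hs1, hs2, hs3, -⟩ := hK (δ (m + 1)) (hL.wf _) (hD n (m + 1) (by omega))
      (u m, []) h6 (by rw [hL.pub m]; simp) (by
        have h7 := (hD n m (by omega)).N
        have h8 := (hL.root m).1
        show (δ n).N ≤ u m
        omega) (by unfold rk; simpa using h5) h5
    refine ⟨s, m + 1, ?_, ?_⟩
    · rw [happ]
      refine ⟨((happ o σ [] _).1 (by rw [List.append_nil]; exact h1)).1, hs2, ?_⟩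
      show tgt s = endd o (σ ++ [s])
      unfold endd
      simp
    · intro s' hs'
      rcases List.mem_append.1 hs' with h | h
      · exact hup n (m + 1) (by omega) s' (h2 s' h)
      · rw [List.mem_singleton.1 h]
        exact hs1
  · intro σ n hn
    refine ⟨?_, fun h => ⟨n, h⟩⟩
    rintro ⟨m, h1, h2⟩
    refine ⟨h1, fun s hs => ?_⟩
    rcases le_total m n with h | h
    · exact hup m n h s (h2 s hs)
    · refine hdown n m h s (h2 s hs) ?_
      have := (tgt_le (hfit m) hB σ o _ ⟨h1, h2⟩).2 s hs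
      omega

end Pool.Agent.Lib.MP_d48993_lc.Node
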