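import Pool.Agent.Lib.MP_d48993_lc.AE.Node.Interfaces
import Pool.Agent.Lib.MP_d48993_lc.AE.Node.Baire
import Pool.Agent.Lib.MP_d48993_lc.AE.Node.Ltree0
import Pool.Agent.Lib.MP_d48993_lc.Step3
import Pool.Agent.Lib.MP_d48993_lc.Red
import Pool.Agent.Lib.MP_d48993_lc.Tec
import Pool.Agent.Lib.MP_d48993_lc.Hx

/-!
# Module XREAL (helper70): the generic path, and the real that computes the maps
-/

set_option autoImplicit false

namespace Pool.Agent.Lib.MP_d48993_lc.Node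

open MP_8c048d_lc (pre join RecF Sig Clo Cop Del)

namespace Xreal

open Baire

/-! ## Conditions over different trees -/

open Classical in
/-- Restriction of a condition to a smaller tree. -/
noncomputable def res (T : List ℕ → Prop) (c : Cnd3) : Cnd3 := (c.1, c.2.filter (fun e => T e.1))

theorem res_fst (T : List ℕ → Prop) (c : Cnd3) : (res T c).1 = c.1 := rfl

theorem mem_res {T : List ℕ → Prop} {c : Cnd3} {e : List ℕ × List ℕ × List ℕ} :
    e ∈ (res T c).2 ↔ e ∈ c.2 ∧ T e.1 := by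
  simp [res]

theorem res_self {T : List ℕ → Prop} {c : Cnd3} (h : ∀ e ∈ c.2, T e.1) : res T c = c := by
  unfold res
  rw [List.filter_eq_self.2 (fun e he => by simpa using h e he)]

theorem res_res {T T' : List ℕ → Prop} (h : ∀ s, T s → T' s) (c : Cnd3) :
    res T (res T' c) = res T c := by
  unfold res
  rw [List.filter_filter]
  congr 1
  apply List.filter_congr
  intro e _
  by_cases h1 : T e.1
  · simp [h1, h _ h1]
  · simp [h1]

theorem cv_mono {W : World} {T T' : List ℕ → Prop} {c : Cnd3} (h : CV W T c)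
    (hT : ∀ s, T s → T' s) : CV W T' c :=
  ⟨h.root, h.uniq, fun e he => hT _ (h.mem e he), h.img, h.stem, h.emb, h.stemEmb, h.parent, h.ac⟩

theorem cv_res {W : World} {T T' : List ℕ → Prop} {c : Cnd3} (h : CV W T' c) (hpc : PC T)
    (h0 : T []) : CV W T (res T c) := by
  refine ⟨?_, ?_, ?_, ?_, ?_, ?_, ?_, ?_, ?_⟩
  · obtain ⟨p, hp⟩ := h.root
    exact ⟨p, mem_res.2 ⟨hp, h0⟩⟩
  · exact fun e he e' he' => h.uniq e (mem_res.1 he).1 e' (mem_res.1 he').1
  · exact fun e he => (mem_res.1 he).2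
  · exact fun e he => h.img e (mem_res.1 he).1
  · exact fun e he => h.stem e (mem_res.1 he).1
  · exact fun e he e' he' => h.emb e (mem_res.1 he).1 e' (mem_res.1 he').1
  · exact fun e he e' he' => h.stemEmb e (mem_res.1 he).1 e' (mem_res.1 he').1
  · intro e he hne
    obtain ⟨e', he', h1⟩ := h.parent e (mem_res.1 he).1 hne
    refine ⟨e', mem_res.2 ⟨he', ?_⟩, h1⟩
    rw [h1]
    exact hpc _ _ (List.dropLast_prefix _) (mem_res.1 he).2
  · have hsub : ∀ ν, Nd (res T c) ν → Nd c ν := by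
      rintro ν ⟨e, he, h1⟩
      exact ⟨e, (mem_res.1 he).1, h1⟩
    exact fun ν ν' h1 h2 => h.ac ν ν' (hsub ν h1) (hsub ν' h2)

theorem cle_refl (T : List ℕ → Prop) (c : Cnd3) : CLe T c c := by
  refine ⟨List.prefix_rfl, fun e he => ⟨e.2.2, List.prefix_rfl, he⟩,
    fun e he h => absurd rfl (h e he), ?_⟩
  intro n hn
  rw [List.drop_length] at hn
  exact absurd hn (List.not_mem_nil)

theorem cle_trans {W : World} {T T' : List ℕ → Prop} {c c' c'' : Cnd3} (hv : CV W T' c'')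
    (h : CLe T c c') (h' : CLe T c' c'') : CLe T c c'' := by
  refine ⟨h.px.trans h'.px, ?_, ?_, ?_⟩
  · intro e he
    obtain ⟨p, h1, h2⟩ := h.old e he
    obtain ⟨p', h3, h4⟩ := h'.old _ h2
    exact ⟨p', h1.trans h3, h4⟩
  · intro e he hnew e₁ he₁ hpar
    obtain ⟨p, h1, h2⟩ := h.old e₁ he₁
    by_cases hex : ∃ e' ∈ c'.2, e'.1 = e.1
    · obtain ⟨e', he', h3⟩ := hex
      obtain ⟨p', -, h5⟩ := h'.old e' he'
      have h6 := hv.uniq _ h5 e he h3
      have h7 := h.new e' he' (by rw [h3]; exact hnew) e₁ he₁ (by rw [h3]; exact hpar)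
      rw [← h6]
      exact h7
    · push Not at hex
      exact h1.trans (h'.new e he hex _ h2 hpar)
  · intro n hn s ρ hf hs
    obtain ⟨y, hy⟩ := h.px
    obtain ⟨z, hz⟩ := h'.px
    have h1 : c''.1.drop c.1.length = c'.1.drop c.1.length ++ c''.1.drop c'.1.length := by
      rw [← hz, ← hy]
      simp
    rw [h1] at hn
    rcases List.mem_append.1 hn with h2 | h2
    · obtain ⟨p, hp⟩ := h.fact n h2 s ρ hf hs
      obtain ⟨p', -, hp'⟩ := h'.old _ hp
      exact ⟨p', hp'⟩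
    · exact h'.fact n h2 s ρ hf hs

theorem cle_res {T T' : List ℕ → Prop} {c c' : Cnd3} (h : CLe T' c c')
    (hT : ∀ s, T s → T' s) : CLe T (res T c) (res T c') := by
  refine ⟨h.px, ?_, ?_, ?_⟩
  · intro e he
    obtain ⟨p, h1, h2⟩ := h.old e (mem_res.1 he).1
    exact ⟨p, h1, mem_res.2 ⟨h2, (mem_res.1 he).2⟩⟩
  · intro e he hnew e₁ he₁ hpar
    refine h.new e (mem_res.1 he).1 ?_ e₁ (mem_res.1 he₁).1 hpar
    intro e₀ he₀ h0
    exact hnew e₀ (mem_res.2 ⟨he₀, by rw [h0]; exact (mem_res.1 he).2⟩) h0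
  · intro n hn s ρ hf hs
    obtain ⟨p, hp⟩ := h.fact n hn s ρ hf (hT s hs)
    exact ⟨p, mem_res.2 ⟨hp, hs⟩⟩

/-- The images are at least as long as the nodes. -/
theorem img_len {W : World} {T : List ℕ → Prop} {c : Cnd3} (h : CV W T c) :
    ∀ (n : ℕ), ∀ e ∈ c.2, e.1.length = n → n ≤ e.2.1.length := by
  intro n
  induction n with
  | zero => intro e _ _; exact Nat.zero_le _
  | succ n ih =>
    intro e he hn
    have hne : e.1 ≠ [] := by
      intro h0
      rw [h0] at hn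
      simp at hn
    obtain ⟨e', he', h0⟩ := h.parent e he hne
    have h1 : e'.1.length = n := by rw [h0, List.length_dropLast, hn]; rfl
    have h2 := ih e' he' h1
    have h3 : e'.1 <+: e.1 := by rw [h0]; exact List.dropLast_prefix _
    have h4 : e'.2.1 <+: e.2.1 := (h.emb e' he' e he).2 h3
    have h5 : e'.2.1.length ≠ e.2.1.length := by
      intro h6
      have h7 := h4.eq_of_length h6
      have h8 := (h.emb e he e' he').1 (by rw [h7])
      have h9 := h8.length_le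
      omega
    have h6 := h4.length_le
    omega

/-! ## The map computed by the real -/

open Hx in
open Classical in
theorem hxE (Tr : ℕ → List ℕ → Prop) (X : ℕ → ℕ) (e m : ℕ) (E : List ℕ → Prop)
    (q : List ℕ → List ℕ → Prop) (hTr : IsTreeEnum Tr)
    (hex : ∀ s, Tr e s → ∃ i, m ≤ i ∧ ∃ ρ, q s ρ ∧ Fact (X i) (e :: s) ρ)
    (hfact : ∀ i, m ≤ i → ∀ s ρ, Tr e s → Fact (X i) (e :: s) ρ → q s ρ)
    (hq : ∀ s ρ, q s ρ → E ρ ∧ s.length ≤ ρ.length)
    (hmono : ∀ s s' ρ ρ', s <+: s' → q s ρ → q s' ρ' → ρ <+: ρ') :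
    HMapE X E (Tr e) := by
  obtain ⟨f, hf, hP⟩ := redMu (P Tr e m) (P_cop Tr e m hTr) X (by
    intro n
    by_cases hn : Tr e (S n)
    · obtain ⟨i, hi, ρ, -, hρ⟩ := hex (S n) hn
      refine ⟨i, fun _ => ⟨hi, ?_⟩⟩
      have h2 : X i = Encodable.encode (e :: S n, ρ) := hρ
      rw [h2, rr_encode]
    · exact ⟨0, fun h => absurd h hn⟩)
  -- the map
  let H : List ℕ → List ℕ := fun s => if Tr e s then rr (X (f (Encodable.encode s))) else []
  have hH : ∀ s, Tr e s → q s (H s) := by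
    intro s hs
    have h2 := hP (Encodable.encode s)
    unfold P at h2
    rw [S_encode] at h2
    obtain ⟨h3, h4⟩ := h2 hs
    have h5 : H s = rr (X (f (Encodable.encode s))) := if_pos hs
    rw [h5]
    exact hfact _ h3 s _ hs h4
  refine ⟨H, ?_, ?_⟩
  · -- computability
    have hJ : Red (join X f) X := red_join Red.rfl hf
    obtain ⟨dec, hdec⟩ : ComputablePred (fun s => Tr e s) :=
      cp_comp hTr.comp (Computable.pair (Computable.const e) Computable.id)
    have hc1 : Computable (fun n : ℕ => 2 * Encodable.encode (S n) + 1) :=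
      Primrec.nat_add.to_comp.comp (Primrec.nat_mul.to_comp.comp (Computable.const 2)
        (Computable.encode.comp S_comp)) (Computable.const 1)
    have hc2 : Computable (fun n : ℕ => 2 * n) :=
      Primrec.nat_mul.to_comp.comp (Computable.const 2) Computable.id
    have hrec : RecF (fun (n : ℕ) F => bif decide (Tr e (S n)) then
        Encodable.encode (rr (F (2 * F (2 * Encodable.encode (S n) + 1))))
        else Encodable.encode ([] : List ℕ)) := by
      refine RecF.cond (RecF.of_computable (hdec.comp S_comp)) ?_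
        (RecF.of_computable (Computable.const _))
      exact (RecF.app ((RecF.at hc1).comp hc2)).comp (g := fun x => Encodable.encode (rr x))
        (Computable.encode.comp rr_comp)
    have h2 := (red1 _ hrec (join X f)).trans hJ
    have h3 : (fun n => Encodable.encode (H ((Encodable.decode (α := List ℕ) n).getD []))) =
        (fun n => bif decide (Tr e (S n)) then
        Encodable.encode (rr (join X f (2 * join X f (2 * Encodable.encode (S n) + 1))))
        else Encodable.encode ([] : List ℕ)) := by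
      funext n
      rw [MP_8c048d_lc.join_odd, MP_8c048d_lc.join_even]
      show Encodable.encode (H (S n)) = _
      by_cases hn : Tr e (S n)
      · have h5 : H (S n) = rr (X (f (Encodable.encode (S n)))) := if_pos hn
        rw [h5, decide_eq_true hn]
        rfl
      · have h5 : H (S n) = [] := if_neg hn
        rw [h5, decide_eq_false hn]
        rfl
    rw [h3]
    exact h2
  · intro s hs
    refine ⟨(hq s _ (hH s hs)).1, (hq s _ (hH s hs)).2, ?_⟩
    intro s' hs'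
    exact hmono s' s _ _ hs' (hH s' (hTr.tree e s' s hs' hs)) (hH s hs)

/-! ## The order -/

/-- A condition over finitely many trees. -/
structure XC (Φ : ℕ → List ℕ → List ℕ) (Tr : ℕ → List ℕ → Prop) (V : ℕ → ℕ) (δ : ℕ → Data) :
    Type where
  E : List ℕ
  n : ℕ
  c : Cnd3
  good : ∀ e ∈ E, ¬ GenF Φ Tr V (LE δ) e
  valid : CV (δ n).W (TE Tr E) c

/-- The order: `P'` extends `P`. -/
def XLe {Φ : ℕ → List ℕ → List ℕ} {Tr : ℕ → List ℕ → Prop} {V : ℕ → ℕ} {δ : ℕ → Data}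
    (P P' : XC Φ Tr V δ) : Prop :=
  P.E ⊆ P'.E ∧ P.n ≤ P'.n ∧ CLe (TE Tr P.E) P.c (res (TE Tr P.E) P'.c)

theorem te_nil (Tr : ℕ → List ℕ → Prop) (E : List ℕ) : TE Tr E [] := trivial

theorem te_mono {Tr : ℕ → List ℕ → Prop} {E E' : List ℕ} (h : E ⊆ E') :
    ∀ s, TE Tr E s → TE Tr E' s := by
  rintro (_ | ⟨e, s⟩) hs
  · trivial
  · exact ⟨h hs.1, hs.2⟩

section

variable {Φ : ℕ → List ℕ → List ℕ} {Tr : ℕ → List ℕ → Prop} {V : ℕ → ℕ} {δ : ℕ → Data}

theorem xle_same (P : XC Φ Tr V δ) {n : ℕ} {c : Cnd3} (hv : CV (δ n).W (TE Tr P.E) c)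
    (hn : P.n ≤ n) (hc : CLe (TE Tr P.E) P.c c) : XLe P ⟨P.E, n, c, P.good, hv⟩ := by
  refine ⟨List.Subset.refl _, hn, ?_⟩
  show CLe (TE Tr P.E) P.c (res (TE Tr P.E) c)
  rw [res_self hv.mem]
  exact hc

theorem xle_refl (P : XC Φ Tr V δ) : XLe P P := xle_same P P.valid le_rfl (cle_refl _ _)

theorem xle_trans (hTr : IsTreeEnum Tr) {P P' P'' : XC Φ Tr V δ} (h : XLe P P')
    (h' : XLe P' P'') : XLe P P'' := by
  refine ⟨fun e he => h'.1 (h.1 he), h.2.1.trans h'.2.1, ?_⟩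
  have h1 := cle_res h'.2.2 (te_mono (Tr := Tr) h.1)
  rw [res_res (te_mono h.1)] at h1
  exact cle_trans (cv_res P''.valid (te_pc hTr.tree P.E) (te_nil _ _)) h.2.2 h1

end

end Xreal

open Xreal Baire in
/-- Module XREAL, from DECIDE, DENS3, LTREE0. -/
theorem xreal (hDec : DecideStatement) (hDens : Dens3Statement) (hLt : Ltree0Statement) :
    XrealStatement := by
  intro Φ Tr TU V δ u hΦ hTr hTU hpcU hL
  obtain ⟨l0, lpc, lex, lval, -, lN⟩ := hLt Φ Tr TU V δ u hL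
  have hpc : ∀ e, PC (Tr e) := hTr.tree
  constructor
  · -- the generic path
    let R : ℕ → List ℕ → Prop := fun i τ => ¬ TU (phi Φ V i τ) ∨
      ∃ m : ℕ, ∀ τ', τ <+: τ' → LE δ τ' → (phi Φ V i τ').length < m
    obtain ⟨O, hO, hR⟩ := exists_path (LE δ) l0 lpc lex R (by
      rintro i σ ⟨n₀, hσ⟩
      obtain ⟨n, -, ρ', h1, h2, h3⟩ := hL.killN i σ n₀ hσ
      refine ⟨ρ', h1, ⟨n + 1, h2⟩, ?_⟩
      rcases h3 with h3 | h3
      · exact Or.inl h3
      · right
        refine ⟨(phi Φ V i ρ').length + 1, ?_⟩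
        rintro τ' h4 ⟨m, h5⟩
        have h6 : VStr (δ (max ((endd o τ').1 + 1) (n + 1))).W o τ' (endd o τ') := by
          refine (lval τ' _ ?_).1 ⟨m, h5⟩
          have h7 := lN (max ((endd o τ').1 + 1) (n + 1))
          have h8 := le_max_left ((endd o τ').1 + 1) (n + 1)
          omega
        have := h3 _ (le_max_right _ _) τ' h6 h4
        omega)
    refine ⟨O, hO, ?_⟩
    rintro ⟨f, hf, hf'⟩
    obtain ⟨i, hi⟩ := (hΦ.spec f (join V O)).1 hf'
    obtain ⟨n, hn⟩ := hR i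
    rcases hn with h | ⟨m, hm⟩
    · apply h
      rw [comp_pre hi n]
      exact hf _
    · obtain ⟨k, hk⟩ := comp_len hΦ hi m
      have h1 := hk (max k n) (le_max_left _ _)
      have h2 := hm (pre O (max k n)) (pre_pre O (le_max_right _ _)) (hO _)
      omega
  -- the real
  obtain ⟨⟨c₀, n₀, hc₀, -⟩, -, -, -⟩ :=
    hDens Φ Tr TU V δ u hTr hL (TE Tr []) (te_pc hpc []) (te_nil _ _)
  let P0 : XC Φ Tr V δ := ⟨[], n₀, c₀, fun e he => absurd he (List.not_mem_nil), hc₀⟩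
  have dFact : ∀ P : XC Φ Tr V δ, ∀ e ∈ P.c.2, ∃ P', XLe P P' ∧
      P'.c.1 = P.c.1 ++ [Encodable.encode (e.1, e.2.1)] := by
    intro P e he
    obtain ⟨h1, h2⟩ := (hDens Φ Tr TU V δ u hTr hL (TE Tr P.E) (te_pc hpc _)
      (te_nil _ _)).2.2.1 P.c P.n P.valid e he
    exact ⟨_, xle_same P h1 le_rfl h2, rfl⟩
  have dLen : ∀ (m : ℕ) (P : XC Φ Tr V δ), ∃ P', XLe P P' ∧ m ≤ P'.c.1.length := by
    intro m
    induction m with
    | zero => exact fun P => ⟨P, xle_refl P, Nat.zero_le _⟩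
    | succ m ih =>
      intro P
      obtain ⟨P', h1, h2⟩ := ih P
      obtain ⟨p, hp⟩ := P'.valid.root
      obtain ⟨P'', h3, h4⟩ := dFact P' _ hp
      refine ⟨P'', xle_trans hTr h1 h3, ?_⟩
      rw [h4]
      simp
      omega
  have dImg : ∀ (t : List ℕ) (P : XC Φ Tr V δ), TE Tr P.E t → ∃ P', XLe P P' ∧ P'.E = P.E ∧
      ∃ e ∈ P'.c.2, e.1 = t := by
    intro t
    induction t using List.reverseRecOn with
    | nil =>
      intro P _
      obtain ⟨p, hp⟩ := P.valid.root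
      exact ⟨P, xle_refl P, rfl, _, hp, rfl⟩
    | append_singleton t k ih =>
      intro P ht
      obtain ⟨P', h1, h2, e, he, h3⟩ := ih P (te_pc hpc _ _ _ (List.prefix_append _ _) ht)
      obtain ⟨c', m, h4, h5, h6, e', he', h7⟩ := (hDens Φ Tr TU V δ u hTr hL (TE Tr P'.E)
        (te_pc hpc _) (te_nil _ _)).2.1 P'.c P'.n P'.valid e he k (by rw [h2, h3]; exact ht)
      exact ⟨_, xle_trans hTr h1 (xle_same P' h5 h4 h6), h2, e', he', by rw [h7, h3]⟩
  have dE : ∀ e, ¬ GenF Φ Tr V (LE δ) e → ∀ P : XC Φ Tr V δ, ∃ P', XLe P P' ∧ e ∈ P'.E := by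
    intro e he P
    have hsub : P.E ⊆ e :: P.E := List.subset_cons_self _ _
    refine ⟨⟨e :: P.E, P.n, P.c, ?_, cv_mono P.valid (te_mono hsub)⟩, ⟨hsub, le_rfl, ?_⟩,
      List.mem_cons_self⟩
    · intro e' he'
      rcases List.mem_cons.1 he' with rfl | h
      · exact he
      · exact P.good e' h
    · show CLe (TE Tr P.E) P.c (res (TE Tr P.E) P.c)
      rw [res_self P.valid.mem]
      exact cle_refl _ _
  -- the requirements
  let ι : Type := ℕ ⊕ (ℕ × List ℕ) ⊕ ℕ ⊕ (ℕ × ℕ × List ℕ × List ℕ) ⊕ ℕ ⊕ ℕ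
  let D : ι → XC Φ Tr V δ → Prop := fun r P => match r with
    | .inl e => ¬ GenF Φ Tr V (LE δ) e → e ∈ P.E
    | .inr (.inl (e, s)) => Tr e s → e ∈ P.E → ∃ ρ p, (e :: s, ρ, p) ∈ P.c.2
    | .inr (.inr (.inl m)) => m ≤ P.c.1.length
    | .inr (.inr (.inr (.inl (m, e, s, ρ)))) => (∃ p, (e :: s, ρ, p) ∈ P.c.2) →
        ∃ i, ∃ h : i < P.c.1.length, m ≤ i ∧ Fact P.c.1[i] (e :: s) ρ
    | .inr (.inr (.inr (.inr (.inl i)))) => ¬ LE δ (phi Φ V i P.c.1) ∨
        ∃ k : ℕ, ∀ m, P.n ≤ m → ∀ c', CV (δ m).W (TE Tr P.E) c' → CLe (TE Tr P.E) P.c c' →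
          (phi Φ V i c'.1).length < k
    | .inr (.inr (.inr (.inr (.inr i)))) => ¬ TU (phi Φ V i P.c.1) ∨
        ∃ k : ℕ, ∀ m, P.n ≤ m → ∀ c', CV (δ m).W (TE Tr P.E) c' → CLe (TE Tr P.E) P.c c' →
          (phi Φ V i c'.1).length < k
  have dense : ∀ r P, ∃ P', XLe P P' ∧ D r P' := by
    intro r P
    rcases r with e | ⟨e, s⟩ | m | ⟨m, e, s, ρ⟩ | i | i
    · by_cases h : GenF Φ Tr V (LE δ) e
      · exact ⟨P, xle_refl P, fun h' => absurd h h'⟩
      · obtain ⟨P', h1, h2⟩ := dE e h P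
        exact ⟨P', h1, fun _ => h2⟩
    · by_cases h : Tr e s ∧ e ∈ P.E
      · obtain ⟨P', h1, h2, e', he', h3⟩ := dImg (e :: s) P ⟨h.2, h.1⟩
        exact ⟨P', h1, fun _ _ => ⟨e'.2.1, e'.2.2, by rw [← h3]; exact he'⟩⟩
      · exact ⟨P, xle_refl P, fun h1 h2 => absurd ⟨h1, h2⟩ h⟩
    · exact dLen m P
    · by_cases h : ∃ p, (e :: s, ρ, p) ∈ P.c.2
      · obtain ⟨p, hp⟩ := h
        obtain ⟨P', h1, h2⟩ := dLen m P
        have h3 : ∃ p', (e :: s, ρ, p') ∈ P'.c.2 := by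
          obtain ⟨p', -, h4⟩ := h1.2.2.old _ hp
          exact ⟨p', (mem_res.1 h4).1⟩
        obtain ⟨p', hp'⟩ := h3
        obtain ⟨P'', h4, h5⟩ := dFact P' _ hp'
        refine ⟨P'', xle_trans hTr h1 h4, fun _ => ⟨P'.c.1.length, ?_, h2, ?_⟩⟩
        · rw [h5]
          simp
        · simp only [h5]
          simp [Fact]
      · exact ⟨P, xle_refl P, fun h1 => absurd h1 h⟩
    · obtain ⟨n, c', h1, h2, h3, h4⟩ :=
        hDec Φ Tr TU V δ u hΦ hTr hL i P.E P.good P.c P.n P.valid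
      exact ⟨_, xle_same P h2 h1 h3, h4⟩
    · obtain ⟨n, h1, c', h2, h3, h4⟩ := hL.killU i P.E P.c P.n P.valid
      refine ⟨_, xle_same P h2 (by omega) h3, ?_⟩
      rcases h4 with h4 | h4
      · exact Or.inl h4
      · right
        refine ⟨(phi Φ V i c'.1).length + 1, fun m hm c'' h5 h6 => ?_⟩
        have := h4 m hm c'' h5 h6
        omega
  obtain ⟨P, hstep, hD⟩ := exists_generic_seq XLe D dense P0
  have hle : ∀ i j, i ≤ j → XLe (P i) (P j) := by
    intro i j hij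
    induction j, hij using Nat.le_induction with
    | base => exact xle_refl _
    | succ j _ ih => exact xle_trans hTr ih (hstep j)
  have hx : ∀ i j, i ≤ j → (P i).c.1 <+: (P j).c.1 := fun i j h => (hle i j h).2.2.px
  have hq : ∀ i j, i ≤ j → ∀ s ρ, (∃ p, (s, ρ, p) ∈ (P i).c.2) → ∃ p, (s, ρ, p) ∈ (P j).c.2 := by
    rintro i j h s ρ ⟨p, hp⟩
    obtain ⟨p', -, h1⟩ := (hle i j h).2.2.old _ hp
    exact ⟨p', (mem_res.1 h1).1⟩
  have hE : ∀ i j, i ≤ j → ∀ e ∈ (P i).E, e ∈ (P j).E := fun i j h e he => (hle i j h).1 he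
  have hlen : ∀ m n, ∃ j, n ≤ j ∧ m ≤ (P j).c.1.length := fun m n =>
    hD (.inr (.inr (.inl m))) n
  obtain ⟨X, hX⟩ := exists_limit (fun j => (P j).c.1) hx (fun m => by
    obtain ⟨j, -, hj⟩ := hlen m 0
    exact ⟨j, hj⟩)
  have hXp : ∀ j, (P j).c.1 = pre X (P j).c.1.length := hX
  have hXi : ∀ j i (h : i < (P j).c.1.length), (P j).c.1[i] = X i := by
    intro j i h
    have h1 : (P j).c.1[i]? = (pre X (P j).c.1.length)[i]? := by rw [← hXp j]
    rw [MP_8c048d_lc.pre_getElem?, if_pos h, List.getElem?_eq_getElem h] at h1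
    exact Option.some.inj h1
  -- no functional computes from `V` and `X` a path of the tree `TB`
  have key : ∀ (i : ℕ) (TB : List ℕ → Prop) (j : ℕ),
      (¬ TB (phi Φ V i (P j).c.1) ∨
        ∃ k : ℕ, ∀ m, (P j).n ≤ m → ∀ c', CV (δ m).W (TE Tr (P j).E) c' →
          CLe (TE Tr (P j).E) (P j).c c' → (phi Φ V i c'.1).length < k) →
      ∀ f : ℕ → ℕ, (∀ k, TB (pre f k)) → ¬ CompBy (Φ i) (join V X) f := by
    intro i TB j hj f hf hc
    rcases hj with h | ⟨n, hn⟩
    · apply h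
      rw [hXp j, comp_pre hc]
      exact hf _
    · obtain ⟨k, hk⟩ := comp_len hΦ hc n
      obtain ⟨j', hj', hkj'⟩ := hlen k j
      have h1 := hn (P j').n (hle j j' hj').2.1 (res (TE Tr (P j).E) (P j').c)
        (cv_res (P j').valid (te_pc hpc _) (te_nil _ _)) (hle j j' hj').2.2
      rw [res_fst, hXp j'] at h1
      have h2 := hk _ hkj'
      omega
  refine ⟨X, ?_, ?_, ?_⟩
  · intro O hO hred
    obtain ⟨i, hi⟩ := (hΦ.spec O (join V X)).1 hred
    obtain ⟨j, -, hj⟩ := hD (.inr (.inr (.inr (.inr (.inl i))))) 0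
    exact key i (LE δ) j hj O hO hi
  · rintro ⟨f, hf, hfX⟩
    obtain ⟨i, hi⟩ := (hΦ.spec f (join V X)).1 hfX
    obtain ⟨j, -, hj⟩ := hD (.inr (.inr (.inr (.inr (.inr i))))) 0
    exact key i TU j hj f hf hi
  · intro e hgen
    obtain ⟨j₀, -, hj₀⟩ := hD (.inl e) 0
    have he : e ∈ (P j₀).E := hj₀ hgen
    refine hxE Tr X e (P j₀).c.1.length (LE δ)
      (fun s ρ => ∃ j, j₀ ≤ j ∧ ∃ p, (e :: s, ρ, p) ∈ (P j).c.2) hTr ?_ ?_ ?_ ?_
    · intro s hs
      obtain ⟨j, hj, hj'⟩ := hD (.inr (.inl (e, s))) j₀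
      obtain ⟨ρ, p, hρ⟩ := hj' hs (hE _ _ hj e he)
      obtain ⟨j', h1, h2⟩ := hD (.inr (.inr (.inr (.inl ((P j₀).c.1.length, e, s, ρ))))) j
      obtain ⟨i, h3, h4, h5⟩ := h2 (hq _ _ h1 _ _ ⟨p, hρ⟩)
      refine ⟨i, h4, ρ, ⟨j, hj, p, hρ⟩, ?_⟩
      rw [← hXi j' i h3]
      exact h5
    · intro i hi s ρ hs hfact
      obtain ⟨j, hj, hj'⟩ := hlen (i + 1) j₀
      obtain ⟨p, hp⟩ := (hle j₀ j hj).2.2.fact (X i) (by
        rw [res_fst, List.mem_iff_getElem]
        refine ⟨i - (P j₀).c.1.length, ?_, ?_⟩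
        · rw [List.length_drop]; omega
        · rw [List.getElem_drop]
          have : (P j₀).c.1.length + (i - (P j₀).c.1.length) = i := by omega
          simp only [this]
          exact hXi j i (by omega)) (e :: s) ρ hfact ⟨he, hs⟩
      exact ⟨j, hj, p, (mem_res.1 hp).1⟩
    · rintro s ρ ⟨j, hj, p, hp⟩
      refine ⟨⟨(P j).n, (P j).valid.img _ hp⟩, ?_⟩
      have := img_len (P j).valid _ _ hp rfl
      simp only [List.length_cons] at this
      omega
    · rintro s s' ρ ρ' hss ⟨j, hj, hp⟩ ⟨j', hj', hp'⟩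
      obtain ⟨p, h1⟩ := hq j (max j j') (le_max_left _ _) _ _ hp
      obtain ⟨p', h2⟩ := hq j' (max j j') (le_max_right _ _) _ _ hp'
      exact ((P (max j j')).valid.emb _ h1 _ h2).2 (List.cons_prefix_cons.2 ⟨rfl, hss⟩)

end Pool.Agent.Lib.MP_d48993_lc.Node
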