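import Pool.Agent.Lib.MP_d48993_lc.AE.Node.Own
import Pool.Agent.Lib.MP_d48993_lc.AE.Node.Codes

/-!
# Project NODE (MP_d48993), module ACCAN: AC is preserved by new canonical symbols
-/

set_option autoImplicit false

namespace Pool.Agent.Lib.MP_d48993_lc.Node

namespace Accan

open Own (cone_trans cone_rfl cone_ow)

/-- The hypotheses on a set of strings. -/
structure Hy (W : World) (S : List ℕ → Prop) : Prop where
  inv : Inv W
  ac : AC S
  val : ∀ ν, S ν → VStr W o ν (endd o ν)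
  pre : ∀ ν ν', ν <+: ν' → S ν' → S ν

variable {W : World} {S : List ℕ → Prop}

theorem endd_snoc (x : St) (ν : List ℕ) (s : ℕ) : endd x (ν ++ [s]) = tgt s := by
  unfold endd
  simp

theorem cone_ow_not (e : St) (j : ℕ) : ¬ Cone (ow e j) e := by
  rintro ⟨-, h⟩
  have := h.length_le
  simp [ow] at this

/-- The last symbol of a string of `S`. -/
theorem Hy.snoc (h : Hy W S) {ν : List ℕ} {s : ℕ} (hν : S (ν ++ [s])) :
    S ν ∧ VS W s ∧ src s = endd o ν := by
  obtain ⟨h1, h2⟩ := h.val _ hν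
  refine ⟨h.pre _ _ (List.prefix_append _ _) hν, h2 s (by simp), ?_⟩
  rw [Codes.ch_append] at h1
  exact h1.2.1

theorem Hy.edge (h : Hy W S) (hB : BasicStatement) {ν : List ℕ} {s : ℕ} (hν : S (ν ++ [s])) :
    W.edge (endd o ν) (endd o (ν ++ [s])) := by
  obtain ⟨-, h1, h2⟩ := h.snoc hν
  have h3 := (hB W h.inv.fit).1 s h1
  rw [endd_snoc, ← h2]
  exact h3

theorem hb_snoc {ν : List ℕ} {s : ℕ} {v : St} :
    HB (ν ++ [s]) v ↔ ∃ a b, HE s a b ∧ Cone b v := by
  constructor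
  · rintro ⟨s', h1, h2⟩
    have : s' = s := by
      rw [List.getLast?_append] at h1
      simpa using h1.symm
    rw [this] at h2
    exact h2
  · intro h2
    exact ⟨s, by simp, h2⟩

theorem exists_snoc {ν : List ℕ} (h : ν ≠ []) : ∃ π s, ν = π ++ [s] :=
  ⟨ν.dropLast, ν.getLast h, (List.dropLast_append_getLast h).symm⟩

theorem Hy.pos (h : Hy W S) (hB : BasicStatement) {ν : List ℕ} (hν : S ν) (hne : ν ≠ []) :
    0 < (endd o ν).1 := by
  obtain ⟨π, s, rfl⟩ := exists_snoc hne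
  have := (h.inv.fit _ _ (h.edge hB hν)).2.2.1
  omega

theorem hb_cone {ν : List ℕ} (hne : ν ≠ []) {v : St} (hv : Cone (endd o ν) v) : HB ν v := by
  obtain ⟨π, s, rfl⟩ := exists_snoc hne
  rw [hb_snoc]
  rw [endd_snoc] at hv
  exact ⟨_, _, HE.top s, hv⟩

theorem Hy.hb_pos (h : Hy W S) (hB : BasicStatement) {ν : List ℕ} (hν : S ν) (hne : ν ≠ [])
    {v : St} (hv : HB ν v) : 0 < v.1 ∧ v.1 ≤ (endd o ν).1 := by
  obtain ⟨π, s, rfl⟩ := exists_snoc hne
  obtain ⟨-, h1, -⟩ := h.snoc hν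
  obtain ⟨a, b, hab, hc⟩ := hb_snoc.1 hv
  obtain ⟨h2, -, h3, -⟩ := (hB W h.inv.fit).2.2.2.1 s h1 a b hab
  have h4 := (h.inv.fit _ _ h2).2.2.1
  rw [endd_snoc, hc.1]
  exact ⟨by omega, h3⟩

/-- Two nodes: a hereditary target of `ν` is not in the cone of `μ`. -/
theorem Hy.sep (h : Hy W S) (hB : BasicStatement) {ν μ : List ℕ} (hν : S ν) (hμ : S μ)
    (hne : ν ≠ μ) (hν0 : ν ≠ []) {v : St} (h1 : HB ν v) (h2 : Cone (endd o μ) v) : False := by
  by_cases hμ0 : μ = []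
  · subst hμ0
    have := (h.hb_pos hB hν hν0 h1).1
    have h3 : v.1 = 0 := h2.1
    omega
  · by_cases hd : ν.dropLast = μ.dropLast
    · exact (h.ac μ ν hμ hν hμ0 hν0 (Ne.symm hne)).2 hd.symm v ⟨h2, h1⟩
    · exact (h.ac ν μ hν hμ hν0 hμ0 hne).1 hd v ⟨h1, hb_cone hμ0 h2⟩

/-- Two nodes: the cones of the states are disjoint. -/
theorem Hy.cones (h : Hy W S) (hB : BasicStatement) {ν μ : List ℕ} (hν : S ν) (hμ : S μ)
    (hne : ν ≠ μ) {v : St} (h1 : Cone (endd o ν) v) (h2 : Cone (endd o μ) v) : False := by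
  by_cases hν0 : ν = []
  · by_cases hμ0 : μ = []
    · exact hne (hν0.trans hμ0.symm)
    · exact h.sep hB hμ hν (Ne.symm hne) hμ0 (hb_cone hμ0 h2) h1
  · exact h.sep hB hν hμ hne hν0 (hb_cone hν0 h1) h2

/-- A node is not in the closure of an own state of a node. -/
theorem Hy.desc (h : Hy W S) (hB : BasicStatement) (hO : OwnStatement) {μ : List ℕ} (hμ : S μ)
    (j : ℕ) (π : List ℕ) (hπ : S π) : ¬ InCl W (ow (endd o μ) j) (endd o π) := by
  obtain ⟨o1, -, -, -, o5, -, -⟩ := hO W h.inv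
  induction π using List.reverseRecOn with
  | nil =>
    intro hI
    obtain ⟨h1, h2⟩ := o1 _ _ hI
    by_cases hμ0 : μ = []
    · subst hμ0
      exact cone_ow_not _ _ (h2 rfl)
    · have h3 := h.pos hB hμ hμ0
      have h4 : (ow (endd o μ) j).1 = (endd o μ).1 := rfl
      have h5 : (endd o ([] : List ℕ)).1 = 0 := rfl
      omega
  | append_singleton π s ih =>
    intro hI
    obtain ⟨h1, h2⟩ := o1 _ _ hI
    have h4 : (ow (endd o μ) j).1 = (endd o μ).1 := rfl
    rcases Nat.eq_or_lt_of_le h1 with h3 | h3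
    · have h5 := h2 h3.symm
      by_cases hne : π ++ [s] = μ
      · rw [hne] at h5
        exact cone_ow_not _ _ h5
      · exact h.cones hB hπ hμ hne (cone_rfl _) (cone_trans (cone_ow _ _) h5)
    · have h5 := o5 _ _ _ (h.edge hB hπ) hI h3
      exact ih (h.snoc hπ).1 h5

/-- An old node, not a sibling of the new one. -/
theorem Hy.main (h : Hy W S) (hB : BasicStatement) (hO : OwnStatement) {ν μ : List ℕ} (hν : S ν)
    (hν0 : ν ≠ []) (hμ : S μ) (hne : ν.dropLast ≠ μ) (j : ℕ) (n : ℕ) : ∀ v : St, v.1 ≤ n →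
    HB ν v → InCl W (ow (endd o μ) j) v → (endd o μ).1 < v.1 → False := by
  obtain ⟨o1, -, -, -, o5, o6, -⟩ := hO W h.inv
  obtain ⟨π, s, rfl⟩ := exists_snoc hν0
  rw [List.dropLast_concat] at hne
  obtain ⟨hπ, hs, hsrc⟩ := h.snoc hν
  obtain ⟨-, -, -, b4, b5, -⟩ := hB W h.inv.fit
  have h4 : (ow (endd o μ) j).1 = (endd o μ).1 := rfl
  induction n with
  | zero => intro v hv _ _ h1; omega
  | succ n ih =>
    intro v hv hH hI hlt
    obtain ⟨a, b, hab, hc⟩ := hb_snoc.1 hH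
    obtain ⟨c1, -, c3, -⟩ := b4 s hs a b hab
    have hab1 := (h.inv.fit _ _ c1).2.2.1
    have hb := o6 _ _ b hI hc.1 (by rw [h4]; exact hlt)
    have hb1 : (ow (endd o μ) j).1 < b.1 := by rw [h4, ← hc.1]; exact hlt
    have ha := o5 _ _ _ c1 hb hb1
    obtain ⟨d1, d2⟩ := o1 _ _ ha
    rcases b5 s hs a b hab with h5 | h5
    · -- the source is in the cone of the source of the symbol
      rw [hsrc] at h5
      rcases Nat.eq_or_lt_of_le d1 with h6 | h6
      · exact h.cones hB hπ hμ hne h5 (cone_trans (cone_ow _ _) (d2 h6.symm))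
      · exact h.desc hB hO hμ j π hπ (o6 _ _ _ ha h5.1 h6)
    · have h7 : HB (π ++ [s]) a := hb_snoc.2 h5
      rcases Nat.eq_or_lt_of_le d1 with h6 | h6
      · have h8 : Cone (endd o μ) a := cone_trans (cone_ow _ _) (d2 h6.symm)
        by_cases hm : π ++ [s] = μ
        · rw [← hm, endd_snoc] at h4 h6
          have : b.1 ≤ (tgt s).1 := c3
          omega
        · exact h.sep hB hν hμ hm hν0 h7 h8
      · exact ih a (by have := hc.1; omega) h7 ha (by rw [← h4]; exact h6)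

/-- The hereditary targets of a new canonical symbol. -/
theorem Hy.new (h : Hy W S) (hB : BasicStatement) (hO : OwnStatement) {μ : List ℕ} {g : ℕ}
    (hg : VS W g) (hE : Ex g = []) (hs : src g = endd o μ) {v : St} (hv : HB (μ ++ [g]) v) :
    Cone (tgt g) v ∨ ∃ j, InCl W (ow (endd o μ) j) v ∧ (endd o μ).1 < v.1 := by
  obtain ⟨o1, -, -, -, -, -, o7⟩ := hO W h.inv
  obtain ⟨-, -, -, b4, -⟩ := hB W h.inv.fit
  obtain ⟨a, b, hab, hc⟩ := hb_snoc.1 hv
  rcases o7 g hg hE a b hab with ⟨-, h1⟩ | ⟨j, h1, h2 | ⟨i, -, h2⟩⟩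
  · left; rw [← h1]; exact hc
  · right
    rw [hs] at h1 h2
    refine ⟨j, Own.inCl_cone h2 hc, ?_⟩
    have h3 := (o1 _ _ h1).1
    have h4 : (ow (endd o μ) j).1 = (endd o μ).1 := rfl
    have h5 := (h.inv.fit _ _ (b4 g hg a b hab).1).2.2.1
    have h6 := hc.1
    omega
  · left
    exact cone_trans (cone_trans (cone_ow _ _) h2) hc

/-- Two new nodes: closures of own states of different nodes are disjoint. -/
theorem Hy.clos (h : Hy W S) (hB : BasicStatement) (hO : OwnStatement) {μ μ' : List ℕ}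
    (hμ : S μ) (hμ' : S μ') (hne : μ ≠ μ') {i i' : ℕ}
    (h1 : InCl W (ow (endd o μ) i) (ow (endd o μ') i')) : False := by
  obtain ⟨o1, -, -, -, -, o6, -⟩ := hO W h.inv
  obtain ⟨h2, h3⟩ := o1 _ _ h1
  rcases Nat.eq_or_lt_of_le h2 with h4 | h4
  · have h5 := h3 h4.symm
    exact h.cones hB hμ hμ' hne (cone_trans (cone_ow _ _) h5) (cone_ow _ _)
  · exact h.desc hB hO hμ i μ' hμ' (o6 _ _ _ h1 rfl h4)

theorem cone_own {z v : St} {j j' : ℕ} (h : Cone (ow z j) v) (h' : Cone (ow z j') v) : j = j' := by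
  obtain ⟨-, h1⟩ := h
  obtain ⟨-, h2⟩ := h'
  have h3 : z.2 ++ [j] = z.2 ++ [j'] := List.IsPrefix.eq_of_length
    (List.prefix_of_prefix_length_le h1 h2 (by simp [ow])) (by simp)
  simpa using h3

/-- ACCAN for a world. -/
theorem accan (h : Hy W S) (hB : BasicStatement) (hO : OwnStatement) (z : St)
    (X : List (List ℕ × ℕ)) (hz : ∀ ν, S ν → (endd o ν).1 < z.1)
    (hX1 : ∀ p ∈ X, ∀ j, ¬ InCl W (ow (endd o p.1) j) z)
    (hX2 : ∀ p ∈ X, S p.1 ∧ VS W p.2 ∧ Ex p.2 = [] ∧ src p.2 = endd o p.1 ∧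
      ∃ j, tgt p.2 = ow z j)
    (hX3 : ∀ p ∈ X, ∀ p' ∈ X, tgt p.2 = tgt p'.2 → p = p') :
    AC (fun ν => S ν ∨ ∃ p ∈ X, ν = p.1 ++ [p.2]) := by
  obtain ⟨o1, -, o3, -, o5, o6, -⟩ := hO W h.inv
  have hcl : ∀ p ∈ X, ∀ j v, v.1 = z.1 → ¬ InCl W (ow (endd o p.1) j) v := by
    intro p hp j v hv hI
    exact hX1 p hp j (o6 _ _ _ hI hv (by rw [hv]; exact hz _ (hX2 p hp).1))
  -- an old and a new node
  have old_new : ∀ ν, S ν → ν ≠ [] → ∀ p ∈ X, ν.dropLast ≠ p.1 →
      ∀ v, HB ν v → ¬ HB (p.1 ++ [p.2]) v := by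
    intro ν hν hν0 p hp hne v h1 h2
    obtain ⟨g1, g2, g3, g4, j, g5⟩ := hX2 p hp
    have h3 := (h.hb_pos hB hν hν0 h1).2
    have h4 := hz ν hν
    rcases h.new hB hO g2 g3 g4 h2 with h5 | ⟨j', h5, h6⟩
    · rw [g5] at h5
      have : v.1 = z.1 := h5.1
      omega
    · exact h.main hB hO hν hν0 g1 hne j' v.1 v le_rfl h1 h5 h6
  intro ν ν' hν hν' hν0 hν'0 hne
  rcases hν with hν | ⟨p, hp, rfl⟩
  · rcases hν' with hν' | ⟨p, hp, rfl⟩
    · exact h.ac ν ν' hν hν' hν0 hν'0 hne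
    · obtain ⟨g1, g2, g3, g4, j, g5⟩ := hX2 p hp
      rw [List.dropLast_concat]
      refine ⟨fun hd v hv => old_new ν hν hν0 p hp hd v hv.1 hv.2, fun hd v hv => ?_⟩
      obtain ⟨h1, h2⟩ := hv
      have h4 := hz ν hν
      have h5 := h1.1
      rcases h.new hB hO g2 g3 g4 h2 with h6 | ⟨j', h6, h7⟩
      · rw [g5] at h6
        have : v.1 = z.1 := h6.1
        omega
      · obtain ⟨π, s, rfl⟩ := exists_snoc hν0
        rw [List.dropLast_concat] at hd
        subst hd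
        have h8 := o6 _ _ _ h6 h5 (by exact h7)
        have h9 := o5 _ _ _ (h.edge hB hν) h8 (by
          show (endd o p.1).1 < _
          rw [← h5]; exact h7)
        exact h.desc hB hO g1 j' _ g1 h9
  · obtain ⟨g1, g2, g3, g4, j, g5⟩ := hX2 p hp
    rcases hν' with hν' | ⟨p', hp', rfl⟩
    · rw [List.dropLast_concat]
      refine ⟨fun hd v hv => old_new ν' hν' hν'0 p hp (Ne.symm hd) v hv.2 hv.1, fun hd v hv => ?_⟩
      obtain ⟨h1, h2⟩ := hv
      rw [endd_snoc, g5] at h1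
      have h3 := (h.hb_pos hB hν' hν'0 h2).2
      have h4 := hz ν' hν'
      have : v.1 = z.1 := h1.1
      omega
    · obtain ⟨k1, k2, k3, k4, j', k5⟩ := hX2 p' hp'
      have hjj : j ≠ j' := by
        intro hj
        have := hX3 p hp p' hp' (by rw [g5, k5, hj])
        exact hne (by rw [this])
      rw [List.dropLast_concat, List.dropLast_concat]
      refine ⟨fun hd v hv => ?_, fun hd v hv => ?_⟩
      · obtain ⟨h1, h2⟩ := hv
        rcases h.new hB hO g2 g3 g4 h1 with h3 | ⟨i, h3, h3'⟩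
        · rcases h.new hB hO k2 k3 k4 h2 with h4 | ⟨i', h4, h4'⟩
          · rw [g5] at h3
            rw [k5] at h4
            exact hjj (cone_own h3 h4)
          · rw [g5] at h3
            exact hcl p' hp' i' v h3.1 h4
        · rcases h.new hB hO k2 k3 k4 h2 with h4 | ⟨i', h4, h4'⟩
          · rw [k5] at h4
            exact hcl p hp i v h4.1 h3
          · rcases o3 _ _ _ h3 h4 with h5 | h5
            · exact h.clos hB hO g1 k1 hd h5
            · exact h.clos hB hO k1 g1 (Ne.symm hd) h5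
      · obtain ⟨h1, h2⟩ := hv
        rw [endd_snoc, g5] at h1
        rcases h.new hB hO k2 k3 k4 h2 with h4 | ⟨i', h4, h4'⟩
        · rw [k5] at h4
          exact hjj (cone_own h1 h4)
        · exact hcl p' hp' i' v h1.1 h4

end Accan

/-- Module ACCAN. -/
theorem accan (hB : BasicStatement) (hO : OwnStatement) : AccanStatement := by
  intro δ S z X hwf hAC _ hval hpre hz hX1 hX2 hX3
  exact Accan.accan ⟨hwf.inv, hAC, hval, hpre⟩ hB hO z X hz hX1 hX2 hX3

end Pool.Agent.Lib.MP_d48993_lc.Node
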