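import Pool.Agent.Lib.MP_d48993_lc.AE.Node.Interfaces

/-!
# Project NODE (MP_d48993): module FINV, finite data have finitely many valid symbols
-/

set_option autoImplicit false

namespace Pool.Agent.Lib.MP_d48993_lc.Node

namespace Finv

lemma finite_lists {α : Type} {S : Set α} (hS : S.Finite) (n : ℕ) :
    {l : List α | l.length ≤ n ∧ ∀ a ∈ l, a ∈ S}.Finite := by
  induction n with
  | zero =>
    refine (Set.finite_singleton ([] : List α)).subset ?_
    rintro l ⟨hl, _⟩
    exact List.eq_nil_of_length_eq_zero (by omega)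
  | succ n ih =>
    refine ((Set.finite_singleton ([] : List α)).union (hS.image2 List.cons ih)).subset ?_
    rintro l ⟨hl, hm⟩
    cases l with
    | nil => exact Or.inl rfl
    | cons a l =>
      refine Or.inr ⟨a, hm a List.mem_cons_self, l, ⟨?_, fun b hb =>
        hm b (List.mem_cons_of_mem _ hb)⟩, rfl⟩
      simpa using hl

lemma finite_nodup {α : Type} {S : Set α} (hS : S.Finite) :
    {l : List α | l.Nodup ∧ ∀ a ∈ l, a ∈ S}.Finite := by
  classical
  refine (finite_lists hS hS.toFinset.card).subset ?_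
  rintro l ⟨hl, hm⟩
  refine ⟨?_, hm⟩
  rw [← List.toFinset_card_of_nodup hl]
  refine Finset.card_le_card fun a ha => ?_
  rw [Set.Finite.mem_toFinset]
  exact hm a (List.mem_toFinset.1 ha)

lemma finite_adm (N : ℕ) : {t : St | Adm t ∧ t.1 < N}.Finite := by
  have h := (Set.finite_lt_nat N).prod (finite_lists (Set.finite_lt_nat N) N)
  refine h.subset ?_
  rintro ⟨r, l⟩ ⟨⟨h1, h2⟩, h3⟩
  have hsz : sz r ≤ r := Nat.unpair_left_le r
  simp only at h1 h2 h3
  exact ⟨h3, by change l.length ≤ N; omega, fun b hb => lt_of_lt_of_le (h2 b hb) (by omega)⟩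

lemma chain {x y : St} {μ : List ℕ} (h : Ch x μ y) (hlt : ∀ s ∈ μ, (src s).1 < (tgt s).1) :
    μ.length + x.1 ≤ y.1 ∧ ∀ s ∈ μ, (tgt s).1 < y.1 ∨ tgt s = y := by
  induction μ generalizing x with
  | nil =>
    have h' : x = y := h
    subst h'
    exact ⟨by simp, fun s hs => absurd hs List.not_mem_nil⟩
  | cons s τ ih =>
    obtain ⟨h1, h2⟩ := h
    obtain ⟨i1, i2⟩ := ih h2 fun s' hs' => hlt s' (List.mem_cons_of_mem _ hs')
    have h3 := hlt s List.mem_cons_self
    rw [h1] at h3
    refine ⟨by rw [List.length_cons]; omega, fun s' hs' => ?_⟩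
    rcases List.mem_cons.1 hs' with rfl | hs'
    · cases τ with
      | nil => exact Or.inr h2
      | cons a τ =>
        left
        rw [List.length_cons] at i1
        omega
    · exact i2 s' hs'

end Finv

open Finv in
/-- Module FINV. -/
theorem finv (hCodes : CodesStatement) (hBasic : BasicStatement) : FinvStatement := by
  intro δ
  have hfit : ∀ x t, δ.W.edge x t → Fit x t := fun x t h => h.1
  have hN : ∀ x t, δ.W.edge x t → t.1 < δ.1 := fun x t h => h.2.1
  have hedge : ∀ s, VS δ.W s → δ.W.edge (src s) (tgt s) := (hBasic δ.W hfit).1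
  have hlt : ∀ s, VS δ.W s → (src s).1 < (tgt s).1 := fun s hs => (hfit _ _ (hedge s hs)).2.2.1
  have hparts := hCodes.1
  have htgt : ∀ x t A E, tgt (sym x t A E) = t := fun x t A E => by
    unfold tgt
    rw [hparts]
  -- the induction
  have key : ∀ r k : ℕ, ∀ t : St, t.1 = r → rk t = k → {s | VS δ.W s ∧ tgt s = t}.Finite := by
    intro r
    induction r using Nat.strong_induction_on with
    | _ r ihr =>
    intro k
    induction k using Nat.strong_induction_on with
    | _ k ihk =>
    intro t htr htk
    -- the symbols into smaller roots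
    have hF1 : {s | VS δ.W s ∧ (tgt s).1 < r}.Finite := by
      refine ((finite_adm r).biUnion (t := fun t' => {s | VS δ.W s ∧ tgt s = t'})
        fun t' ht' => ihr t'.1 ht'.2 (rk t') t' rfl rfl).subset ?_
      rintro s ⟨hs, hs'⟩
      exact Set.mem_biUnion (show tgt s ∈ {t : St | Adm t ∧ t.1 < r} from
        ⟨(hfit _ _ (hedge s hs)).2.1, hs'⟩) ⟨hs, rfl⟩
    -- the symbols into the own states of `t`
    have hF2 : {s | VS δ.W s ∧ ∃ j, tgt s = ow t j}.Finite := by
      by_cases hk : t.2.length < sz t.1
      · refine ((Set.finite_lt_nat (sz t.1)).biUnion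
          (t := fun j => {s | VS δ.W s ∧ tgt s = ow t j}) fun j _ => ?_).subset ?_
        · refine ihk (rk (ow t j)) ?_ (ow t j) htr rfl
          rw [← htk]
          change sz t.1 - (t.2 ++ [j]).length < sz t.1 - t.2.length
          rw [List.length_append, List.length_singleton]
          omega
        · rintro s ⟨hs, j, hj⟩
          have hadm : Adm (ow t j) := by
            rw [← hj]
            exact (hfit _ _ (hedge s hs)).2.1
          exact Set.mem_biUnion (show j ∈ {j | j < sz t.1} from
            hadm.2 j (List.mem_append_right _ (List.mem_singleton.2 rfl))) ⟨hs, hj⟩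
      · refine Set.finite_empty.subset ?_
        rintro s ⟨hs, j, hj⟩
        have hadm : Adm (ow t j) := by
          rw [← hj]
          exact (hfit _ _ (hedge s hs)).2.1
        have h1 := hadm.1
        change (t.2 ++ [j]).length ≤ sz t.1 at h1
        rw [List.length_append, List.length_singleton] at h1
        omega
    have hF := hF1.union hF2
    set F : Set ℕ := {s | VS δ.W s ∧ (tgt s).1 < r} ∪ {s | VS δ.W s ∧ ∃ j, tgt s = ow t j}
      with hFdef
    have hStr := finite_lists hF r
    -- the side strings and the extra strings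
    let al : St → List ℕ := fun x => (δ.W.adv (ow x 0)).getD []
    have hA : ∀ x : St, {A : List (List ℕ) | A.length ≤ 2 * sz x.1 ∧ ∀ β ∈ A,
        β ∈ {β : List ℕ | β.length ≤ (al x).length + 1 ∧
          ∀ s ∈ β, s ∈ F ∪ {s | s ∈ al x}}}.Finite := fun x =>
      finite_lists (finite_lists (hF.union (List.finite_toSet (al x))) _) _
    have hE : ∀ x : St, {E : List (ℕ × List ℕ) | E.Nodup ∧ ∀ p ∈ E,
        p ∈ {j : ℕ | j < sz x.1} ×ˢ {l : List ℕ | l.length ≤ r ∧ ∀ a ∈ l, a ∈ F}}.Finite :=
      fun x => finite_nodup ((Set.finite_lt_nat _).prod hStr)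
    refine ((finite_adm r).biUnion fun x _ => (hA x).image2 (sym x t) (hE x)).subset ?_
    rintro s ⟨hs, hst⟩
    cases hs with
    | mk x t' A E α c hed h0 hα hαv hαc hAeq hc hc' hEn hEv hE' =>
    have ht' : t' = t := by
      rw [htgt] at hst
      exact hst
    subst ht'
    have hfx := hfit _ _ hed
    refine Set.mem_biUnion (show x ∈ {t : St | Adm t ∧ t.1 < r} from
      ⟨hfx.1, htr ▸ hfx.2.2.1⟩) ⟨A, ?_, E, ?_, rfl⟩
    · by_cases hx : rk x = 0
      · rw [(h0 hx).1]
        exact ⟨Nat.zero_le _, fun β hβ => absurd hβ List.not_mem_nil⟩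
      · have hx' : 0 < rk x := Nat.pos_of_ne_zero hx
        have hal : al x = α := by
          change (δ.W.adv (ow x 0)).getD [] = α
          rw [hα hx']
          rfl
        have hA' := hAeq hx'
        refine ⟨by rw [hA', List.length_map, List.length_range], fun β hβ => ?_⟩
        rw [hA', List.mem_map] at hβ
        obtain ⟨i, hi, rfl⟩ := hβ
        have hi' := List.mem_range.1 hi
        have hci : c i ∈ F := Or.inr ⟨hc hx' i hi', i, (hc' hx' i hi').2.1⟩
        have hlen : α.length ≤ (al x).length := by rw [hal]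
        by_cases h2 : i < 2
        · rw [if_pos h2]
          refine ⟨by rw [List.length_append, List.length_singleton]; omega, fun s hs => ?_⟩
          rcases List.mem_append.1 hs with hs | hs
          · exact Or.inr (by change s ∈ al x; rw [hal]; exact hs)
          · rw [List.mem_singleton.1 hs]
            exact Or.inl hci
        · rw [if_neg h2]
          refine ⟨by rw [List.length_singleton]; omega, fun s hs => ?_⟩
          rw [List.mem_singleton.1 hs]
          exact Or.inl hci
    · refine ⟨hEn.1, fun p hp => ⟨hEn.2 p hp, ?_⟩⟩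
      obtain ⟨j, hj, hch⟩ := hE' p hp
      obtain ⟨c1, c2⟩ := chain hch fun s hs => hlt s (hEv p hp s hs)
      have e1 : (ow t' j).1 = r := htr
      refine ⟨by omega, fun s hs => ?_⟩
      rcases c2 s hs with h | h
      · exact Or.inl ⟨hEv p hp s hs, by omega⟩
      · exact Or.inr ⟨hEv p hp s hs, j, h⟩
  have hall : {s | VS δ.W s}.Finite := by
    refine ((finite_adm δ.1).biUnion (t := fun t' => {s | VS δ.W s ∧ tgt s = t'})
      fun t' _ => key t'.1 (rk t') t' rfl rfl).subset ?_
    intro s hs
    exact Set.mem_biUnion (show tgt s ∈ {t : St | Adm t ∧ t.1 < δ.1} from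
      ⟨(hfit _ _ (hedge s hs)).2.1, hN _ _ (hedge s hs)⟩) ⟨hs, rfl⟩
  refine ⟨hall, fun x y => (finite_lists hall y.1).subset ?_⟩
  rintro μ ⟨h1, h2⟩
  obtain ⟨c1, _⟩ := chain h1 fun s hs => hlt s (h2 s hs)
  exact ⟨by omega, h2⟩

end Pool.Agent.Lib.MP_d48993_lc.Node
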