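import Pool.Agent.Lib.MP_d48993_lc.AE.Node.LimitStep

/-!
# Project NODE (MP_d48993), module LIMIT
-/

set_option autoImplicit false

namespace Pool.Agent.Lib.MP_d48993_lc.Node.Limit

open MP_8c048d_lc (pre join RecF Sig Clo Cop Del)

attribute [local fun_prop] Computable cid cconst ccomp cfst csnd cpair

theorem tt_comp1 {Tr : ℕ → List ℕ → Prop}
    (hTr : ComputablePred (fun p : ℕ × List ℕ => Tr p.1 p.2)) (e : ℕ) :
    ComputablePred (TT Tr e) := by
  obtain ⟨_, h⟩ := tt_comp hTr
  exact ⟨fun a => Classical.propDecidable _,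
    (h.comp ((Computable.const e).pair Computable.id)).of_eq fun p => by congr⟩

/-- One stage. -/
theorem step' (hb : BasicStatement) (hm : MonoStatement) (hK : KillsStatement)
    (hS : StageAStatement) {Φ : ℕ → List ℕ → List ℕ} {Tr : ℕ → List ℕ → Prop}
    {TU : List ℕ → Prop} {V : ℕ → ℕ} (hΦ : IsEnum Φ) (hTr : IsTreeEnum Tr)
    (hTU : ComputablePred TU) (hpU : PC TU) (hV : V ∉ Up {f | ∀ k, TU (pre f k)})
    (t : Task) (n : ℕ) (d : Data) (ha : Wf d ∧ Full d) :
    ∃ (d' : Data) (u fl : ℕ) (c' : Cnd3) (ρ' : List ℕ),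
      RR Φ Tr TU V (t, n, d, d', u, fl, c', ρ') := by
  obtain ⟨δ₁, u, g1, g2, g3, g4, g5, g6, g7, g8, g9⟩ := hS (phi Φ V) (phi_mono hΦ V) d n
    ha.1 ha.2
  have hA : StA Φ V n d δ₁ u := ⟨g1, g2, g3, g4, g5, g6, g7, g8, g9⟩
  have hKK := hK Φ TU (TT Tr t.2.2.1) V t.2.1 hΦ hTU hpU hV
    (tt_comp1 hTr.comp _) (tt_pc (fun e => hTr.tree e) _) δ₁ u g1 g2 g7
  have same := fun (t : Task) (fl : ℕ) (c' : Cnd3) (ρ' : List ℕ) =>
    base_ok hb hm (t := t) (fl := fl) (c' := c') (ρ' := ρ') ha.1 hA g1 g2 (dext_refl δ₁) rfl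
      (fun p h1 h2 => absurd h1 h2)
  rcases Nat.lt_or_ge t.1 2 with ht | ht
  · -- conditions
    by_cases hex : ∃ c₁ : Cnd3, CV δ₁.W (TT Tr t.2.2.1) c₁ ∧
        CLe (TT Tr t.2.2.1) t.2.2.2.1 c₁ ∧ ARoot u c₁
    · obtain ⟨c₁, hc1, hc2, hc3⟩ := hex
      obtain ⟨hk, hkU⟩ := hKK.1 c₁ hc1 (fun e he => (hc3 e he).ge)
      rcases Nat.lt_or_ge t.1 1 with ht0 | ht1
      · -- kill
        rcases hk with ⟨δ', c', k1, k2, k3, k4, k5, k6, k7, s, hs, hsN, hse⟩ | hk
        · obtain ⟨b1, b2, b3⟩ := base_ok hb hm (t := t) (fl := 1) (c' := c') (ρ' := [])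
            ha.1 hA k1 k2 k3 k4 k5
          refine ⟨δ', u, 1, c', [], ?_⟩
          exact {
            r1 := b1, r2 := b2, r3 := b3
            r4 := fun h => absurd (show (1 : ℕ) = 0 from h.2) (by norm_num)
            r5 := fun _ => ⟨k6, cle_trans hc2 k7 k6.uniq⟩
            r6 := fun _ δ hL hv => hse (((hm.2.2.1 δ' δ k1 hL.2.2).edge _ _ hsN).1
              ((hb δ.W hL.1.inv.fit).1 s (hv.2 s hs)))
            r7 := fun h => absurd (show 2 ≤ (1 : ℕ) from h.2) (by norm_num)
            r8 := fun h => absurd (show 2 ≤ (1 : ℕ) from h.2) (by norm_num)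
            r9 := fun h => absurd (show t.1 = 1 from h.1) (by omega)
            r10 := fun h => absurd (show t.1 = 1 from h.1) (by omega)
            r11 := fun h => absurd (show t.1 = 2 from h.1) (by omega)
            r12 := fun h => absurd (show t.1 = 2 from h.1) (by omega)
            r13 := fun h => absurd (show t.1 = 2 from h.1) (by omega)
            r14 := fun h => absurd (show t.1 = 2 from h.1) (by omega) }
        · obtain ⟨b1, b2, b3⟩ := same t 2 c₁ []
          refine ⟨δ₁, u, 2, c₁, [], ?_⟩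
          exact {
            r1 := b1, r2 := b2, r3 := b3
            r4 := fun h => absurd (show (2 : ℕ) = 0 from h.2) (by norm_num)
            r5 := fun _ => ⟨hc1, hc2⟩
            r6 := fun h => absurd (show (2 : ℕ) = 1 from h.2) (by norm_num)
            r7 := fun _ e he => by
              show (endd o e.2.2).1 ∈ δ₁.pub
              rw [hc3 e he, g4]
              simp
            r8 := by
              rintro _ ⟨δ'', c'', s⟩ ⟨h1, h2, h3, h4, h5, h6⟩
              exact hk δ'' h1.1 h1.2.1 h1.2.2 c'' h2 h3 h4 s h5 h6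
            r9 := fun h => absurd (show t.1 = 1 from h.1) (by omega)
            r10 := fun h => absurd (show t.1 = 1 from h.1) (by omega)
            r11 := fun h => absurd (show t.1 = 2 from h.1) (by omega)
            r12 := fun h => absurd (show t.1 = 2 from h.1) (by omega)
            r13 := fun h => absurd (show t.1 = 2 from h.1) (by omega)
            r14 := fun h => absurd (show t.1 = 2 from h.1) (by omega) }
      · -- killU
        obtain ⟨δ', c', k1, k2, k3, k4, k5, k6, k7, hd⟩ := hkU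
        rcases hd with hd | hd
        · obtain ⟨b1, b2, b3⟩ := base_ok hb hm (t := t) (fl := 1) (c' := c') (ρ' := [])
            ha.1 hA k1 k2 k3 k4 k5
          refine ⟨δ', u, 1, c', [], ?_⟩
          exact {
            r1 := b1, r2 := b2, r3 := b3
            r4 := fun h => absurd (show (1 : ℕ) = 0 from h.2) (by norm_num)
            r5 := fun _ => ⟨k6, cle_trans hc2 k7 k6.uniq⟩
            r6 := fun h => absurd (show t.1 = 0 from h.1) (by omega)
            r7 := fun h => absurd (show 2 ≤ (1 : ℕ) from h.2) (by norm_num)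
            r8 := fun h => absurd (show 2 ≤ (1 : ℕ) from h.2) (by norm_num)
            r9 := fun _ => hd
            r10 := fun h => absurd (show 2 ≤ (1 : ℕ) from h.2) (by norm_num)
            r11 := fun h => absurd (show t.1 = 2 from h.1) (by omega)
            r12 := fun h => absurd (show t.1 = 2 from h.1) (by omega)
            r13 := fun h => absurd (show t.1 = 2 from h.1) (by omega)
            r14 := fun h => absurd (show t.1 = 2 from h.1) (by omega) }
        · obtain ⟨b1, b2, b3⟩ := base_ok hb hm (t := t) (fl := 2) (c' := c') (ρ' := [])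
            ha.1 hA k1 k2 k3 k4 k5
          refine ⟨δ', u, 2, c', [], ?_⟩
          exact {
            r1 := b1, r2 := b2, r3 := b3
            r4 := fun h => absurd (show (2 : ℕ) = 0 from h.2) (by norm_num)
            r5 := fun _ => ⟨k6, cle_trans hc2 k7 k6.uniq⟩
            r6 := fun h => absurd (show t.1 = 0 from h.1) (by omega)
            r7 := fun h => absurd (show t.1 = 0 from h.1) (by omega)
            r8 := fun h => absurd (show t.1 = 0 from h.1) (by omega)
            r9 := fun h => absurd (show (2 : ℕ) = 1 from h.2) (by norm_num)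
            r10 := by
              rintro _ ⟨δ'', c''⟩ ⟨h1, h2, h3⟩
              exact hd δ'' h1.1 h1.2.1 h1.2.2 c'' h2 h3
            r11 := fun h => absurd (show t.1 = 2 from h.1) (by omega)
            r12 := fun h => absurd (show t.1 = 2 from h.1) (by omega)
            r13 := fun h => absurd (show t.1 = 2 from h.1) (by omega)
            r14 := fun h => absurd (show t.1 = 2 from h.1) (by omega) }
    · obtain ⟨b1, b2, b3⟩ := same t 0 ([], []) []
      refine ⟨δ₁, u, 0, ([], []), [], ?_⟩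
      exact {
        r1 := b1, r2 := b2, r3 := b3
        r4 := fun _ c₁ h => hex ⟨c₁, h⟩
        r5 := fun h => absurd rfl h.2
        r6 := fun h => absurd (show (0 : ℕ) = 1 from h.2) (by norm_num)
        r7 := fun h => absurd (show 2 ≤ (0 : ℕ) from h.2) (by norm_num)
        r8 := fun h => absurd (show 2 ≤ (0 : ℕ) from h.2) (by norm_num)
        r9 := fun h => absurd (show (0 : ℕ) = 1 from h.2) (by norm_num)
        r10 := fun h => absurd (show 2 ≤ (0 : ℕ) from h.2) (by norm_num)
        r11 := fun h => absurd (show t.1 = 2 from h.1) (by omega)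
        r12 := fun h => absurd (show t.1 = 2 from h.1) (by omega)
        r13 := fun h => absurd (show t.1 = 2 from h.1) (by omega)
        r14 := fun h => absurd (show t.1 = 2 from h.1) (by omega) }
  · -- strings
    by_cases hex : ∃ ρ₁ : List ℕ, t.2.2.2.2 <+: ρ₁ ∧ VO δ₁ ρ₁ ∧ (endd o ρ₁).1 = u
    · obtain ⟨ρ₁, p1, p2, p3⟩ := hex
      obtain ⟨δ', ρ', k1, k2, k3, k4, k5, k6, k7, hd⟩ := hKK.2 ρ₁ p2 p3.ge
      rcases hd with hd | hd
      · obtain ⟨b1, b2, b3⟩ := base_ok hb hm (t := t) (fl := 1) (c' := ([], [])) (ρ' := ρ')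
          ha.1 hA k1 k2 k3 k4 k5
        refine ⟨δ', u, 1, ([], []), ρ', ?_⟩
        exact {
          r1 := b1, r2 := b2, r3 := b3
          r4 := fun h => absurd (show (1 : ℕ) = 0 from h.2) (by norm_num)
          r5 := fun h => absurd (show t.1 ≤ 1 from h.1) (by omega)
          r6 := fun h => absurd (show t.1 = 0 from h.1) (by omega)
          r7 := fun h => absurd (show t.1 = 0 from h.1) (by omega)
          r8 := fun h => absurd (show t.1 = 0 from h.1) (by omega)
          r9 := fun h => absurd (show t.1 = 1 from h.1) (by omega)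
          r10 := fun h => absurd (show t.1 = 1 from h.1) (by omega)
          r11 := fun h => absurd (show (1 : ℕ) = 0 from h.2) (by norm_num)
          r12 := fun _ => ⟨p1.trans k6, k7⟩
          r13 := fun _ => hd
          r14 := fun h => absurd (show 2 ≤ (1 : ℕ) from h.2) (by norm_num) }
      · obtain ⟨b1, b2, b3⟩ := base_ok hb hm (t := t) (fl := 2) (c' := ([], [])) (ρ' := ρ')
          ha.1 hA k1 k2 k3 k4 k5
        refine ⟨δ', u, 2, ([], []), ρ', ?_⟩
        exact {
          r1 := b1, r2 := b2, r3 := b3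
          r4 := fun h => absurd (show (2 : ℕ) = 0 from h.2) (by norm_num)
          r5 := fun h => absurd (show t.1 ≤ 1 from h.1) (by omega)
          r6 := fun h => absurd (show t.1 = 0 from h.1) (by omega)
          r7 := fun h => absurd (show t.1 = 0 from h.1) (by omega)
          r8 := fun h => absurd (show t.1 = 0 from h.1) (by omega)
          r9 := fun h => absurd (show t.1 = 1 from h.1) (by omega)
          r10 := fun h => absurd (show t.1 = 1 from h.1) (by omega)
          r11 := fun h => absurd (show (2 : ℕ) = 0 from h.2) (by norm_num)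
          r12 := fun _ => ⟨p1.trans k6, k7⟩
          r13 := fun h => absurd (show (2 : ℕ) = 1 from h.2) (by norm_num)
          r14 := by
            rintro _ ⟨δ'', ρ''⟩ ⟨h1, h2, h3⟩
            exact hd δ'' h1.1 h1.2.1 h1.2.2 ρ'' h3 h2 }
    · obtain ⟨b1, b2, b3⟩ := same t 0 ([], []) []
      refine ⟨δ₁, u, 0, ([], []), [], ?_⟩
      exact {
        r1 := b1, r2 := b2, r3 := b3
        r4 := fun h => absurd (show t.1 ≤ 1 from h.1) (by omega)
        r5 := fun h => absurd rfl h.2
        r6 := fun h => absurd (show (0 : ℕ) = 1 from h.2) (by norm_num)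
        r7 := fun h => absurd (show 2 ≤ (0 : ℕ) from h.2) (by norm_num)
        r8 := fun h => absurd (show 2 ≤ (0 : ℕ) from h.2) (by norm_num)
        r9 := fun h => absurd (show (0 : ℕ) = 1 from h.2) (by norm_num)
        r10 := fun h => absurd (show 2 ≤ (0 : ℕ) from h.2) (by norm_num)
        r11 := fun _ ρ₁ h => hex ⟨ρ₁, h⟩
        r12 := fun h => absurd rfl h.2
        r13 := fun h => absurd (show (0 : ℕ) = 1 from h.2) (by norm_num)
        r14 := fun h => absurd (show 2 ≤ (0 : ℕ) from h.2) (by norm_num) }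

/-- One stage. -/
theorem step (hb : BasicStatement) (hm : MonoStatement) (hK : KillsStatement)
    (hS : StageAStatement) {Φ : ℕ → List ℕ → List ℕ} {Tr : ℕ → List ℕ → Prop}
    {TU : List ℕ → Prop} {V : ℕ → ℕ} (hΦ : IsEnum Φ) (hTr : IsTreeEnum Tr)
    (hTU : ComputablePred TU) (hpU : PC TU) (hV : V ∉ Up {f | ∀ k, TU (pre f k)})
    (n : ℕ) (a : Stg) (ha : Wf a.1 ∧ Full a.1) : ∃ a' : Stg, RR Φ Tr TU V (ex (n, a, a')) := by
  obtain ⟨d', u, fl, c', ρ', h⟩ := step' hb hm hK hS hΦ hTr hTU hpU hV (tsk n) n a.1 ha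
  exact ⟨(d', u, fl, c', ρ'), h⟩

/-! ### The limit -/

/-- the first data -/
def D0 : Data := (1, [], [], [], [])

theorem D0_edge (x t : St) : ¬ D0.W.edge x t := by
  rintro ⟨_, _, h | h⟩
  · exact absurd h List.not_mem_nil
  · exact absurd h List.not_mem_nil

theorem D0_adv {y : St} {α : List ℕ} (h : D0.W.adv y = some α) : α = [] := by
  have h1 : (if y.1 < 1 ∧ y.1 ∉ ([] : List ℕ) then some [] else none) = some α := h
  split_ifs at h1 with h2
  exact (Option.some.inj h1).symm

theorem D0_wf : Wf D0 where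
  pos := Nat.one_pos
  zero := List.not_mem_nil
  pub := fun r h => absurd h List.not_mem_nil
  prv := fun p h => absurd h List.not_mem_nil
  adv := fun p h => absurd h List.not_mem_nil
  advNodup := List.nodup_nil
  own := fun p h => absurd h List.not_mem_nil
  ownNodup := List.nodup_nil
  inv :=
    { fit := fun x t h => absurd h (D0_edge x t)
      advForm := fun y α h hα => absurd (D0_adv h) hα
      advValid := fun y α h => by
        rw [D0_adv h]
        exact ⟨rfl, fun s hs => absurd hs List.not_mem_nil⟩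
      ownLt := fun r w h => by
        have h1 : (none : Option St) = some w := h
        exact absurd h1 (by simp)
      edgeOwn := fun x t w h _ => absurd h (D0_edge x t)
      advOwn := fun y α s v v' h hs _ => by
        rw [D0_adv h] at hs
        exact absurd hs List.not_mem_nil }

theorem D0_full : Full D0 := fun _ _ _ h => absurd h List.not_mem_nil

theorem reindex : Computable (fun x : ℕ × ℕ × Stg × Stg =>
    (((x.2.1, x.2.2.1, x.2.2.2), x.1) : (ℕ × Stg × Stg) × ℕ)) := by
  fun_prop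

theorem endd_good (hb : BasicStatement) {δ : Data} (hδ : Wf δ) {ρ : List ℕ} (h : VO δ ρ) :
    Adm (endd o ρ) ∧ (endd o ρ).1 < δ.N := by
  rcases List.eq_nil_or_concat ρ with rfl | ⟨ρ₀, s, rfl⟩
  · refine ⟨⟨Nat.zero_le _, fun b hb => absurd hb List.not_mem_nil⟩, hδ.pos⟩
  · have h1 : endd o (ρ₀ ++ [s]) = tgt s := by simp [endd]
    have h2 : VS δ.W s := h.2 s (by simp)
    have h3 := (hb δ.W hδ.inv.fit).1 s h2
    rw [List.concat_eq_append, h1]
    exact ⟨(hδ.inv.fit _ _ h3).2.1, h3.2.1⟩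

end Limit

open Limit MP_8c048d_lc in
/-- Module LIMIT. -/
theorem limit (hcd : CodesStatement) (hb : BasicStatement) (hm : MonoStatement)
    (hv : DecvStatement) (hc : DeccStatement) (hS : StageAStatement) (hK : KillsStatement)
    (hCont : ContStatement) (hCan : CanStatement) (hL : LimcStatement) : LimitStatement := by
  intro Φ Tr TU V hΦ hTr hTU hpU hV
  obtain ⟨d₀, hd₀, hd₁⟩ := (cloRR (Φ := Φ) (Tr := Tr) (TU := TU) hv hc hcd hTr.comp hΦ.comp
    hTU).comp ex_comp
  obtain ⟨A, g, hg, hA0, hA, hlim⟩ := hL Stg (fun x F => d₀ ((x.2.1, x.2.2.1, x.2.2.2), x.1) F)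
    (fun a => Wf a.1 ∧ Full a.1) (D0, 0, 0, ([], []), []) V (hd₀.comp₁ reindex)
    ⟨D0_wf, D0_full⟩
    (fun n a ha => by
      obtain ⟨a', h⟩ := step hb hm hK hS hΦ hTr hTU hpU hV n a ha
      exact ⟨a', fun k => (hd₁ (n, a, a') V).1 h k⟩)
    (fun n a a' _ h => by
      have h1 := (hd₁ (n, a, a') V).2 h
      exact ⟨h1.r1.1.1, h1.r1.1.2.1⟩)
  have hR : ∀ n, RR Φ Tr TU V (ex (n, A n, A (n + 1))) := fun n => (hd₁ _ V).2 (hA n).2
  have hwf : ∀ n, Wf (A n).1 := fun n => (hA n).1.1
  have hfu : ∀ n, Full (A n).1 := fun n => (hA n).1.2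
  have hE1 : ∀ n, DExt (A n).1 (A (n + 1)).1 := fun n => (hR n).r1.1.2.2
  have hE : ∀ n m, n ≤ m → DExt (A n).1 (A m).1 := by
    intro n m h
    induction m, h using Nat.le_induction with
    | base => exact dext_refl _
    | succ m hm' ih => exact hm.2.2.2.1 _ _ _ ih (hwf n) (hwf m) (hE1 m)
  have hLat : ∀ n m, n ≤ m → Lat (A n).1 (A m).1 := fun n m h => ⟨hwf m, hfu m, hE n m h⟩
  have hpub : ∀ n, (A (n + 1)).1.pub = (A n).1.pub ++ [(A (n + 1)).2.1] := fun n => (hR n).r1.2.1
  have hNu : ∀ n, (A n).1.N ≤ (A (n + 1)).2.1 := fun n => (hR n).r1.2.2.1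
  have hsz : ∀ n, n ≤ sz (A (n + 1)).2.1 := fun n => (hR n).r1.2.2.2.1
  have hNmono : ∀ n m, n ≤ m → (A n).1.N ≤ (A m).1.N := fun n m h => (hE n m h).N
  have hup : ∀ n, (A (n + 1)).2.1 ∈ (A (n + 1)).1.pub := fun n => by rw [hpub n]; simp
  -- the tasks
  have task : ∀ (t : Task) (n₀ : ℕ), ∃ n, n₀ ≤ n ∧ tsk n = t := fun t n₀ =>
    ⟨Nat.pair (Encodable.encode t) n₀, Nat.right_le_pair _ _, tsk_pair t n₀⟩
  refine ⟨fun n => (A n).1, fun n => (A (n + 1)).2.1, fun x F => (g x F).1, ?_,
    hg.comp Computable.fst, fun n => ?_⟩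
  swap
  · obtain ⟨s0, h⟩ := hlim n
    exact ⟨s0, fun s hs => by
      show (g (s, n) V).1 = (A n).1
      rw [h s hs]⟩
  have hTT : ∀ E₀ : List ℕ, TT Tr (Encodable.encode E₀) = TE Tr E₀ := fun E₀ =>
    congrArg (TE Tr) (dl_encode E₀)
  have hR' : ∀ (t : Task) (n : ℕ), tsk n = t → RR Φ Tr TU V (t, n, (A n).1, (A (n + 1)).1,
      (A (n + 1)).2.1, (A (n + 1)).2.2.1, (A (n + 1)).2.2.2.1, (A (n + 1)).2.2.2.2) := by
    rintro t n rfl
    exact hR n
  -- conditions
  have cond : ∀ (k : ℕ) (i : ℕ) (E₀ : List ℕ) (c : Cnd3) (n₀ : ℕ), k ≤ 1 →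
      CV (A n₀).1.W (TE Tr E₀) c → ∃ n, n₀ ≤ n ∧ RR Φ Tr TU V
        ((k, i, Encodable.encode E₀, c, []), n, (A n).1, (A (n + 1)).1,
        (A (n + 1)).2.1, (A (n + 1)).2.2.1, (A (n + 1)).2.2.2.1, (A (n + 1)).2.2.2.2) ∧
        (A (n + 1)).2.2.1 ≠ 0 ∧ CV (A (n + 1)).1.W (TE Tr E₀) (A (n + 1)).2.2.2.1 ∧
        CLe (TE Tr E₀) c (A (n + 1)).2.2.2.1 := by
    intro k i E₀ c n₀ hk hcv
    obtain ⟨K, hK'⟩ := hCont (A n₀).1 (TE Tr E₀) c (hwf n₀) (hfu n₀) hcv
    obtain ⟨n, hn, ht⟩ := task (k, i, Encodable.encode E₀, c, []) (max n₀ K)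
    have hn1 : n₀ ≤ n := (le_max_left _ _).trans hn
    have hn2 : K ≤ n := (le_max_right _ _).trans hn
    obtain ⟨c', h1, h2, _, h4⟩ := hK' (A (n + 1)).1 (A (n + 1)).2.1 (hwf _)
      (hE n₀ (n + 1) (by omega)) (hup n) ((hNmono n₀ n hn1).trans (hNu n)) (hn2.trans (hsz n))
    have h5 := hR' _ n ht
    have h0 : (A (n + 1)).2.2.1 ≠ 0 := by
      intro h0
      refine h5.r4 ⟨hk, h0⟩ c' ⟨?_, ?_, h4⟩
      · rw [← hTT E₀] at h1
        exact h1
      · rw [← hTT E₀] at h2
        exact h2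
    obtain ⟨h6, h7⟩ := h5.r5 ⟨hk, h0⟩
    refine ⟨n, hn1, h5, h0, ?_, ?_⟩
    · rw [← hTT E₀]
      exact h6
    · rw [← hTT E₀]
      exact h7
  have hfl : ∀ fl : ℕ, fl ≠ 0 → fl = 1 ∨ 2 ≤ fl := fun fl h => by omega
  exact
    { wf := hwf
      full := hfu
      ext := hE1
      zero := by
        show (A 0).1.pub = [] ∧ (A 0).1.prv = []
        rw [hA0]
        exact ⟨rfl, rfl⟩
      pub := hpub
      root := fun n => ⟨hNu n, hsz n⟩
      lt := fun n => (hR n).r1.2.2.2.2
      prv := fun n p h1 h2 => (hR n).r2 p ⟨h1, h2⟩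
      hit := by
        intro n y hy hz hyu
        have hyu : y.1 = (A (n + 1)).2.1 := hyu
        have hyp : y.1 ∈ (A (n + 1)).1.pub := by rw [hyu]; exact hup n
        obtain ⟨α, hα⟩ := Option.isSome_iff_exists.1 (hfu (n + 1) y hy hz hyp)
        refine ⟨α, hα, fun μ hμ i hi m hmn => ?_⟩
        by_contra hcon
        push Not at hcon
        obtain ⟨hlen, δ', hd, hw, hf, μ', w, hμ', hge⟩ := hcon
        have hz' : y.2.reverse.head? = some 0 := by
          obtain ⟨x, rfl⟩ := hz
          simp [ow]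
        have h9 : (phi Φ V i (μ ++ α ++ μ')).length < m :=
          (hR n).r3 ((y, α), μ, (i, m), δ', μ', w) ⟨⟨hy, hz', hyu, adv_mem hyp hα⟩,
          ⟨hμ, hi, hmn, hlen⟩, ⟨hw, hf, hd⟩, hμ'⟩
        exact absurd h9 (Nat.not_lt.2 hge)
      kill := by
        intro i E₀ c n₀ hcv
        obtain ⟨n, hn, h5, h0, h6, h7⟩ := cond 0 i E₀ c n₀ (by omega) hcv
        refine ⟨n, hn, (A (n + 1)).2.2.2.1, h6, h7, ?_⟩
        rcases hfl _ h0 with h1 | h2
        · left
          intro m hm'
          exact h5.r6 ⟨rfl, h1⟩ (A m).1 (hLat (n + 1) m hm')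
        · right
          refine ⟨fun e he => h5.r7 ⟨rfl, h2⟩ e he, (A (n + 1)).1.N, ?_⟩
          intro m hm' c'' h8 h9 h10 s hs hN
          rw [← hTT E₀] at h8 h9
          exact h5.r8 ⟨rfl, h2⟩ ((A m).1, c'', s) ⟨hLat (n + 1) m hm', h8, h9, h10, hs, hN⟩
      killU := by
        intro i E₀ c n₀ hcv
        obtain ⟨n, hn, h5, h0, h6, h7⟩ := cond 1 i E₀ c n₀ le_rfl hcv
        refine ⟨n, hn, (A (n + 1)).2.2.2.1, h6, h7, ?_⟩
        rcases hfl _ h0 with h1 | h2
        · left
          exact h5.r9 ⟨rfl, h1⟩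
        · right
          intro m hm' c'' h8 h9
          rw [← hTT E₀] at h8 h9
          exact h5.r10 ⟨rfl, h2⟩ ((A m).1, c'') ⟨hLat (n + 1) m hm', h8, h9⟩
      killN := by
        intro i ρ n₀ hρ
        obtain ⟨ha, hN⟩ := endd_good hb (hwf n₀) hρ
        obtain ⟨K, hK'⟩ := hCan (A n₀).1 (hwf n₀) (hfu n₀) (endd o ρ) ha hN
        obtain ⟨n, hn, ht⟩ := task (2, i, 0, ([], []), ρ) (max n₀ K)
        have hn1 : n₀ ≤ n := (le_max_left _ _).trans hn
        have hn2 : K ≤ n := (le_max_right _ _).trans hn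
        have h5 := hR' _ n ht
        have h0 : (A (n + 1)).2.2.1 ≠ 0 := by
          intro h0
          obtain ⟨s, s1, s2, s3, _⟩ := hK' (A (n + 1)).1 (hwf _) (hE n₀ (n + 1) (by omega))
            ((A (n + 1)).2.1, []) ⟨Nat.zero_le _, fun b hb => absurd hb List.not_mem_nil⟩
            (hup n) ((hNmono n₀ n hn1).trans (hNu n)) (by
              show K ≤ sz (A (n + 1)).2.1 - ([] : List ℕ).length
              have := hsz n
              simp only [List.length_nil, Nat.sub_zero]
              omega) (hn2.trans (hsz n))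
          have e1 : endd o (ρ ++ [s]) = tgt s := by simp [endd]
          have hρ' : VO (A (n + 1)).1 ρ := by
            refine ⟨hρ.1, fun s' hs' => ?_⟩
            exact hm.1 _ _ _ (hm.2.2.1 _ _ (hwf n₀) (hE n₀ (n + 1) (by omega)))
              (fun x t h => h.2.1) s' (hρ.2 s' hs')
          refine h5.r11 ⟨rfl, h0⟩ (ρ ++ [s]) ⟨List.prefix_append _ _, ?_, ?_⟩
          · refine ⟨?_, ?_⟩
            · rw [e1]
              refine (hcd.2.2.2.2.2.2.2.2.2.2.2.1 o ρ [s] (tgt s)).2 ⟨hρ'.1, s2, rfl⟩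
            · intro s' hs'
              rcases List.mem_append.1 hs' with h | h
              · exact hρ'.2 s' h
              · rw [List.mem_singleton.1 h]
                exact s1
          · rw [e1, s3]
        obtain ⟨h6, h7⟩ := h5.r12 ⟨rfl, h0⟩
        refine ⟨n, hn1, (A (n + 1)).2.2.2.2, h6, h7, ?_⟩
        rcases hfl _ h0 with h1 | h2
        · left
          exact h5.r13 ⟨rfl, h1⟩
        · right
          intro m hm' ρ'' h8 h9
          exact h5.r14 ⟨rfl, h2⟩ ((A m).1, ρ'') ⟨hLat (n + 1) m hm', h8, h9⟩ }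

end Pool.Agent.Lib.MP_d48993_lc.Node
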