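import Pool.Agent.Lib.MP_d48993_lc.AE.Node.Interfaces

/-!
# Project NODE (MP_d48993), module DECV: decidability
-/

set_option autoImplicit false

namespace Pool.Agent.Lib.MP_d48993_lc.Node.Decv

open Primrec

/-! ## Tools -/

section Tools

variable {γ β σ : Type} [Primcodable γ] [Primcodable β] [Primcodable σ]

theorem fml {L : γ → List β} {R : γ → β → Prop} (hL : Primrec L)
    (hR : PrimrecPred fun q : γ × β => R q.1 q.2) : PrimrecPred fun a => ∀ b ∈ L a, R a b := by
  have h : PrimrecRel fun (b : β) (a : γ) => R a b := hR.comp (snd.pair fst)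
  exact h.forall_mem_list.comp hL Primrec.id

theorem eml {L : γ → List β} {R : γ → β → Prop} (hL : Primrec L)
    (hR : PrimrecPred fun q : γ × β => R q.1 q.2) : PrimrecPred fun a => ∃ b ∈ L a, R a b := by
  have h : PrimrecRel fun (b : β) (a : γ) => R a b := hR.comp (snd.pair fst)
  exact h.exists_mem_list.comp hL Primrec.id

theorem flt {n : γ → ℕ} {R : γ → ℕ → Prop} (hn : Primrec n)
    (hR : PrimrecPred fun q : γ × ℕ => R q.1 q.2) : PrimrecPred fun a => ∀ i < n a, R a i := by
  exact (fml (list_range.comp hn) hR).of_eq fun a => by simp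

theorem elt {n : γ → ℕ} {R : γ → ℕ → Prop} (hn : Primrec n)
    (hR : PrimrecPred fun q : γ × ℕ => R q.1 q.2) : PrimrecPred fun a => ∃ i < n a, R a i := by
  exact (eml (list_range.comp hn) hR).of_eq fun a => by simp

theorem imp {p q : γ → Prop} (hp : PrimrecPred p) (hq : PrimrecPred q) :
    PrimrecPred fun a => p a → q a :=
  (hp.not.or hq).of_eq fun a => by tauto

theorem eopt {f : γ → Option β} {R : γ → β → Prop} (hf : Primrec f)
    (hR : PrimrecPred fun q : γ × β => R q.1 q.2) :
    PrimrecPred fun a => ∃ b, f a = some b ∧ R a b :=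
  (eml (optionToList.comp hf) hR).of_eq fun a => by simp

theorem fopt {f : γ → Option β} {R : γ → β → Prop} (hf : Primrec f)
    (hR : PrimrecPred fun q : γ × β => R q.1 q.2) :
    PrimrecPred fun a => ∀ b, f a = some b → R a b :=
  (fml (optionToList.comp hf) hR).of_eq fun a => by simp

theorem eqp {f g : γ → β} (hf : Primrec f) (hg : Primrec g) : PrimrecPred fun a => f a = g a := by
  classical
  exact Primrec.eq.comp hf hg

theorem memp {b : γ → β} {L : γ → List β} (hb : Primrec b) (hL : Primrec L) :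
    PrimrecPred fun a => b a ∈ L a :=
  (eml (R := fun a c => b a = c) hL (eqp (hb.comp fst) snd)).of_eq fun a => by simp

theorem itep {c : γ → Prop} [DecidablePred c] {f g : γ → σ} (hc : PrimrecPred c)
    (hf : Primrec f) (hg : Primrec g) : Primrec fun a => if c a then f a else g a :=
  Primrec.ite hc hf hg

theorem last_pr {l : γ → List β} (hl : Primrec l) : Primrec fun a => (l a).getLast? :=
  (list_head?.comp (list_reverse.comp hl)).of_eq fun a => by simp

theorem get_pr {l : γ → List β} {i : γ → ℕ} (hl : Primrec l) (hi : Primrec i) :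
    Primrec fun a => (l a)[i a]? :=
  list_getElem?.comp hl hi

theorem getD_pr {o : γ → Option β} {d : γ → β} (ho : Primrec o) (hd : Primrec d) :
    Primrec fun a => (o a).getD (d a) :=
  option_getD.comp ho hd

theorem find_pr {l : γ → List β} {R : γ → β → Prop} [DecidablePred fun q : γ × β => R q.1 q.2]
    [∀ a b, Decidable (R a b)] (hl : Primrec l)
    (hR : PrimrecPred fun q : γ × β => R q.1 q.2) :
    Primrec fun a => (l a).find? fun b => decide (R a b) := by
  have h : PrimrecRel fun (b : β) (a : γ) => R a b := hR.comp (snd.pair fst)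
  have h2 := h.listFilter
  refine (list_head?.comp (h2.comp hl Primrec.id)).of_eq fun a => ?_
  rw [List.head?_filter]
  rfl

theorem nodup_pr {l : γ → List β} (hl : Primrec l) : PrimrecPred fun a => (l a).Nodup := by
  refine (flt (R := fun a j => ∀ i < j, ¬ (l a)[j]? = (l a)[i]?) (list_length.comp hl)
    (flt (R := fun (q : γ × ℕ) i => ¬ (l q.1)[q.2]? = (l q.1)[i]?) snd
    (eqp (get_pr (hl.comp (fst.comp fst)) (snd.comp fst))
      (get_pr (hl.comp (fst.comp fst)) snd)).not)).of_eq fun a => ?_
  rw [List.nodup_iff_getElem?_ne_getElem?]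
  constructor
  · intro h i j hij hj h2
    exact h j hj i hij h2.symm
  · intro h j hj i hij h2
    exact h i j hij hj h2.symm

end Tools

/-! ## States and symbols -/

section States

variable {γ : Type} [Primcodable γ]

theorem sz_pr {u : γ → ℕ} (hu : Primrec u) : Primrec fun a => sz (u a) :=
  fst.comp (unpair.comp hu)

theorem rk_pr {x : γ → St} (hx : Primrec x) : Primrec fun a => rk (x a) :=
  nat_sub.comp (sz_pr (fst.comp hx)) (list_length.comp (snd.comp hx))

theorem adm_pr {x : γ → St} (hx : Primrec x) : PrimrecPred fun a => Adm (x a) :=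
  (nat_le.comp (list_length.comp (snd.comp hx)) (sz_pr (fst.comp hx))).and
    (fml (snd.comp hx) (nat_lt.comp snd (sz_pr (fst.comp (hx.comp fst)))))

theorem ow_pr {x : γ → St} {j : γ → ℕ} (hx : Primrec x) (hj : Primrec j) :
    Primrec fun a => ow (x a) (j a) :=
  (fst.comp hx).pair (list_concat.comp (snd.comp hx) hj)

theorem cone_pr {x y : γ → St} (hx : Primrec x) (hy : Primrec y) :
    PrimrecPred fun a => Cone (x a) (y a) :=
  ((eqp (fst.comp hy) (fst.comp hx)).and (eqp (snd.comp hx)
    (list_take.comp (list_length.comp (snd.comp hx)) (snd.comp hy)))).of_eq fun a => by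
      unfold Cone
      rw [← List.prefix_iff_eq_take]

theorem fit_pr {x t : γ → St} (hx : Primrec x) (ht : Primrec t) :
    PrimrecPred fun a => Fit (x a) (t a) :=
  (adm_pr hx).and ((adm_pr ht).and ((nat_lt.comp (fst.comp hx) (fst.comp ht)).and
    ((nat_lt.comp (rk_pr hx) (rk_pr ht)).and
      (nat_le.comp (nat_mul.comp (const 2) (sz_pr (fst.comp hx))) (sz_pr (fst.comp ht))))))

theorem zero_iff (y : St) : Zero y ↔ y.2.getLast? = some 0 := by
  constructor
  · rintro ⟨x, rfl⟩
    simp [ow]
  · intro h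
    rw [List.getLast?_eq_some_iff] at h
    obtain ⟨l, hl⟩ := h
    exact ⟨(y.1, l), Prod.ext rfl hl⟩

theorem zero_pr {x : γ → St} (hx : Primrec x) : PrimrecPred fun a => Zero (x a) :=
  (eqp (last_pr (snd.comp hx)) (const (some 0))).of_eq fun _ => (zero_iff _).symm

theorem parts_pr {s : γ → ℕ} (hs : Primrec s) : Primrec fun a => parts (s a) :=
  getD_pr (Primrec.decode.comp hs) (const _)

theorem src_pr {s : γ → ℕ} (hs : Primrec s) : Primrec fun a => src (s a) :=
  fst.comp (parts_pr hs)

theorem tgt_pr {s : γ → ℕ} (hs : Primrec s) : Primrec fun a => tgt (s a) :=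
  fst.comp (snd.comp (parts_pr hs))

theorem ap_pr {s : γ → ℕ} (hs : Primrec s) : Primrec fun a => Ap (s a) :=
  fst.comp (snd.comp (snd.comp (parts_pr hs)))

theorem ex_pr {s : γ → ℕ} (hs : Primrec s) : Primrec fun a => Ex (s a) :=
  snd.comp (snd.comp (snd.comp (parts_pr hs)))

theorem endd_pr {x : γ → St} {τ : γ → List ℕ} (hx : Primrec x) (hτ : Primrec τ) :
    Primrec fun a => endd (x a) (τ a) :=
  getD_pr (option_map (last_pr hτ) (tgt_pr snd).to₂) hx

theorem ch_iff (x : St) (τ : List ℕ) (y : St) : Ch x τ y ↔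
    τ.foldl (fun (o : Option St) s => if o = some (src s) then some (tgt s) else none) (some x) =
      some y := by
  induction τ generalizing x with
  | nil => simp [Ch]
  | cons s τ ih =>
    rw [List.foldl_cons]
    by_cases h : src s = x
    · rw [if_pos (by rw [h]), ← ih (tgt s)]
      simp [Ch, h]
    · rw [if_neg (fun h2 => h (by simpa using h2.symm))]
      have h3 : ∀ l : List ℕ, l.foldl (fun (o : Option St) s => if o = some (src s) then
          some (tgt s) else none) none = none := by
        intro l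
        induction l with
        | nil => rfl
        | cons a l ih => rw [List.foldl_cons, if_neg (by simp), ih]
      rw [h3]
      simp [Ch, h]

theorem ch_pr {x y : γ → St} {τ : γ → List ℕ} (hx : Primrec x) (hτ : Primrec τ)
    (hy : Primrec y) : PrimrecPred fun a => Ch (x a) (τ a) (y a) := by
  refine (eqp (list_foldl hτ (option_some.comp hx) (h := fun (_ : γ) (p : Option St × ℕ) =>
    if p.1 = some (src p.2) then some (tgt p.2) else none) ?_) (option_some.comp hy)).of_eq
      fun a => (ch_iff _ _ _).symm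
  exact (itep (c := fun q : γ × Option St × ℕ => q.2.1 = some (src q.2.2))
    (eqp (fst.comp snd) (option_some.comp (src_pr (snd.comp snd))))
    (option_some.comp (tgt_pr (snd.comp snd))) (const none)).to₂

end States

/-! ## The world of finite data -/

section Worlds

variable {γ : Type} [Primcodable γ]

theorem N_pr {d : γ → Data} (hd : Primrec d) : Primrec fun a => (d a).N := fst.comp hd

theorem pub_pr {d : γ → Data} (hd : Primrec d) : Primrec fun a => (d a).pub :=
  fst.comp (snd.comp hd)

theorem prv_pr {d : γ → Data} (hd : Primrec d) : Primrec fun a => (d a).prv :=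
  fst.comp (snd.comp (snd.comp hd))

theorem advL_pr {d : γ → Data} (hd : Primrec d) : Primrec fun a => (d a).advL :=
  fst.comp (snd.comp (snd.comp (snd.comp hd)))

theorem ownL_pr {d : γ → Data} (hd : Primrec d) : Primrec fun a => (d a).ownL :=
  snd.comp (snd.comp (snd.comp (snd.comp hd)))

theorem edge_pr {d : γ → Data} {x t : γ → St} (hd : Primrec d) (hx : Primrec x)
    (ht : Primrec t) : PrimrecPred fun a => (d a).W.edge (x a) (t a) :=
  (fit_pr hx ht).and ((nat_lt.comp (fst.comp ht) (N_pr hd)).and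
    ((memp (fst.comp ht) (pub_pr hd)).or (memp (hx.pair ht) (prv_pr hd))))

theorem or_eq {α : Type} (a b : Option α) : a.or b = if a = none then b else a := by
  cases a <;> simp

theorem adv_pr {d : γ → Data} {y : γ → St} (hd : Primrec d) (hy : Primrec y) :
    Primrec fun a => (d a).W.adv (y a) := by
  have h1 : Primrec fun a => (((d a).2.2.2.1.find? (fun p => p.1 = y a)).map Prod.snd) :=
    option_map (find_pr (R := fun a p => p.1 = y a) (advL_pr hd)
      (eqp (fst.comp snd) (hy.comp fst))) (snd.comp snd).to₂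
  have h2 : Primrec fun a => (if (y a).1 < (d a).1 ∧ (y a).1 ∉ (d a).2.1 then some [] else none :
      Option (List ℕ)) :=
    itep ((nat_lt.comp (fst.comp hy) (N_pr hd)).and (memp (fst.comp hy) (pub_pr hd)).not)
      (const _) (const _)
  refine (itep (c := fun a => (((d a).2.2.2.1.find? (fun p => p.1 = y a)).map Prod.snd) = none)
    (eqp h1 (const none)) h2 h1).of_eq fun a => ?_
  exact (or_eq _ _).symm

theorem own_pr {d : γ → Data} {r : γ → ℕ} (hd : Primrec d) (hr : Primrec r) :
    Primrec fun a => (d a).W.own (r a) :=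
  option_map (find_pr (R := fun a p => p.1 = r a) (ownL_pr hd)
    (eqp (fst.comp snd) (hr.comp fst))) (snd.comp snd).to₂

end Worlds

/-! ## The hereditary edges -/

/-- The symbols that occur in the side strings and in the extras. -/
def sub (s : ℕ) : List ℕ := (Ap s).flatten ++ ((Ex s).map Prod.snd).flatten

theorem mem_sub (s s' : ℕ) : s' ∈ sub s ↔ (∃ α ∈ Ap s, s' ∈ α) ∨ ∃ p ∈ Ex s, s' ∈ p.2 := by
  unfold sub
  rw [List.mem_append, List.mem_flatten, List.mem_flatten]
  constructor
  · rintro (h | ⟨l, hl, h⟩)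
    · exact Or.inl h
    · obtain ⟨p, hp, rfl⟩ := List.mem_map.1 hl
      exact Or.inr ⟨p, hp, h⟩
  · rintro (h | ⟨p, hp, h⟩)
    · exact Or.inl h
    · exact Or.inr ⟨p.2, List.mem_map.2 ⟨p, hp, rfl⟩, h⟩

theorem sub_lt (hc : CodesStatement) (s s' : ℕ) (h : s' ∈ sub s) : s' < s := by
  rcases (mem_sub s s').1 h with ⟨α, hα, h⟩ | ⟨p, hp, h⟩
  · exact hc.2.2.1 s α s' hα h
  · exact hc.2.2.2.1 s p s' hp h

/-- The list of the hereditary edges. -/
def hl (s : ℕ) : List (St × St) :=
  (src s, tgt s) :: (sub s).flatMap fun s' => if _h : s' < s then hl s' else []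
termination_by s

section HL

variable {γ : Type} [Primcodable γ]

theorem sub_pr {s : γ → ℕ} (hs : Primrec s) : Primrec fun a => sub (s a) :=
  list_append.comp (list_flatten.comp (ap_pr hs))
    (list_flatten.comp (list_map (ex_pr hs) (snd.comp snd).to₂))

theorem hl_pr {s : γ → ℕ} (hs : Primrec s) : Primrec fun a => hl (s a) := by
  have h : Primrec₂ (fun (_ : Unit) (n : ℕ) => hl n) := by
    refine nat_strong_rec (fun (_ : Unit) (n : ℕ) => hl n)
      (g := fun _ L => some ((src L.length, tgt L.length) ::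
        (sub L.length).flatMap fun s' => (L[s']?).getD [])) ?_ ?_
    · have h1 : Primrec fun q : Unit × List (List (St × St)) => q.2.length :=
        list_length.comp snd
      refine option_some.comp (list_cons.comp ((src_pr h1).pair (tgt_pr h1))
        (list_flatMap (sub_pr h1) ?_))
      exact (getD_pr (get_pr (snd.comp fst) snd) (const [])).to₂
    · intro _ n
      rw [hl]
      simp only [List.length_map, List.length_range, dite_eq_ite]
      congr 2
      congr 1
      funext s'
      rw [List.getElem?_map]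
      by_cases h : s' < n
      · rw [List.getElem?_range h, if_pos h]
        rfl
      · rw [if_neg h, List.getElem?_eq_none (by simpa using h)]
        rfl
  exact h.comp (const ()) hs

end HL

theorem he_iff (hc : CodesStatement) (s : ℕ) (v v' : St) : HE s v v' ↔ (v, v') ∈ hl s := by
  constructor
  · intro h
    induction h with
    | top s => rw [hl]; exact List.mem_cons_self
    | ap s α s' v v' hα hs h ih =>
      rw [hl]
      apply List.mem_cons_of_mem
      rw [List.mem_flatMap]
      have h1 : s' ∈ sub s := (mem_sub s s').2 (Or.inl ⟨α, hα, hs⟩)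
      exact ⟨s', h1, by rw [dif_pos (sub_lt hc s s' h1)]; exact ih⟩
    | ex s p s' v v' hp hs h ih =>
      rw [hl]
      apply List.mem_cons_of_mem
      rw [List.mem_flatMap]
      have h1 : s' ∈ sub s := (mem_sub s s').2 (Or.inr ⟨p, hp, hs⟩)
      exact ⟨s', h1, by rw [dif_pos (sub_lt hc s s' h1)]; exact ih⟩
  · induction s using Nat.strong_induction_on with
    | _ s ih =>
      intro h
      rw [hl, List.mem_cons, List.mem_flatMap] at h
      rcases h with h | ⟨s', hs', h⟩
      · rw [Prod.mk.injEq] at h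
        rw [h.1, h.2]
        exact HE.top s
      · have h1 := sub_lt hc s s' hs'
        rw [dif_pos h1] at h
        have h2 := ih s' h1 h
        rcases (mem_sub s s').1 hs' with ⟨α, hα, h3⟩ | ⟨p, hp, h3⟩
        · exact HE.ap s α s' v v' hα h3 h2
        · exact HE.ex s p s' v v' hp h3 h2

/-! ## The valid symbols -/

/-- The last entry of a list. -/
def lst (β : List ℕ) : ℕ := β.getLast?.getD 0

/-- The conditions on the side string `β` number `i`. -/
def Slot (P : ℕ → Prop) (x t : St) (α : List ℕ) (i : ℕ) (β : List ℕ) : Prop :=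
  β = (if i < 2 then α ++ [lst β] else [lst β]) ∧ P (lst β) ∧ Ex (lst β) = [] ∧
    tgt (lst β) = ow t i ∧ src (lst β) = if i < 2 then endd (ow x 0) α else ow x (i / 2)

/-- The conditions for the validity of the symbol `s`; `P` is the validity of its parts. -/
def Step (W : World) (P : ℕ → Prop) (s : ℕ) : Prop :=
  W.edge (src s) (tgt s) ∧ (rk (src s) = 0 → Ap s = [] ∧ Ex s = []) ∧ (Ex s).Nodup ∧
  (∀ p ∈ Ex s, p.1 < sz (src s).1 ∧ (∀ s' ∈ p.2, P s') ∧
    ∃ j < sz (tgt s).1, Ch (ow (src s) p.1) p.2 (ow (tgt s) j)) ∧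
  (0 < rk (src s) → ∃ α, W.adv (ow (src s) 0) = some α ∧ (∀ s' ∈ α, P s') ∧
    Ch (ow (src s) 0) α (endd (ow (src s) 0) α) ∧ (Ap s).length = 2 * sz (src s).1 ∧
    ∀ i < 2 * sz (src s).1, Slot P (src s) (tgt s) α i ((Ap s)[i]?.getD []))

theorem vs_iff (hc : CodesStatement) (W : World) (s : ℕ) :
    VS W s ↔ Step W (fun s' => s' < s ∧ VS W s') s := by
  constructor
  · rintro ⟨x, t, A, E, α, c, hedge, h0, hα, hαv, hαc, hA, hcv, hc', hE, hEv, hE'⟩
    have h1 : parts (sym x t A E) = (x, t, A, E) := hc.1 x t A E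
    have hsrc : src (sym x t A E) = x := by unfold src; rw [h1]
    have htgt : tgt (sym x t A E) = t := by unfold tgt; rw [h1]
    have hAp : Ap (sym x t A E) = A := by unfold Ap; rw [h1]
    have hEx : Ex (sym x t A E) = E := by unfold Ex; rw [h1]
    have hl1 := hc.2.2.1 (sym x t A E)
    have hl2 := hc.2.2.2.1 (sym x t A E)
    rw [hAp] at hl1
    rw [hEx] at hl2
    unfold Step
    rw [hsrc, htgt, hAp, hEx]
    refine ⟨hedge, h0, hE.1, fun p hp => ⟨hE.2 p hp, fun s' hs' => ⟨hl2 p s' hp hs', hEv p hp s' hs'⟩,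
      hE' p hp⟩, fun hpos => ?_⟩
    have hA := hA hpos
    have hsz : 0 < sz x.1 := by
      unfold rk at hpos
      omega
    have hget : ∀ i < 2 * sz x.1, A[i]? = some (if i < 2 then α ++ [c i] else [c i]) := by
      intro i hi
      rw [hA, List.getElem?_map, List.getElem?_range hi]
      rfl
    have hmem : ∀ i < 2 * sz x.1, (if i < 2 then α ++ [c i] else [c i]) ∈ A :=
      fun i hi => List.mem_of_getElem? (hget i hi)
    have hclt : ∀ i < 2 * sz x.1, c i < sym x t A E := by
      intro i hi
      refine hl1 _ _ (hmem i hi) ?_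
      split_ifs <;> simp
    refine ⟨α, hα hpos, fun s' hs' => ⟨?_, hαv hpos s' hs'⟩, hαc hpos, by rw [hA]; simp, ?_⟩
    · refine hl1 _ s' (hmem 0 (by omega)) ?_
      rw [if_pos (by norm_num)]
      exact List.mem_append_left _ hs'
    · intro i hi
      rw [hget i hi, Option.getD_some]
      have hlst : lst (if i < 2 then α ++ [c i] else [c i]) = c i := by
        unfold lst
        split_ifs <;> simp
      unfold Slot
      rw [hlst]
      exact ⟨rfl, ⟨hclt i hi, hcv hpos i hi⟩, hc' hpos i hi⟩
  · rintro ⟨hedge, h0, hE, hEx, h⟩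
    rw [← hc.2.1 s]
    rcases Nat.eq_zero_or_pos (rk (src s)) with hz | hpos
    · exact VS.mk (src s) (tgt s) (Ap s) (Ex s) [] (fun _ => 0) hedge h0 (fun h => by omega)
        (fun h => by omega) (fun h => by omega) (fun h => by omega) (fun h => by omega)
        (fun h => by omega) ⟨hE, fun p hp => (hEx p hp).1⟩
        (fun p hp s' hs' => ((hEx p hp).2.1 s' hs').2) fun p hp => (hEx p hp).2.2
    · obtain ⟨α, hα, hαv, hαc, hlen, hslot⟩ := h hpos
      refine VS.mk (src s) (tgt s) (Ap s) (Ex s) α (fun i => lst ((Ap s)[i]?.getD [])) hedge h0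
        (fun _ => hα) (fun _ s' hs' => (hαv s' hs').2) (fun _ => hαc) (fun _ => ?_)
        (fun _ i hi => (hslot i hi).2.1.2) (fun _ i hi => (hslot i hi).2.2)
        ⟨hE, fun p hp => (hEx p hp).1⟩ (fun p hp s' hs' => ((hEx p hp).2.1 s' hs').2)
        fun p hp => (hEx p hp).2.2
      apply List.ext_getElem?
      intro i
      rcases Nat.lt_or_ge i (2 * sz (src s).1) with hi | hi
      · rw [List.getElem?_map, List.getElem?_range hi, Option.map_some, ← (hslot i hi).1]
        have hi' : i < (Ap s).length := by omega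
        rw [List.getElem?_eq_getElem hi', Option.getD_some]
      · rw [List.getElem?_eq_none (by omega), List.getElem?_eq_none (by simpa using hi)]

section VSP

variable {γ : Type} [Primcodable γ]

theorem lst_pr {β : γ → List ℕ} (hβ : Primrec β) : Primrec fun a => lst (β a) :=
  getD_pr (last_pr hβ) (const 0)

theorem slot_pr {P : γ → ℕ → Prop} {x t : γ → St} {α β : γ → List ℕ} {i : γ → ℕ}
    (hP : PrimrecPred fun q : γ × ℕ => P q.1 q.2) (hx : Primrec x) (ht : Primrec t)
    (hα : Primrec α) (hi : Primrec i) (hβ : Primrec β) :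
    PrimrecPred fun a => Slot (P a) (x a) (t a) (α a) (i a) (β a) := by
  have hi2 : PrimrecPred fun a => i a < 2 := nat_lt.comp hi (const 2)
  have hc : Primrec fun a => [lst (β a)] := list_cons.comp (lst_pr hβ) (const [])
  refine (eqp hβ (itep hi2 (list_append.comp hα hc) hc)).and
    ((hP.comp (Primrec.id.pair (lst_pr hβ))).and ((eqp (ex_pr (lst_pr hβ)) (const [])).and
      ((eqp (tgt_pr (lst_pr hβ)) (ow_pr ht hi)).and (eqp (src_pr (lst_pr hβ)) (itep hi2
        (endd_pr (ow_pr hx (const 0)) hα) (ow_pr hx (nat_div.comp hi (const 2))))))))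

theorem step_pr {d : γ → Data} {P : γ → ℕ → Prop} {s : γ → ℕ} (hd : Primrec d)
    (hP : PrimrecPred fun q : γ × ℕ => P q.1 q.2) (hs : Primrec s) :
    PrimrecPred fun a => Step (d a).W (P a) (s a) := by
  have hx := src_pr hs
  have ht := tgt_pr hs
  have hx1 : Primrec fun q : (γ × ℕ × List ℕ) => src (s q.1) := hx.comp fst
  have ht1 : Primrec fun q : (γ × ℕ × List ℕ) => tgt (s q.1) := ht.comp fst
  have h0 := ow_pr hx (const 0)
  refine (edge_pr hd hx ht).and ((imp (eqp (rk_pr hx) (const 0))
    ((eqp (ap_pr hs) (const [])).and (eqp (ex_pr hs) (const [])))).and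
    ((nodup_pr (ex_pr hs)).and (PrimrecPred.and ?_ (imp (nat_lt.comp (const 0) (rk_pr hx)) ?_))))
  · refine fml (ex_pr hs) ((nat_lt.comp (fst.comp snd) (sz_pr (fst.comp hx1))).and
      ((fml (R := fun (q : γ × ℕ × List ℕ) s' => P q.1 s') (snd.comp snd)
        (hP.comp ((fst.comp fst).pair snd))).and ?_))
    exact elt (R := fun (q : γ × ℕ × List ℕ) j =>
      Ch (ow (src (s q.1)) q.2.1) q.2.2 (ow (tgt (s q.1)) j)) (sz_pr (fst.comp ht1))
      (ch_pr (ow_pr (hx1.comp fst) (fst.comp (snd.comp fst))) (snd.comp (snd.comp fst))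
        (ow_pr (ht1.comp fst) snd))
  · refine eopt (adv_pr hd h0) ((fml (R := fun (q : γ × List ℕ) s' => P q.1 s') snd
      (hP.comp ((fst.comp fst).pair snd))).and ((ch_pr (h0.comp fst) snd
        (endd_pr (h0.comp fst) snd)).and ((eqp (list_length.comp (ap_pr (hs.comp fst)))
          (nat_mul.comp (const 2) (sz_pr (fst.comp (hx.comp fst))))).and ?_)))
    refine flt (R := fun (q : γ × List ℕ) i => Slot (P q.1) (src (s q.1)) (tgt (s q.1)) q.2 i
      ((Ap (s q.1))[i]?.getD [])) (nat_mul.comp (const 2) (sz_pr (fst.comp (hx.comp fst)))) ?_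
    exact slot_pr (P := fun (q : (γ × List ℕ) × ℕ) => P q.1.1)
      (hP.comp ((fst.comp (fst.comp fst)).pair snd)) (hx.comp (fst.comp fst))
      (ht.comp (fst.comp fst)) (snd.comp fst) snd
      (getD_pr (get_pr (ap_pr (hs.comp (fst.comp fst))) snd) (const []))

theorem vs_pr (hc : CodesStatement) {d : γ → Data} {s : γ → ℕ} (hd : Primrec d)
    (hs : Primrec s) : PrimrecPred fun a => VS (d a).W (s a) := by
  classical
  have h : Primrec₂ (fun (δ : Data) (n : ℕ) => decide (VS δ.W n)) := by
    refine nat_strong_rec _ (g := fun (δ : Data) (L : List Bool) => some (decide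
      (Step δ.W (fun s' => L[s']? = some true) L.length))) ?_ ?_
    · refine option_some.comp ?_
      exact (step_pr (P := fun (q : Data × List Bool) s' => q.2[s']? = some true) fst
        (eqp (get_pr (snd.comp fst) snd) (const (some true))) (list_length.comp snd)).decide
    · intro δ n
      congr 1
      rw [List.length_map, List.length_range, decide_eq_decide, vs_iff hc]
      have h1 : (fun s' => ((List.range n).map fun n => decide (VS δ.W n))[s']? = some true) =
          fun s' => s' < n ∧ VS δ.W s' := by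
        funext s'
        rw [List.getElem?_map]
        by_cases h : s' < n
        · rw [List.getElem?_range h]
          simp [h]
        · rw [List.getElem?_eq_none (by simpa using h)]
          simp [h]
      rw [h1]
  exact Primrec.primrecPred (h.comp hd hs)

end VSP

/-! ## Closures -/

/-- The owner of the root. -/
def nxt (W : World) (z : Option St) : Option St := z.bind fun x => W.own x.1

theorem nxt_none (W : World) (k : ℕ) : (nxt W)^[k] none = none := by
  induction k with
  | zero => rfl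
  | succ k ih => rw [Function.iterate_succ_apply]; exact ih

theorem incl_iff (W : World) (y x : St) :
    InCl W y x ↔ ∃ k, ∃ w, (nxt W)^[k] (some x) = some w ∧ Cone y w := by
  constructor
  · intro h
    induction h with
    | cone x h => exact ⟨0, x, rfl, h⟩
    | own x w h hw ih =>
      obtain ⟨k, v, h1, h2⟩ := ih
      refine ⟨k + 1, v, ?_, h2⟩
      rw [Function.iterate_succ_apply]
      change (nxt W)^[k] (W.own x.1) = some v
      rw [h]
      exact h1
  · rintro ⟨k, v, h1, h2⟩
    induction k generalizing x with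
    | zero =>
      have h3 : x = v := Option.some.inj h1
      rw [h3]
      exact InCl.cone v h2
    | succ k ih =>
      rw [Function.iterate_succ_apply] at h1
      change (nxt W)^[k] (W.own x.1) = some v at h1
      cases h : W.own x.1 with
      | none =>
        rw [h, nxt_none] at h1
        exact absurd h1 (by simp)
      | some w =>
        rw [h] at h1
        exact InCl.own x w h (ih w h1)

theorem own_some (δ : Data) (r : ℕ) (w : St) (h : δ.W.own r = some w) :
    (r, w) ∈ δ.ownL := by
  change (δ.2.2.2.2.find? (fun p => decide (p.1 = r))).map Prod.snd = some w at h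
  rw [Option.map_eq_some_iff] at h
  obtain ⟨p, hp, rfl⟩ := h
  have h1 := List.find?_some hp
  have h2 := List.mem_of_find?_eq_some hp
  have h3 : p.1 = r := by simpa using h1
  rw [← h3]
  exact h2

theorem incl_bound (δ : Data) (y x : St) :
    InCl δ.W y x ↔ ∃ k < δ.ownL.length + 2, ∃ w, (nxt δ.W)^[k] (some x) = some w ∧ Cone y w := by
  classical
  rw [incl_iff]
  constructor
  · intro h
    set a : ℕ → Option St := fun k => (nxt δ.W)^[k] (some x) with ha
    set S : Finset (Option St) := insert none (δ.ownL.map fun p => some p.2).toFinset with hS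
    have hcard : S.card < (Finset.range (δ.ownL.length + 2)).card := by
      rw [Finset.card_range]
      have h1 := Finset.card_insert_le none (δ.ownL.map fun p => some p.2).toFinset
      have h2 := List.toFinset_card_le (δ.ownL.map fun p => some p.2)
      rw [List.length_map] at h2
      rw [hS]
      omega
    have hmem : ∀ k, a (k + 1) ∈ S := by
      intro k
      simp only [ha, Function.iterate_succ_apply']
      cases h1 : (nxt δ.W)^[k] (some x) with
      | none => exact Finset.mem_insert_self _ _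
      | some v =>
        change δ.W.own v.1 ∈ S
        cases h2 : δ.W.own v.1 with
        | none => exact Finset.mem_insert_self _ _
        | some w =>
          apply Finset.mem_insert_of_mem
          rw [List.mem_toFinset, List.mem_map]
          exact ⟨(v.1, w), own_some δ v.1 w h2, rfl⟩
    obtain ⟨i, hi, j, hj, hij, heq⟩ := Finset.exists_ne_map_eq_of_card_lt_of_maps_to hcard
      (f := fun k => a (k + 1)) fun k _ => hmem k
    obtain ⟨i, j, hi, hj, hij, heq⟩ : ∃ i j, i < δ.ownL.length + 2 ∧ j < δ.ownL.length + 2 ∧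
        i < j ∧ a (i + 1) = a (j + 1) := by
      rw [Finset.mem_range] at hi hj
      rcases Nat.lt_or_gt_of_ne hij with h1 | h1
      · exact ⟨i, j, hi, hj, h1, heq⟩
      · exact ⟨j, i, hj, hi, h1, heq.symm⟩
    have hper : ∀ m, a (i + 1 + m) = a (j + 1 + m) := by
      intro m
      induction m with
      | zero => exact heq
      | succ m ih =>
        have h1 : ∀ k, a (k + 1) = nxt δ.W (a k) := fun k => Function.iterate_succ_apply' _ _ _
        rw [← add_assoc, ← add_assoc, h1, h1, ih]
    have hP : ∃ k, ∃ w, a k = some w ∧ Cone y w := h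
    obtain ⟨w, hw⟩ := Nat.find_spec hP
    refine ⟨Nat.find hP, ?_, w, hw⟩
    by_contra hge
    have h1 : ∃ m, Nat.find hP = j + 1 + m := ⟨Nat.find hP - (j + 1), by omega⟩
    obtain ⟨m, hm⟩ := h1
    have h2 : ∃ w, a (i + 1 + m) = some w ∧ Cone y w := ⟨w, by rw [hper m, ← hm]; exact hw⟩
    exact Nat.find_min hP (by omega) h2
  · rintro ⟨k, _, h⟩
    exact ⟨k, h⟩

section CL

variable {γ : Type} [Primcodable γ]

theorem incl_pr {d : γ → Data} {y x : γ → St} (hd : Primrec d) (hy : Primrec y)
    (hx : Primrec x) : PrimrecPred fun a => InCl (d a).W (y a) (x a) := by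
  refine (elt (R := fun a k => ∃ w, (nxt (d a).W)^[k] (some (x a)) = some w ∧ Cone (y a) w)
    (nat_add.comp (list_length.comp (ownL_pr hd)) (const 2)) (eopt ?_
      (cone_pr (hy.comp (fst.comp fst)) snd))).of_eq fun a => (incl_bound (d a) (y a) (x a)).symm
  refine nat_iterate snd (option_some.comp (hx.comp fst)) ?_
  exact (option_bind snd (own_pr (hd.comp (fst.comp (fst.comp fst))) (fst.comp snd)).to₂).to₂

end CL

/-! ## Well formed data -/

theorem adv_some (δ : Data) (y : St) (α : List ℕ) (h : δ.W.adv y = some α) (hα : α ≠ []) :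
    ∃ p ∈ δ.advL, p.1 = y := by
  change ((δ.2.2.2.1.find? (fun p => decide (p.1 = y))).map Prod.snd).or
    (if y.1 < δ.1 ∧ y.1 ∉ δ.2.1 then some [] else none) = some α at h
  cases h1 : δ.2.2.2.1.find? (fun p => decide (p.1 = y)) with
  | none =>
    rw [h1, Option.map_none, Option.none_or] at h
    split_ifs at h with h2
    exact absurd (Option.some.inj h).symm hα
  | some p =>
    have h2 := List.find?_some h1
    exact ⟨p, List.mem_of_find?_eq_some h1, by simpa using h2⟩

/-- The invariants, for finite data. -/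
def InvL (δ : Data) : Prop :=
  (∀ p ∈ δ.advL, ∀ α, δ.W.adv p.1 = some α → (α ≠ [] → Zero p.1 ∧ Adm p.1) ∧
    (Ch p.1 α (endd p.1 α) ∧ ∀ s ∈ α, VS δ.W s) ∧ ∀ s ∈ α, ∀ e ∈ hl s, InCl δ.W p.1 e.2) ∧
  (∀ q ∈ δ.ownL, ∀ w, δ.W.own q.1 = some w → w.1 < q.1) ∧
  ∀ e ∈ δ.prv, δ.W.edge e.1 e.2 → ∀ w, δ.W.own e.2.1 = some w → InCl δ.W w e.1

theorem inv_iff (hc : CodesStatement) (δ : Data) (hown : ∀ p ∈ δ.ownL, p.1 < δ.N ∧ p.1 ∉ δ.pub) :
    Inv δ.W ↔ InvL δ := by
  constructor
  · intro h
    refine ⟨fun p _ α hα => ⟨fun hne => ?_, h.advValid p.1 α hα, fun s hs e he => ?_⟩,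
      fun q _ w hw => h.ownLt q.1 w hw, fun e _ hedge w hw => h.edgeOwn e.1 e.2 w hedge hw⟩
    · obtain ⟨x, hx, hadm⟩ := h.advForm p.1 α hα hne
      exact ⟨⟨x, hx⟩, hadm⟩
    · exact h.advOwn p.1 α s e.1 e.2 hα hs ((he_iff hc s e.1 e.2).2 he)
  · rintro ⟨h1, h2, h3⟩
    refine ⟨fun x t h => h.1, ?_, ?_, ?_, ?_, ?_⟩
    · intro y α hα hne
      obtain ⟨p, hp, rfl⟩ := adv_some δ y α hα hne
      obtain ⟨⟨x, hx⟩, hadm⟩ := (h1 p hp α hα).1 hne
      exact ⟨x, hx, hadm⟩
    · intro y α hα
      by_cases hne : α = []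
      · subst hne
        exact ⟨rfl, fun s hs => absurd hs (by simp)⟩
      · obtain ⟨p, hp, rfl⟩ := adv_some δ y α hα hne
        exact (h1 p hp α hα).2.1
    · intro r w hw
      exact h2 (r, w) (own_some δ r w hw) w hw
    · intro x t w hedge hw
      have h4 := hown (t.1, w) (own_some δ t.1 w hw)
      rcases hedge.2.2 with h5 | h5
      · exact absurd h5 h4.2
      · exact h3 (x, t) h5 hedge w hw
    · intro y α s v v' hα hs he
      have hne : α ≠ [] := by
        rintro rfl
        exact absurd hs (by simp)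
      obtain ⟨p, hp, rfl⟩ := adv_some δ y α hα hne
      exact (h1 p hp α hα).2.2 s hs (v, v') ((he_iff hc s v v').1 he)

theorem wf_iff (hc : CodesStatement) (δ : Data) : Wf δ ↔
    0 < δ.N ∧ 0 ∉ δ.pub ∧ (∀ r ∈ δ.pub, r < δ.N) ∧
    (∀ p ∈ δ.prv, Fit p.1 p.2 ∧ p.2.1 < δ.N ∧ p.2.1 ∉ δ.pub) ∧ (∀ p ∈ δ.advL, p.1.1 < δ.N) ∧
    (δ.advL.map Prod.fst).Nodup ∧ (∀ p ∈ δ.ownL, p.1 < δ.N ∧ p.1 ∉ δ.pub) ∧
    (δ.ownL.map Prod.fst).Nodup ∧ InvL δ := by
  constructor
  · intro h
    exact ⟨h.pos, h.zero, h.pub, h.prv, h.adv, h.advNodup, h.own, h.ownNodup,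
      (inv_iff hc δ h.own).1 h.inv⟩
  · rintro ⟨h1, h2, h3, h4, h5, h6, h7, h8, h9⟩
    exact ⟨h1, h2, h3, h4, h5, h6, h7, h8, (inv_iff hc δ h7).2 h9⟩

/-- The lists of length `k` with entries below `m`. -/
def strs (m k : ℕ) : List (List ℕ) :=
  Nat.rec (motive := fun _ => List (List ℕ)) [[]]
    (fun _ ih => ih.flatMap fun l => (List.range m).map fun b => l ++ [b]) k

theorem mem_strs (m k : ℕ) (l : List ℕ) : l ∈ strs m k ↔ l.length = k ∧ ∀ b ∈ l, b < m := by
  induction k generalizing l with
  | zero =>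
    change l ∈ [[]] ↔ _
    rw [List.mem_singleton, List.length_eq_zero_iff]
    constructor
    · rintro rfl
      exact ⟨rfl, fun b hb => absurd hb (by simp)⟩
    · exact fun h => h.1
  | succ k ih =>
    change l ∈ (strs m k).flatMap _ ↔ _
    rw [List.mem_flatMap]
    constructor
    · rintro ⟨l', hl', h⟩
      obtain ⟨b, hb, rfl⟩ := List.mem_map.1 h
      obtain ⟨h1, h2⟩ := (ih l').1 hl'
      refine ⟨by simp [h1], fun c hc => ?_⟩
      rcases List.mem_append.1 hc with h3 | h3
      · exact h2 c h3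
      · rw [List.mem_singleton] at h3
        rw [h3]
        exact List.mem_range.1 hb
    · rintro ⟨h1, h2⟩
      have hne : l ≠ [] := by
        rintro rfl
        simp at h1
      have h3 := List.dropLast_append_getLast hne
      refine ⟨l.dropLast, (ih _).2 ⟨by rw [List.length_dropLast, h1]; rfl, fun b hb =>
        h2 b (List.mem_of_mem_dropLast hb)⟩, List.mem_map.2 ⟨l.getLast hne, ?_, h3⟩⟩
      exact List.mem_range.2 (h2 _ (List.getLast_mem hne))

theorem full_iff (δ : Data) : Full δ ↔ ∀ r ∈ δ.pub, ∀ k < sz r + 1, ∀ l ∈ strs (sz r) k,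
    Zero (r, l) → ¬ δ.W.adv (r, l) = none := by
  constructor
  · intro h r hr k hk l hl hz h2
    obtain ⟨h3, h4⟩ := (mem_strs _ _ _).1 hl
    have h5 := h (r, l) ⟨by change l.length ≤ sz r; omega, h4⟩ hz hr
    rw [h2] at h5
    exact absurd h5 (by simp)
  · intro h y hadm hz hy
    have h2 := h y.1 hy y.2.length (by have := hadm.1; omega) y.2
      ((mem_strs _ _ _).2 ⟨rfl, hadm.2⟩) hz
    cases h3 : δ.W.adv y with
    | none => exact absurd h3 h2
    | some α => rfl

section WF

variable {γ β : Type} [Primcodable γ] [Primcodable β]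

theorem strs_pr {m k : γ → ℕ} (hm : Primrec m) (hk : Primrec k) :
    Primrec fun a => strs (m a) (k a) := by
  refine nat_rec' (f := k) (g := fun _ => [[]]) (h := fun a (p : ℕ × List (List ℕ)) =>
    p.2.flatMap fun l => (List.range (m a)).map fun b => l ++ [b]) hk (const _) ?_
  have h1 : Primrec fun q : γ × ℕ × List (List ℕ) => q.2.2 := snd.comp snd
  have h2 : Primrec fun q : (γ × ℕ × List (List ℕ)) × List ℕ =>
      (List.range (m q.1.1)).map fun b => q.2 ++ [b] := by
    refine list_map (list_range.comp (hm.comp (fst.comp fst))) ?_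
    exact (list_concat.comp (snd.comp fst) snd).to₂
  exact (list_flatMap h1 h2.to₂).to₂

theorem wf_pr (hc : CodesStatement) {d : γ → Data} (hd : Primrec d) :
    PrimrecPred fun a => Wf (d a) := by
  refine PrimrecPred.of_eq ?_ fun a => (wf_iff hc (d a)).symm
  have hN := N_pr hd
  have hp := pub_pr hd
  refine (nat_lt.comp (const 0) hN).and ((memp (const 0) hp).not.and (PrimrecPred.and ?_
    (PrimrecPred.and ?_ (PrimrecPred.and ?_ (PrimrecPred.and ?_ (PrimrecPred.and ?_
      (PrimrecPred.and ?_ (PrimrecPred.and ?_ (PrimrecPred.and ?_ ?_)))))))))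
  · exact fml hp (nat_lt.comp snd (hN.comp fst))
  · exact fml (prv_pr hd) ((fit_pr (fst.comp snd) (snd.comp snd)).and
      ((nat_lt.comp (fst.comp (snd.comp snd)) (hN.comp fst)).and
        (memp (fst.comp (snd.comp snd)) (hp.comp fst)).not))
  · exact fml (advL_pr hd) (nat_lt.comp (fst.comp (fst.comp snd)) (hN.comp fst))
  · exact nodup_pr (list_map (advL_pr hd) (fst.comp snd).to₂)
  · exact fml (ownL_pr hd) ((nat_lt.comp (fst.comp snd) (hN.comp fst)).and
      (memp (fst.comp snd) (hp.comp fst)).not)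
  · exact nodup_pr (list_map (ownL_pr hd) (fst.comp snd).to₂)
  · refine fml (advL_pr hd) ?_
    refine fopt (R := fun (q : γ × St × List ℕ) α => (α ≠ [] → Zero q.2.1 ∧ Adm q.2.1) ∧
      (Ch q.2.1 α (endd q.2.1 α) ∧ ∀ s ∈ α, VS (d q.1).W s) ∧
      ∀ s ∈ α, ∀ e ∈ hl s, InCl (d q.1).W q.2.1 e.2) (adv_pr (hd.comp fst) (fst.comp snd)) ?_
    have hy : Primrec fun q : (γ × St × List ℕ) × List ℕ => q.1.2.1 := fst.comp (snd.comp fst)
    have hd' : Primrec fun q : (γ × St × List ℕ) × List ℕ => d q.1.1 := hd.comp (fst.comp fst)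
    refine (imp (eqp snd (const [])).not ((zero_pr hy).and (adm_pr hy))).and
      (((ch_pr hy snd (endd_pr hy snd)).and (fml snd (vs_pr hc (hd'.comp fst) snd))).and
        (fml snd ?_))
    exact fml (hl_pr snd) (incl_pr (hd'.comp (fst.comp fst)) (hy.comp (fst.comp fst))
      (snd.comp snd))
  · exact fml (ownL_pr hd) (fopt (R := fun (q : γ × ℕ × St) (w : St) => w.1 < q.2.1)
      (own_pr (hd.comp fst) (fst.comp snd)) (nat_lt.comp (fst.comp snd)
        (fst.comp (snd.comp fst))))
  · exact fml (prv_pr hd) (imp (edge_pr (hd.comp fst) (fst.comp snd) (snd.comp snd))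
      (fopt (R := fun (q : γ × St × St) (w : St) => InCl (d q.1).W w q.2.1)
        (own_pr (hd.comp fst) (fst.comp (snd.comp snd))) (incl_pr (hd.comp (fst.comp fst)) snd
          (fst.comp (snd.comp fst)))))

theorem full_pr {d : γ → Data} (hd : Primrec d) : PrimrecPred fun a => Full (d a) := by
  refine PrimrecPred.of_eq ?_ fun a => (full_iff (d a)).symm
  refine fml (pub_pr hd) (flt (R := fun (q : γ × ℕ) k => ∀ l ∈ strs (sz q.2) k,
    Zero (q.2, l) → ¬ (d q.1).W.adv (q.2, l) = none) (nat_add.comp (sz_pr snd) (const 1)) ?_)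
  refine fml (R := fun (q : (γ × ℕ) × ℕ) l => Zero (q.1.2, l) →
    ¬ (d q.1.1).W.adv (q.1.2, l) = none) (strs_pr (sz_pr (snd.comp fst)) snd) ?_
  have hy : Primrec fun q : ((γ × ℕ) × ℕ) × List ℕ => ((q.1.1.2, q.2) : St) :=
    (snd.comp (fst.comp fst)).pair snd
  exact imp (zero_pr hy) (eqp (adv_pr (hd.comp (fst.comp (fst.comp fst))) hy) (const none)).not

omit [Primcodable β] in
theorem ext_iff (L L' : List β) (R : β → Prop) : (∃ l, L' = L ++ l ∧ ∀ b ∈ l, R b) ↔
    L = L'.take L.length ∧ ∀ b ∈ L'.drop L.length, R b := by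
  constructor
  · rintro ⟨l, rfl, h⟩
    simpa using h
  · rintro ⟨h1, h2⟩
    refine ⟨L'.drop L.length, ?_, h2⟩
    conv_lhs => rw [← List.take_append_drop L.length L', ← h1]

theorem ext_pr {L L' : γ → List β} {R : γ → β → Prop} (hL : Primrec L) (hL' : Primrec L')
    (hR : PrimrecPred fun q : γ × β => R q.1 q.2) :
    PrimrecPred fun a => ∃ l, L' a = L a ++ l ∧ ∀ b ∈ l, R a b := by
  refine PrimrecPred.of_eq ?_ fun a => (ext_iff (L a) (L' a) (R a)).symm
  exact (eqp hL (list_take.comp (list_length.comp hL) hL')).and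
    (fml (list_drop.comp (list_length.comp hL) hL') hR)

theorem dext_pr {d d' : γ → Data} (hd : Primrec d) (hd' : Primrec d') :
    PrimrecPred fun a => DExt (d a) (d' a) := by
  have hN := N_pr hd
  refine PrimrecPred.of_eq (p := fun a => (d a).N ≤ (d' a).N ∧
    (∃ l, (d' a).pub = (d a).pub ++ l ∧ ∀ r ∈ l, (d a).N ≤ r) ∧
    (∃ l, (d' a).prv = (d a).prv ++ l ∧ ∀ p ∈ l, (d a).N ≤ p.2.1) ∧
    (∃ l, (d' a).advL = (d a).advL ++ l ∧ ∀ p ∈ l, (d a).N ≤ p.1.1 ∨
      (p.1.1 ∈ (d a).pub ∧ Zero p.1 ∧ ∀ q ∈ (d a).advL, q.1 ≠ p.1)) ∧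
    ∃ l, (d' a).ownL = (d a).ownL ++ l ∧ ∀ p ∈ l, (d a).N ≤ p.1) ?_
    fun a => ⟨fun h => ⟨h.1, h.2.1, h.2.2.1, h.2.2.2.1, h.2.2.2.2⟩,
      fun h => ⟨h.N, h.pub, h.prv, h.adv, h.own⟩⟩
  refine (nat_le.comp hN (N_pr hd')).and (PrimrecPred.and ?_ (PrimrecPred.and ?_
    (PrimrecPred.and ?_ ?_)))
  · exact ext_pr (pub_pr hd) (pub_pr hd') (nat_le.comp (hN.comp fst) snd)
  · exact ext_pr (prv_pr hd) (prv_pr hd') (nat_le.comp (hN.comp fst) (fst.comp (snd.comp snd)))
  · refine ext_pr (advL_pr hd) (advL_pr hd') ((nat_le.comp (hN.comp fst)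
      (fst.comp (fst.comp snd))).or ((memp (fst.comp (fst.comp snd)) ((pub_pr hd).comp fst)).and
        ((zero_pr (fst.comp snd)).and ?_)))
    exact fml (R := fun (q : γ × St × List ℕ) (p : St × List ℕ) => p.1 ≠ q.2.1)
      ((advL_pr hd).comp fst) (eqp (fst.comp snd) (fst.comp (snd.comp fst))).not
  · exact ext_pr (ownL_pr hd) (ownL_pr hd') (nat_le.comp (hN.comp fst) (fst.comp snd))

end WF

end Pool.Agent.Lib.MP_d48993_lc.Node.Decv

namespace Pool.Agent.Lib.MP_d48993_lc.Node

open Primrec Decv

/-- Module DECV. -/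
theorem decv (hc : CodesStatement) : DecvStatement := by
  refine ⟨(vs_pr hc fst snd).computablePred, ?_, (incl_pr fst (fst.comp snd)
    (snd.comp snd)).computablePred, (wf_pr hc Primrec.id).computablePred,
    (full_pr Primrec.id).computablePred, (dext_pr fst snd).computablePred⟩
  have h : PrimrecPred fun p : ℕ × St × St => (p.2.1, p.2.2) ∈ hl p.1 :=
    memp ((fst.comp snd).pair (snd.comp snd)) (hl_pr fst)
  exact (h.of_eq fun p => (he_iff hc p.1 p.2.1 p.2.2).symm).computablePred

end Pool.Agent.Lib.MP_d48993_lc.Node
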