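import Pool.Agent.Lib.MP_d48993_lc.AE.Node.Interfaces
import Pool.Agent.Lib.MP_d48993_lc.Cond

/-!
# Module DECC (project NODE, MP_d48993): decidability for conditions
-/

set_option autoImplicit false

namespace Pool.Agent.Lib.MP_d48993_lc.Node

open MP_8c048d_lc (Cop)

namespace Decc

variable {α : Type} [Primcodable α]

theorem sym_eq (x t : St) (A : List (List ℕ)) (E : List (ℕ × List ℕ)) :
    sym x t A E = Nat.pair (Encodable.encode x)
      (Nat.pair (Encodable.encode t) (Encodable.encode (A, E))) := by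
  unfold sym
  rw [Encodable.encode_prod_val x (t, A, E), Encodable.encode_prod_val t (A, E)]

/-- The states of the hereditary edges have small codes. -/
theorem he_bound (hC : CodesStatement) {s : ℕ} {v v' : St} (h : HE s v v') :
    Encodable.encode v ≤ s ∧ Encodable.encode v' ≤ s := by
  induction h with
  | top s =>
    have h := hC.2.1 s
    rw [sym_eq] at h
    have h1 := Nat.left_le_pair (Encodable.encode (src s))
      (Nat.pair (Encodable.encode (tgt s)) (Encodable.encode (Ap s, Ex s)))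
    have h2 := Nat.right_le_pair (Encodable.encode (src s))
      (Nat.pair (Encodable.encode (tgt s)) (Encodable.encode (Ap s, Ex s)))
    have h3 := Nat.left_le_pair (Encodable.encode (tgt s)) (Encodable.encode (Ap s, Ex s))
    rw [h] at h1 h2
    exact ⟨h1, h3.trans h2⟩
  | ap s α s' v v' hα hs _ ih =>
    have h1 := hC.2.2.1 s α s' hα hs
    exact ⟨ih.1.trans h1.le, ih.2.trans h1.le⟩
  | ex s p s' v v' hp hs _ ih =>
    have h1 := hC.2.2.2.1 s p s' hp hs
    exact ⟨ih.1.trans h1.le, ih.2.trans h1.le⟩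

theorem comp_range {f : α → ℕ} (hf : Computable f) : Computable (fun a => List.range (f a)) :=
  Primrec.list_range.to_comp.comp hf

/-- Quantification over the hereditary edges of a symbol. -/
theorem bexHE (hC : CodesStatement) (hD : DecvStatement) {f : α → ℕ} (hf : Computable f)
    {P : α → St → St → Prop} (hP : Cop (fun (p : α × St × St) (_ : ℕ → ℕ) => P p.1 p.2.1 p.2.2)) :
    Cop (fun a (_ : ℕ → ℕ) => ∃ v v', HE (f a) v v' ∧ P a v v') := by
  have hr : Computable (fun a => List.range (f a + 1)) :=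
    comp_range (Computable.succ.comp hf)
  have e1 : Cop (fun (a : α) (_ : ℕ → ℕ) => ∃ i ∈ List.range (f a + 1), ∃ v : St,
      (Encodable.decode i : Option St) = some v ∧ ∃ j ∈ List.range (f a + 1), ∃ v' : St,
      (Encodable.decode j : Option St) = some v' ∧ (HE (f a) v v' ∧ P a v v')) := by
    refine Cop.bexL (P := fun (a : α) (i : ℕ) (_ : ℕ → ℕ) => ∃ v : St,
      (Encodable.decode i : Option St) = some v ∧ ∃ j ∈ List.range (f a + 1), ∃ v' : St,
      (Encodable.decode j : Option St) = some v' ∧ (HE (f a) v v' ∧ P a v v')) ?_ hr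
    refine Cop.optEx (f := fun y : α × ℕ => (Encodable.decode y.2 : Option St))
      (P := fun (y : α × ℕ) (v : St) (_ : ℕ → ℕ) => ∃ j ∈ List.range (f y.1 + 1), ∃ v' : St,
      (Encodable.decode j : Option St) = some v' ∧ (HE (f y.1) v v' ∧ P y.1 v v'))
      (Computable.decode.comp Computable.snd) ?_
    refine Cop.bexL (P := fun (y : (α × ℕ) × St) (j : ℕ) (_ : ℕ → ℕ) => ∃ v' : St,
      (Encodable.decode j : Option St) = some v' ∧ (HE (f y.1.1) y.2 v' ∧ P y.1.1 y.2 v')) ?_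
      (hr.comp (Computable.fst.comp Computable.fst))
    refine Cop.optEx (f := fun y : ((α × ℕ) × St) × ℕ => (Encodable.decode y.2 : Option St))
      (P := fun (y : ((α × ℕ) × St) × ℕ) (v' : St) (_ : ℕ → ℕ) =>
        (HE (f y.1.1.1) y.1.2 v' ∧ P y.1.1.1 y.1.2 v'))
      (Computable.decode.comp Computable.snd) ?_
    have g1 : Computable (fun y : (((α × ℕ) × St) × ℕ) × St => y.1.1.1.1) :=
      Computable.fst.comp (Computable.fst.comp (Computable.fst.comp Computable.fst))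
    have g2 : Computable (fun y : (((α × ℕ) × St) × ℕ) × St => y.1.1.2) :=
      Computable.snd.comp (Computable.fst.comp Computable.fst)
    refine MP_8c048d_lc.Cop.and ?_ ?_
    · exact (MP_8c048d_lc.Cop.of_computable hD.2.1).comp
        (f := fun y : (((α × ℕ) × St) × ℕ) × St => (f y.1.1.1.1, y.1.1.2, y.2))
        ((hf.comp g1).pair (g2.pair Computable.snd))
    · exact hP.comp (f := fun y : (((α × ℕ) × St) × ℕ) × St => (y.1.1.1.1, y.1.1.2, y.2))
        (g1.pair (g2.pair Computable.snd))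
  refine e1.congr fun a F => ?_
  constructor
  · rintro ⟨i, _, v, _, j, _, v', _, h⟩
    exact ⟨v, v', h⟩
  · rintro ⟨v, v', h⟩
    have hb := he_bound hC h.1
    exact ⟨Encodable.encode v, List.mem_range.2 (Nat.lt_succ_of_le hb.1), v, Encodable.encodek v,
      Encodable.encode v', List.mem_range.2 (Nat.lt_succ_of_le hb.2), v', Encodable.encodek v', h⟩

/-- Quantification over the hereditary targets of the last symbol of a string. -/
theorem bexLast (hC : CodesStatement) (hD : DecvStatement) {f : α → List ℕ} (hf : Computable f)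
    {P : α → St → Prop} (hP : Cop (fun (p : α × St) (_ : ℕ → ℕ) => P p.1 p.2)) :
    Cop (fun a (_ : ℕ → ℕ) => ∃ s, (f a).getLast? = some s ∧ ∃ v v', HE s v v' ∧ P a v') := by
  have hl : Computable (fun a => (f a).reverse.head?) :=
    (Primrec.list_head?.to_comp).comp (Primrec.list_reverse.to_comp.comp hf)
  have e1 : Cop (fun a (_ : ℕ → ℕ) => ∃ s, (f a).reverse.head? = some s ∧
      ∃ v v', HE s v v' ∧ P a v') := by
    refine Cop.optEx (f := fun a : α => (f a).reverse.head?)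
      (P := fun (a : α) (s : ℕ) (_ : ℕ → ℕ) => ∃ v v', HE s v v' ∧ P a v') hl ?_
    refine bexHE hC hD (f := fun y : α × ℕ => y.2) (P := fun y _ v' => P y.1 v') Computable.snd ?_
    exact hP.comp (f := fun y : (α × ℕ) × St × St => (y.1.1, y.2.2))
      ((Computable.fst.comp Computable.fst).pair (Computable.snd.comp Computable.snd))
  refine e1.congr fun a F => ?_
  rw [List.head?_reverse]

/-- Two cones meet. -/
def Meet (b b' : St) : Prop := b.1 = b'.1 ∧ (b.2 <+: b'.2 ∨ b'.2 <+: b.2)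

theorem meet_iff (b b' : St) : (∃ v, Cone b v ∧ Cone b' v) ↔ Meet b b' := by
  constructor
  · rintro ⟨v, h1, h2⟩
    refine ⟨h1.1.symm.trans h2.1, ?_⟩
    exact List.prefix_or_prefix_of_prefix h1.2 h2.2
  · rintro ⟨h1, h2 | h2⟩
    · exact ⟨b', ⟨h1.symm, h2⟩, ⟨rfl, List.prefix_rfl⟩⟩
    · exact ⟨b, ⟨rfl, List.prefix_rfl⟩, ⟨h1, h2⟩⟩

theorem meet_cop {f g : α → St} (hf : Computable f) (hg : Computable g) :
    Cop (fun a (_ : ℕ → ℕ) => Meet (f a) (g a)) := by
  refine MP_8c048d_lc.Cop.and (Cop.eq (Computable.fst.comp hf) (Computable.fst.comp hg)) ?_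
  exact MP_8c048d_lc.Cop.or (Cop.isPre (Computable.snd.comp hf) (Computable.snd.comp hg))
    (Cop.isPre (Computable.snd.comp hg) (Computable.snd.comp hf))

theorem hb_hb_cop (hC : CodesStatement) (hD : DecvStatement) {f g : α → List ℕ}
    (hf : Computable f) (hg : Computable g) :
    Cop (fun a (_ : ℕ → ℕ) => ∀ v, ¬ (HB (f a) v ∧ HB (g a) v)) := by
  have e1 : Cop (fun a (_ : ℕ → ℕ) => ∃ s, (f a).getLast? = some s ∧ ∃ v b, HE s v b ∧
      ∃ s', (g a).getLast? = some s' ∧ ∃ v' b', HE s' v' b' ∧ Meet b b') := by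
    refine bexLast hC hD hf (P := fun a b => ∃ s', (g a).getLast? = some s' ∧
      ∃ v' b', HE s' v' b' ∧ Meet b b') ?_
    refine bexLast hC hD (f := fun y : α × St => g y.1) (hg.comp Computable.fst)
      (P := fun y b' => Meet y.2 b') ?_
    exact meet_cop (f := fun z : (α × St) × St => z.1.2) (g := fun z => z.2)
      (Computable.snd.comp Computable.fst) Computable.snd
  refine e1.not.congr fun a F => ?_
  constructor
  · rintro h v ⟨⟨s, hs, x, b, hb, hv⟩, s', hs', x', b', hb', hv'⟩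
    exact h ⟨s, hs, x, b, hb, s', hs', x', b', hb', (meet_iff b b').1 ⟨v, hv, hv'⟩⟩
  · rintro h ⟨s, hs, x, b, hb, s', hs', x', b', hb', hm⟩
    obtain ⟨v, hv, hv'⟩ := (meet_iff b b').2 hm
    exact h v ⟨⟨s, hs, x, b, hb, hv⟩, s', hs', x', b', hb', hv'⟩

theorem cone_hb_cop (hC : CodesStatement) (hD : DecvStatement) {f : α → St} {g : α → List ℕ}
    (hf : Computable f) (hg : Computable g) :
    Cop (fun a (_ : ℕ → ℕ) => ∀ v, ¬ (Cone (f a) v ∧ HB (g a) v)) := by
  have e1 : Cop (fun a (_ : ℕ → ℕ) => ∃ s', (g a).getLast? = some s' ∧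
      ∃ v' b', HE s' v' b' ∧ Meet (f a) b') := by
    refine bexLast hC hD hg (P := fun a b' => Meet (f a) b') ?_
    exact meet_cop (hf.comp Computable.fst) Computable.snd
  refine e1.not.congr fun a F => ?_
  constructor
  · rintro h v ⟨hv, s', hs', x', b', hb', hv'⟩
    exact h ⟨s', hs', x', b', hb', (meet_iff _ b').1 ⟨v, hv, hv'⟩⟩
  · rintro h ⟨s', hs', x', b', hb', hm⟩
    obtain ⟨v, hv, hv'⟩ := (meet_iff _ b').2 hm
    exact h v ⟨hv, s', hs', x', b', hb', hv'⟩

/-- The type of the entries. -/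
abbrev Ent : Type := List ℕ × List ℕ × List ℕ

theorem f1 : Computable (fun p : α × Ent => p.2.1) := Computable.fst.comp Computable.snd
theorem f2 : Computable (fun p : α × Ent => p.2.2.1) :=
  Computable.fst.comp (Computable.snd.comp Computable.snd)
theorem f3 : Computable (fun p : α × Ent => p.2.2.2) :=
  Computable.snd.comp (Computable.snd.comp Computable.snd)

/-- The list of the nodes. -/
def nodes (c : Cnd3) : List (List ℕ) :=
  c.2.flatMap fun e => (List.range (e.2.2.length + 1)).map fun i => e.2.2.take i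

theorem mem_nodes (c : Cnd3) (ν : List ℕ) : ν ∈ nodes c ↔ Nd c ν := by
  unfold nodes Nd
  rw [List.mem_flatMap]
  constructor
  · rintro ⟨e, he, h⟩
    obtain ⟨i, _, rfl⟩ := List.mem_map.1 h
    exact ⟨e, he, List.take_prefix _ _⟩
  · rintro ⟨e, he, h⟩
    refine ⟨e, he, List.mem_map.2 ⟨ν.length, ?_, ?_⟩⟩
    · exact List.mem_range.2 (Nat.lt_succ_of_le h.length_le)
    · exact (List.prefix_iff_eq_take.1 h).symm

theorem nodes_comp : Computable nodes := by
  have h : Primrec nodes := by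
    refine Primrec.list_flatMap Primrec.snd ?_
    refine Primrec.list_map (f := fun p : Cnd3 × Ent => List.range (p.2.2.2.length + 1))
      (g := fun (p : Cnd3 × Ent) (i : ℕ) => p.2.2.2.take i) ?_ ?_
    · exact Primrec.list_range.comp (Primrec.succ.comp (Primrec.list_length.comp
        (Primrec.snd.comp (Primrec.snd.comp Primrec.snd))))
    · exact Primrec.list_take.comp Primrec.snd (Primrec.snd.comp (Primrec.snd.comp
        (Primrec.snd.comp Primrec.fst)))
  exact h.to_comp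

theorem endd_comp (hC : CodesStatement) {f : α → List ℕ} (hf : Computable f) :
    Computable (fun a => endd o (f a)) :=
  hC.2.2.2.2.2.2.2.2.2.1.comp ((Computable.const o).pair hf)

theorem ac_cop (hC : CodesStatement) (hD : DecvStatement) :
    Cop (fun (c : Cnd3) (_ : ℕ → ℕ) => AC (Nd c)) := by
  have g1 : Computable (fun z : (Cnd3 × List ℕ) × List ℕ => z.1.2) :=
    Computable.snd.comp Computable.fst
  have g2 : Computable (fun z : (Cnd3 × List ℕ) × List ℕ => z.2) := Computable.snd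
  have e1 : Cop (fun (c : Cnd3) (_ : ℕ → ℕ) => ∀ ν ∈ nodes c, ∀ ν' ∈ nodes c,
      ν ≠ [] → ν' ≠ [] → ν ≠ ν' →
        ((ν.dropLast ≠ ν'.dropLast → ∀ v, ¬ (HB ν v ∧ HB ν' v)) ∧
        (ν.dropLast = ν'.dropLast → ∀ v, ¬ (Cone (endd o ν) v ∧ HB ν' v)))) := by
    refine Cop.ballL (P := fun (c : Cnd3) (ν : List ℕ) (_ : ℕ → ℕ) => ∀ ν' ∈ nodes c,
      ν ≠ [] → ν' ≠ [] → ν ≠ ν' →
        ((ν.dropLast ≠ ν'.dropLast → ∀ v, ¬ (HB ν v ∧ HB ν' v)) ∧
        (ν.dropLast = ν'.dropLast → ∀ v, ¬ (Cone (endd o ν) v ∧ HB ν' v)))) ?_ nodes_comp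
    refine Cop.ballL (P := fun (y : Cnd3 × List ℕ) (ν' : List ℕ) (_ : ℕ → ℕ) =>
      y.2 ≠ [] → ν' ≠ [] → y.2 ≠ ν' →
        ((y.2.dropLast ≠ ν'.dropLast → ∀ v, ¬ (HB y.2 v ∧ HB ν' v)) ∧
        (y.2.dropLast = ν'.dropLast → ∀ v, ¬ (Cone (endd o y.2) v ∧ HB ν' v)))) ?_
      (nodes_comp.comp Computable.fst)
    refine MP_8c048d_lc.Cop.imp (Cop.eq g1 (Computable.const [])).not ?_
    refine MP_8c048d_lc.Cop.imp (Cop.eq g2 (Computable.const [])).not ?_
    refine MP_8c048d_lc.Cop.imp (Cop.eq g1 g2).not ?_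
    refine MP_8c048d_lc.Cop.and ?_ ?_
    · exact MP_8c048d_lc.Cop.imp (Cop.eq (comp_dropLast g1) (comp_dropLast g2)).not
        (hb_hb_cop hC hD g1 g2)
    · exact MP_8c048d_lc.Cop.imp (Cop.eq (comp_dropLast g1) (comp_dropLast g2))
        (cone_hb_cop hC hD (endd_comp hC g1) g2)
  refine e1.congr fun c F => ?_
  unfold AC
  simp only [mem_nodes]
  constructor
  · intro h ν ν' h1 h2
    exact h ν h1 ν' h2
  · intro h ν h1 ν' h2
    exact h ν ν' h1 h2

/-- Validity of strings from `o`. -/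
theorem vstr_cop (hC : CodesStatement) (hD : DecvStatement) {d : α → Data} {f : α → List ℕ}
    (hd : Computable d) (hf : Computable f) :
    Cop (fun a (_ : ℕ → ℕ) => VStr (d a).W o (f a) (endd o (f a))) := by
  refine MP_8c048d_lc.Cop.and ?_ ?_
  · exact (MP_8c048d_lc.Cop.of_computable hC.2.2.2.2.2.2.2.2.1).comp
      (f := fun a => (o, f a, endd o (f a))) ((Computable.const o).pair (hf.pair (endd_comp hC hf)))
  · refine Cop.ballL (P := fun (a : α) (s : ℕ) (_ : ℕ → ℕ) => VS (d a).W s) ?_ hf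
    exact (MP_8c048d_lc.Cop.of_computable hD.1).comp (f := fun y : α × ℕ => (d y.1, y.2))
      ((hd.comp Computable.fst).pair Computable.snd)

theorem cv_cop (hC : CodesStatement) (hD : DecvStatement) (T : ℕ → List ℕ → Prop)
    (hT : ComputablePred (fun p : ℕ × List ℕ => T p.1 p.2)) :
    Cop (fun (p : Data × ℕ × Cnd3) (_ : ℕ → ℕ) => CV p.1.W (T p.2.1) p.2.2) := by
  let A : Type := Data × ℕ × Cnd3
  have ad : Computable (fun p : A => p.1) := Computable.fst
  have at' : Computable (fun p : A => p.2.1) := Computable.fst.comp Computable.snd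
  have ac' : Computable (fun p : A => p.2.2) := Computable.snd.comp Computable.snd
  have ac2 : Computable (fun p : A => p.2.2.2) := Computable.snd.comp ac'
  -- root
  have h1 : Cop (fun (p : A) (_ : ℕ → ℕ) => ∃ e ∈ p.2.2.2, e.1 = [] ∧ e.2.1 = []) := by
    refine Cop.bexL (P := fun (p : A) (e : Ent) (_ : ℕ → ℕ) => e.1 = [] ∧ e.2.1 = []) ?_ ac2
    exact MP_8c048d_lc.Cop.and (Cop.eq f1 (Computable.const [])) (Cop.eq f2 (Computable.const []))
  have g0 : Computable (fun p : (A × Ent) × Ent => p.1.2) := Computable.snd.comp Computable.fst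
  have g1 : Computable (fun p : (A × Ent) × Ent => p.1.2.1) := Computable.fst.comp g0
  have g2 : Computable (fun p : (A × Ent) × Ent => p.1.2.2.1) :=
    Computable.fst.comp (Computable.snd.comp g0)
  have g3 : Computable (fun p : (A × Ent) × Ent => p.1.2.2.2) :=
    Computable.snd.comp (Computable.snd.comp g0)
  -- uniq, emb, stemEmb
  have h2 : Cop (fun (p : A) (_ : ℕ → ℕ) => ∀ e ∈ p.2.2.2, ∀ e' ∈ p.2.2.2,
      (e.1 = e'.1 → e = e') ∧ (e.2.1 <+: e'.2.1 ↔ e.1 <+: e'.1) ∧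
        (e'.2.1 <+: e.2.2 → e'.1 <+: e.1)) := by
    refine Cop.ballL (P := fun (p : A) (e : Ent) (_ : ℕ → ℕ) => ∀ e' ∈ p.2.2.2,
      (e.1 = e'.1 → e = e') ∧ (e.2.1 <+: e'.2.1 ↔ e.1 <+: e'.1) ∧
        (e'.2.1 <+: e.2.2 → e'.1 <+: e.1)) ?_ ac2
    refine Cop.ballL (P := fun (y : A × Ent) (e' : Ent) (_ : ℕ → ℕ) =>
      (y.2.1 = e'.1 → y.2 = e') ∧ (y.2.2.1 <+: e'.2.1 ↔ y.2.1 <+: e'.1) ∧
        (e'.2.1 <+: y.2.2.2 → e'.1 <+: y.2.1)) ?_ (ac2.comp Computable.fst)
    refine MP_8c048d_lc.Cop.and ?_ (MP_8c048d_lc.Cop.and ?_ ?_)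
    · exact MP_8c048d_lc.Cop.imp (Cop.eq g1 f1) (Cop.eq g0 Computable.snd)
    · exact MP_8c048d_lc.Cop.iff (Cop.isPre g2 f2) (Cop.isPre g1 f1)
    · exact MP_8c048d_lc.Cop.imp (Cop.isPre f2 g3) (Cop.isPre f1 g1)
  -- mem, img, stem
  have h3 : Cop (fun (p : A) (_ : ℕ → ℕ) => ∀ e ∈ p.2.2.2, T p.2.1 e.1 ∧
      VStr p.1.W o e.2.1 (endd o e.2.1) ∧ e.2.1 <+: e.2.2 ∧
        VStr p.1.W o e.2.2 (endd o e.2.2)) := by
    refine Cop.ballL (P := fun (p : A) (e : Ent) (_ : ℕ → ℕ) => T p.2.1 e.1 ∧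
      VStr p.1.W o e.2.1 (endd o e.2.1) ∧ e.2.1 <+: e.2.2 ∧
        VStr p.1.W o e.2.2 (endd o e.2.2)) ?_ ac2
    refine MP_8c048d_lc.Cop.and ?_ (MP_8c048d_lc.Cop.and ?_ (MP_8c048d_lc.Cop.and ?_ ?_))
    · exact (MP_8c048d_lc.Cop.of_computable hT).comp (f := fun y : A × Ent => (y.1.2.1, y.2.1))
        ((at'.comp Computable.fst).pair f1)
    · exact vstr_cop hC hD (ad.comp Computable.fst) f2
    · exact Cop.isPre f2 f3
    · exact vstr_cop hC hD (ad.comp Computable.fst) f3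
  -- parent
  have h4 : Cop (fun (p : A) (_ : ℕ → ℕ) => ∀ e ∈ p.2.2.2, e.1 ≠ [] →
      ∃ e' ∈ p.2.2.2, e'.1 = e.1.dropLast) := by
    refine Cop.ballL (P := fun (p : A) (e : Ent) (_ : ℕ → ℕ) => e.1 ≠ [] →
      ∃ e' ∈ p.2.2.2, e'.1 = e.1.dropLast) ?_ ac2
    refine MP_8c048d_lc.Cop.imp (Cop.eq f1 (Computable.const [])).not ?_
    refine Cop.bexL (P := fun (y : A × Ent) (e' : Ent) (_ : ℕ → ℕ) =>
      e'.1 = y.2.1.dropLast) ?_ (ac2.comp Computable.fst)
    exact Cop.eq f1 (comp_dropLast g1)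
  have h5 : Cop (fun (p : A) (_ : ℕ → ℕ) => AC (Nd p.2.2)) := (ac_cop hC hD).comp ac'
  refine (h1.and (h2.and (h3.and (h4.and h5)))).congr fun p F => ?_
  constructor
  · rintro ⟨⟨e, he, he1, he2⟩, b, c, d, h⟩
    refine ⟨⟨e.2.2, ?_⟩, fun x hx y hy => (b x hx y hy).1, fun x hx => (c x hx).1,
      fun x hx => (c x hx).2.1, fun x hx => (c x hx).2.2, fun x hx y hy => (b x hx y hy).2.1,
      fun x hx y hy => (b x hx y hy).2.2, d, h⟩
    have h9 : e = ([], [], e.2.2) := Prod.ext he1 (Prod.ext he2 rfl)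
    rw [← h9]
    exact he
  · rintro ⟨⟨q, hq⟩, b1, b2, b3, b4, b5, b6, b7, b8⟩
    exact ⟨⟨_, hq, rfl, rfl⟩, fun x hx y hy => ⟨b1 x hx y hy, b5 x hx y hy, b6 x hx y hy⟩,
      fun x hx => ⟨b2 x hx, b3 x hx, b4 x hx⟩, b7, b8⟩

theorem cle_cop (T : ℕ → List ℕ → Prop)
    (hT : ComputablePred (fun p : ℕ × List ℕ => T p.1 p.2)) :
    Cop (fun (p : ℕ × Cnd3 × Cnd3) (_ : ℕ → ℕ) => CLe (T p.1) p.2.1 p.2.2) := by
  let A : Type := ℕ × Cnd3 × Cnd3
  have at' : Computable (fun p : A => p.1) := Computable.fst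
  have ac1 : Computable (fun p : A => p.2.1.1) :=
    Computable.fst.comp (Computable.fst.comp Computable.snd)
  have ac2 : Computable (fun p : A => p.2.1.2) :=
    Computable.snd.comp (Computable.fst.comp Computable.snd)
  have ad1 : Computable (fun p : A => p.2.2.1) :=
    Computable.fst.comp (Computable.snd.comp Computable.snd)
  have ad2 : Computable (fun p : A => p.2.2.2) :=
    Computable.snd.comp (Computable.snd.comp Computable.snd)
  have g0 : Computable (fun p : (A × Ent) × Ent => p.1.2) := Computable.snd.comp Computable.fst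
  have g1 : Computable (fun p : (A × Ent) × Ent => p.1.2.1) := Computable.fst.comp g0
  have g2 : Computable (fun p : (A × Ent) × Ent => p.1.2.2.1) :=
    Computable.fst.comp (Computable.snd.comp g0)
  have g3 : Computable (fun p : (A × Ent) × Ent => p.1.2.2.2) :=
    Computable.snd.comp (Computable.snd.comp g0)
  have h1 : Cop (fun (p : A) (_ : ℕ → ℕ) => p.2.1.1 <+: p.2.2.1) := Cop.isPre ac1 ad1
  have h2 : Cop (fun (p : A) (_ : ℕ → ℕ) => ∀ e ∈ p.2.1.2, ∃ e' ∈ p.2.2.2,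
      e'.1 = e.1 ∧ e'.2.1 = e.2.1 ∧ e.2.2 <+: e'.2.2) := by
    refine Cop.ballL (P := fun (p : A) (e : Ent) (_ : ℕ → ℕ) => ∃ e' ∈ p.2.2.2,
      e'.1 = e.1 ∧ e'.2.1 = e.2.1 ∧ e.2.2 <+: e'.2.2) ?_ ac2
    refine Cop.bexL (P := fun (y : A × Ent) (e' : Ent) (_ : ℕ → ℕ) =>
      e'.1 = y.2.1 ∧ e'.2.1 = y.2.2.1 ∧ y.2.2.2 <+: e'.2.2) ?_ (ad2.comp Computable.fst)
    exact MP_8c048d_lc.Cop.and (Cop.eq f1 g1)
      (MP_8c048d_lc.Cop.and (Cop.eq f2 g2) (Cop.isPre g3 f3))
  have h3 : Cop (fun (p : A) (_ : ℕ → ℕ) => ∀ e ∈ p.2.2.2, (∀ e₀ ∈ p.2.1.2, e₀.1 ≠ e.1) →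
      ∀ e₁ ∈ p.2.1.2, e₁.1 = e.1.dropLast → e₁.2.2 <+: e.2.1) := by
    refine Cop.ballL (P := fun (p : A) (e : Ent) (_ : ℕ → ℕ) =>
      (∀ e₀ ∈ p.2.1.2, e₀.1 ≠ e.1) →
      ∀ e₁ ∈ p.2.1.2, e₁.1 = e.1.dropLast → e₁.2.2 <+: e.2.1) ?_ ad2
    refine MP_8c048d_lc.Cop.imp ?_ ?_
    · refine Cop.ballL (P := fun (y : A × Ent) (e₀ : Ent) (_ : ℕ → ℕ) => e₀.1 ≠ y.2.1) ?_
        (ac2.comp Computable.fst)
      exact (Cop.eq f1 g1).not
    · refine Cop.ballL (P := fun (y : A × Ent) (e₁ : Ent) (_ : ℕ → ℕ) =>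
        e₁.1 = y.2.1.dropLast → e₁.2.2 <+: y.2.2.1) ?_ (ac2.comp Computable.fst)
      exact MP_8c048d_lc.Cop.imp (Cop.eq f1 (comp_dropLast g1)) (Cop.isPre f3 g2)
  have h4 : Cop (fun (p : A) (_ : ℕ → ℕ) => ∀ n ∈ p.2.2.1.drop p.2.1.1.length,
      ∀ x : PT, (Encodable.decode n : Option PT) = some x →
        n = Encodable.encode x → T p.1 x.1 → ∃ e ∈ p.2.2.2, e.1 = x.1 ∧ e.2.1 = x.2) := by
    refine Cop.ballL (P := fun (p : A) (n : ℕ) (_ : ℕ → ℕ) =>
      ∀ x : PT, (Encodable.decode n : Option PT) = some x →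
        n = Encodable.encode x → T p.1 x.1 → ∃ e ∈ p.2.2.2, e.1 = x.1 ∧ e.2.1 = x.2) ?_
      (comp_drop (Computable.list_length.comp ac1) ad1)
    refine Cop.optAll (f := fun y : A × ℕ => (Encodable.decode y.2 : Option PT))
      (P := fun (y : A × ℕ) (x : PT) (_ : ℕ → ℕ) =>
        y.2 = Encodable.encode x → T y.1.1 x.1 → ∃ e ∈ y.1.2.2.2, e.1 = x.1 ∧ e.2.1 = x.2)
      (Computable.decode.comp Computable.snd) ?_
    refine MP_8c048d_lc.Cop.imp (Cop.eq (Computable.snd.comp Computable.fst)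
      (Computable.encode.comp Computable.snd)) ?_
    refine MP_8c048d_lc.Cop.imp ((MP_8c048d_lc.Cop.of_computable hT).comp
      (f := fun y : (A × ℕ) × PT => (y.1.1.1, y.2.1))
      ((Computable.fst.comp (Computable.fst.comp Computable.fst)).pair
        (Computable.fst.comp Computable.snd))) ?_
    refine Cop.bexL (P := fun (z : (A × ℕ) × PT) (e : Ent) (_ : ℕ → ℕ) =>
      e.1 = z.2.1 ∧ e.2.1 = z.2.2) ?_ (ad2.comp (Computable.fst.comp Computable.fst))
    exact MP_8c048d_lc.Cop.and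
      (Cop.eq f1 (Computable.fst.comp (Computable.snd.comp Computable.fst)))
      (Cop.eq f2 (Computable.snd.comp (Computable.snd.comp Computable.fst)))
  refine (h1.and (h2.and (h3.and h4))).congr fun p F => ?_
  constructor
  · rintro ⟨a, b, c, d⟩
    refine ⟨a, ?_, c, ?_⟩
    · intro e he
      obtain ⟨e', he', h5, h6, h7⟩ := b e he
      refine ⟨e'.2.2, h7, ?_⟩
      rw [← h5, ← h6]
      exact he'
    · intro n hn s ρ hf hs
      obtain ⟨e, he, h5, h6⟩ := d n hn (s, ρ) (by rw [hf]; exact Encodable.encodek (s, ρ)) hf hs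
      refine ⟨e.2.2, ?_⟩
      change e.1 = s at h5
      change e.2.1 = ρ at h6
      rw [← h5, ← h6]
      exact he
  · rintro ⟨a, b, c, d⟩
    refine ⟨a, ?_, c, ?_⟩
    · intro e he
      obtain ⟨p', h5, h6⟩ := b e he
      exact ⟨_, h6, rfl, rfl, h5⟩
    · intro n hn x _ hx hT'
      obtain ⟨p', h5⟩ := d n hn x.1 x.2 hx hT'
      exact ⟨_, h5, rfl, rfl⟩

theorem ke_cop (hD : DecvStatement) :
    Cop (fun (p : Cnd3 × St × St) (_ : ℕ → ℕ) => KE p.1 p.2.1 p.2.2) := by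
  refine Cop.bexL (P := fun (p : Cnd3 × St × St) (e : Ent) (_ : ℕ → ℕ) =>
    ∃ s ∈ e.2.1, HE s p.2.1 p.2.2) ?_ (Computable.snd.comp Computable.fst)
  refine Cop.bexL (P := fun (y : (Cnd3 × St × St) × Ent) (s : ℕ) (_ : ℕ → ℕ) =>
    HE s y.1.2.1 y.1.2.2) ?_ f2
  exact (MP_8c048d_lc.Cop.of_computable hD.2.1).comp
    (f := fun z : ((Cnd3 × St × St) × Ent) × ℕ => (z.2, z.1.1.2.1, z.1.1.2.2))
    (Computable.snd.pair
      ((Computable.fst.comp (Computable.snd.comp (Computable.fst.comp Computable.fst))).pair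
        (Computable.snd.comp (Computable.snd.comp (Computable.fst.comp Computable.fst)))))

end Decc

theorem decc (hC : CodesStatement) (hD : DecvStatement) : DeccStatement := by
  intro T hT
  exact ⟨Cop.toCP (Decc.cv_cop hC hD T hT), Cop.toCP (Decc.cle_cop T hT),
    Cop.toCP (Decc.ke_cop hD)⟩

end Pool.Agent.Lib.MP_d48993_lc.Node
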