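import Pool.Agent.Lib.MP_d48993_lc.AE.Node.Interfaces

/-!
# Project NODE (MP_d48993), module LIMIT: computability
-/

set_option autoImplicit false

namespace Pool.Agent.Lib.MP_d48993_lc.Node.Limit

open MP_8c048d_lc (pre join RecF Sig Clo Cop Del)

variable {α β : Type} [Primcodable α] [Primcodable β]

/-! ### General facts -/

attribute [local fun_prop] Computable

@[local fun_prop] theorem cid : Computable (fun x : α => x) := Computable.id

@[local fun_prop] theorem cconst (b : β) : Computable (fun _ : α => b) := Computable.const b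

@[local fun_prop] theorem ccomp {γ : Type} [Primcodable γ] {f : β → γ} {g : α → β}
    (h : Computable f) (h' : Computable g) : Computable (fun x : α => f (g x)) := h.comp h'

@[local fun_prop] theorem cfst {γ : Type} [Primcodable γ] {f : α → β × γ} (h : Computable f) :
    Computable (fun x : α => (f x).1) := Computable.fst.comp h

@[local fun_prop] theorem csnd {γ : Type} [Primcodable γ] {f : α → β × γ} (h : Computable f) :
    Computable (fun x : α => (f x).2) := Computable.snd.comp h

@[local fun_prop] theorem cpair {γ : Type} [Primcodable γ] {f : α → β} {g : α → γ}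
    (h : Computable f) (h' : Computable g) : Computable (fun x : α => (f x, g x)) :=
  Computable.pair h h'

theorem eq_comp : ComputablePred (fun p : α × α => p.1 = p.2) := by
  classical
  have h : PrimrecRel (fun a b : α => a = b) := Primrec.eq
  exact PrimrecPred.computablePred (PrimrecRel.comp h Primrec.fst Primrec.snd)

theorem le_comp : ComputablePred (fun p : ℕ × ℕ => p.1 ≤ p.2) :=
  PrimrecPred.computablePred (PrimrecRel.comp Primrec.nat_le Primrec.fst Primrec.snd)

theorem mem_comp : ComputablePred (fun p : α × List α => p.1 ∈ p.2) := by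
  classical
  have h : PrimrecPred (fun p : α × List α => p.2.idxOf p.1 < p.2.length) :=
    PrimrecRel.comp Primrec.nat_lt ((Primrec.list_idxOf.comp Primrec.fst Primrec.snd))
      (Primrec.list_length.comp Primrec.snd)
  exact (PrimrecPred.computablePred h).of_eq fun p => List.idxOf_lt_length_iff

theorem prefix_comp : ComputablePred (fun p : List ℕ × List ℕ => p.1 <+: p.2) := by
  have h : ComputablePred (fun p : List ℕ × List ℕ => p.2.take p.1.length = p.1) := by
    obtain ⟨_, h⟩ := eq_comp (α := List ℕ)
    have h1 : Computable (fun p : List ℕ × List ℕ => (p.2.take p.1.length, p.1)) :=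
      Computable.pair ((Primrec.list_take (α := ℕ)).to_comp.comp
        (Computable.list_length.comp Computable.fst) Computable.snd) Computable.fst
    exact ⟨fun p => Classical.propDecidable _, (h.comp h1).of_eq fun p => by congr⟩
  refine h.of_eq fun p => ?_
  constructor
  · intro h
    rw [← h]
    exact List.take_prefix _ _
  · intro h
    exact (List.prefix_iff_eq_take.1 h).symm

theorem cop_eq {f g : α → β} (hf : Computable f) (hg : Computable g) :
    Cop (fun a (_ : ℕ → ℕ) => f a = g a) :=
  (Cop.of_computable eq_comp).comp (hf.pair hg)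

theorem cop_le {f g : α → ℕ} (hf : Computable f) (hg : Computable g) :
    Cop (fun a (_ : ℕ → ℕ) => f a ≤ g a) :=
  (Cop.of_computable le_comp).comp (hf.pair hg)

theorem cop_lt {f g : α → ℕ} (hf : Computable f) (hg : Computable g) :
    Cop (fun a (_ : ℕ → ℕ) => f a < g a) :=
  ((cop_le hg hf).not).congr fun a F => by simp

theorem cop_mem {f : α → β} {g : α → List β} (hf : Computable f) (hg : Computable g) :
    Cop (fun a (_ : ℕ → ℕ) => f a ∈ g a) :=
  (Cop.of_computable mem_comp).comp (hf.pair hg)

theorem cop_prefix {f g : α → List ℕ} (hf : Computable f) (hg : Computable g) :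
    Cop (fun a (_ : ℕ → ℕ) => f a <+: g a) :=
  (Cop.of_computable prefix_comp).comp (hf.pair hg)

/-- bounded quantifiers over lists -/
theorem cop_ball {P : α → β → (ℕ → ℕ) → Prop} (h : Cop (fun (p : α × β) F => P p.1 p.2 F))
    {f : α → List β} (hf : Computable f) (b₀ : β) :
    Cop (fun a F => ∀ b ∈ f a, P a b F) := by
  have h1 : Cop (fun (p : α × ℕ) F => P p.1 (((f p.1)[p.2]?).getD b₀) F) :=
    h.comp (f := fun p : α × ℕ => (p.1, ((f p.1)[p.2]?).getD b₀))
      (Computable.fst.pair (Computable.option_getD (Computable.list_getElem?.comp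
        (hf.comp Computable.fst) Computable.snd) (Computable.const b₀)))
  refine (Cop.ball (P := fun a i F => P a (((f a)[i]?).getD b₀) F) h1
    (Computable.list_length.comp hf)).congr fun a F => ?_
  constructor
  · intro H b hb
    obtain ⟨i, hi, rfl⟩ := List.mem_iff_getElem.1 hb
    have := H i hi
    rwa [List.getElem?_eq_getElem hi, Option.getD_some] at this
  · intro H i hi
    rw [List.getElem?_eq_getElem hi, Option.getD_some]
    exact H _ (List.getElem_mem hi)

/-! ### The functional -/

theorem jnV_rec : RecF (fun (ρ : List ℕ) (V : ℕ → ℕ) => jnV V ρ) := by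
  have e1 : RecF (fun (p : List ℕ × ℕ) (F : ℕ → ℕ) => F p.2) :=
    RecF.at Computable.snd
  have e2 : RecF (fun (p : List ℕ × ℕ) (_ : ℕ → ℕ) => (p.1[p.2]?).getD 0) :=
    RecF.of_computable (f := fun p : List ℕ × ℕ => (p.1[p.2]?).getD 0)
      (Computable.option_getD (Computable.list_getElem?.comp Computable.fst Computable.snd)
        (Computable.const 0))
  have e3 := RecF.joinF (α := List ℕ) (Ψ := fun _ F i => F i)
    (Φ := fun ρ _ i => (ρ[i]?).getD 0) e1 e2
  have e4 := RecF.pre' (Ψ := fun (ρ : List ℕ) (F : ℕ → ℕ) =>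
    join (fun i => F i) (fun i => (ρ[i]?).getD 0)) e3
  exact e4.comp₁ (f := fun ρ : List ℕ => (ρ, 2 * ρ.length))
    (Computable.pair Computable.id ((Primrec.nat_mul.to_comp).comp (Computable.const 2)
      Computable.list_length))

theorem phi_rec {Φ : ℕ → List ℕ → List ℕ} (hΦ : Computable₂ Φ) {f : α → ℕ} (hf : Computable f)
    {g : α → List ℕ} (hg : Computable g) : RecF (fun (x : α) V => phi Φ V (f x) (g x)) := by
  have h1 : RecF (fun (x : α) V => (f x, jnV V (g x))) :=
    (RecF.of_computable hf).pair (jnV_rec.comp₁ hg)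
  exact h1.comp (g := fun x : ℕ × List ℕ => Φ x.1 x.2) hΦ

/-- substitution of a recursive functional for one variable -/
theorem cop_sub {P : α → β → (ℕ → ℕ) → Prop} (h : Cop (fun (p : α × β) F => P p.1 p.2 F))
    {φ : α → (ℕ → ℕ) → β} (hφ : RecF φ) : Cop (fun a F => P a (φ a F) F) := by
  have h2 := h.subst (α := α) (ψ := fun a F => (a, φ a F))
    ((RecF.of_computable Computable.id).pair hφ) (Ψ := fun _ F i => F i)
    (RecF.at Computable.snd)
  exact h2

/-! ### Trees -/

/-- the list with the code `e` -/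
def dl (e : ℕ) : List ℕ := (Encodable.decode (α := List ℕ) e).getD []

theorem dl_encode (E : List ℕ) : dl (Encodable.encode E) = E := by
  simp [dl]

theorem dl_comp : Computable dl :=
  Computable.option_getD Computable.decode (Computable.const [])

/-- the union of the trees in the list with the code `e` -/
abbrev TT (Tr : ℕ → List ℕ → Prop) (e : ℕ) : List ℕ → Prop := TE Tr (dl e)

theorem tt_comp {Tr : ℕ → List ℕ → Prop}
    (hTr : ComputablePred (fun p : ℕ × List ℕ => Tr p.1 p.2)) :
    ComputablePred (fun p : ℕ × List ℕ => TT Tr p.1 p.2) := by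
  classical
  obtain ⟨D, hD⟩ := hTr
  obtain ⟨D', hE⟩ := mem_comp (α := ℕ)
  have h1 : Computable (fun q : (ℕ × List ℕ) × ℕ => decide (q.2 ∈ dl q.1.1)) :=
    (hE.comp (Computable.snd.pair (dl_comp.comp (Computable.fst.comp Computable.fst)))).of_eq
      (fun q => by congr)
  have h2 : Computable (fun q : (ℕ × List ℕ) × ℕ => decide (Tr q.2 q.1.2.tail)) :=
    (hD.comp (Computable.pair Computable.snd (Primrec.list_tail.to_comp.comp
      (Computable.snd.comp Computable.fst)))).of_eq (fun p => by congr)
  have h3 : Computable₂ (fun (p : ℕ × List ℕ) (e : ℕ) =>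
      decide (e ∈ dl p.1) && decide (Tr e p.2.tail)) :=
    (Primrec.and.to_comp.comp h1 h2).to₂
  have h4 : Computable (fun p : ℕ × List ℕ => (Option.casesOn p.2.head? true
      (fun e => decide (e ∈ dl p.1) && decide (Tr e p.2.tail)) : Bool)) :=
    Computable.option_casesOn (Primrec.list_head?.to_comp.comp Computable.snd)
      (Computable.const true) h3
  refine ⟨Classical.decPred _, h4.of_eq (fun p => ?_)⟩
  obtain ⟨e, σ⟩ := p
  cases σ with
  | nil => simp [TE]
  | cons e' s =>
    simp only [TE, List.head?_cons, List.tail_cons, Bool.decide_and]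
    congr

theorem tt_pc {Tr : ℕ → List ℕ → Prop} (h : ∀ e, PC (Tr e)) (E : ℕ) : PC (TT Tr E) := by
  intro σ τ hστ hτ
  cases σ with
  | nil => trivial
  | cons e s =>
    cases τ with
    | nil => simp at hστ
    | cons e' t =>
      obtain ⟨rfl, hst⟩ := List.cons_prefix_cons.1 hστ
      exact ⟨hτ.1, h _ _ _ hst hτ.2⟩

/-! ### The functional is monotone -/

theorem pre_prefix (F : ℕ → ℕ) {m n : ℕ} (h : m ≤ n) : pre F m <+: pre F n := by
  rw [List.prefix_iff_eq_take, MP_8c048d_lc.length_pre, MP_8c048d_lc.pre_take, min_eq_left h]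

theorem jnV_mono (V : ℕ → ℕ) {σ τ : List ℕ} (h : σ <+: τ) : jnV V σ <+: jnV V τ := by
  have hl := h.length_le
  have e : jnV V σ = pre (join V (fun i => (τ[i]?).getD 0)) (2 * σ.length) := by
    refine MP_8c048d_lc.pre_congr fun i hi => ?_
    unfold MP_8c048d_lc.join
    split_ifs with h1
    · rfl
    · have h2 : i / 2 < σ.length := by omega
      show (σ[i / 2]?).getD 0 = (τ[i / 2]?).getD 0
      obtain ⟨t, rfl⟩ := h
      rw [List.getElem?_append_left h2]
  rw [e]
  exact pre_prefix _ (by omega)

theorem phi_mono {Φ : ℕ → List ℕ → List ℕ} (hΦ : IsEnum Φ) (V : ℕ → ℕ) (i : ℕ) :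
    Mon (phi Φ V i) := fun σ τ h => hΦ.mono i _ _ (jnV_mono V h)

/-! ### Decidability of the basic relations -/

/-- `δ''` is good and extends `δ'` -/
def Lat (δ' δ'' : Data) : Prop := Wf δ'' ∧ Full δ'' ∧ DExt δ' δ''

/-- all stems end in states of the root `u` -/
def ARoot (u : ℕ) (c : Cnd3) : Prop := ∀ e ∈ c.2, (endd o e.2.2).1 = u

theorem endd_o (hcd : CodesStatement) {f : α → List ℕ} (hf : Computable f) :
    Computable (fun a => endd o (f a)) := by
  obtain ⟨-, -, -, -, -, -, -, -, -, he, -⟩ := hcd
  exact he.comp ((Computable.const o).pair hf)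

theorem cop_vstr (hv : DecvStatement) (hcd : CodesStatement) :
    Cop (fun (p : Data × St × List ℕ × St) (_ : ℕ → ℕ) => VStr p.1.W p.2.1 p.2.2.1 p.2.2.2) := by
  obtain ⟨-, -, -, -, -, -, -, -, hCh, -⟩ := hcd
  have h1 : Cop (fun (p : Data × St × List ℕ × St) (_ : ℕ → ℕ) => Ch p.2.1 p.2.2.1 p.2.2.2) :=
    (Cop.of_computable hCh).comp (f := fun p : Data × St × List ℕ × St =>
      (p.2.1, p.2.2.1, p.2.2.2)) (by fun_prop)
  have h2 : Cop (fun (p : Data × St × List ℕ × St) (_ : ℕ → ℕ) => ∀ s ∈ p.2.2.1, VS p.1.W s) :=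
    cop_ball (P := fun (p : Data × St × List ℕ × St) s _ => VS p.1.W s)
      ((Cop.of_computable hv.1).comp (f := fun q : (Data × St × List ℕ × St) × ℕ =>
        (q.1.1, q.2)) (by fun_prop)) (by fun_prop) 0
  exact h1.and h2

theorem cop_vo (hv : DecvStatement) (hcd : CodesStatement) {f : α → Data} (hf : Computable f)
    {g : α → List ℕ} (hg : Computable g) :
    Cop (fun a (_ : ℕ → ℕ) => VStr (f a).W o (g a) (endd o (g a))) :=
  (cop_vstr hv hcd).comp (hf.pair ((Computable.const o).pair (hg.pair (endd_o hcd hg))))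

theorem cop_lat (hv : DecvStatement) {f g : α → Data} (hf : Computable f) (hg : Computable g) :
    Cop (fun a (_ : ℕ → ℕ) => Lat (f a) (g a)) := by
  obtain ⟨-, -, -, hwf, hfu, hde⟩ := hv
  exact ((Cop.of_computable hwf).comp hg).and (((Cop.of_computable hfu).comp hg).and
    ((Cop.of_computable hde).comp (hf.pair hg)))

theorem cop_cv (hc : DeccStatement) {Tr : ℕ → List ℕ → Prop}
    (hTr : ComputablePred (fun p : ℕ × List ℕ => Tr p.1 p.2)) {f : α → Data} (hf : Computable f)
    {e : α → ℕ} (he : Computable e) {g : α → Cnd3} (hg : Computable g) :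
    Cop (fun a (_ : ℕ → ℕ) => CV (f a).W (TT Tr (e a)) (g a)) :=
  (Cop.of_computable (hc _ (tt_comp hTr)).1).comp (hf.pair (he.pair hg))

theorem cop_cle (hc : DeccStatement) {Tr : ℕ → List ℕ → Prop}
    (hTr : ComputablePred (fun p : ℕ × List ℕ => Tr p.1 p.2))
    {e : α → ℕ} (he : Computable e) {f g : α → Cnd3} (hf : Computable f) (hg : Computable g) :
    Cop (fun a (_ : ℕ → ℕ) => CLe (TT Tr (e a)) (f a) (g a)) :=
  (Cop.of_computable (hc _ (tt_comp hTr)).2.1).comp (he.pair (hf.pair hg))

theorem cop_ke (hc : DeccStatement) (hcd : CodesStatement)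
    {f : α → Cnd3} (hf : Computable f) {g : α → ℕ} (hg : Computable g) :
    Cop (fun a (_ : ℕ → ℕ) => KE (f a) (src (g a)) (tgt (g a))) := by
  obtain ⟨-, -, -, -, h1, h2, -⟩ := hcd
  have hT : ComputablePred (fun p : ℕ × List ℕ => (fun (_ : ℕ) (_ : List ℕ) => True) p.1 p.2) :=
    ⟨fun _ => isTrue trivial, Computable.const true⟩
  exact (Cop.of_computable (hc (fun _ _ => True) hT).2.2).comp
    (hf.pair ((h1.comp hg).pair (h2.comp hg)))

theorem cop_aroot (hcd : CodesStatement) {f : α → ℕ} (hf : Computable f) {g : α → Cnd3}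
    (hg : Computable g) : Cop (fun a (_ : ℕ → ℕ) => ARoot (f a) (g a)) := by
  have h := cop_ball (P := fun (a : α) (e : List ℕ × List ℕ × List ℕ) (_ : ℕ → ℕ) =>
    (endd o e.2.2).1 = f a) (cop_eq (f := fun p : α × (List ℕ × List ℕ × List ℕ) =>
      (endd o p.2.2.2).1) (g := fun p => f p.1)
      (Computable.fst.comp (endd_o hcd (Computable.snd.comp (Computable.snd.comp
        Computable.snd)))) (hf.comp Computable.fst)) (Computable.snd.comp hg) ([], [], [])
  exact h

theorem cop_adm : Cop (fun (x : St) (_ : ℕ → ℕ) => Adm x) := by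
  have hsz : Computable (fun x : St => sz x.1) :=
    ((Primrec.fst.comp Primrec.unpair).to_comp).comp Computable.fst
  exact (cop_le (Computable.list_length.comp Computable.snd) hsz).and
    (cop_ball (P := fun (x : St) b _ => b < sz x.1) (cop_lt Computable.snd
      (hsz.comp Computable.fst)) Computable.snd 0)

end Pool.Agent.Lib.MP_d48993_lc.Node.Limit
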