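import Pool.Agent.Lib.MP_d48993_lc.AE.Node.Interfaces
import Pool.Agent.Lib.MP_d48993_lc.Cond

/-!
# Module LTREE (helper79): the tree of the limit
-/

set_option autoImplicit false

namespace Pool.Agent.Lib.MP_d48993_lc.Node

open MP_8c048d_lc (pre join RecF Sig Clo Cop Del)

namespace Ltree

theorem dfit (δ : Data) : ∀ x t, δ.W.edge x t → Fit x t := fun _ _ h => h.1

theorem dlt (δ : Data) : ∀ x t, δ.W.edge x t → t.1 < δ.N := fun _ _ h => h.2.1

theorem adm_ow {v : St} (hv : Adm v) (hr : 0 < rk v) : Adm (ow v 0) := by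
  unfold rk at hr
  refine ⟨?_, ?_⟩
  · simp only [ow, List.length_append, List.length_singleton]
    omega
  · intro b hb
    simp only [ow, List.mem_append, List.mem_singleton] at hb
    rcases hb with hb | hb
    · exact hv.2 b hb
    · simp only [ow]
      omega

/-- In full data the advice is defined at all relevant states. -/
theorem adv_some {δ : Data} (hF : Full δ) {v : St} (hv : Adm v) (hr : 0 < rk v)
    (hN : v.1 < δ.N) : (δ.W.adv (ow v 0)).isSome := by
  by_cases hp : v.1 ∈ δ.pub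
  · exact hF (ow v 0) (adm_ow hv hr) ⟨v, rfl⟩ hp
  · have h1 : (if (ow v 0).1 < δ.1 ∧ (ow v 0).1 ∉ δ.2.1 then some ([] : List ℕ) else none) =
        some [] := if_pos ⟨hN, hp⟩
    show (((δ.2.2.2.1.find? (fun p => p.1 = ow v 0)).map Prod.snd).or
      (if (ow v 0).1 < δ.1 ∧ (ow v 0).1 ∉ δ.2.1 then some [] else none)).isSome
    rw [h1]
    cases (δ.2.2.2.1.find? (fun p => p.1 = ow v 0)).map Prod.snd <;> simp

/-- Roots and admissibility along a string. -/
theorem vstr_roots {W : World} (hfit : ∀ x t, W.edge x t → Fit x t)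
    (hedge : ∀ s, VS W s → W.edge (src s) (tgt s)) :
    ∀ (τ : List ℕ) (x y : St), VStr W x τ y →
      x.1 ≤ y.1 ∧ (∀ s ∈ τ, (tgt s).1 ≤ y.1) ∧ (Adm x → Adm y) ∧ (τ ≠ [] → Adm y) := by
  intro τ
  induction τ with
  | nil =>
    intro x y h
    have h1 : x = y := h.1
    subst h1
    exact ⟨le_rfl, by simp, fun h => h, fun h => absurd rfl h⟩
  | cons s τ ih =>
    intro x y h
    obtain ⟨⟨h1, h2⟩, h3⟩ := h
    have hs := hfit _ _ (hedge s (h3 s (by simp)))
    obtain ⟨i1, i2, i3, -⟩ := ih (tgt s) y ⟨h2, fun s' hs' => h3 s' (by simp [hs'])⟩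
    have hA : Adm y := i3 hs.2.1
    refine ⟨?_, ?_, fun _ => hA, fun _ => hA⟩
    · rw [← h1]
      exact hs.2.2.1.le.trans i1
    · intro s' hs'
      rcases List.mem_cons.1 hs' with rfl | hs'
      · exact i1
      · exact i2 s' hs'

theorem adm_o : Adm o := ⟨Nat.zero_le _, fun b hb => by simp [o] at hb⟩

theorem dext_refl (δ : Data) : DExt δ δ :=
  ⟨le_rfl, ⟨[], by simp, by simp⟩, ⟨[], by simp, by simp⟩, ⟨[], by simp, by simp⟩,
    ⟨[], by simp, by simp⟩⟩

section

variable {Φ : ℕ → List ℕ → List ℕ} {Tr : ℕ → List ℕ → Prop} {TU : List ℕ → Prop} {V : ℕ → ℕ}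
  {δ : ℕ → Data} {u : ℕ → ℕ}

theorem lim_dext (hM : MonoStatement) (h : Lim Φ Tr TU V δ u) :
    ∀ m n, m ≤ n → DExt (δ m) (δ n) := by
  intro m n hmn
  induction n, hmn using Nat.le_induction with
  | base => exact dext_refl _
  | succ n _ ih => exact hM.2.2.2.1 _ _ _ ih (h.wf m) (h.wf n) (h.ext n)

theorem lim_N (h : Lim Φ Tr TU V δ u) : ∀ n, n < (δ n).N := by
  intro n
  induction n with
  | zero => exact (h.wf 0).pos
  | succ n ih =>
    have h1 := (h.root n).1
    have h2 := h.lt n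
    omega

/-- Strings valid at some stage are valid later. -/
theorem vstr_mono (hM : MonoStatement) (h : Lim Φ Tr TU V δ u) {m n : ℕ} (hmn : m ≤ n) {x y : St}
    {τ : List ℕ} (hτ : VStr (δ m).W x τ y) : VStr (δ n).W x τ y :=
  ⟨hτ.1, fun s hs => hM.1 _ _ _ (hM.2.2.1 _ _ (h.wf m) (lim_dext hM h m n hmn)) (dlt _) s
    (hτ.2 s hs)⟩

/-- Symbols valid later are valid as soon as the root of the target is below the bound. -/
theorem vs_back (hB : BasicStatement) (hM : MonoStatement) {δ₁ δ₂ : Data} (hw : Wf δ₁)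
    (hF : Full δ₁) (he : DExt δ₁ δ₂) {s : ℕ} (hs : VS δ₂.W s) (hN : (tgt s).1 < δ₁.N) :
    VS δ₁.W s := by
  obtain ⟨-, -, -, b4, -⟩ := hB δ₂.W (dfit δ₂)
  refine hM.2.1 _ _ _ (hM.2.2.1 _ _ hw he) (dfit _) s hs hN ?_
  intro v v' hv hr
  obtain ⟨e1, -, e2, -, -⟩ := b4 s hs v v' hv
  have hfit := dfit _ _ _ e1
  exact adv_some hF hfit.1 hr (lt_of_lt_of_le hfit.2.2.1 (e2.trans hN.le))

theorem vstr_back (hB : BasicStatement) (hM : MonoStatement) {δ₁ δ₂ : Data} (hw : Wf δ₁)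
    (hF : Full δ₁) (he : DExt δ₁ δ₂) {x y : St} {τ : List ℕ} (hτ : VStr δ₂.W x τ y)
    (hN : y.1 < δ₁.N) : VStr δ₁.W x τ y := by
  obtain ⟨-, h1, -⟩ := vstr_roots (dfit δ₂) (hB δ₂.W (dfit δ₂)).1 τ x y hτ
  exact ⟨hτ.1, fun s hs => vs_back hB hM hw hF he (hτ.2 s hs) (lt_of_le_of_lt (h1 s hs) hN)⟩

theorem le_iff (hB : BasicStatement) (hM : MonoStatement) (h : Lim Φ Tr TU V δ u) (σ : List ℕ)
    (n : ℕ) (hN : (endd o σ).1 < (δ n).N) :
    LE δ σ ↔ VStr (δ n).W o σ (endd o σ) := by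
  refine ⟨?_, fun h1 => ⟨n, h1⟩⟩
  rintro ⟨m, hm⟩
  rcases le_total m n with h1 | h1
  · exact vstr_mono hM h h1 hm
  · exact vstr_back hB hM (h.wf n) (h.full n) (lim_dext hM h n m h1) hm hN

/-- The end of a valid string is admissible, with a root below the bound. -/
theorem end_adm (hB : BasicStatement) {δ₁ : Data} (hw : Wf δ₁) {σ : List ℕ} {y : St}
    (hσ : VStr δ₁.W o σ y) : Adm y ∧ y.1 < δ₁.N := by
  refine ⟨(vstr_roots (dfit δ₁) (hB δ₁.W (dfit δ₁)).1 σ o y hσ).2.2.1 adm_o, ?_⟩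
  have key : ∀ (τ : List ℕ) (x : St), x.1 < δ₁.N → VStr δ₁.W x τ y → y.1 < δ₁.N := by
    intro τ
    induction τ with
    | nil =>
      intro x hx h
      have h1 : x = y := h.1
      rw [← h1]; exact hx
    | cons s τ ih =>
      intro x hx h
      obtain ⟨⟨h1, h2⟩, h3⟩ := h
      exact ih (tgt s) (dlt _ _ _ ((hB δ₁.W (dfit δ₁)).1 s (h3 s (by simp))))
        ⟨h2, fun s' hs' => h3 s' (by simp [hs'])⟩
  exact key σ o hw.pos hσ

theorem mem_pub (h : Lim Φ Tr TU V δ u) {n m : ℕ} (hnm : n < m) : u n ∈ (δ m).pub := by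
  induction m, hnm using Nat.le_induction with
  | base => rw [h.pub]; simp
  | succ m _ ih => rw [h.pub]; exact List.mem_append_left _ ih

theorem vstr_append (hC : CodesStatement) {W : World} {x y z : St} {σ τ : List ℕ}
    (h1 : VStr W x σ y) (h2 : VStr W y τ z) : VStr W x (σ ++ τ) z := by
  obtain ⟨-, -, -, -, -, -, -, -, -, -, c1, c2, -⟩ := hC
  refine ⟨?_, fun s hs => ?_⟩
  · have h3 := c1 _ _ _ h1.1
    rw [c2, ← h3]
    exact ⟨h1.1, h2.1⟩
  · rcases List.mem_append.1 hs with hs | hs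
    · exact h1.2 s hs
    · exact h2.2 s hs

theorem vstr_single {W : World} {s : ℕ} (h : VS W s) : VStr W (src s) [s] (tgt s) :=
  ⟨⟨rfl, rfl⟩, fun s' hs' => by rw [List.mem_singleton.1 hs']; exact h⟩

theorem vstr_end (hC : CodesStatement) {W : World} {x y : St} {σ : List ℕ} (h : VStr W x σ y) :
    VStr W x σ (endd x σ) := by
  obtain ⟨-, -, -, -, -, -, -, -, -, -, c1, -⟩ := hC
  rw [← c1 _ _ _ h.1]; exact h

end

/-! ### Computability -/

theorem comp_endO (cEnd : Computable (fun p : St × List ℕ => endd p.1 p.2)) :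
    Computable (fun σ : List ℕ => endd o σ) := by
  have h1 : Computable (fun σ : List ℕ => ((o, σ) : St × List ℕ)) :=
    Computable.pair (Computable.const o) Computable.id
  exact cEnd.comp h1

theorem cop_ch (cE : Computable (fun σ : List ℕ => endd o σ))
    (cCh : ComputablePred (fun p : St × List ℕ × St => Ch p.1 p.2.1 p.2.2)) :
    Cop (fun (p : Data × List ℕ) (_ : ℕ → ℕ) => Ch o p.2 (endd o p.2)) := by
  have h1 : Computable (fun p : Data × List ℕ => ((o, p.2, endd o p.2) : St × List ℕ × St)) :=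
    Computable.pair (Computable.const o) (Computable.pair Computable.snd (cE.comp Computable.snd))
  exact (MP_8c048d_lc.Cop.of_computable cCh).comp h1

theorem cop_allVS (hD : ComputablePred (fun p : Data × ℕ => VS p.1.W p.2)) :
    Cop (fun (p : Data × List ℕ) (_ : ℕ → ℕ) => ∀ s ∈ p.2, VS p.1.W s) := by
  refine Cop.ballL (P := fun (p : Data × List ℕ) s (_ : ℕ → ℕ) => VS p.1.W s) ?_ Computable.snd
  have h1 : Computable (fun q : (Data × List ℕ) × ℕ => ((q.1.1, q.2) : Data × ℕ)) :=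
    Computable.pair (Computable.fst.comp Computable.fst) Computable.snd
  exact (MP_8c048d_lc.Cop.of_computable hD).comp h1

theorem cop_vstr (hC : CodesStatement) (hD : DecvStatement) :
    Cop (fun (p : Data × List ℕ) (_ : ℕ → ℕ) => VStr p.1.W o p.2 (endd o p.2)) := by
  obtain ⟨-, -, -, -, -, -, -, -, cCh, cEnd, -⟩ := hC
  exact ((cop_ch (comp_endO cEnd) cCh).and (cop_allVS hD.1)).congr fun p F => Iff.rfl

theorem comp_key (cE : Computable (fun σ : List ℕ => endd o σ)) :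
    Computable (fun p : ℕ × List ℕ => (p.1, (endd o p.2).1 + 1)) :=
  Computable.pair Computable.fst (Computable.succ.comp (Computable.fst.comp
    (cE.comp Computable.snd)))

theorem exists_A (hC : CodesStatement) (hD : DecvStatement)
    {g : ℕ × ℕ → (ℕ → ℕ) → Data} (hg : RecF g) :
    ∃ A : ℕ × List ℕ → (ℕ → ℕ) → Bool, RecF A ∧ ∀ s σ V, (A (s, σ) V = true ↔
      VStr (g (s, (endd o σ).1 + 1) V).W o σ (endd o σ)) := by
  obtain ⟨d, hd, hd1⟩ := cop_vstr hC hD
  obtain ⟨-, -, -, -, -, -, -, -, -, cEnd, -⟩ := hC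
  refine ⟨fun p F => d (g (p.1, (endd o p.2).1 + 1) F, p.2) F, ?_, ?_⟩
  · refine RecF.bind (f := fun (p : ℕ × List ℕ) F => (g (p.1, (endd o p.2).1 + 1) F, p.2)) hd ?_
    exact (hg.comp₁ (f := fun p : ℕ × List ℕ => (p.1, (endd o p.2).1 + 1))
      (comp_key (comp_endO cEnd))).pair (RecF.of_computable Computable.snd)
  · intro s σ V
    exact (hd1 (g (s, (endd o σ).1 + 1) V, σ) V).symm

end Ltree

open Ltree

theorem ltree (hC : CodesStatement) (hB : BasicStatement) (hM : MonoStatement)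
    (hD : DecvStatement) (hCan : CanStatement) : LtreeStatement := by
  intro Φ Tr TU V δ u g h hg hgl
  have hle := le_iff hB hM h
  have hN := lim_N h
  have hC' := hC
  obtain ⟨-, -, -, -, -, -, -, -, -, -, -, c2, -⟩ := hC'
  refine ⟨?_, ⟨0, rfl, by simp⟩, ?_, ?_, hle, lim_dext hM h, fun n => (hN n).le⟩
  · -- computability
    obtain ⟨A, hA, hA1⟩ := exists_A hC hD hg
    refine ⟨A, hA, fun σ => ?_⟩
    obtain ⟨s0, hs0⟩ := hgl ((endd o σ).1 + 1)
    refine ⟨s0, fun s hs => ?_⟩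
    rw [hA1, hs0 s hs]
    refine (hle σ _ ?_).symm
    have := hN ((endd o σ).1 + 1)
    omega
  · -- initial segments
    rintro σ τ ⟨ρ, rfl⟩ ⟨n, hn⟩
    refine ⟨n, ?_, fun s hs => hn.2 s (List.mem_append_left _ hs)⟩
    exact ((c2 _ _ _ _).1 hn.1).1
  · -- no dead ends
    rintro σ ⟨n, hn⟩
    obtain ⟨hA, hlt⟩ := end_adm hB (h.wf n) hn
    obtain ⟨K, hK⟩ := hCan (δ n) (h.wf n) (h.full n) (endd o σ) hA hlt
    set m := max n K with hm
    have hr := h.root m
    have hd := lim_dext hM h n m (le_max_left _ _)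
    have hsz : K ≤ sz (u m) := (le_max_right n K).trans hr.2
    obtain ⟨s, hs, hs1, hs2, hs3⟩ := hK (δ (m + 1)) (h.wf _)
      (lim_dext hM h n (m + 1) ((le_max_left _ _).trans (Nat.le_succ _))) ((u m, []) : St)
      ⟨Nat.zero_le _, by simp⟩ (mem_pub h (Nat.lt_succ_self m)) (hd.N.trans hr.1)
      (by unfold rk; simpa using hsz) hsz
    refine ⟨s, m + 1, ?_⟩
    have h1 : VStr (δ (m + 1)).W o σ (endd o σ) :=
      vstr_mono hM h ((le_max_left _ _).trans (Nat.le_succ _)) hn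
    have h2 := vstr_single hs
    rw [hs1] at h2
    exact vstr_end hC (vstr_append hC h1 h2)

end Pool.Agent.Lib.MP_d48993_lc.Node
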