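import Pool.Agent.Lib.MP_d48993_lc.AE.Node.Interfaces

/-!
# Module CAN (helper84): canonical symbols into large public states
-/

set_option autoImplicit false

namespace Pool.Agent.Lib.MP_d48993_lc.Node

namespace Can

/-- the advice is defined on the states `x^0` of all roots below the bound -/
theorem adv_isSome {δ : Data} (hf : Full δ) {x : St} (hx : Adm (ow x 0)) (hN : x.1 < δ.N) :
    ∃ α, δ.W.adv (ow x 0) = some α := by
  by_cases hp : x.1 ∈ δ.pub
  · exact Option.isSome_iff_exists.1 (hf (ow x 0) hx ⟨x, rfl⟩ hp)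
  · change ∃ α, ((δ.2.2.2.1.find? (fun p => p.1 = ow x 0)).map Prod.snd).or
      (if (ow x 0).1 < δ.1 ∧ (ow x 0).1 ∉ δ.2.1 then some [] else none) = some α
    rw [if_pos (show (ow x 0).1 < δ.1 ∧ (ow x 0).1 ∉ δ.2.1 from ⟨hN, hp⟩)]
    cases (δ.2.2.2.1.find? (fun p => p.1 = ow x 0)).map Prod.snd with
    | none => exact ⟨[], rfl⟩
    | some a => exact ⟨a, rfl⟩

/-- the own states of `x` are admissible -/
theorem adm_ow {x : St} (hx : Adm x) (hr : 0 < rk x) {j : ℕ} (hj : j < sz x.1) :
    Adm (ow x j) := by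
  unfold rk at hr
  refine ⟨?_, ?_⟩
  · change (x.2 ++ [j]).length ≤ sz x.1
    rw [List.length_append, List.length_singleton]
    omega
  · intro b hb
    change b ∈ x.2 ++ [j] at hb
    rcases List.mem_append.1 hb with h | h
    · exact hx.2 b h
    · rw [List.mem_singleton] at h
      subst h
      exact hj

theorem rk_ow {x : St} (hr : 0 < rk x) (j : ℕ) : rk (ow x j) + 1 = rk x := by
  unfold rk at hr ⊢
  change sz x.1 - (x.2 ++ [j]).length + 1 = _
  rw [List.length_append, List.length_singleton]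
  omega

/-- the edge of a valid symbol -/
theorem vs_edge (hC : CodesStatement) {W : World} {s : ℕ} (h : VS W s) :
    W.edge (src s) (tgt s) := by
  cases h with
  | mk x t A E α c hedge =>
    have h1 := hC.1 x t A E
    have hs : src (sym x t A E) = x := by unfold src; rw [h1]
    have ht : tgt (sym x t A E) = t := by unfold tgt; rw [h1]
    rw [hs, ht]
    exact hedge

/-- the end of a valid string -/
theorem endd_prop (hC : CodesStatement) {δ : Data} : ∀ (τ : List ℕ) (y : St), Adm y →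
    y.1 < δ.N → VStr δ.W y τ (endd y τ) →
    endd y τ = y ∨ (Adm (endd y τ) ∧ y.1 < (endd y τ).1 ∧ (endd y τ).1 < δ.N) := by
  intro τ
  induction τ using List.reverseRecOn with
  | nil => intro y _ _ _; exact Or.inl rfl
  | append_singleton τ s ih =>
    intro y hy hN hv
    right
    have hs : VS δ.W s := hv.2 s (by simp)
    have he := vs_edge hC hs
    have hch := (hC.2.2.2.2.2.2.2.2.2.2.2.1 y τ [s] _).1 hv.1
    have hch2 : src s = endd y τ := hch.2.1
    have hend : endd y (τ ++ [s]) = tgt s := by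
      unfold endd
      simp
    have hf : Fit (src s) (tgt s) := he.1
    have hτ : VStr δ.W y τ (endd y τ) :=
      ⟨hch.1, fun s' hs' => hv.2 s' (List.mem_append_left _ hs')⟩
    rw [hend]
    refine ⟨hf.2.1, ?_, he.2.1⟩
    have hlt : (src s).1 < (tgt s).1 := hf.2.2.1
    rw [hch2] at hlt
    rcases ih y hy hN hτ with h | h
    · rw [h] at hlt
      exact hlt
    · exact lt_trans h.2.1 hlt

/-- the conclusion for `x` with the bound `K` -/
def Good (δ : Data) (x : St) (K : ℕ) : Prop :=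
  ∀ δ' : Data, Wf δ' → DExt δ δ' → ∀ t, Adm t → t.1 ∈ δ'.pub → δ.N ≤ t.1 → K ≤ rk t →
    K ≤ sz t.1 → ∃ s, VS δ'.W s ∧ src s = x ∧ tgt s = t ∧ Ex s = []

theorem good_mono {δ : Data} {x : St} {K K' : ℕ} (h : Good δ x K) (hK : K ≤ K') :
    Good δ x K' :=
  fun δ' hw he t ha hp hN h1 h2 => h δ' hw he t ha hp hN (le_trans hK h1) (le_trans hK h2)

/-- the case of rank `0` -/
theorem good_zero (hC : CodesStatement) {δ : Data} {x : St} (hx : Adm x) (hN : x.1 < δ.N)
    (hr : rk x = 0) : Good δ x (2 * sz x.1 + 1) := by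
  intro δ' hw he t ha hp hNt h1 h2
  have h0 := hC.1 x t [] []
  refine ⟨sym x t [] [], ?_, ?_, ?_, ?_⟩
  · refine VS.mk x t [] [] [] (fun _ => 0) ?_ (fun _ => ⟨rfl, rfl⟩) ?_ ?_ ?_ ?_ ?_ ?_ ?_ ?_ ?_
    · exact ⟨⟨hx, ha, lt_of_lt_of_le hN hNt, by omega, by omega⟩, hw.pub _ hp, Or.inl hp⟩
    · intro h; omega
    · intro h; omega
    · intro h; omega
    · intro h; omega
    · intro h; omega
    · intro h; omega
    · exact ⟨List.nodup_nil, fun p hp => absurd hp List.not_mem_nil⟩
    · intro p hp; exact absurd hp List.not_mem_nil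
    · intro p hp; exact absurd hp List.not_mem_nil
  · unfold src; rw [h0]
  · unfold tgt; rw [h0]
  · unfold Ex; rw [h0]

/-- the step -/
theorem good_step (hC : CodesStatement) (hM : MonoStatement) {δ : Data} (hwf : Wf δ)
    {x : St} (hx : Adm x) (hN : x.1 < δ.N) (hr : 0 < rk x) {α : List ℕ}
    (hα : δ.W.adv (ow x 0) = some α) {K : ℕ} (h1 : Good δ (endd (ow x 0) α) K)
    (h2 : ∀ j < sz x.1, Good δ (ow x j) K) : Good δ x (K + rk x + 2 * sz x.1 + 1) := by
  intro δ' hw he t ha hp hNt hk hk'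
  have hE : Ext δ.N δ.W δ'.W := hM.2.2.1 δ δ' hwf he
  have hlt : ∀ x t, δ.W.edge x t → t.1 < δ.N := fun x t h => h.2.1
  have hvα : VStr δ.W (ow x 0) α (endd (ow x 0) α) := hwf.inv.advValid _ _ hα
  have hrt : 0 < rk t := by omega
  have hex : ∀ i < 2 * sz x.1, ∃ s, VS δ'.W s ∧ Ex s = [] ∧ tgt s = ow t i ∧
      src s = if i < 2 then endd (ow x 0) α else ow x (i / 2) := by
    intro i hi
    have hadm : Adm (ow t i) := adm_ow ha hrt (by omega)
    have hrk := rk_ow hrt i
    by_cases hi2 : i < 2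
    · obtain ⟨s, hs1, hs2, hs3, hs4⟩ := h1 δ' hw he (ow t i) hadm hp hNt (by omega)
        (show K ≤ sz t.1 by omega)
      exact ⟨s, hs1, hs4, hs3, by rw [if_pos hi2]; exact hs2⟩
    · obtain ⟨s, hs1, hs2, hs3, hs4⟩ := h2 (i / 2) (by omega) δ' hw he (ow t i) hadm hp hNt
        (by omega) (show K ≤ sz t.1 by omega)
      exact ⟨s, hs1, hs4, hs3, by rw [if_neg hi2]; exact hs2⟩
  choose! c hc using hex
  have h0 := hC.1 x t ((List.range (2 * sz x.1)).map
        (fun i => if i < 2 then α ++ [c i] else [c i])) []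
  refine ⟨sym x t ((List.range (2 * sz x.1)).map
        (fun i => if i < 2 then α ++ [c i] else [c i])) [], ?_, ?_, ?_, ?_⟩
  · refine VS.mk x t _ [] α c ?_ ?_ ?_ ?_ ?_ ?_ ?_ ?_ ?_ ?_ ?_
    · exact ⟨⟨hx, ha, lt_of_lt_of_le hN hNt, by omega, by omega⟩, hw.pub _ hp, Or.inl hp⟩
    · intro h; omega
    · intro _; exact hE.adv _ _ hα
    · intro _ s hs; exact hM.1 δ.N δ.W δ'.W hE hlt s (hvα.2 s hs)
    · intro _; exact hvα.1
    · intro _; rfl
    · intro _ i hi; exact (hc i hi).1
    · intro _ i hi; exact (hc i hi).2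
    · exact ⟨List.nodup_nil, fun p hp => absurd hp List.not_mem_nil⟩
    · intro p hp; exact absurd hp List.not_mem_nil
    · intro p hp; exact absurd hp List.not_mem_nil
  · unfold src; rw [h0]
  · unfold tgt; rw [h0]
  · unfold Ex; rw [h0]

/-- a common bound -/
theorem common {P : ℕ → ℕ → Prop} (hP : ∀ j K K', P j K → K ≤ K' → P j K') :
    ∀ n : ℕ, (∀ j < n, ∃ K, P j K) → ∃ K, ∀ j < n, P j K := by
  intro n
  induction n with
  | zero => intro _; exact ⟨0, fun j hj => absurd hj (Nat.not_lt_zero j)⟩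
  | succ n ih =>
    intro h
    obtain ⟨K, hK⟩ := ih (fun j hj => h j (Nat.lt_succ_of_lt hj))
    obtain ⟨K', hK'⟩ := h n (Nat.lt_succ_self n)
    refine ⟨max K K', fun j hj => ?_⟩
    rcases Nat.lt_succ_iff_lt_or_eq.1 hj with h' | h'
    · exact hP j K _ (hK j h') (le_max_left _ _)
    · subst h'
      exact hP j K' _ hK' (le_max_right _ _)

theorem main (hC : CodesStatement) (hM : MonoStatement) {δ : Data} (hwf : Wf δ)
    (hf : Full δ) : ∀ d r : ℕ, ∀ x : St, Adm x → x.1 < δ.N → δ.N - x.1 = d → rk x = r →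
      ∃ K, Good δ x K := by
  intro d
  induction d using Nat.strong_induction_on with
  | _ d ihd =>
    intro r
    induction r with
    | zero =>
      intro x hx hN _ hr
      exact ⟨_, good_zero hC hx hN hr⟩
    | succ r ihr =>
      intro x hx hN hd hr
      have hr0 : 0 < rk x := by omega
      have hsz : 0 < sz x.1 := by unfold rk at hr; omega
      have ha0 : Adm (ow x 0) := adm_ow hx hr0 hsz
      obtain ⟨α, hα⟩ := adv_isSome hf ha0 hN
      have hv : VStr δ.W (ow x 0) α (endd (ow x 0) α) := hwf.inv.advValid _ _ hα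
      have hown : ∀ j < sz x.1, ∃ K, Good δ (ow x j) K := by
        intro j hj
        have := rk_ow hr0 j
        exact ihr (ow x j) (adm_ow hx hr0 hj) hN hd (by omega)
      have hend : ∃ K, Good δ (endd (ow x 0) α) K := by
        rcases endd_prop hC α (ow x 0) ha0 hN hv with h | ⟨h3, h4, h5⟩
        · rw [h]; exact hown 0 hsz
        · have h4' : x.1 < (endd (ow x 0) α).1 := h4
          exact ihd (δ.N - (endd (ow x 0) α).1) (by omega) _ _ h3 h5 rfl rfl
      obtain ⟨K1, hK1⟩ := hend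
      obtain ⟨K2, hK2⟩ := common (P := fun j K => Good δ (ow x j) K)
        (fun j K K' h hK => good_mono h hK) (sz x.1) hown
      exact ⟨_, good_step hC hM hwf hx hN hr0 hα (good_mono hK1 (le_max_left K1 K2))
        (fun j hj => good_mono (hK2 j hj) (le_max_right K1 K2))⟩

end Can

/-- Module CAN. -/
theorem can (hC : CodesStatement) (hM : MonoStatement) : CanStatement :=
  fun δ hwf hf x hx hN => Can.main hC hM hwf hf (δ.N - x.1) (rk x) x hx hN rfl rfl

end Pool.Agent.Lib.MP_d48993_lc.Node
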