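import Pool.Agent.Lib.MP_d48993_lc.AE.Node.Interfaces
import Pool.Agent.Lib.MP_d48993_lc.AE.Nodep
import Pool.Agent.Lib.MP_d48993_lc.Cond

/-!
# Project NODE (MP_d48993): module KILLS (helper39)
-/

set_option autoImplicit false

namespace Pool.Agent.Lib.MP_d48993_lc.Node.Kills

open MP_8c048d_lc (pre join RecF Sig Clo Cop Del length_pre pre_take pre_getElem? pre_congr
  join_even join_odd)

/-! ## The functionals -/

theorem jnV_mono (V : ℕ → ℕ) {σ τ : List ℕ} (h : σ <+: τ) : jnV V σ <+: jnV V τ := by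
  obtain ⟨r, rfl⟩ := h
  unfold jnV
  have e : pre (join V (fun i => (σ[i]?).getD 0)) (2 * σ.length) =
      pre (join V (fun i => ((σ ++ r)[i]?).getD 0)) (2 * σ.length) := by
    refine pre_congr fun i hi => ?_
    obtain ⟨j, rfl | rfl⟩ := Nat.even_or_odd' i
    · rw [join_even, join_even]
    · rw [join_odd, join_odd, List.getElem?_append_left (by omega)]
  rw [e]
  have e2 : pre (join V (fun i => ((σ ++ r)[i]?).getD 0)) (2 * σ.length) =
      (pre (join V (fun i => ((σ ++ r)[i]?).getD 0)) (2 * (σ ++ r).length)).take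
        (2 * σ.length) := by
    rw [pre_take, min_eq_left (by rw [List.length_append]; omega)]
  rw [e2]
  exact List.take_prefix _ _

theorem phi_mono {Φ : ℕ → List ℕ → List ℕ} (hΦ : IsEnum Φ) (V : ℕ → ℕ) (i : ℕ) {σ τ : List ℕ}
    (h : σ <+: τ) : phi Φ V i σ <+: phi Φ V i τ := hΦ.mono i _ _ (jnV_mono V h)

theorem ltPair : ComputablePred (fun p : ℕ × ℕ => p.1 < p.2) :=
  PrimrecPred.computablePred (PrimrecRel.comp Primrec.nat_lt Primrec.fst Primrec.snd)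

theorem prefPair : ComputablePred (fun p : List ℕ × List ℕ => p.1 <+: p.2) := ResM.prefPair

theorem cp_comp {α β : Type} [Primcodable α] [Primcodable β] {P : β → Prop}
    (h : ComputablePred P) {f : α → β} (hf : Computable f) : ComputablePred (fun a => P (f a)) :=
  ResM.cp_comp h hf

theorem cp_and {α : Type} [Primcodable α] {P Q : α → Prop}
    (h : ComputablePred P) (h' : ComputablePred Q) : ComputablePred (fun a => P a ∧ Q a) := by
  obtain ⟨_, h1⟩ := h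
  obtain ⟨_, h2⟩ := h'
  refine ⟨fun a => inferInstance, ?_⟩
  refine (Primrec.and.to_comp.comp h1 h2).of_eq fun a => ?_
  by_cases hp : P a <;> by_cases hq : Q a <;> simp [hp, hq]

/-- The path found by a search. -/
theorem path (hS : SearchStatement) {Φ : ℕ → List ℕ → List ℕ} {TU : List ℕ → Prop} {V : ℕ → ℕ}
    {i : ℕ} (hΦ : IsEnum Φ) (hPC : PC TU) {α : Type} [Primcodable α] (P : α → α → Prop)
    (hP : ComputablePred (fun p : α × α => P p.1 p.2)) (st : α → List ℕ) (hst : Computable st)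
    (I : α → Prop) (a₀ : α) (h0 : I a₀) (hpx : ∀ a a', P a a' → st a <+: st a')
    (hI : ∀ a a', I a → P a a' → I a')
    (hstep : ∀ a, I a → ∃ a', P a a' ∧ (phi Φ V i (st a)).length < (phi Φ V i (st a')).length)
    (hTU : ∀ a, I a → TU (phi Φ V i (st a))) : V ∈ Up {f | ∀ k, TU (pre f k)} := by
  have hphi : RecF (fun (a : α) (F : ℕ → ℕ) => phi Φ F i (st a)) :=
    AE.Nodep.phi_rec (f := fun _ : α => i) hΦ.comp (Computable.const i) hst
  have hlen : RecF (fun (a : α) (F : ℕ → ℕ) => (phi Φ F i (st a)).length) :=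
    RecF.comp Computable.list_length hphi
  have hcop : Cop (fun (p : α × α) F => P p.1 p.2 ∧
      (phi Φ F i (st p.1)).length < (phi Φ F i (st p.2)).length) := by
    refine Cop.and (Cop.of_computable hP) ?_
    exact Cop.of_recF (φ := fun (p : α × α) F =>
      ((phi Φ F i (st p.1)).length, (phi Φ F i (st p.2)).length)) (p := fun x : ℕ × ℕ => x.1 < x.2)
      ((hlen.comp₁ Computable.fst).pair (hlen.comp₁ Computable.snd)) ltPair
  obtain ⟨A, hA0, hA1, hA2⟩ := hS α (fun a a' F => P a a' ∧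
    (phi Φ F i (st a)).length < (phi Φ F i (st a')).length) hcop V I a₀ h0
    (fun a ha => by
      obtain ⟨a', h1, h2⟩ := hstep a ha
      exact ⟨a', h1, h2⟩)
    (fun a a' ha h => hI a a' ha h.1)
  have hinv : ∀ j, I (A j) := by
    intro j
    induction j with
    | zero => rw [hA0]; exact h0
    | succ j ih => exact hI _ _ ih (hA1 j).1
  have hchain : ∀ k j, k ≤ j → st (A k) <+: st (A j) := by
    intro k j hkj
    induction j, hkj using Nat.le_induction with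
    | base => exact List.prefix_rfl
    | succ j _ ih => exact ih.trans (hpx _ _ (hA1 j).1)
  have hlen' : ∀ j, j ≤ (phi Φ V i (st (A j))).length := by
    intro j
    induction j with
    | zero => exact Nat.zero_le _
    | succ j ih =>
      have := (hA1 j).2
      omega
  have hout : RecF (fun (q : ℕ × α) (F : ℕ → ℕ) => ((phi Φ F i (st q.2))[q.1]?).getD 0) := by
    have h1 : RecF (fun (q : ℕ × α) (F : ℕ → ℕ) => (q.1, phi Φ F i (st q.2))) :=
      (RecF.of_computable Computable.fst).pair (hphi.comp₁ Computable.snd)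
    exact RecF.comp (g := fun x : ℕ × List ℕ => (x.2[x.1]?).getD 0)
      (Computable.option_getD (Computable.list_getElem?.comp Computable.snd Computable.fst)
        (Computable.const 0)) h1
  refine ⟨fun j => ((phi Φ V i (st (A (j + 1))))[j]?).getD 0, ?_, hA2 _ hout⟩
  intro k
  have hpre : pre (fun j => ((phi Φ V i (st (A (j + 1))))[j]?).getD 0) k <+:
      phi Φ V i (st (A k)) := by
    rw [List.prefix_iff_eq_take, length_pre]
    refine List.ext_getElem? fun n => ?_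
    rw [pre_getElem?, List.getElem?_take]
    by_cases hn : n < k
    · rw [if_pos hn, if_pos hn]
      have h1 : phi Φ V i (st (A (n + 1))) <+: phi Φ V i (st (A k)) :=
        phi_mono hΦ V i (hchain (n + 1) k hn)
      have h2 : n < (phi Φ V i (st (A (n + 1)))).length := hlen' (n + 1)
      obtain ⟨t, ht⟩ := h1
      rw [← ht, List.getElem?_append_left h2, List.getElem?_eq_getElem h2]
      rfl
    · rw [if_neg hn, if_neg hn]
  exact hPC _ _ hpre (hTU _ (hinv k))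

/-! ## Chains -/

theorem vstr_prefix (hC : CodesStatement) {W : World} {x y : St} {σ τ : List ℕ}
    (h : VStr W x τ y) (hp : σ <+: τ) : VStr W x σ (endd x σ) := by
  obtain ⟨r, rfl⟩ := hp
  exact ⟨((hC.2.2.2.2.2.2.2.2.2.2.2.1 x σ r y).1 h.1).1, fun s hs => h.2 s
    (List.mem_append_left _ hs)⟩

theorem src_ge (hB : BasicStatement) {W : World} (hfit : ∀ x t, W.edge x t → Fit x t) :
    ∀ (τ : List ℕ) (x y : St), Ch x τ y → (∀ s ∈ τ, VS W s) → ∀ s ∈ τ, x.1 ≤ (src s).1 := by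
  intro τ
  induction τ with
  | nil => intro x y _ _ s hs; simp at hs
  | cons s₀ τ ih =>
    intro x y hc hv s hs
    obtain ⟨h1, h2⟩ := hc
    rcases List.mem_cons.1 hs with rfl | h3
    · rw [h1]
    · have h4 := ih (tgt s₀) y h2 (fun s' hs' => hv s' (List.mem_cons_of_mem _ hs')) s h3
      have h5 := (hfit _ _ ((hB W hfit).1 s₀ (hv s₀ List.mem_cons_self))).2.2.1
      rw [h1] at h5
      omega

/-- A symbol of a valid extension of `p` is in `p` or starts at a root above the end of `p`. -/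
theorem mem_ext (hC : CodesStatement) (hB : BasicStatement) {W : World}
    (hfit : ∀ x t, W.edge x t → Fit x t) {p p' : List ℕ} {y : St} (h : VStr W o p' y)
    (hp : p <+: p') {s : ℕ} (hs : s ∈ p') : s ∈ p ∨ (endd o p).1 ≤ (src s).1 := by
  obtain ⟨r, rfl⟩ := hp
  rcases List.mem_append.1 hs with h1 | h1
  · exact Or.inl h1
  · exact Or.inr (src_ge hB hfit r _ _ ((hC.2.2.2.2.2.2.2.2.2.2.2.1 o p r y).1 h.1).2
      (fun s' hs' => h.2 s' (List.mem_append_right _ hs')) s h1)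

theorem vstr_mono {W W' : World} (h : ∀ s, VS W s → VS W' s) {x y : St} {τ : List ℕ}
    (hv : VStr W x τ y) : VStr W' x τ y := ⟨hv.1, fun s hs => h s (hv.2 s hs)⟩

theorem cv_mono {W W' : World} {T : List ℕ → Prop} {c : Cnd3} (h : ∀ s, VS W s → VS W' s)
    (hc : CV W T c) : CV W' T c :=
  ⟨hc.root, hc.uniq, hc.mem, fun e he => vstr_mono h (hc.img e he),
    fun e he => ⟨(hc.stem e he).1, vstr_mono h (hc.stem e he).2⟩, hc.emb, hc.stemEmb, hc.parent,
    hc.ac⟩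

/-! ## Conditions -/

theorem ac_mono {S S' : List ℕ → Prop} (h : ∀ ν, S' ν → S ν) (hS : AC S) : AC S' :=
  fun ν ν' h1 h2 => hS ν ν' (h ν h1) (h ν' h2)

theorem cle_refl (T : List ℕ → Prop) (c : Cnd3) : CLe T c c := by
  refine ⟨List.prefix_rfl, fun e he => ⟨e.2.2, List.prefix_rfl, he⟩, ?_, ?_⟩
  · intro e he h
    exact absurd rfl (h e he)
  · intro n hn
    simp at hn

theorem cle_trans {W'' : World} {T : List ℕ → Prop} {c c' c'' : Cnd3}
    (hc'' : CV W'' T c'') (h : CLe T c c')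
    (h' : CLe T c' c'') : CLe T c c'' := by
  refine ⟨h.px.trans h'.px, ?_, ?_, ?_⟩
  · intro e he
    obtain ⟨p', h1, h2⟩ := h.old e he
    obtain ⟨p'', h3, h4⟩ := h'.old _ h2
    exact ⟨p'', h1.trans h3, h4⟩
  · intro e he hnew e₁ he₁ h1
    obtain ⟨p', h2, h3⟩ := h.old e₁ he₁
    by_cases hex : ∃ e₀ ∈ c'.2, e₀.1 = e.1
    · obtain ⟨e₀, h4, h5⟩ := hex
      obtain ⟨p'', h6, h7⟩ := h'.old e₀ h4
      have h8 := hc''.uniq _ h7 _ he h5
      have h9 := h.new e₀ h4 (fun e₂ h10 h11 => hnew e₂ h10 (h11.trans h5)) e₁ he₁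
        (by rw [h5]; exact h1)
      rw [← h8]
      exact h9
    · push Not at hex
      exact h2.trans (h'.new e he hex _ h3 h1)
  · intro n hn s ρ hF hT
    by_cases hex : n ∈ c'.1.drop c.1.length
    · obtain ⟨p, hp⟩ := h.fact n hex s ρ hF hT
      obtain ⟨p', -, h1⟩ := h'.old _ hp
      exact ⟨p', h1⟩
    · refine h'.fact n ?_ s ρ hF hT
      obtain ⟨r, hr⟩ := h'.px
      obtain ⟨r', hr'⟩ := h.px
      rw [← hr, ← hr', List.append_assoc, List.drop_left] at hn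
      rw [← hr', List.drop_left] at hex
      rcases List.mem_append.1 hn with h1 | h1
      · exact absurd h1 hex
      · rw [← hr, List.drop_left]
        exact h1

/-- Every stem of `c'` continues a stem of `c`; images of new nodes too. -/
theorem above {W W' : World} {T : List ℕ → Prop} {c c' : Cnd3} (hc : CV W T c)
    (hc' : CV W' T c') (h : CLe T c c') :
    ∀ (n : ℕ) (e' : List ℕ × List ℕ × List ℕ), e'.1.length ≤ n → e' ∈ c'.2 →
      (∀ e₀ ∈ c.2, e₀.1 ≠ e'.1) → ∃ e ∈ c.2, e.2.2 <+: e'.2.1 := by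
  intro n
  induction n with
  | zero =>
    intro e' h1 h2 h3
    obtain ⟨p, hp⟩ := hc.root
    have h4 : e'.1 = [] := List.length_eq_zero_iff.1 (by omega)
    exact absurd h4.symm (h3 _ hp)
  | succ n ih =>
    intro e' h1 h2 h3
    have h4 : e'.1 ≠ [] := by
      intro h5
      obtain ⟨p, hp⟩ := hc.root
      exact absurd h5.symm (h3 _ hp)
    obtain ⟨e'', h5, h6⟩ := hc'.parent e' h2 h4
    by_cases hex : ∃ e₀ ∈ c.2, e₀.1 = e''.1
    · obtain ⟨e₀, h7, h8⟩ := hex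
      exact ⟨e₀, h7, h.new e' h2 h3 e₀ h7 (h8.trans h6)⟩
    · push Not at hex
      obtain ⟨e, h7, h8⟩ := ih e'' (by rw [h6, List.length_dropLast]; omega) h5 hex
      refine ⟨e, h7, h8.trans ((hc'.emb e'' h5 e' h2).2 ?_)⟩
      rw [h6]
      exact List.dropLast_prefix _

theorem above_stem {W W' : World} {T : List ℕ → Prop} {c c' : Cnd3} (hc : CV W T c)
    (hc' : CV W' T c') (h : CLe T c c') (e' : List ℕ × List ℕ × List ℕ) (he' : e' ∈ c'.2) :
    ∃ e ∈ c.2, e.2.2 <+: e'.2.2 := by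
  by_cases hex : ∃ e₀ ∈ c.2, e₀.1 = e'.1
  · obtain ⟨e₀, h1, h2⟩ := hex
    obtain ⟨p', h3, h4⟩ := h.old e₀ h1
    have h5 := hc'.uniq _ h4 _ he' h2
    refine ⟨e₀, h1, ?_⟩
    rw [← h5]
    exact h3
  · push Not at hex
    obtain ⟨e, h1, h2⟩ := above hc hc' h _ e' le_rfl he' hex
    exact ⟨e, h1, h2.trans (hc'.stem e' he').1⟩

/-- The condition with the old stems. -/
theorem small {δ δ' δ'' : Data} {T : List ℕ → Prop} {c c' : Cnd3} (hc : CV δ.W T c)
    (hc' : CV δ'.W T c') (h : CLe T c c') (l : List (List ℕ × List ℕ × List ℕ))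
    (hl : ∀ e, e ∈ l ↔ e ∈ c.2 ∨ ∃ e' ∈ c'.2, (∀ e₀ ∈ c.2, e₀.1 ≠ e'.1) ∧
      e = (e'.1, e'.2.1, e'.2.1))
    (hC : CodesStatement) (hv : ∀ e ∈ l, VStr δ''.W o e.2.2 (endd o e.2.2)) :
    CV δ''.W T (c'.1, l) ∧ CLe T c (c'.1, l) := by
  -- every element of `l` comes from an element of `c'`
  have hfrom : ∀ e ∈ l, ∃ e' ∈ c'.2, e'.1 = e.1 ∧ e'.2.1 = e.2.1 ∧ e.2.2 <+: e'.2.2 ∧
      e.2.1 <+: e.2.2 := by
    intro e he
    rcases (hl e).1 he with h1 | ⟨e', h1, h2, rfl⟩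
    · obtain ⟨p', h3, h4⟩ := h.old e h1
      exact ⟨_, h4, rfl, rfl, h3, (hc.stem e h1).1⟩
    · exact ⟨e', h1, rfl, rfl, (hc'.stem e' h1).1, List.prefix_rfl⟩
  refine ⟨⟨?_, ?_, ?_, ?_, ?_, ?_, ?_, ?_, ?_⟩, ⟨h.px, ?_, ?_, ?_⟩⟩
  · obtain ⟨p, hp⟩ := hc.root
    exact ⟨p, (hl _).2 (Or.inl hp)⟩
  · intro e he e' he' heq
    rcases (hl e).1 he with h1 | ⟨e₁, h1, h2, rfl⟩
    · rcases (hl e').1 he' with h3 | ⟨e₂, h3, h4, rfl⟩
      · exact hc.uniq e h1 e' h3 heq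
      · exact absurd heq (h4 e h1)
    · rcases (hl e').1 he' with h3 | ⟨e₂, h3, h4, rfl⟩
      · exact absurd heq.symm (h2 e' h3)
      · rw [hc'.uniq e₁ h1 e₂ h3 heq]
  · intro e he
    obtain ⟨e', h1, h2, -⟩ := hfrom e he
    rw [← h2]
    exact hc'.mem e' h1
  · intro e he
    obtain ⟨e', h1, h2, h3, h4, h5⟩ := hfrom e he
    exact vstr_prefix hC (hv e he) h5
  · intro e he
    obtain ⟨e', h1, h2, h3, h4, h5⟩ := hfrom e he
    exact ⟨h5, hv e he⟩
  · intro e₁ he₁ e₂ he₂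
    obtain ⟨e₁', h1, h2, h3, h4, h5⟩ := hfrom e₁ he₁
    obtain ⟨e₂', k1, k2, k3, k4, k5⟩ := hfrom e₂ he₂
    rw [← h2, ← h3, ← k2, ← k3]
    exact hc'.emb e₁' h1 e₂' k1
  · intro e₁ he₁ e₂ he₂ hp
    obtain ⟨e₁', h1, h2, h3, h4, h5⟩ := hfrom e₁ he₁
    obtain ⟨e₂', k1, k2, k3, k4, k5⟩ := hfrom e₂ he₂
    rw [← h2, ← k2]
    refine hc'.stemEmb e₁' h1 e₂' k1 ?_
    rw [k3]
    exact hp.trans h4
  · intro e he hne
    rcases (hl e).1 he with h1 | ⟨e', h1, h2, rfl⟩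
    · obtain ⟨e', h3, h4⟩ := hc.parent e h1 hne
      exact ⟨e', (hl _).2 (Or.inl h3), h4⟩
    · obtain ⟨e'', h3, h4⟩ := hc'.parent e' h1 hne
      by_cases hex : ∃ e₀ ∈ c.2, e₀.1 = e''.1
      · obtain ⟨e₀, h5, h6⟩ := hex
        exact ⟨e₀, (hl _).2 (Or.inl h5), h6.trans h4⟩
      · push Not at hex
        exact ⟨_, (hl _).2 (Or.inr ⟨e'', h3, hex, rfl⟩), h4⟩
  · refine ac_mono ?_ hc'.ac
    rintro ν ⟨e, he, h1⟩
    obtain ⟨e', h2, h3, h4, h5, h6⟩ := hfrom e he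
    exact ⟨e', h2, h1.trans h5⟩
  · intro e he
    exact ⟨e.2.2, List.prefix_rfl, (hl _).2 (Or.inl he)⟩
  · intro e he hnew e₁ he₁ h1
    rcases (hl e).1 he with h2 | ⟨e', h2, h3, rfl⟩
    · exact absurd rfl (hnew e h2)
    · exact h.new e' h2 h3 e₁ he₁ h1
  · intro n hn s ρ hF hT
    obtain ⟨p, hp⟩ := h.fact n hn s ρ hF hT
    by_cases hex : ∃ e₀ ∈ c.2, e₀.1 = s
    · obtain ⟨e₀, h5, h6⟩ := hex
      obtain ⟨p', h7, h8⟩ := h.old e₀ h5
      have h9 := hc'.uniq _ h8 _ hp h6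
      refine ⟨e₀.2.2, (hl _).2 (Or.inl ?_)⟩
      have h10 : e₀.2.1 = ρ := congrArg (fun x => x.2.1) h9
      have h11 : (s, ρ, e₀.2.2) = e₀ := by rw [← h6, ← h10]
      rw [h11]
      exact h5
    · push Not at hex
      exact ⟨ρ, (hl _).2 (Or.inr ⟨(s, ρ, p), hp, hex, rfl⟩)⟩

/-! ## Finite data -/

theorem dfit (δ : Data) : ∀ x t, δ.W.edge x t → Fit x t := fun _ _ h => h.1

theorem dlt {δ : Data} {x t : St} (h : δ.W.edge x t) : t.1 < δ.N := h.2.1

theorem dext_refl (δ : Data) : DExt δ δ :=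
  ⟨le_rfl, ⟨[], by simp, by simp⟩, ⟨[], by simp, by simp⟩, ⟨[], by simp, by simp⟩,
    ⟨[], by simp, by simp⟩⟩

theorem c_endd (h2 : Computable (fun p : St × List ℕ => endd p.1 p.2)) (x : St)
    (h3 : Computable (fun p : Data × List ℕ => ((x, p.2) : St × List ℕ))) :
    Computable (fun p : Data × List ℕ => endd x p.2) :=
  (Computable.comp (f := fun p : St × List ℕ => endd p.1 p.2)
    (g := fun p : Data × List ℕ => ((x, p.2) : St × List ℕ)) h2 h3).of_eq fun _ => rfl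

theorem c_trip (x : St) (h4 : Computable (fun p : Data × List ℕ => endd x p.2)) :
    Computable (fun p : Data × List ℕ => ((x, p.2, endd x p.2) : St × List ℕ × St)) :=
  Computable.pair (Computable.const x) (Computable.pair Computable.snd h4)

theorem d_ch (h1 : ComputablePred (fun p : St × List ℕ × St => Ch p.1 p.2.1 p.2.2)) (x : St)
    (h5 : Computable (fun p : Data × List ℕ => ((x, p.2, endd x p.2) : St × List ℕ × St))) :
    ComputablePred (fun p : Data × List ℕ => Ch x p.2 (endd x p.2)) :=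
  cp_comp (P := fun p : St × List ℕ × St => Ch p.1 p.2.1 p.2.2) h1
    (f := fun p : Data × List ℕ => ((x, p.2, endd x p.2) : St × List ℕ × St)) h5

theorem d_vs (hdVS : ComputablePred (fun p : Data × ℕ => VS p.1.W p.2)) :
    ComputablePred (fun p : Data × List ℕ => ∀ s ∈ p.2, VS p.1.W s) := by
  have h7 : Computable (fun q : (Data × List ℕ) × ℕ => ((q.1.1, q.2) : Data × ℕ)) :=
    Computable.pair (Computable.fst.comp Computable.fst) Computable.snd
  have h8 : ComputablePred (fun q : (Data × List ℕ) × ℕ => VS q.1.1.W q.2) := cp_comp hdVS h7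
  have h9 : Cop (fun (p : Data × List ℕ) (_ : ℕ → ℕ) => ∀ s ∈ p.2, VS p.1.W s) :=
    Cop.ballL (P := fun (p : Data × List ℕ) (s : ℕ) (_ : ℕ → ℕ) => VS p.1.W s)
      (Cop.of_computable h8) Computable.snd
  exact Cop.toCP (P := fun p : Data × List ℕ => ∀ s ∈ p.2, VS p.1.W s) h9

theorem decVStr (hC : CodesStatement)
    (hdVS : ComputablePred (fun p : Data × ℕ => VS p.1.W p.2)) :
    ComputablePred (fun p : Data × List ℕ => VStr p.1.W o p.2 (endd o p.2)) := by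
  have h4 := c_endd hC.2.2.2.2.2.2.2.2.2.1 o
    (Computable.pair (Computable.const o) Computable.snd)
  exact cp_and (P := fun p : Data × List ℕ => Ch o p.2 (endd o p.2))
    (Q := fun p : Data × List ℕ => ∀ s ∈ p.2, VS p.1.W s)
    (d_ch hC.2.2.2.2.2.2.2.2.1 o (c_trip o h4)) (d_vs hdVS)

/-- The hypothesis of ADOPTB for the stems of a stronger condition. -/
theorem stem_src (hC : CodesStatement) (hB : BasicStatement) {δ δ' : Data} {T : List ℕ → Prop}
    {c c' : Cnd3} {u : ℕ} (hc : CV δ.W T c) (hu : ∀ e ∈ c.2, u ≤ (endd o e.2.2).1)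
    (hc' : CV δ'.W T c') (h : CLe T c c') (e' : List ℕ × List ℕ × List ℕ) (he' : e' ∈ c'.2) :
    ∀ s ∈ e'.2.2, ∀ v v', HE s v v' → δ.N ≤ v'.1 → u ≤ v.1 := by
  intro s hs v v' hHE hN
  obtain ⟨e, h1, h2⟩ := above_stem hc hc' h e' he'
  rcases mem_ext hC hB (dfit δ') (hc'.stem e' he').2 h2 hs with h3 | h3
  · have h4 := ((hB δ.W (dfit δ)).2.2.2.1 s ((hc.stem e h1).2.2 s h3) v v' hHE).1
    have h5 := dlt h4
    omega
  · have h4 := ((hB δ'.W (dfit δ')).2.2.2.1 s ((hc'.stem e' he').2.2 s hs) v v' hHE).2.1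
    have h5 := hu e h1
    omega

/-- The list of the condition with the old stems. -/
theorem exists_list (c c' : Cnd3) : ∃ l : List (List ℕ × List ℕ × List ℕ),
    ∀ e, e ∈ l ↔ e ∈ c.2 ∨ ∃ e' ∈ c'.2, (∀ e₀ ∈ c.2, e₀.1 ≠ e'.1) ∧
      e = (e'.1, e'.2.1, e'.2.1) := by
  classical
  refine ⟨c.2 ++ (c'.2.filter (fun e' => ∀ e₀ ∈ c.2, e₀.1 ≠ e'.1)).map
    (fun e' => (e'.1, e'.2.1, e'.2.1)), fun e => ?_⟩
  rw [List.mem_append, List.mem_map]
  refine or_congr Iff.rfl ⟨?_, ?_⟩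
  · rintro ⟨e', h1, h2⟩
    rw [List.mem_filter] at h1
    exact ⟨e', h1.1, by simpa using h1.2, h2.symm⟩
  · rintro ⟨e', h1, h2, h3⟩
    exact ⟨e', List.mem_filter.2 ⟨h1, by simpa using h2⟩, h3.symm⟩

end Pool.Agent.Lib.MP_d48993_lc.Node.Kills

namespace Pool.Agent.Lib.MP_d48993_lc.Node

open MP_8c048d_lc (pre join RecF Sig Clo Cop Del)
open Kills

/-- Module KILLS. -/
theorem kills (hA : AdoptBStatement) (hC : CodesStatement) (hB : BasicStatement)
    (hM : MonoStatement) (hDV : DecvStatement) (hDC : DeccStatement) : KillsStatement := by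
  have hS : SearchStatement := search red1 redMu
  intro Φ TU T V i hΦ hTUc hTU hV hTc hT δ u hWf hFull hu
  obtain ⟨hdVS, hdHE, hdIn, hdWf, hdFull, hdExt⟩ := hDV
  obtain ⟨hdCV, hdCLe, hdKE⟩ := hDC (fun _ => T) (cp_comp hTc Computable.snd)
  have htrans := hM.2.2.2.1
  refine ⟨fun c hc hcu => ⟨?_, ?_⟩, ?_⟩
  · -- kill
    by_contra hcon
    push Not at hcon
    obtain ⟨hno, δ', hWf', hFull', hext, c', hc', hle, hvs, s, hs, hsN, hKE⟩ := hcon
    obtain ⟨l, hl⟩ := exists_list c c'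
    obtain ⟨⟨δ'', hWf'', hFull'', hext'', hpub, hN, hval, hprv, hedge⟩, -⟩ :=
      hA δ δ' u (l.map (fun e => e.2.2)) hWf hFull hWf' hFull' hext hu (by
        intro ρ hρ
        obtain ⟨e, he, rfl⟩ := List.mem_map.1 hρ
        rcases (hl e).1 he with h1 | ⟨e', h1, h2, rfl⟩
        · obtain ⟨p', h3, h4⟩ := hle.old e h1
          refine ⟨vstr_prefix hC (hc'.stem _ h4).2 h3, fun s' hs' => ?_⟩
          exact stem_src hC hB hc hcu hc' hle _ h4 s' (h3.subset hs')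
        · refine ⟨hc'.img e' h1, fun s' hs' => ?_⟩
          exact stem_src hC hB hc hcu hc' hle _ h1 s' ((hc'.stem e' h1).1.subset hs'))
    obtain ⟨hc1, hle1⟩ := small (δ'' := δ'') hc hc' hle l hl hC
      (fun e he => hval _ (List.mem_map.2 ⟨e, he, rfl⟩))
    have h1 := hno δ'' (c'.1, l) hWf'' hFull'' hext'' hpub hprv hc1 hle1 s hs (by
      rw [hN]
      exact dlt ((hB δ'.W (dfit δ')).1 s (hvs.2 s hs)))
    obtain ⟨ρ, hρ, s', hs', hHE⟩ := hedge _ _ h1 hsN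
    obtain ⟨e, he, rfl⟩ := List.mem_map.1 hρ
    rcases (hl e).1 he with h2 | ⟨e', h2, h3, rfl⟩
    · have h3 := dlt ((hB δ.W (dfit δ)).2.2.2.1 s' ((hc.stem e h2).2.2 s' hs') _ _ hHE).1
      omega
    · exact hKE ⟨e', h2, s', hs', hHE⟩
  · -- killU
    by_contra hcon
    -- adoption of a stronger condition
    have hadopt : ∀ (δ' : Data) (c' : Cnd3), Wf δ' → Full δ' → DExt δ δ' → CV δ'.W T c' →
        CLe T c c' → ∃ δ'' : Data, Wf δ'' ∧ Full δ'' ∧ DExt δ δ'' ∧ δ''.pub = δ.pub ∧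
          (∀ p ∈ δ''.prv, p ∉ δ.prv → u ≤ p.1.1) ∧ CV δ''.W T c' ∧
          ∀ δ₃ : Data, Wf δ₃ → Full δ₃ → DExt δ'' δ₃ → ∃ δ₄ : Data, Wf δ₄ ∧ Full δ₄ ∧
            DExt δ' δ₄ ∧ ∀ s, VS δ₃.W s → VS δ₄.W s := by
      intro δ' c' hWf' hFull' hext hc' hle
      obtain ⟨-, δ'', hWf'', hFull'', hext'', hpub, hN, hval, hprv, hmerge⟩ :=
        hA δ δ' u (c'.2.map (fun e => e.2.2)) hWf hFull hWf' hFull' hext hu (by
          intro ρ hρ
          obtain ⟨e, he, rfl⟩ := List.mem_map.1 hρ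
          exact ⟨(hc'.stem e he).2, stem_src hC hB hc hcu hc' hle _ he⟩)
      have hv : ∀ e ∈ c'.2, VStr δ''.W o e.2.2 (endd o e.2.2) :=
        fun e he => hval _ (List.mem_map.2 ⟨e, he, rfl⟩)
      exact ⟨δ'', hWf'', hFull'', hext'', hpub, hprv,
        ⟨hc'.root, hc'.uniq, hc'.mem, fun e he => vstr_prefix hC (hv e he) (hc'.stem e he).1,
          fun e he => ⟨(hc'.stem e he).1, hv e he⟩, hc'.emb, hc'.stemEmb, hc'.parent, hc'.ac⟩,
        hmerge⟩
    refine hV (path hS (V := V) (i := i) hΦ hTU (α := Data × Cnd3)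
      (fun a a' => ((Wf a'.1 ∧ Full a'.1) ∧ DExt a.1 a'.1) ∧ CV a'.1.W T a'.2 ∧ CLe T a.2 a'.2)
      ?_ (fun a => a.2.1) (Computable.fst.comp Computable.snd)
      (fun a => ((Wf a.1 ∧ Full a.1) ∧ DExt δ a.1) ∧ CV a.1.W T a.2 ∧ CLe T c a.2) (δ, c)
      ?_ ?_ ?_ ?_ ?_)
    · refine cp_and (cp_and (cp_and ?_ ?_) ?_) (cp_and ?_ ?_)
      · exact cp_comp hdWf (Computable.fst.comp Computable.snd)
      · exact cp_comp hdFull (Computable.fst.comp Computable.snd)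
      · exact cp_comp hdExt (Computable.pair (Computable.fst.comp Computable.fst)
          (Computable.fst.comp Computable.snd))
      · exact cp_comp hdCV (f := fun p : (Data × Cnd3) × Data × Cnd3 => (p.2.1, 0, p.2.2))
          (Computable.pair (Computable.fst.comp Computable.snd)
            (Computable.pair (Computable.const 0) (Computable.snd.comp Computable.snd)))
      · exact cp_comp hdCLe (f := fun p : (Data × Cnd3) × Data × Cnd3 => (0, p.1.2, p.2.2))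
          (Computable.pair (Computable.const 0) (Computable.pair
            (Computable.snd.comp Computable.fst) (Computable.snd.comp Computable.snd)))
    · refine ⟨⟨⟨hWf, hFull⟩, ?_⟩, hc, cle_refl T c⟩
      exact dext_refl δ
    · rintro ⟨δ₁, c₁⟩ ⟨δ₂, c₂⟩ h
      exact h.2.2.px
    · rintro ⟨δ₁, c₁⟩ ⟨δ₂, c₂⟩ ⟨⟨⟨h1, h2⟩, h3⟩, h4, h5⟩ ⟨⟨⟨k1, k2⟩, k3⟩, k4, k5⟩
      exact ⟨⟨⟨k1, k2⟩, htrans _ _ _ h3 hWf h1 k3⟩, k4, cle_trans k4 h5 k5⟩
    · rintro ⟨δ₁, c₁⟩ ⟨⟨⟨h1, h2⟩, h3⟩, h4, h5⟩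
      by_contra hno
      obtain ⟨δ'', hWf'', hFull'', hext'', hpub, hprv, hc'', hmerge⟩ := hadopt δ₁ c₁ h1 h2 h3 h4 h5
      refine hcon ⟨δ'', c₁, hWf'', hFull'', hext'', hpub, hprv, hc'', h5, Or.inr ?_⟩
      intro δ₃ hWf₃ hFull₃ hext₃ c₃ hc₃ hle₃
      obtain ⟨δ₄, hWf₄, hFull₄, hext₄, hvs⟩ := hmerge δ₃ hWf₃ hFull₃ hext₃
      by_contra hlt
      exact hno ⟨(δ₄, c₃), ⟨⟨⟨hWf₄, hFull₄⟩, hext₄⟩, cv_mono hvs hc₃, hle₃⟩, not_le.1 hlt⟩
    · rintro ⟨δ₁, c₁⟩ ⟨⟨⟨h1, h2⟩, h3⟩, h4, h5⟩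
      by_contra hno
      obtain ⟨δ'', hWf'', hFull'', hext'', hpub, hprv, hc'', hmerge⟩ := hadopt δ₁ c₁ h1 h2 h3 h4 h5
      exact hcon ⟨δ'', c₁, hWf'', hFull'', hext'', hpub, hprv, hc'', h5, Or.inl hno⟩
  · -- killN
    intro ρ hρ hρu
    by_contra hcon
    have hadopt : ∀ (δ' : Data) (ρ' : List ℕ), Wf δ' → Full δ' → DExt δ δ' → ρ <+: ρ' →
        VStr δ'.W o ρ' (endd o ρ') → ∃ δ'' : Data, Wf δ'' ∧ Full δ'' ∧ DExt δ δ'' ∧
          δ''.pub = δ.pub ∧ (∀ p ∈ δ''.prv, p ∉ δ.prv → u ≤ p.1.1) ∧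
          VStr δ''.W o ρ' (endd o ρ') ∧
          ∀ δ₃ : Data, Wf δ₃ → Full δ₃ → DExt δ'' δ₃ → ∃ δ₄ : Data, Wf δ₄ ∧ Full δ₄ ∧
            DExt δ' δ₄ ∧ ∀ s, VS δ₃.W s → VS δ₄.W s := by
      intro δ' ρ' hWf' hFull' hext hle hv
      obtain ⟨-, δ'', hWf'', hFull'', hext'', hpub, hN, hval, hprv, hmerge⟩ :=
        hA δ δ' u [ρ'] hWf hFull hWf' hFull' hext hu (by
          intro ρ'' hρ''
          rw [List.mem_singleton] at hρ''
          subst hρ''
          refine ⟨hv, fun s hs v v' hHE hN => ?_⟩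
          rcases mem_ext hC hB (dfit δ') hv hle hs with h3 | h3
          · have h4 := dlt ((hB δ.W (dfit δ)).2.2.2.1 s (hρ.2 s h3) v v' hHE).1
            omega
          · have h4 := ((hB δ'.W (dfit δ')).2.2.2.1 s (hv.2 s hs) v v' hHE).2.1
            omega)
      exact ⟨δ'', hWf'', hFull'', hext'', hpub, hprv, hval _ (List.mem_singleton.2 rfl), hmerge⟩
    have hdV : ComputablePred (fun p : Data × List ℕ => VStr p.1.W o p.2 (endd o p.2)) := by
      exact decVStr hC hdVS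
    refine hV (path hS (V := V) (i := i) hΦ hTU (α := Data × List ℕ)
      (fun a a' => ((Wf a'.1 ∧ Full a'.1) ∧ DExt a.1 a'.1) ∧
        VStr a'.1.W o a'.2 (endd o a'.2) ∧ a.2 <+: a'.2)
      ?_ (fun a => a.2) Computable.snd
      (fun a => ((Wf a.1 ∧ Full a.1) ∧ DExt δ a.1) ∧ VStr a.1.W o a.2 (endd o a.2) ∧ ρ <+: a.2)
      (δ, ρ) ?_ ?_ ?_ ?_ ?_)
    · refine cp_and (cp_and (cp_and ?_ ?_) ?_) (cp_and ?_ ?_)
      · exact cp_comp hdWf (Computable.fst.comp Computable.snd)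
      · exact cp_comp hdFull (Computable.fst.comp Computable.snd)
      · exact cp_comp hdExt (Computable.pair (Computable.fst.comp Computable.fst)
          (Computable.fst.comp Computable.snd))
      · exact cp_comp hdV Computable.snd
      · exact cp_comp prefPair (Computable.pair (Computable.snd.comp Computable.fst)
          (Computable.snd.comp Computable.snd))
    · exact ⟨⟨⟨hWf, hFull⟩, dext_refl δ⟩, hρ, List.prefix_rfl⟩
    · rintro ⟨δ₁, c₁⟩ ⟨δ₂, c₂⟩ h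
      exact h.2.2
    · rintro ⟨δ₁, c₁⟩ ⟨δ₂, c₂⟩ ⟨⟨⟨h1, h2⟩, h3⟩, h4, h5⟩ ⟨⟨⟨k1, k2⟩, k3⟩, k4, k5⟩
      exact ⟨⟨⟨k1, k2⟩, htrans _ _ _ h3 hWf h1 k3⟩, k4, h5.trans k5⟩
    · rintro ⟨δ₁, c₁⟩ ⟨⟨⟨h1, h2⟩, h3⟩, h4, h5⟩
      by_contra hno
      obtain ⟨δ'', hWf'', hFull'', hext'', hpub, hprv, hc'', hmerge⟩ := hadopt δ₁ c₁ h1 h2 h3 h5 h4
      refine hcon ⟨δ'', c₁, hWf'', hFull'', hext'', hpub, hprv, h5, hc'', Or.inr ?_⟩
      intro δ₃ hWf₃ hFull₃ hext₃ c₃ hle₃ hc₃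
      obtain ⟨δ₄, hWf₄, hFull₄, hext₄, hvs⟩ := hmerge δ₃ hWf₃ hFull₃ hext₃
      by_contra hlt
      exact hno ⟨(δ₄, c₃), ⟨⟨⟨hWf₄, hFull₄⟩, hext₄⟩, vstr_mono hvs hc₃, hle₃⟩, not_le.1 hlt⟩
    · rintro ⟨δ₁, c₁⟩ ⟨⟨⟨h1, h2⟩, h3⟩, h4, h5⟩
      by_contra hno
      obtain ⟨δ'', hWf'', hFull'', hext'', hpub, hprv, hc'', hmerge⟩ := hadopt δ₁ c₁ h1 h2 h3 h5 h4
      exact hcon ⟨δ'', c₁, hWf'', hFull'', hext'', hpub, hprv, h5, hc'', Or.inl hno⟩

end Pool.Agent.Lib.MP_d48993_lc.Node
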