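import Pool.Agent.Lib.MP_d48993_lc.AE.Node.Interfaces

/-!
# Project NODE (MP_d48993), module LIMC: least choices for a `Π⁰₁(V)` relation in the limit
-/

set_option autoImplicit false

namespace Pool.Agent.Lib.MP_d48993_lc.Node

open MP_8c048d_lc (pre join RecF Sig Clo Cop Del)

namespace Limc

variable {α : Type} [Primcodable α]

/-- The first good code below `m`. -/
def fst (E : ℕ → Option α) (m : ℕ) : Option α :=
  Nat.rec (motive := fun _ => Option α) none (fun j r => bif r.isSome then r else E j) m

theorem fst_none {E : ℕ → Option α} {m : ℕ} (h : ∀ j < m, E j = none) : fst E m = none := by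
  induction m with
  | zero => rfl
  | succ m ih =>
    have h1 := ih (fun j hj => h j (by omega))
    change (bif (fst E m).isSome then fst E m else E m) = none
    rw [h1, h m (by omega)]
    rfl

theorem fst_some {E : ℕ → Option α} {j m : ℕ} {a : α} (h : ∀ i < j, E i = none)
    (hj : E j = some a) (hm : j < m) : fst E m = some a := by
  induction m with
  | zero => omega
  | succ m ih =>
    change (bif (fst E m).isSome then fst E m else E m) = some a
    by_cases h1 : j < m
    · rw [ih h1]
      rfl
    · have : j = m := by omega
      subst this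
      rw [fst_none h, hj]
      rfl

theorem recF_fst {β : Type} [Primcodable β] {E : β × ℕ → (ℕ → ℕ) → Option α} (hE : RecF E)
    {f : β → ℕ} (hf : Computable f) : RecF (fun b F => fst (fun j => E (b, j) F) (f b)) := by
  have e1 : RecF (fun (x : β × ℕ × Option α) F => bif x.2.2.isSome then x.2.2 else
      E (x.1, x.2.1) F) := by
    refine RecF.cond (RecF.of_computable ?_) (RecF.of_computable ?_) (hE.comp₁ ?_)
    · exact (Primrec.option_isSome.to_comp).comp (Computable.snd.comp Computable.snd)
    · exact Computable.snd.comp Computable.snd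
    · exact Computable.pair Computable.fst (Computable.fst.comp Computable.snd)
  have e2 := RecF.natRec (g := fun (_ : β) (_ : ℕ → ℕ) => (none : Option α))
    (RecF.of_computable (Computable.const none)) e1
  exact e2.comp₁ (f := fun b : β => (b, f b)) (Computable.pair Computable.id hf)

end Limc

open Limc in
theorem limcB : LimcStatement := by
  intro α _ d I a₀ V hd h0 hex hI
  classical
  -- the test of a code
  obtain ⟨t, ht, ht'⟩ : ∃ t : (ℕ × ℕ × α) × α → (ℕ → ℕ) → Bool, RecF t ∧
      ∀ s n a b F, (t ((s, n, a), b) F = true ↔ ∀ k < s + 1, d (k, n, a, b) F = true) := by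
    have h1 : Cop (fun (p : ((ℕ × ℕ × α) × α) × ℕ) F =>
        d (p.2, p.1.1.2.1, p.1.1.2.2, p.1.2) F = true) := by
      refine ⟨_, hd.comp₁ (f := fun p : ((ℕ × ℕ × α) × α) × ℕ =>
        (p.2, p.1.1.2.1, p.1.1.2.2, p.1.2)) ?_, fun a F => Iff.rfl⟩
      exact Computable.pair Computable.snd (Computable.pair
        (Computable.fst.comp (Computable.snd.comp (Computable.fst.comp Computable.fst)))
        (Computable.pair
          (Computable.snd.comp (Computable.snd.comp (Computable.fst.comp Computable.fst)))
          (Computable.snd.comp Computable.fst)))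
    obtain ⟨t, ht, ht'⟩ := Cop.ball (P := fun (p : (ℕ × ℕ × α) × α) k F =>
      d (k, p.1.2.1, p.1.2.2, p.2) F = true) h1 (f := fun p => p.1.1 + 1)
      (Computable.succ.comp (Computable.fst.comp Computable.fst))
    exact ⟨t, ht, fun s n a b F => (ht' ((s, n, a), b) F).symm⟩
  let E : (ℕ × ℕ × α) × ℕ → (ℕ → ℕ) → Option α := fun p F =>
    ((Encodable.decode p.2 : Option α).elim none
      fun b => bif t (p.1, b) F then some b else none)
  have hE : RecF E := by
    have h1 : RecF (fun (p : (ℕ × ℕ × α) × α) F => bif t p F then some p.2 else none) :=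
      RecF.cond ht (RecF.of_computable (Computable.option_some.comp Computable.snd))
        (RecF.of_computable (Computable.const none))
    exact RecF.decode h1 none
  let st : ℕ × ℕ × α → (ℕ → ℕ) → α := fun p F => (fst (fun j => E (p, j) F) (p.1 + 1)).getD p.2.2
  have hst : RecF st := by
    have h1 := recF_fst hE (f := fun p : ℕ × ℕ × α => p.1 + 1) (Computable.succ.comp Computable.fst)
    exact (h1.pair (RecF.of_computable (f := fun p : ℕ × ℕ × α => p.2.2)
      (Computable.snd.comp Computable.snd))).comp (g := fun x : Option α × α => x.1.getD x.2)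
      (Primrec.option_getD.to_comp.comp Computable.fst Computable.snd)
  let g : ℕ × ℕ → (ℕ → ℕ) → α := fun p F =>
    Nat.rec (motive := fun _ => α) a₀ (fun n r => st (p.1, n, r) F) p.2
  have hg : RecF g := by
    have h1 : RecF (fun (x : ℕ × ℕ × α) F => st (x.1, x.2.1, x.2.2) F) := hst
    exact RecF.natRec (g := fun (_ : ℕ) (_ : ℕ → ℕ) => a₀) (RecF.of_computable (Computable.const a₀))
      h1
  -- the least choice
  have key : ∀ n (a : α), I a → ∃ a', (∀ k, d (k, n, a, a') V = true) ∧
      ∃ s0, ∀ s ≥ s0, st (s, n, a) V = a' := by
    intro n a ha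
    have hp : ∃ j, ∃ a', (Encodable.decode j : Option α) = some a' ∧
        ∀ k, d (k, n, a, a') V = true := by
      obtain ⟨a', h⟩ := hex n a ha
      exact ⟨Encodable.encode a', a', Encodable.encodek _, h⟩
    obtain ⟨a', hj1, hj2⟩ := Nat.find_spec hp
    have hbad : ∀ i < Nat.find hp, ∃ k, ∀ s ≥ k, E ((s, n, a), i) V = none := by
      intro i hi
      have h1 := Nat.find_min hp hi
      cases hdec : (Encodable.decode i : Option α) with
      | none =>
        refine ⟨0, fun s _ => ?_⟩
        change ((Encodable.decode i : Option α).elim none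
          fun b => bif t ((s, n, a), b) V then some b else none) = none
        rw [hdec]
        rfl
      | some b =>
        have h2 : ∃ k, ¬ d (k, n, a, b) V = true := by
          by_contra h3
          push Not at h3
          exact h1 ⟨b, hdec, fun k => by simpa using h3 k⟩
        obtain ⟨k, hk⟩ := h2
        refine ⟨k, fun s hs => ?_⟩
        change ((Encodable.decode i : Option α).elim none
          fun b => bif t ((s, n, a), b) V then some b else none) = none
        rw [hdec]
        have h3 : ¬ t ((s, n, a), b) V = true := fun h4 => hk ((ht' _ _ _ _ _).1 h4 k (by omega))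
        simp only [Bool.not_eq_true] at h3
        simp [h3]
    choose! K hK using hbad
    refine ⟨a', hj2, Nat.find hp + ∑ i ∈ Finset.range (Nat.find hp), K i, fun s hs => ?_⟩
    have h1 : ∀ i < Nat.find hp, E ((s, n, a), i) V = none := by
      intro i hi
      refine hK i hi s ?_
      have := Finset.single_le_sum (f := K) (fun _ _ => Nat.zero_le _) (Finset.mem_range.2 hi)
      omega
    have h2 : E ((s, n, a), Nat.find hp) V = some a' := by
      change ((Encodable.decode (Nat.find hp) : Option α).elim none
        fun b => bif t ((s, n, a), b) V then some b else none) = some a'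
      rw [hj1]
      have h3 : t ((s, n, a), a') V = true := (ht' _ _ _ _ _).2 fun k _ => hj2 k
      simp [h3]
    change (fst (fun j => E ((s, n, a), j) V) (s + 1)).getD a = a'
    rw [fst_some h1 h2 (by omega)]
    rfl
  choose! f hf using key
  let A : ℕ → α := fun n => Nat.rec (motive := fun _ => α) a₀ (fun n r => f n r) n
  have hIA : ∀ n, I (A n) := by
    intro n
    induction n with
    | zero => exact h0
    | succ n ih => exact hI n (A n) _ ih (hf n (A n) ih).1
  refine ⟨A, g, hg, rfl, fun n => ⟨hIA n, (hf n (A n) (hIA n)).1⟩, fun n => ?_⟩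
  induction n with
  | zero => exact ⟨0, fun s _ => rfl⟩
  | succ n ih =>
    obtain ⟨s0, h1⟩ := ih
    obtain ⟨s1, h2⟩ := (hf n (A n) (hIA n)).2
    refine ⟨s0 + s1, fun s hs => ?_⟩
    change st (s, n, g (s, n) V) V = f n (A n)
    rw [h1 s (by omega)]
    exact h2 s (by omega)

end Pool.Agent.Lib.MP_d48993_lc.Node
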