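import Pool.Agent.Lib.MP_d48993_lc.AE.Node.ProcDefs

/-!
# Module PROC: basic lemmas (helper3)
-/

set_option autoImplicit false

namespace Pool.Agent.Lib.MP_d48993_lc.Node.Proc

open MP_8c048d_lc (pre join RecF Sig Clo Cop Del)

/-! ## Chains -/

theorem endd_nil (x : St) : endd x [] = x := rfl

theorem endd_append (x : St) (σ τ : List ℕ) : endd x (σ ++ τ) = endd (endd x σ) τ := by
  unfold endd
  rw [List.getLast?_append]
  cases τ.getLast? <;> rfl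

theorem endd_snoc (x : St) (σ : List ℕ) (s : ℕ) : endd x (σ ++ [s]) = tgt s := by
  rw [endd_append]; rfl

theorem ch_end {x : St} {τ : List ℕ} {y : St} (h : Ch x τ y) : y = endd x τ := by
  induction τ generalizing x with
  | nil => exact h.symm
  | cons s τ ih =>
    rw [ih h.2]
    unfold endd
    rw [List.getLast?_cons]
    cases τ.getLast? <;> rfl

theorem ch_append {x : St} {σ τ : List ℕ} {z : St} :
    Ch x (σ ++ τ) z ↔ Ch x σ (endd x σ) ∧ Ch (endd x σ) τ z := by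
  induction σ generalizing x with
  | nil => exact ⟨fun h => ⟨rfl, h⟩, fun h => h.2⟩
  | cons s σ ih =>
    have e : endd x (s :: σ) = endd (tgt s) σ := by
      rw [show s :: σ = [s] ++ σ from rfl, endd_append]; rfl
    constructor
    · intro h
      have h2 := ih.1 h.2
      exact ⟨⟨h.1, by rw [e]; exact h2.1⟩, by rw [e]; exact h2.2⟩
    · rintro ⟨h1, h2⟩
      rw [e] at h1 h2
      exact ⟨h1.1, ih.2 ⟨h1.2, h2⟩⟩

theorem ch_pfx {x : St} {σ τ : List ℕ} (h : Ch x τ (endd x τ)) (hp : σ <+: τ) :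
    Ch x σ (endd x σ) := by
  obtain ⟨ρ, rfl⟩ := hp
  exact (ch_append.1 h).1

theorem ch_mem {x : St} {τ : List ℕ} {z : St} (h : Ch x τ z) (j : ℕ) (hj : j + 1 < τ.length) :
    src (τ.getD (j + 1) 0) = tgt (τ.getD j 0) := by
  induction τ generalizing x j with
  | nil => simp at hj
  | cons s τ ih =>
    cases j with
    | zero =>
      cases τ with
      | nil => simp at hj
      | cons s' τ => exact h.2.1
    | succ j =>
      have := ih h.2 j (by simpa using hj)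
      simpa using this

theorem vstr_pfx {W : World} {σ τ : List ℕ} (h : VStr W o τ (endd o τ)) (hp : σ <+: τ) :
    VStr W o σ (endd o σ) :=
  ⟨ch_pfx h.1 hp, fun s hs => h.2 s (hp.subset hs)⟩

/-- The root of a symbol of a valid string is at most the root of the end. -/
theorem vstr_root (hB : BasicStatement) {W : World} (hF : ∀ x t, W.edge x t → Fit x t)
    {σ : List ℕ} {x z : St} (h : VStr W x σ z) : x.1 + σ.length ≤ z.1 ∧
      ∀ s ∈ σ, (tgt s).1 ≤ z.1 ∧ x.1 ≤ (src s).1 := by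
  induction σ generalizing x with
  | nil =>
    have h1 : x = z := h.1
    subst h1
    exact ⟨le_refl _, fun s hs => absurd hs (List.not_mem_nil)⟩
  | cons s σ ih =>
    have h1 := ih ⟨h.1.2, fun s' hs' => h.2 s' (List.mem_cons_of_mem _ hs')⟩
    have h2 : (src s).1 < (tgt s).1 := (hF _ _ ((hB W hF).1 s (h.2 s List.mem_cons_self))).2.2.1
    have h3 : src s = x := h.1.1
    rw [h3] at h2
    refine ⟨?_, fun s' hs' => ?_⟩
    · simp only [List.length_cons]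
      omega
    · rcases List.mem_cons.1 hs' with rfl | h4
      · exact ⟨by have := h1.1; omega, by rw [h3]⟩
      · exact ⟨(h1.2 s' h4).1, by have := (h1.2 s' h4).2; omega⟩

theorem wfit {δ : Data} (h : Wf δ) : ∀ x t, δ.W.edge x t → Fit x t := h.inv.fit

/-! ## The limit -/

section Lim

variable {δ : ℕ → Data} {u : ℕ → ℕ}

theorem vs_mono (hM : MonoStatement) (hL : LimD δ u) {m n : ℕ} (h : m ≤ n) {s : ℕ}
    (hs : VS (δ m).W s) : VS (δ n).W s :=
  hM.1 (δ m).N _ _ (hM.2.2.1 _ _ (hL.wf m) (hL.ext m n h)) (fun _ _ h => h.2.1) s hs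

/-- Finitely many valid symbols are valid from some stage on. -/
theorem vs_list (hM : MonoStatement) (hL : LimD δ u) (n₀ : ℕ) (l : List ℕ)
    (h : ∀ s ∈ l, VSL δ s) : ∃ m, n₀ ≤ m ∧ ∀ n, m ≤ n → ∀ s ∈ l, VS (δ n).W s := by
  induction l with
  | nil => exact ⟨n₀, le_refl _, fun _ _ s hs => absurd hs (List.not_mem_nil)⟩
  | cons a l ih =>
    obtain ⟨m, hm, hm2⟩ := ih fun s hs => h s (List.mem_cons_of_mem _ hs)
    obtain ⟨k, hk⟩ := h a List.mem_cons_self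
    refine ⟨max m k, hm.trans (le_max_left _ _), fun n hn s hs => ?_⟩
    rcases List.mem_cons.1 hs with rfl | h1
    · exact vs_mono hM hL ((le_max_right _ _).trans hn) hk
    · exact hm2 n ((le_max_left _ _).trans hn) s h1

/-- Finitely many strings with valid symbols are valid from some stage on. -/
theorem vs_strs (hM : MonoStatement) (hL : LimD δ u) (n₀ : ℕ) (l : List (List ℕ))
    (h : ∀ p ∈ l, ∀ s ∈ p, VSL δ s) :
    ∃ m, n₀ ≤ m ∧ ∀ n, m ≤ n → ∀ p ∈ l, ∀ s ∈ p, VS (δ n).W s := by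
  obtain ⟨m, h1, h2⟩ := vs_list hM hL n₀ l.flatten fun s hs => by
    obtain ⟨p, hp, hs⟩ := List.mem_flatten.1 hs
    exact h p hp s hs
  exact ⟨m, h1, fun n hn p hp s hs => h2 n hn s (List.mem_flatten.2 ⟨p, hp, hs⟩)⟩

theorem le_iff (hM : MonoStatement) (hL : LimD δ u) {σ : List ℕ} :
    LE δ σ ↔ Ch o σ (endd o σ) ∧ ∀ s ∈ σ, VSL δ s := by
  constructor
  · rintro ⟨n, h⟩
    exact ⟨h.1, fun s hs => ⟨n, h.2 s hs⟩⟩
  · rintro ⟨h1, h2⟩
    obtain ⟨m, _, h3⟩ := vs_list hM hL 0 σ h2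
    exact ⟨m, h1, h3 m (le_refl _)⟩

theorem le_from (hM : MonoStatement) (hL : LimD δ u) {σ : List ℕ} (h : LE δ σ) (n₀ : ℕ) :
    ∃ m, n₀ ≤ m ∧ ∀ n, m ≤ n → VStr (δ n).W o σ (endd o σ) := by
  obtain ⟨h1, h2⟩ := (le_iff hM hL).1 h
  obtain ⟨m, h3, h4⟩ := vs_list hM hL n₀ σ h2
  exact ⟨m, h3, fun n hn => ⟨h1, h4 n hn⟩⟩

/-- The symbols inside of valid symbols. -/
theorem vsl_in (hB : BasicStatement) (hL : LimD δ u) {g s : ℕ} (hg : VSL δ g)
    (h : (∃ α ∈ Ap g, s ∈ α) ∨ ∃ q ∈ Ex g, s ∈ q.2) : VSL δ s := by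
  obtain ⟨n, hn⟩ := hg
  obtain ⟨_, h1, h2, _⟩ := hB (δ n).W (wfit (hL.wf n))
  rcases h with ⟨α, h3, h4⟩ | ⟨q, h3, h4⟩
  · exact ⟨n, h1 g hn α h3 s h4⟩
  · exact ⟨n, h2 g hn q h3 s h4⟩

/-- The root of a valid string is at least its length. -/
theorem le_len (hB : BasicStatement) (hL : LimD δ u) {σ : List ℕ} (h : LE δ σ) :
    σ.length ≤ (endd o σ).1 ∧ ∀ s ∈ σ, (tgt s).1 ≤ (endd o σ).1 := by
  obtain ⟨n, hn⟩ := h
  have := vstr_root hB (wfit (hL.wf n)) hn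
  exact ⟨by have := this.1; omega, fun s hs => (this.2 s hs).1⟩

theorem fit_vsl (hB : BasicStatement) (hL : LimD δ u) {s : ℕ} (h : VSL δ s) :
    Fit (src s) (tgt s) := by
  obtain ⟨n, hn⟩ := h
  exact wfit (hL.wf n) _ _ ((hB (δ n).W (wfit (hL.wf n))).1 s hn)

theorem he_root (hB : BasicStatement) (hL : LimD δ u) {s : ℕ} (h : VSL δ s) {v v' : St}
    (hv : HE s v v') : (src s).1 ≤ v.1 ∧ v.1 < v'.1 ∧ v'.1 ≤ (tgt s).1 := by
  obtain ⟨n, hn⟩ := h
  obtain ⟨_, _, _, h4, _⟩ := hB (δ n).W (wfit (hL.wf n))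
  obtain ⟨h5, h6, h7, _⟩ := h4 s hn v v' hv
  exact ⟨h6, (wfit (hL.wf n) _ _ h5).2.2.1, h7⟩

end Lim

/-! ## Choice of one stem for each label -/

theorem MV.imst {T : List ℕ → Prop} {C : MC} (h : MV T C) {r p : Im} (hr : r ∈ C.im)
    (hp : p ∈ C.st) (e : p.1 = r.1) : r.2 <+: p.2 := by
  obtain ⟨r', h1, h2, h3⟩ := h.lab p hp
  rw [h.uniq r hr r' h1 (e.symm.trans h2.symm)]
  exact h3

/-- The condition given by a choice of stems. -/
def sel (C : MC) (ch : Im → Im) : Cnd3 := (C.x, C.im.map fun r => (r.1, r.2, (ch r).2))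

theorem mem_sel {C : MC} {ch : Im → Im} {e : List ℕ × List ℕ × List ℕ} :
    e ∈ (sel C ch).2 ↔ ∃ r ∈ C.im, e = (r.1, r.2, (ch r).2) := by
  show e ∈ C.im.map (fun r => (r.1, r.2, (ch r).2)) ↔ _
  rw [List.mem_map]
  constructor
  · rintro ⟨r, h1, h2⟩
    exact ⟨r, h1, h2.symm⟩
  · rintro ⟨r, h1, h2⟩
    exact ⟨r, h1, h2.symm⟩

theorem sel_cv {T : List ℕ → Prop} {C : MC} (h : MV T C) {ch : Im → Im}
    (hch : ∀ r ∈ C.im, ch r ∈ C.st ∧ (ch r).1 = r.1) {W : World}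
    (hW : ∀ p ∈ C.st, ∀ s ∈ p.2, VS W s) : CV W T (sel C ch) := by
  have hst : ∀ r ∈ C.im, VStr W o (ch r).2 (endd o (ch r).2) := fun r hr =>
    ⟨h.chn _ (hch r hr).1, hW _ (hch r hr).1⟩
  have him : ∀ r ∈ C.im, r.2 <+: (ch r).2 := fun r hr =>
    h.imst hr (hch r hr).1 (hch r hr).2
  refine ⟨⟨(ch ([], [])).2, mem_sel.2 ⟨_, h.root, rfl⟩⟩, ?_, ?_, ?_, ?_, ?_, ?_, ?_, ?_⟩
  · intro e he e' he' hee
    obtain ⟨r, hr, rfl⟩ := mem_sel.1 he
    obtain ⟨r', hr', rfl⟩ := mem_sel.1 he'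
    rw [h.uniq r hr r' hr' hee]
  · intro e he
    obtain ⟨r, hr, rfl⟩ := mem_sel.1 he
    exact h.memT r hr
  · intro e he
    obtain ⟨r, hr, rfl⟩ := mem_sel.1 he
    exact vstr_pfx (hst r hr) (him r hr)
  · intro e he
    obtain ⟨r, hr, rfl⟩ := mem_sel.1 he
    exact ⟨him r hr, hst r hr⟩
  · intro e he e' he'
    obtain ⟨r, hr, rfl⟩ := mem_sel.1 he
    obtain ⟨r', hr', rfl⟩ := mem_sel.1 he'
    exact h.emb r hr r' hr'
  · intro e he e' he' hee
    obtain ⟨r, hr, rfl⟩ := mem_sel.1 he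
    obtain ⟨r', hr', rfl⟩ := mem_sel.1 he'
    have := h.semb r' hr' _ (hch r hr).1 hee
    rw [(hch r hr).2] at this
    exact this
  · intro e he hne
    obtain ⟨r, hr, rfl⟩ := mem_sel.1 he
    obtain ⟨r', hr', e1⟩ := h.par r hr hne
    exact ⟨_, mem_sel.2 ⟨r', hr', rfl⟩, e1⟩
  · intro ν ν' h1 h2
    have hN : ∀ ν, Nd (sel C ch) ν → MNd C ν := by
      rintro ν ⟨e, he, hν⟩
      obtain ⟨r, hr, rfl⟩ := mem_sel.1 he
      exact ⟨ch r, (hch r hr).1, hν⟩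
    exact h.ac ν ν' (hN ν h1) (hN ν' h2)

theorem sel_cle {T : List ℕ → Prop} {C : MC} {c₀ : Cnd3} (h0 : Ex0 T c₀ C) {ch : Im → Im}
    (hch : ∀ r ∈ C.im, ch r ∈ C.st ∧ (ch r).1 = r.1) : CLe T c₀ (sel C ch) := by
  refine ⟨h0.px, fun e he => ?_, fun e he hne e₁ he₁ h1 => ?_, fun n hn s ρ h1 h2 => ?_⟩
  · have h1 := h0.old e he
    exact ⟨(ch (e.1, e.2.1)).2, h0.ost e he _ (hch _ h1).1 (hch _ h1).2, mem_sel.2 ⟨_, h1, rfl⟩⟩
  · obtain ⟨r, hr, rfl⟩ := mem_sel.1 he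
    exact h0.new r hr hne e₁ he₁ h1
  · exact ⟨_, mem_sel.2 ⟨_, h0.fact n hn s ρ h1 h2, rfl⟩⟩

/-- There is a choice of stems. -/
theorem exists_ch {C : MC} (hst : ∀ r ∈ C.im, ∃ p ∈ C.st, p.1 = r.1) :
    ∃ ch : Im → Im, ∀ r ∈ C.im, ch r ∈ C.st ∧ (ch r).1 = r.1 := by
  classical
  refine ⟨fun r => if h : ∃ p ∈ C.st, p.1 = r.1 then h.choose else r, fun r hr => ?_⟩
  have h := hst r hr
  simp only [dif_pos h]
  exact h.choose_spec

/-! ## The map `phi` -/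

theorem getElem?_pfx {σ τ : List ℕ} (h : σ <+: τ) {j : ℕ} (hj : j < σ.length) :
    σ[j]? = τ[j]? := by
  obtain ⟨ρ, rfl⟩ := h
  rw [List.getElem?_append_left hj]

theorem jnV_mono (V : ℕ → ℕ) {σ τ : List ℕ} (h : σ <+: τ) : jnV V σ <+: jnV V τ := by
  have hl : 2 * σ.length ≤ 2 * τ.length := by have := h.length_le; omega
  have key : jnV V σ = (jnV V τ).take (2 * σ.length) := by
    unfold jnV pre
    rw [← List.map_take, List.take_range, Nat.min_eq_left hl]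
    apply List.map_congr_left
    intro j hj
    have hj' : j < 2 * σ.length := List.mem_range.1 hj
    unfold join
    split
    · rfl
    · have h2 : j / 2 < σ.length := by omega
      show (σ[j / 2]?).getD 0 = (τ[j / 2]?).getD 0
      rw [getElem?_pfx h h2]
  rw [key]
  exact List.take_prefix _ _

theorem phi_mono {Φ : ℕ → List ℕ → List ℕ} (hΦ : IsEnum Φ) (V : ℕ → ℕ) (i : ℕ) {σ τ : List ℕ}
    (h : σ <+: τ) : phi Φ V i σ <+: phi Φ V i τ := hΦ.mono i _ _ (jnV_mono V h)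

end Pool.Agent.Lib.MP_d48993_lc.Node.Proc
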