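import Pool.Agent.Lib.MP_d48993_lc.AE.Node.Interfaces

/-!
# Project NODE (MP_d48993), module RECUR

Functions defined by recursion along computable calls are computable: search for a locally correct
finite table.
-/

set_option autoImplicit false

namespace Pool.Agent.Lib.MP_d48993_lc.Node.Recur

section
variable {α β γ : Type} [Primcodable α] [Primcodable β] [Primcodable γ]

theorem toList_primrec : Primrec (fun o : Option β => o.toList) := by
  have h : Primrec fun o : Option β => (Option.casesOn o ([] : List β) (fun b => [b]) : List β) :=
    Primrec.option_casesOn Primrec.id (Primrec.const [])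
      (Primrec.list_cons.comp Primrec.snd (Primrec.const [])).to₂
  refine h.of_eq fun o => ?_
  cases o <;> rfl

omit [Primcodable β] [Primcodable γ] in
theorem map_take_succ (l : List β) (f : β → γ) (k : ℕ) :
    (l.take (k + 1)).map f = (l.take k).map f ++ (l[k]?.map f).toList := by
  rw [List.take_add_one]
  cases l[k]? <;> simp

/-- Mapping a computable function over a computable list. -/
theorem computable_list_map {l : α → List β} {f : α → β → γ} (hl : Computable l)
    (hf : Computable₂ f) : Computable fun a => (l a).map (f a) := by
  have h1 : Computable fun w : α × (ℕ × List γ) =>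
      w.2.2 ++ (((l w.1)[w.2.1]?).map (f w.1)).toList := by
    refine Computable.list_append.comp (Computable.snd.comp Computable.snd) ?_
    refine toList_primrec.to_comp.comp ?_
    refine Computable.option_map ?_ ?_
    · exact Computable.list_getElem?.comp (hl.comp Computable.fst)
        (Computable.fst.comp Computable.snd)
    · exact (hf.comp (Computable.fst.comp Computable.fst) Computable.snd).to₂
  have h2 := Computable.nat_rec (f := fun a => (l a).length) (g := fun _ => ([] : List γ))
    (h := fun a (y : ℕ × List γ) => y.2 ++ (((l a)[y.1]?).map (f a)).toList)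
    (Computable.list_length.comp hl) (Computable.const []) h1
  refine h2.of_eq fun a => ?_
  have h3 : ∀ k, (Nat.rec ([] : List γ) (fun y IH => (y, IH).2 ++ (((l a)[(y, IH).1]?).map (f a)).toList) k
      : List γ) = ((l a).take k).map (f a) := by
    intro k
    induction k with
    | zero => simp
    | succ k ih =>
      rw [map_take_succ, ← ih]
  rw [h3, List.take_length]

end

section
variable {α β : Type} [Primcodable α] [Primcodable β]

open Classical in
/-- The value of the table `T` at `c`. -/
noncomputable def val (H : α × List β → β) (T : List (α × List β)) (c : α) : Option β :=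
  (T[(T.map Prod.fst).idxOf c]?).map H

/-- `T` is locally correct. -/
def Ok (calls : α → List α) (H : α × List β → β) (T : List (α × List β)) : Prop :=
  T.map (fun e => (calls e.1).map (val H T)) = T.map (fun e => e.2.map some)

omit [Primcodable α] [Primcodable β] in
theorem val_eq {H : α × List β → β} {T : List (α × List β)} {c : α} {b : β}
    (h : val H T c = some b) : ∃ e ∈ T, e.1 = c ∧ H e = b := by
  classical
  unfold val at h
  rw [Option.map_eq_some_iff] at h
  obtain ⟨e, he, hb⟩ := h
  have hl : (T.map Prod.fst).idxOf c < T.length := by
    by_contra h1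
    rw [List.getElem?_eq_none (by omega)] at he
    exact absurd he (by simp)
  rw [List.getElem?_eq_getElem hl] at he
  refine ⟨e, ?_, ?_, hb⟩
  · rw [← Option.some.inj he]
    exact List.getElem_mem hl
  · have h1 : (T.map Prod.fst).idxOf c < (T.map Prod.fst).length := by simpa using hl
    have h2 := List.getElem_idxOf h1
    rw [List.getElem_map, Option.some.inj he] at h2
    exact h2

omit [Primcodable α] [Primcodable β] in
theorem map_some_eq {f : α → β} {v : α → Option β} (l : List α) (bs : List β)
    (h : l.map v = bs.map some) (hv : ∀ c ∈ l, ∀ b, v c = some b → b = f c) : bs = l.map f := by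
  induction l generalizing bs with
  | nil =>
    cases bs with
    | nil => rfl
    | cons b bs => simp at h
  | cons c l ih =>
    cases bs with
    | nil => simp at h
    | cons b bs =>
      rw [List.map_cons, List.map_cons, List.cons.injEq] at h
      rw [List.map_cons, ← ih bs h.2 (fun c' hc' => hv c' (List.mem_cons_of_mem _ hc')),
        ← hv c List.mem_cons_self b h.1]

omit [Primcodable α] [Primcodable β] in
theorem correct {f : α → β} {calls : α → List α} {rk : α → ℕ} {H : α × List β → β}
    (hrk : ∀ a, ∀ b ∈ calls a, rk b < rk a) (hf : ∀ a, f a = H (a, (calls a).map f))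
    {T : List (α × List β)} (hT : Ok calls H T) :
    ∀ n a, rk a = n → ∀ b, val H T a = some b → b = f a := by
  intro n
  induction n using Nat.strong_induction_on with
  | _ n ih =>
    intro a ha b hb
    obtain ⟨e, he, h1, h2⟩ := val_eq hb
    have h3 : (calls e.1).map (val H T) = e.2.map some := by
      have := List.map_inj_left.1 hT e he
      exact this
    rw [h1] at h3
    have h4 := map_some_eq (calls a) e.2 h3
      (fun c hc b' hb' => ih (rk c) (by rw [← ha]; exact hrk a c hc) c rfl b' hb')
    rw [← h2, hf a, ← h4, ← h1]

omit [Primcodable α] [Primcodable β] in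
/-- The good tables. -/
theorem exists_table {f : α → β} {calls : α → List α} {rk : α → ℕ}
    (hrk : ∀ a, ∀ b ∈ calls a, rk b < rk a) : ∀ n a, rk a = n → ∃ T : List (α × List β),
      (∀ e ∈ T, e.2 = (calls e.1).map f ∧ ∀ c ∈ calls e.1, c ∈ T.map Prod.fst) ∧
      a ∈ T.map Prod.fst := by
  intro n
  induction n using Nat.strong_induction_on with
  | _ n ih =>
    intro a ha
    have h1 : ∀ l : List α, (∀ c ∈ l, c ∈ calls a) → ∃ T : List (α × List β),
        (∀ e ∈ T, e.2 = (calls e.1).map f ∧ ∀ c ∈ calls e.1, c ∈ T.map Prod.fst) ∧
        ∀ c ∈ l, c ∈ T.map Prod.fst := by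
      intro l
      induction l with
      | nil => intro _; exact ⟨[], by simp, by simp⟩
      | cons c l ihl =>
        intro hl
        obtain ⟨T1, h1, h2⟩ := ihl fun c' hc' => hl c' (List.mem_cons_of_mem _ hc')
        obtain ⟨T2, h3, h4⟩ := ih (rk c) (by rw [← ha]; exact hrk a c (hl c List.mem_cons_self)) c
          rfl
        refine ⟨T1 ++ T2, ?_, ?_⟩
        · intro e he
          rw [List.map_append]
          rcases List.mem_append.1 he with he | he
          · exact ⟨(h1 e he).1, fun c' hc' => List.mem_append_left _ ((h1 e he).2 c' hc')⟩
          · exact ⟨(h3 e he).1, fun c' hc' => List.mem_append_right _ ((h3 e he).2 c' hc')⟩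
        · intro c' hc'
          rw [List.map_append]
          rcases List.mem_cons.1 hc' with rfl | hc'
          · exact List.mem_append_right _ h4
          · exact List.mem_append_left _ (h2 c' hc')
    obtain ⟨T, h2, h3⟩ := h1 (calls a) fun _ h => h
    refine ⟨(a, (calls a).map f) :: T, ?_, by simp⟩
    intro e he
    rw [List.map_cons]
    rcases List.mem_cons.1 he with rfl | he
    · exact ⟨rfl, fun c hc => List.mem_cons_of_mem _ (h3 c hc)⟩
    · exact ⟨(h2 e he).1, fun c hc => List.mem_cons_of_mem _ ((h2 e he).2 c hc)⟩

omit [Primcodable α] [Primcodable β] in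
theorem table_val {f : α → β} {calls : α → List α} {H : α × List β → β}
    (hf : ∀ a, f a = H (a, (calls a).map f)) {T : List (α × List β)}
    (hT : ∀ e ∈ T, e.2 = (calls e.1).map f ∧ ∀ c ∈ calls e.1, c ∈ T.map Prod.fst) {c : α}
    (hc : c ∈ T.map Prod.fst) : val H T c = some (f c) := by
  classical
  have h1 : (T.map Prod.fst).idxOf c < (T.map Prod.fst).length := List.idxOf_lt_length_of_mem hc
  have hl : (T.map Prod.fst).idxOf c < T.length := by simpa using h1
  have h2 := List.getElem_idxOf h1
  rw [List.getElem_map] at h2
  unfold val
  rw [List.getElem?_eq_getElem hl, Option.map_some]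
  congr 1
  set e := T[(T.map Prod.fst).idxOf c] with he
  have h3 := (hT e (List.getElem_mem hl)).1
  rw [h2] at h3
  rw [hf c, ← h3, ← h2]

omit [Primcodable α] [Primcodable β] in
theorem table_ok {f : α → β} {calls : α → List α} {H : α × List β → β}
    (hf : ∀ a, f a = H (a, (calls a).map f)) {T : List (α × List β)}
    (hT : ∀ e ∈ T, e.2 = (calls e.1).map f ∧ ∀ c ∈ calls e.1, c ∈ T.map Prod.fst) :
    Ok calls H T := by
  unfold Ok
  apply List.map_congr_left
  intro e he
  rw [(hT e he).1, List.map_map]
  apply List.map_congr_left
  intro c hc
  exact table_val hf hT ((hT e he).2 c hc)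

theorem computable_val {H : α × List β → β} (hH : Computable H) :
    Computable₂ (fun (T : List (α × List β)) (c : α) => val H T c) := by
  classical
  have h1 : Primrec fun p : List (α × List β) × α => (p.1.map Prod.fst).idxOf p.2 := by
    have h2 : Primrec fun p : List (α × List β) × α => (p.1.map Prod.fst, p.2) :=
      Primrec.pair (Primrec.list_map Primrec.fst (Primrec.fst.comp Primrec.snd).to₂) Primrec.snd
    have h3 : Primrec₂ (@List.idxOf α _) := Primrec.list_idxOf
    exact (h3.comp Primrec.snd (Primrec.list_map Primrec.fst
      (Primrec.fst.comp Primrec.snd).to₂))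
  unfold val
  refine Computable.option_map ?_ (hH.comp Computable.snd).to₂
  exact Computable.list_getElem?.comp Computable.fst h1.to_comp

open Classical in
/-- The search. -/
noncomputable def F (calls : α → List α) (H : α × List β → β) (a : α) (n : ℕ) : Option β :=
  (Encodable.decode (α := List (α × List β)) n).bind fun T =>
    bif decide (Ok calls H T) then val H T a else none

open Classical in
theorem computable_F {calls : α → List α} {H : α × List β → β} (hc : Computable calls)
    (hH : Computable H) : Computable₂ (F calls H) := by
  have hv := computable_val (α := α) (β := β) hH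
  have h1 : Computable fun T : List (α × List β) =>
      T.map (fun e => (calls e.1).map (val H T)) := by
    refine computable_list_map (l := fun T : List (α × List β) => T)
      (f := fun T e => (calls e.1).map (val H T)) Computable.id ?_
    refine computable_list_map (l := fun p : List (α × List β) × (α × List β) => calls p.2.1)
      (f := fun p c => val H p.1 c) (hc.comp (Computable.fst.comp Computable.snd)) ?_
    exact hv.comp (Computable.fst.comp Computable.fst) Computable.snd
  have h2 : Computable fun T : List (α × List β) => T.map (fun e => e.2.map some) := by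
    refine computable_list_map (l := fun T : List (α × List β) => T)
      (f := fun _ e => e.2.map some) Computable.id ?_
    exact computable_list_map (l := fun p : List (α × List β) × (α × List β) => p.2.2)
      (f := fun _ b => some b) (Computable.snd.comp Computable.snd)
      (Computable.option_some.comp Computable.snd)
  have h3 : Computable fun T : List (α × List β) => decide (Ok calls H T) := by
    have h4 : Primrec₂ fun x y : List (List (Option β)) => decide (x = y) :=
      PrimrecRel.decide Primrec.eq
    refine (h4.to_comp.comp h1 h2).of_eq fun T => ?_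
    by_cases h : Ok calls H T
    · rw [decide_eq_true h]; exact decide_eq_true h
    · rw [decide_eq_false h]; exact decide_eq_false h
  unfold F
  refine Computable.option_bind (Computable.decode.comp Computable.snd) ?_
  refine Computable.cond (h3.comp Computable.snd) ?_ (Computable.const none)
  exact hv.comp Computable.snd (Computable.fst.comp Computable.fst)

end

end Pool.Agent.Lib.MP_d48993_lc.Node.Recur

namespace Pool.Agent.Lib.MP_d48993_lc.Node

open Recur in
/-- Module RECUR. -/
theorem recur : RecurStatement := by
  classical
  intro α β _ _ f calls rk H hc hH hrk hf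
  refine (Partrec.rfindOpt (computable_F hc hH)).of_eq_tot fun a => ?_
  obtain ⟨T, h1, h2⟩ := exists_table (f := f) hrk (rk a) a rfl
  have h3 : f a ∈ F calls H a (Encodable.encode T) := by
    unfold F
    rw [Encodable.encodek, Option.bind_some, decide_eq_true (table_ok hf h1), cond_true,
      table_val hf h1 h2]
    rfl
  obtain ⟨b, hb⟩ := Part.dom_iff_mem.1 (Nat.rfindOpt_dom.2 ⟨_, _, h3⟩)
  obtain ⟨n, hn⟩ := Nat.rfindOpt_spec hb
  have h4 : b = f a := by
    unfold F at hn
    rw [Option.mem_def, Option.bind_eq_some_iff] at hn
    obtain ⟨T', -, h5⟩ := hn
    by_cases h6 : Ok calls H T'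
    · rw [decide_eq_true h6, cond_true] at h5
      exact correct hrk hf h6 (rk a) a rfl b h5
    · rw [decide_eq_false h6, cond_false] at h5
      exact absurd h5 (by simp)
  rw [← h4]
  exact hb

end Pool.Agent.Lib.MP_d48993_lc.Node
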