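import Pool.Agent.Lib.MP_d48993_lc.AE.Node.Ltree0

/-!
# Module DENS3 (helper22): density
-/

set_option autoImplicit false

namespace Pool.Agent.Lib.MP_d48993_lc.Node

open MP_8c048d_lc (pre join RecF Sig Clo Cop Del)

namespace Dens3

theorem ac_mono {S S' : List ℕ → Prop} (h : ∀ ν, S' ν → S ν) (hS : AC S) : AC S' :=
  fun ν ν' h1 h2 => hS ν ν' (h ν h1) (h ν' h2)

theorem cle_refl (T : List ℕ → Prop) (c : Cnd3) : CLe T c c := by
  refine ⟨List.prefix_rfl, fun e he => ⟨e.2.2, List.prefix_rfl, he⟩,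
    fun e he h => absurd rfl (h e he), fun n hn => ?_⟩
  rw [List.drop_length] at hn
  exact absurd hn (List.not_mem_nil)

/-- the condition with the root only -/
theorem cv_nil (W : World) (T : List ℕ → Prop) (h : T []) :
    CV W T (([] : List ℕ), [(([] : List ℕ), ([] : List ℕ), ([] : List ℕ))]) := by
  have hv : VStr W o [] (endd o []) := ⟨rfl, fun s hs => absurd hs (List.not_mem_nil)⟩
  have key : ∀ e ∈ (([] : List ℕ), [(([] : List ℕ), ([] : List ℕ), ([] : List ℕ))]).2,
      e = (([] : List ℕ), ([] : List ℕ), ([] : List ℕ)) := fun e he => List.mem_singleton.1 he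
  refine ⟨⟨[], List.mem_singleton.2 rfl⟩, ?_, ?_, ?_, ?_, ?_, ?_, ?_, ?_⟩
  · intro e he e' he' _
    rw [key e he, key e' he']
  · intro e he
    rw [key e he]
    exact h
  · intro e he
    rw [key e he]
    exact hv
  · intro e he
    rw [key e he]
    exact ⟨List.prefix_rfl, hv⟩
  · intro e he e' he'
    rw [key e he, key e' he']
  · intro e he e' he' _
    rw [key e he, key e' he']
  · intro e he hne
    rw [key e he] at hne
    exact absurd rfl hne
  · intro ν ν' hν _ hne
    obtain ⟨e, he, hp⟩ := hν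
    rw [key e he] at hp
    exact absurd (List.prefix_nil.1 hp) hne

/-- a true fact may be appended -/
theorem fact {W : World} {T : List ℕ → Prop} {c : Cnd3} (hc : CV W T c)
    {e : List ℕ × List ℕ × List ℕ} (he : e ∈ c.2) :
    CV W T (c.1 ++ [Encodable.encode (e.1, e.2.1)], c.2) ∧
      CLe T c (c.1 ++ [Encodable.encode (e.1, e.2.1)], c.2) := by
  refine ⟨⟨hc.root, hc.uniq, hc.mem, hc.img, hc.stem, hc.emb, hc.stemEmb, hc.parent, hc.ac⟩,
    ⟨List.prefix_append _ _, fun e he => ⟨e.2.2, List.prefix_rfl, he⟩,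
      fun e he h => absurd rfl (h e he), ?_⟩⟩
  intro n hn s ρ hf _
  rw [show (c.1 ++ [Encodable.encode (e.1, e.2.1)], c.2).1
    = c.1 ++ [Encodable.encode (e.1, e.2.1)] from rfl, List.drop_left,
    List.mem_singleton] at hn
  have h1 : (e.1, e.2.1) = (s, ρ) := Encodable.encode_injective (hn.symm.trans hf)
  have h2 : e.1 = s := congrArg Prod.fst h1
  have h3 : e.2.1 = ρ := congrArg Prod.snd h1
  exact ⟨e.2.2, by rw [← h2, ← h3]; exact he⟩

open Classical in
/-- restriction to a smaller tree -/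
theorem restrict {W : World} {T T' : List ℕ → Prop} {c : Cnd3} (hPC : PC T') (h0 : T' [])
    (hc : CV W T c) :
    ∃ c' : Cnd3, CV W T' c' ∧ c'.1 = c.1 ∧ ∀ e, e ∈ c'.2 ↔ e ∈ c.2 ∧ T' e.1 := by
  have key : ∀ e, e ∈ (c.2.filter (fun e => decide (T' e.1))) ↔ e ∈ c.2 ∧ T' e.1 := by
    intro e
    rw [List.mem_filter, decide_eq_true_iff]
  refine ⟨(c.1, c.2.filter (fun e => decide (T' e.1))), ?_, rfl, key⟩
  refine ⟨?_, ?_, ?_, ?_, ?_, ?_, ?_, ?_, ?_⟩
  · obtain ⟨p, hp⟩ := hc.root
    exact ⟨p, (key _).2 ⟨hp, h0⟩⟩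
  · exact fun e he e' he' => hc.uniq e ((key e).1 he).1 e' ((key e').1 he').1
  · exact fun e he => ((key e).1 he).2
  · exact fun e he => hc.img e ((key e).1 he).1
  · exact fun e he => hc.stem e ((key e).1 he).1
  · exact fun e he e' he' => hc.emb e ((key e).1 he).1 e' ((key e').1 he').1
  · exact fun e he e' he' => hc.stemEmb e ((key e).1 he).1 e' ((key e').1 he').1
  · intro e he hne
    obtain ⟨e', he', h1⟩ := hc.parent e ((key e).1 he).1 hne
    refine ⟨e', (key e').2 ⟨he', ?_⟩, h1⟩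
    rw [h1]
    exact hPC _ _ (List.dropLast_prefix _) ((key e).1 he).2
  · refine ac_mono (fun ν hν => ?_) hc.ac
    obtain ⟨e, he, hp⟩ := hν
    exact ⟨e, ((key e).1 he).1, hp⟩

/-- the domain of a condition is closed under initial segments -/
theorem dom_prefix {W : World} {T : List ℕ → Prop} {c : Cnd3} (hc : CV W T c) :
    ∀ (l : ℕ) (f : List ℕ × List ℕ × List ℕ), f ∈ c.2 → f.1.length = l → ∀ s, s <+: f.1 →
      ∃ f' ∈ c.2, f'.1 = s := by
  intro l
  induction l with
  | zero =>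
    intro f hf hl s hs
    have h1 : f.1 = [] := List.length_eq_zero_iff.1 hl
    rw [h1] at hs
    exact ⟨f, hf, by rw [h1, List.prefix_nil.1 hs]⟩
  | succ l ih =>
    intro f hf hl s hs
    have hne : f.1 ≠ [] := by
      intro h
      rw [h] at hl
      exact absurd hl (by simp)
    obtain ⟨g, hg, hgf⟩ := hc.parent f hf hne
    by_cases h : s = f.1
    · exact ⟨f, hf, h.symm⟩
    · refine ih g hg (by rw [hgf, List.length_dropLast, hl]; rfl) s ?_
      rw [hgf]
      have h1 : f.1.dropLast ++ [f.1.getLast hne] = f.1 := List.dropLast_append_getLast hne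
      rw [← h1, List.prefix_concat_iff] at hs
      rcases hs with hs | hs
      · exact absurd (hs.trans h1) h
      · exact hs

theorem vstr_prefix (hC : CodesStatement) {W : World} {x : St} {ν τ : List ℕ} (h : ν <+: τ)
    (hτ : VStr W x τ (endd x τ)) : VStr W x ν (endd x ν) := by
  obtain ⟨-, -, -, -, -, -, -, -, -, -, -, happ, -⟩ := hC
  obtain ⟨ρ, rfl⟩ := h
  exact ⟨((happ x ν ρ _).1 hτ.1).1, fun s hs => hτ.2 s (List.mem_append_left _ hs)⟩

/-- a new child -/
theorem add_child (hC : CodesStatement) (hB : BasicStatement) (hM : MonoStatement)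
    (hCan : CanStatement) (hA : AccanStatement) {Φ : ℕ → List ℕ → List ℕ}
    {Tr : ℕ → List ℕ → Prop} {TU : List ℕ → Prop} {V : ℕ → ℕ} {δ : ℕ → Data} {u : ℕ → ℕ}
    (hL : Lim Φ Tr TU V δ u) {T : List ℕ → Prop} {c : Cnd3} {n : ℕ} (hc : CV (δ n).W T c)
    {e : List ℕ × List ℕ × List ℕ} (he : e ∈ c.2) {k : ℕ} (hT : T (e.1 ++ [k]))
    (hno : ∀ f ∈ c.2, f.1 ≠ e.1 ++ [k]) :
    ∃ c' m, n ≤ m ∧ CV (δ m).W T c' ∧ CLe T c c' ∧ ∃ e' ∈ c'.2, e'.1 = e.1 ++ [k] := by
  have hD := (ltree0 hC hB hM hCan Φ Tr TU V δ u hL).2.2.2.2.1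
  have hCC := hC
  obtain ⟨-, -, -, -, -, -, -, -, -, -, hend, happ, henda⟩ := hC
  -- the new symbol
  obtain ⟨hx, hxN⟩ := Ltree0.endd_adm (hL.wf n) hB Ltree0.adm_o (hL.wf n).pos e.2.2
    (hc.stem e he).2.2
  obtain ⟨K, hK⟩ := hCan (δ n) (hL.wf n) (hL.full n) (endd o e.2.2) hx hxN
  obtain ⟨m, hm⟩ : ∃ m, m = max n (K + 1) := ⟨_, rfl⟩
  have hnm : n ≤ m := by omega
  have hKu : K + 1 ≤ sz (u m) := by have := (hL.root m).2; omega
  have hNu : (δ n).N ≤ u m := by
    have h1 := (hD n m hnm).N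
    have h2 := (hL.root m).1
    exact h1.trans h2
  have hadm : Adm ((u m, [0]) : St) := by
    refine ⟨?_, ?_⟩
    · show 1 ≤ sz (u m)
      omega
    · intro b hb
      rw [List.mem_singleton.1 hb]
      show 0 < sz (u m)
      omega
  have hpub : u m ∈ (δ (m + 1)).pub := by rw [hL.pub m]; simp
  obtain ⟨s, hs1, hs2, hs3, hs4⟩ := hK (δ (m + 1)) (hL.wf _) (hD n (m + 1) (by omega))
    (u m, [0]) hadm hpub hNu (by show K ≤ sz (u m) - 1; omega) (by show K ≤ sz (u m); omega)
  -- old strings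
  have hup : ∀ ν, VStr (δ n).W o ν (endd o ν) → VStr (δ (m + 1)).W o ν (endd o ν) := by
    rintro ν ⟨h1, h2⟩
    exact ⟨h1, fun s hs => hM.1 _ _ _ (hM.2.2.1 _ _ (hL.wf n) (hD n (m + 1) (by omega)))
      (fun x t h => h.2.1) s (h2 s hs)⟩
  have hsn : ¬ VS (δ n).W s := by
    intro h
    have h1 := (hB _ (hL.wf n).inv.fit).1 s h
    have h2 : (tgt s).1 < (δ n).N := h1.2.1
    rw [hs3] at h2
    exact absurd h2 (by show ¬ u m < (δ n).N; omega)
  have hnew : ∀ ν, VStr (δ n).W o ν (endd o ν) → ¬ (e.2.2 ++ [s]) <+: ν := by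
    rintro ν ⟨-, h2⟩ hp
    exact hsn (h2 s (hp.subset (by simp)))
  have hq : VStr (δ (m + 1)).W o (e.2.2 ++ [s]) (endd o (e.2.2 ++ [s])) := by
    have h1 := hup _ (hc.stem e he).2
    refine ⟨?_, ?_⟩
    · rw [happ]
      refine ⟨h1.1, hs2, ?_⟩
      show tgt s = endd o (e.2.2 ++ [s])
      rw [henda]
      rfl
    · intro s' hs'
      rcases List.mem_append.1 hs' with h | h
      · exact h1.2 s' h
      · rw [List.mem_singleton.1 h]
        exact hs1
  -- comparison of an old node with the new node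
  have hcmp : ∀ f ∈ c.2, (f.1 <+: e.1 ++ [k] ↔ f.1 <+: e.1) := by
    intro f hf
    rw [List.prefix_concat_iff]
    exact ⟨fun h => h.resolve_left (hno f hf), Or.inr⟩
  have hcmp2 : ∀ f ∈ c.2, (f.2.1 <+: e.2.2 ++ [s] ↔ f.1 <+: e.1 ++ [k]) := by
    intro f hf
    rw [hcmp f hf, List.prefix_concat_iff]
    constructor
    · rintro (h | h)
      · exact absurd (by rw [← h]) (hnew _ (hc.img f hf))
      · exact hc.stemEmb e he f hf h
    · intro h
      exact Or.inr (((hc.emb f hf e he).2 h).trans (hc.stem e he).1)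
  have hcmp3 : ∀ f ∈ c.2, ¬ (e.1 ++ [k] <+: f.1) := by
    intro f hf h
    obtain ⟨f', hf', h1⟩ := dom_prefix hc _ f hf rfl _ h
    exact hno f' hf' h1
  obtain ⟨new, hnewdef⟩ : ∃ new : List ℕ × List ℕ × List ℕ,
    new = (e.1 ++ [k], e.2.2 ++ [s], e.2.2 ++ [s]) := ⟨_, rfl⟩
  have hn1 : new.1 = e.1 ++ [k] := by rw [hnewdef]
  have hn2 : new.2.1 = e.2.2 ++ [s] := by rw [hnewdef]
  have hn3 : new.2.2 = e.2.2 ++ [s] := by rw [hnewdef]
  have key : ∀ f, f ∈ c.2 ++ [new] ↔ f ∈ c.2 ∨ f = new := by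
    intro f
    rw [List.mem_append, List.mem_singleton]
  refine ⟨(c.1, c.2 ++ [new]), m + 1, by omega, ?_, ?_, new, (key _).2 (Or.inr rfl), hn1⟩
  · refine ⟨?_, ?_, ?_, ?_, ?_, ?_, ?_, ?_, ?_⟩
    · obtain ⟨p, hp⟩ := hc.root
      exact ⟨p, (key _).2 (Or.inl hp)⟩
    · intro f hf f' hf' h
      rcases (key f).1 hf with h1 | h1 <;> rcases (key f').1 hf' with h2 | h2
      · exact hc.uniq f h1 f' h2 h
      · rw [h2, hn1] at h
        exact absurd h (hno f h1)
      · rw [h1, hn1] at h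
        exact absurd h.symm (hno f' h2)
      · rw [h1, h2]
    · intro f hf
      rcases (key f).1 hf with h1 | h1
      · exact hc.mem f h1
      · rw [h1, hn1]
        exact hT
    · intro f hf
      rcases (key f).1 hf with h1 | h1
      · exact hup _ (hc.img f h1)
      · rw [h1, hn2]
        exact hq
    · intro f hf
      rcases (key f).1 hf with h1 | h1
      · exact ⟨(hc.stem f h1).1, hup _ (hc.stem f h1).2⟩
      · rw [h1, hn2, hn3]
        exact ⟨List.prefix_rfl, hq⟩
    · intro f hf f' hf'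
      rcases (key f).1 hf with h1 | h1 <;> rcases (key f').1 hf' with h2 | h2
      · exact hc.emb f h1 f' h2
      · rw [h2, hn1, hn2]
        exact hcmp2 f h1
      · rw [h1, hn1, hn2]
        exact ⟨fun h => absurd h (hnew _ (hc.img f' h2)), fun h => absurd h (hcmp3 f' h2)⟩
      · rw [h1, h2]
        exact ⟨fun _ => List.prefix_rfl, fun _ => List.prefix_rfl⟩
    · intro f hf f' hf' h
      rcases (key f).1 hf with h1 | h1 <;> rcases (key f').1 hf' with h2 | h2
      · exact hc.stemEmb f h1 f' h2 h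
      · rw [h2, hn2] at h
        exact absurd h (hnew _ (hc.stem f h1).2)
      · rw [h1, hn3] at h
        rw [h1, hn1]
        exact (hcmp2 f' h2).1 h
      · rw [h1, h2]
    · intro f hf hne
      rcases (key f).1 hf with h1 | h1
      · obtain ⟨f', hf', h2⟩ := hc.parent f h1 hne
        exact ⟨f', (key _).2 (Or.inl hf'), h2⟩
      · refine ⟨e, (key _).2 (Or.inl he), ?_⟩
        rw [h1, hn1, List.dropLast_concat]
    · have hNd : ∀ ν, Nd c ν → VStr (δ n).W o ν (endd o ν) := by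
        rintro ν ⟨f, hf, hp⟩
        exact vstr_prefix hCC hp (hc.stem f hf).2
      have hroot : ∀ ν, Nd c ν → (endd o ν).1 < (δ n).N := fun ν hν =>
        (Ltree0.endd_adm (hL.wf n) hB Ltree0.adm_o (hL.wf n).pos ν (hNd ν hν).2).2
      have hS := hA (δ (m + 1)) (Nd c) (u m, []) [(e.2.2, s)] (hL.wf _) hc.ac
        ⟨e, he, List.nil_prefix⟩ (fun ν hν => hup ν (hNd ν hν))
        (fun ν ν' hp hν' => by
          obtain ⟨f, hf, hp'⟩ := hν'
          exact ⟨f, hf, hp.trans hp'⟩)
        (fun ν hν => lt_of_lt_of_le (hroot ν hν) hNu) ?_ ?_ ?_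
      · refine ac_mono (fun ν hν => ?_) hS
        obtain ⟨f, hf, hp⟩ := hν
        rcases (key f).1 hf with h1 | h1
        · exact Or.inl ⟨f, h1, hp⟩
        · rw [h1, hn3, List.prefix_concat_iff] at hp
          rcases hp with hp | hp
          · exact Or.inr ⟨_, List.mem_singleton.2 rfl, hp⟩
          · exact Or.inl ⟨e, he, hp⟩
      · intro p hp j hcl
        rw [List.mem_singleton.1 hp] at hcl
        cases hcl with
        | cone _ h =>
          have h1 : u m = (endd o e.2.2).1 := h.1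
          omega
        | own _ w h hw =>
          have h1 : ((δ (m + 1)).ownL.find? (fun p => p.1 = u m)).map Prod.snd = some w := h
          rw [Option.map_eq_some_iff] at h1
          obtain ⟨a, ha, -⟩ := h1
          have h2 := List.mem_of_find?_eq_some ha
          have h3 := List.find?_some ha
          have h4 : a.1 = u m := by simpa using h3
          have h5 := ((hL.wf (m + 1)).own a h2).2
          rw [h4] at h5
          exact h5 hpub
      · intro p hp
        rw [List.mem_singleton.1 hp]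
        exact ⟨⟨e, he, List.prefix_rfl⟩, hs1, hs4, hs2, 0, hs3⟩
      · intro p hp p' hp' _
        rw [List.mem_singleton.1 hp, List.mem_singleton.1 hp']
  · refine ⟨List.prefix_rfl, fun f hf => ⟨f.2.2, List.prefix_rfl, (key _).2 (Or.inl hf)⟩, ?_, ?_⟩
    · intro f hf hf0 f1 hf1 hff
      rcases (key f).1 hf with h1 | h1
      · exact absurd rfl (hf0 f h1)
      · rw [h1, hn1, List.dropLast_concat] at hff
        rw [h1, hn2, hc.uniq f1 hf1 e he hff]
        exact List.prefix_append _ _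
    · intro n hn
      have h1 : n ∈ c.1.drop c.1.length := hn
      rw [List.drop_length] at h1
      exact absurd h1 (List.not_mem_nil)

end Dens3

open Dens3 in
/-- Module DENS3, from CODES, BASIC, MONO, CAN, ACCAN. -/
theorem dens3 (hC : CodesStatement) (hB : BasicStatement) (hM : MonoStatement)
    (hCan : CanStatement) (hA : AccanStatement) : Dens3Statement := by
  intro Φ Tr TU V δ u _ hL T _ hT0
  refine ⟨⟨_, 0, cv_nil _ T hT0, rfl⟩, ?_, ?_, ?_⟩
  · intro c n hc e he k hk
    by_cases h : ∃ f ∈ c.2, f.1 = e.1 ++ [k]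
    · obtain ⟨f, hf, h1⟩ := h
      exact ⟨c, n, le_rfl, hc, cle_refl T c, f, hf, h1⟩
    · exact add_child hC hB hM hCan hA hL hc he hk (fun f hf h1 => h ⟨f, hf, h1⟩)
  · intro c n hc e he
    exact fact hc he
  · intro T' c n hPC h0 _ hc
    exact restrict hPC h0 hc

end Pool.Agent.Lib.MP_d48993_lc.Node
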