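import Pool.Agent.Lib.MP_d48993_lc.AE.Node.Ltree0
import Pool.Agent.Lib.MP_d48993_lc.Tec

/-!
# Module DECIDE (helper36): membership of `Φ_i(X)` in the class of the limit is decided
-/

set_option autoImplicit false

namespace Pool.Agent.Lib.MP_d48993_lc.Node

open MP_8c048d_lc (pre join RecF Sig Clo Cop Del)

namespace Decide

/-- Extension of conditions is transitive. -/
theorem cle_trans {T : List ℕ → Prop} {c c' c'' : Cnd3}
    (huniq : ∀ e ∈ c''.2, ∀ e' ∈ c''.2, e.1 = e'.1 → e = e')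
    (h1 : CLe T c c') (h2 : CLe T c' c'') : CLe T c c'' where
  px := h1.px.trans h2.px
  old := by
    intro e he
    obtain ⟨p', hp, hm⟩ := h1.old e he
    obtain ⟨p'', hp', hm'⟩ := h2.old _ hm
    exact ⟨p'', hp.trans hp', hm'⟩
  new := by
    intro e he hnew e₁ he₁ hpar
    by_cases hc : ∃ e' ∈ c'.2, e'.1 = e.1
    · obtain ⟨e', he', hee⟩ := hc
      have h3 : e₁.2.2 <+: e'.2.1 :=
        h1.new e' he' (fun e₀ he₀ h => hnew e₀ he₀ (h.trans hee)) e₁ he₁ (by rw [hee]; exact hpar)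
      obtain ⟨p', -, hm⟩ := h2.old e' he'
      have h4 := huniq _ hm e he hee
      rw [← h4]
      exact h3
    · obtain ⟨p', hp, hm⟩ := h1.old e₁ he₁
      exact hp.trans (h2.new e he (fun e₀ he₀ h => hc ⟨e₀, he₀, h⟩) _ hm hpar)
  fact := by
    intro n hn s ρ hf hT
    obtain ⟨t, ht⟩ := h2.px
    obtain ⟨r, hr⟩ := h1.px
    have h3 : c''.1.drop c.1.length = c'.1.drop c.1.length ++ t := by
      rw [← ht, ← hr, List.append_assoc, List.drop_left, List.drop_left]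
    have h4 : c''.1.drop c'.1.length = t := by
      rw [← ht, List.drop_left]
    rw [h3] at hn
    rcases List.mem_append.1 hn with h | h
    · obtain ⟨p, hp⟩ := h1.fact n h s ρ hf hT
      obtain ⟨p', -, hm⟩ := h2.old _ hp
      exact ⟨p', hm⟩
    · exact h2.fact n (by rw [h4]; exact h) s ρ hf hT

end Decide

open Decide in
/-- Module DECIDE, from LTREE0, PROC, BAIRE. -/
theorem decide_of (hL0 : Ltree0Statement) (hP : ProcStatement) (hB : BaireStatement) :
    DecideStatement := by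
  intro Φ Tr TU V δ u hΦ hTr hL i E₀ hE₀ c n₀ hc
  obtain ⟨l1, l2, l3, l4, l5, l6⟩ := hL0 Φ Tr TU V δ u hL
  obtain ⟨n, hn, c', hc', hcc', hk⟩ := hL.kill i E₀ c n₀ hc
  rcases hk with hk | ⟨hpub, N, hK⟩
  · refine ⟨n + 1, c', by omega, hc', hcc', Or.inl ?_⟩
    rintro ⟨m, hm⟩
    have h1 : LE δ (phi Φ V i c'.1) := ⟨m, hm⟩
    obtain ⟨k, hk1, hk2⟩ : ∃ k, n + 1 ≤ k ∧ (endd o (phi Φ V i c'.1)).1 < (δ k).N := by
      refine ⟨n + 1 + (endd o (phi Φ V i c'.1)).1 + 1, by omega, ?_⟩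
      have := l6 (n + 1 + (endd o (phi Φ V i c'.1)).1 + 1)
      omega
    exact hk k hk1 ((l4 _ k hk2).1 h1)
  · by_contra hcon
    obtain ⟨D, hD, hG⟩ := hP Φ Tr TU V δ u hΦ hTr hL i E₀ c' (n + 1) N hc' hpub hK (by
      intro m hm c'' hc'' hcc''
      have h1 : CLe (TE Tr E₀) c c'' := cle_trans hc''.uniq hcc' hcc''
      constructor
      · by_contra h2
        exact hcon ⟨m, c'', by omega, hc'', h1, Or.inl h2⟩
      · intro k
        by_contra h2
        refine hcon ⟨m, c'', by omega, hc'', h1, Or.inr ⟨k, ?_⟩⟩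
        intro m' hm' c₃ hc₃ hle
        by_contra h3
        exact h2 ⟨m', hm', c₃, hc₃, hle, by omega⟩)
    obtain ⟨G, g1, g2, g3⟩ := hB Φ Tr V (LE δ) E₀ D hΦ hTr l1 l2 l3 hE₀ hD
    obtain ⟨e, he, hp⟩ := te_path (hG G g1 g2)
    exact g3 e he hp

end Pool.Agent.Lib.MP_d48993_lc.Node
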