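import Pool.Agent.Lib.MP_d48993_lc.AE.Node.Ltree0

/-!
# Module PROC: definitions and sub-statements (helper3)

The process keeps conditions with SEVERAL stems for each node: `(x, images, stems)`, and a list of
split nodes. `σ` is the part of the driver (a string of the tree of the limit), `y = Φ_i(x)`.
The stems end in different own states (not number 0) of the last state of the driver.
A split node is entered when it is below the level of a state of `y`; the stems above entered split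
nodes are dropped.
-/

set_option autoImplicit false

namespace Pool.Agent.Lib.MP_d48993_lc.Node.Proc

open MP_8c048d_lc (pre join RecF Sig Clo Cop Del)

/-! ## The limit -/

/-- What is used of the limit. -/
structure LimD (δ : ℕ → Data) (u : ℕ → ℕ) : Prop where
  wf : ∀ n, Wf (δ n)
  full : ∀ n, Full (δ n)
  ext : ∀ m n, m ≤ n → DExt (δ m) (δ n)
  big : ∀ n, n ≤ (δ n).N
  root : ∀ n, (δ n).N ≤ u n ∧ n ≤ sz (u n)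
  pub : ∀ n, u n ∈ (δ (n + 1)).pub
  nil : LE δ []
  pc : PC (LE δ)
  ned : ∀ σ, LE δ σ → ∃ n, LE δ (σ ++ [n])
  loc : ∀ σ n, (endd o σ).1 < (δ n).N → (LE δ σ ↔ VStr (δ n).W o σ (endd o σ))

/-- The symbol is valid in the limit. -/
def VSL (δ : ℕ → Data) (s : ℕ) : Prop := ∃ n, VS (δ n).W s

/-- What is used of the situation. -/
structure Cx (Φ : ℕ → List ℕ → List ℕ) (V : ℕ → ℕ) (δ : ℕ → Data) (u : ℕ → ℕ)
    (T : List ℕ → Prop) (i : ℕ) (c₀ : Cnd3) (n₀ N : ℕ) : Prop where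
  enum : IsEnum Φ
  lim : LimD δ u
  cv : CV (δ n₀).W T c₀
  K : ∀ m, n₀ ≤ m → ∀ c', CV (δ m).W T c' → CLe T c₀ c' →
    VStr (δ m).W o (phi Φ V i c'.1) (endd o (phi Φ V i c'.1)) →
    ∀ s ∈ phi Φ V i c'.1, N ≤ (tgt s).1 → KE c' (src s) (tgt s)
  nd : ∀ m, n₀ ≤ m → ∀ c', CV (δ m).W T c' → CLe T c₀ c' →
    LE δ (phi Φ V i c'.1) ∧ ∀ k : ℕ, ∃ m', m ≤ m' ∧ ∃ c'', CV (δ m').W T c'' ∧ CLe T c' c'' ∧
      k ≤ (phi Φ V i c''.1).length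

/-! ## Conditions with several stems -/

/-- A label (a node of `T`) and a string. -/
abbrev Im : Type := List ℕ × List ℕ

/-- `(x, images, stems)`. -/
abbrev MC : Type := List ℕ × List Im × List Im

abbrev MC.x (C : MC) : List ℕ := C.1
abbrev MC.im (C : MC) : List Im := C.2.1
abbrev MC.st (C : MC) : List Im := C.2.2

/-- The nodes. -/
def MNd (C : MC) (ν : List ℕ) : Prop := ∃ p ∈ C.st, ν <+: p.2

/-- Conditions with several stems (without the validity of the symbols). -/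
structure MV (T : List ℕ → Prop) (C : MC) : Prop where
  root : (([] : List ℕ), ([] : List ℕ)) ∈ C.im
  uniq : ∀ r ∈ C.im, ∀ r' ∈ C.im, r.1 = r'.1 → r = r'
  memT : ∀ r ∈ C.im, T r.1
  emb : ∀ r ∈ C.im, ∀ r' ∈ C.im, (r.2 <+: r'.2 ↔ r.1 <+: r'.1)
  par : ∀ r ∈ C.im, r.1 ≠ [] → ∃ r' ∈ C.im, r'.1 = r.1.dropLast
  lab : ∀ p ∈ C.st, ∃ r ∈ C.im, r.1 = p.1 ∧ r.2 <+: p.2
  stem : ∀ r ∈ C.im, ∃ p ∈ C.st, p.1 = r.1
  semb : ∀ r ∈ C.im, ∀ p ∈ C.st, r.2 <+: p.2 → r.1 <+: p.1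
  chn : ∀ p ∈ C.st, Ch o p.2 (endd o p.2)
  ac : AC (MNd C)

/-- `C` extends the condition `c₀`, for all choices of the stems. -/
structure Ex0 (T : List ℕ → Prop) (c₀ : Cnd3) (C : MC) : Prop where
  px : c₀.1 <+: C.x
  old : ∀ e ∈ c₀.2, (e.1, e.2.1) ∈ C.im
  ost : ∀ e ∈ c₀.2, ∀ p ∈ C.st, p.1 = e.1 → e.2.2 <+: p.2
  new : ∀ r ∈ C.im, (∀ e₀ ∈ c₀.2, e₀.1 ≠ r.1) → ∀ e₁ ∈ c₀.2, e₁.1 = r.1.dropLast →
    e₁.2.2 <+: r.2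
  fact : ∀ n ∈ C.x.drop c₀.1.length, ∀ s ρ, Fact n s ρ → T s → (s, ρ) ∈ C.im

/-- The strings of `L` end in different own states (not number `0`) of `z`. -/
structure Pos (z : St) (L : List (List ℕ)) : Prop where
  en : ∀ p ∈ L, ∃ i, 1 ≤ i ∧ endd o p = ow z i
  inj : ∀ p ∈ L, ∀ p' ∈ L, endd o p = endd o p' → p = p'

/-- The initial segments of the strings of `L`. -/
def Dn (L : List (List ℕ)) (ν : List ℕ) : Prop := ∃ p ∈ L, ν <+: p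

/-! ## Configurations -/

/-- `(σ, y, C, S)`: the driver, `Φ_i(x)`, the condition, the split nodes. -/
abbrev Cfg : Type := List ℕ × List ℕ × MC × List Im

abbrev Cfg.sg (a : Cfg) : List ℕ := a.1
abbrev Cfg.y (a : Cfg) : List ℕ := a.2.1
abbrev Cfg.C (a : Cfg) : MC := a.2.2.1
abbrev Cfg.x (a : Cfg) : List ℕ := a.2.2.1.1
abbrev Cfg.im (a : Cfg) : List Im := a.2.2.1.2.1
abbrev Cfg.st (a : Cfg) : List Im := a.2.2.1.2.2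
abbrev Cfg.S (a : Cfg) : List Im := a.2.2.2

/-- `A` is entered: it is below the level of a state of `y` of a root at least `N`. -/
def Ent (N : ℕ) (a : Cfg) (A : List ℕ) : Prop :=
  ∃ s ∈ a.y, N ≤ (tgt s).1 ∧ ∃ r ∈ a.im, ∃ m < r.2.length, A <+: r.2.take m ∧
    HE (r.2.getD m 0) (src s) (tgt s)

/-- The stem `p` is above an entered split node. -/
def Kld (N : ℕ) (a : Cfg) (p : Im) : Prop := ∃ A ∈ a.S, A.1 = p.1 ∧ A.2 <+: p.2 ∧ Ent N a A.2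

/-- The decidable part of the invariant. -/
structure Sta (T : List ℕ → Prop) (c₀ : Cnd3) (a : Cfg) : Prop where
  mv : MV T a.C
  ex0 : Ex0 T c₀ a.C
  en : ∀ p ∈ a.st, ∃ i, 1 ≤ i ∧ endd o p.2 = ow (endd o a.sg) i
  inj : ∀ p ∈ a.st, ∀ p' ∈ a.st, endd o p.2 = endd o p'.2 → p.2 = p'.2
  s1 : ∀ A ∈ a.S, ∀ A' ∈ a.S, A.1 = A'.1 → A.2 <+: A'.2 → A = A'
  s2 : ∀ p ∈ a.st, ∃ A ∈ a.S, A.1 = p.1 ∧ A.2 <+: p.2
  s4 : ∀ A ∈ a.S, ∃ A' ∈ a.S, A'.1 = A.1 ∧ A' ≠ A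
  s6 : ∀ A ∈ a.S, ∃ r ∈ a.im, r.1 = A.1

/-- The invariant. -/
structure Good (Φ : ℕ → List ℕ → List ℕ) (V : ℕ → ℕ) (δ : ℕ → Data) (T : List ℕ → Prop) (i : ℕ)
    (c₀ : Cnd3) (N : ℕ) (a : Cfg) : Prop where
  sta : Sta T c₀ a
  le : LE δ a.sg
  val : ∀ p ∈ a.st, ∀ s ∈ p.2, VSL δ s
  yeq : a.y = phi Φ V i a.x
  s3 : ∀ A ∈ a.S, Ent N a A.2 ∨ ∃ p ∈ a.st, p.1 = A.1 ∧ A.2 <+: p.2

/-- The decidable part of a step. -/
structure Stp (T : List ℕ → Prop) (c₀ : Cnd3) (N : ℕ) (a a' : Cfg) : Prop where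
  sta : Sta T c₀ a'
  sg : a.sg <+: a'.sg ∧ a.sg.length < a'.sg.length
  x : a.x <+: a'.x
  y : a.y.length < a'.y.length
  cert : ∀ p ∈ a'.st, ∀ s ∈ p.2, (∃ p₀ ∈ a.st, s ∈ p₀.2) ∨
    ∃ g ∈ a'.sg, (∃ α ∈ Ap g, s ∈ α) ∨ ∃ q ∈ Ex g, s ∈ q.2
  im : ∀ r ∈ a.im, r ∈ a'.im
  st : ∀ p ∈ a.st, ¬ Kld N a p → ∃ p' ∈ a'.st, p'.1 = p.1 ∧ p.2 <+: p'.2
  up : ∀ p' ∈ a'.st, ∃ p ∈ a.st, p.2 <+: p'.2 ∧ p.2.length < p'.2.length
  ch : ∀ r ∈ a'.im, (∀ r₀ ∈ a.im, r₀.1 ≠ r.1) → (∃ r₀ ∈ a.im, r₀.1 = r.1.dropLast) →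
    ∃ p ∈ a.st, ¬ Kld N a p ∧ p.1 = r.1.dropLast ∧ p.2 <+: r.2
  sub : ∀ A ∈ a.S, A ∈ a'.S
  new : ∀ A ∈ a'.S, A ∈ a.S ∨ ((∀ r ∈ a.im, r.1 ≠ A.1) ∧ ∃ p ∈ a'.st, p.1 = A.1 ∧ A.2 <+: p.2)

/-! ## Sub-statements -/

/-- Part COMP (from CODES, DECV, DECC's lemmas): decidability of steps. -/
def CompStatement : Prop :=
  ∀ (T : List ℕ → Prop) (c₀ : Cnd3) (N : ℕ), ComputablePred T →
    ComputablePred (fun p : Cfg × Cfg => Stp T c₀ N p.1 p.2) ∧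
    ComputablePred (fun p : Cfg × List ℕ => Ent N p.1 p.2)

/-- Part ORA: the oracle part of a step. -/
def OraStatement : Prop :=
  ∀ (Φ : ℕ → List ℕ → List ℕ) (i : ℕ), IsEnum Φ →
    ∃ P : Cfg → (ℕ → ℕ) → Prop, Cop P ∧
      ∀ (V G : ℕ → ℕ) (a : Cfg), P a (join V G) ↔ a.sg = pre G a.sg.length ∧ a.y = phi Φ V i a.x

/-- Part CARRY (from BASIC, MONO, OWN, ACCAN): the strings go along with the driver. -/
def CarryStatement : Prop :=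
  ∀ (δ : ℕ → Data) (u : ℕ → ℕ), LimD δ u → ∀ (σ τ : List ℕ) (L : List (List ℕ)),
    LE δ (σ ++ τ) → (∀ p ∈ L, LE δ p) → Pos (endd o σ) L → AC (Dn L) →
    ∃ f : List ℕ → List ℕ,
      (∀ p ∈ L, p <+: f p ∧ LE δ (f p) ∧ (∀ s ∈ f p, s ∈ p ∨ ∃ g ∈ τ, ∃ α ∈ Ap g, s ∈ α) ∧
        ∀ ν, ν <+: f p → ν <+: p ∨ (endd o σ).1 < (endd o ν).1) ∧
      Pos (endd o (σ ++ τ)) (L.map f) ∧ AC (Dn (L.map f))

/-- Part FAN0 (from BASIC, MONO, CAN, ACCAN): canonical symbols from the ends of the strings to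
own states of a large public state `t`. -/
def Fan0Statement : Prop :=
  ∀ (δ : ℕ → Data) (u : ℕ → ℕ), LimD δ u → ∀ (σ : List ℕ) (X : List (List ℕ × ℕ)),
    LE δ σ → (∀ q ∈ X, LE δ q.1) → (∀ q ∈ X, ∀ q' ∈ X, q.2 = q'.2 → q = q') →
    AC (Dn (X.map Prod.fst)) →
    ∃ (t : St) (g : ℕ) (f : List ℕ × ℕ → ℕ), t.2 = [] ∧ VSL δ g ∧ src g = endd o σ ∧ tgt g = t ∧
      Ex g = [] ∧
      (∀ q ∈ X, q.2 < sz t.1 ∧ VSL δ (f q) ∧ Ex (f q) = [] ∧ src (f q) = endd o q.1 ∧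
        tgt (f q) = ow t q.2) ∧
      AC (Dn (X.map fun q => q.1 ++ [f q]))

/-- Part FAN (from FAN0, BASIC, MONO): the same, and the strings are extras of the symbol `g` of
the driver. -/
def FanStatement : Prop :=
  ∀ (δ : ℕ → Data) (u : ℕ → ℕ), LimD δ u → ∀ (σ : List ℕ) (L : List (List ℕ))
    (X : List (List ℕ × ℕ)), LE δ σ → Pos (endd o σ) L → (∀ p ∈ L, LE δ p) →
    (∀ q ∈ X, LE δ q.1 ∧ ∃ p ∈ L, p <+: q.1) →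
    (∀ q ∈ X, ∀ q' ∈ X, q.2 = q'.2 → q = q') → AC (Dn (X.map Prod.fst)) →
    ∃ (g : ℕ) (f : List ℕ × ℕ → ℕ), LE δ (σ ++ [g]) ∧
      (∀ q ∈ X, LE δ (q.1 ++ [f q]) ∧ endd o (q.1 ++ [f q]) = ow (endd o (σ ++ [g])) q.2 ∧
        ∀ s ∈ q.1 ++ [f q], (∃ p ∈ L, s ∈ p) ∨ ∃ e ∈ Ex g, s ∈ e.2) ∧
      AC (Dn (X.map fun q => q.1 ++ [f q]))

/-- Part KEPT (from EXTR): entered strings are comparable, and every label has a kept stem. -/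
def KeptStatement : Prop :=
  ∀ (Φ : ℕ → List ℕ → List ℕ) (V : ℕ → ℕ) (δ : ℕ → Data) (u : ℕ → ℕ) (T : List ℕ → Prop) (i : ℕ)
    (c₀ : Cnd3) (n₀ N : ℕ), Cx Φ V δ u T i c₀ n₀ N → ∀ a, Good Φ V δ T i c₀ N a →
    (∀ A A', Ent N a A → Ent N a A' → A <+: A' ∨ A' <+: A) ∧
    ∀ r ∈ a.im, ∃ p ∈ a.st, p.1 = r.1 ∧ ¬ Kld N a p

/-- Part STEP (from CARRY, FAN, KEPT): a step can be made above every string of the driver. -/
def StepStatement : Prop :=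
  ∀ (Φ : ℕ → List ℕ → List ℕ) (V : ℕ → ℕ) (δ : ℕ → Data) (u : ℕ → ℕ) (T : List ℕ → Prop) (i : ℕ)
    (c₀ : Cnd3) (n₀ N : ℕ), Cx Φ V δ u T i c₀ n₀ N → ∀ a, Good Φ V δ T i c₀ N a →
    ∀ σ, LE δ σ → a.sg <+: σ → ∃ a' : Cfg, σ <+: a'.sg ∧ LE δ a'.sg ∧
      a'.y = phi Φ V i a'.x ∧ Stp T c₀ N a a'

/-- Part START (from FAN0). -/
def StartStatement : Prop :=
  ∀ (Φ : ℕ → List ℕ → List ℕ) (V : ℕ → ℕ) (δ : ℕ → Data) (u : ℕ → ℕ) (T : List ℕ → Prop) (i : ℕ)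
    (c₀ : Cnd3) (n₀ N : ℕ), Cx Φ V δ u T i c₀ n₀ N → ∀ σ, LE δ σ →
    ∃ a : Cfg, σ <+: a.sg ∧ Good Φ V δ T i c₀ N a

/-- Part INV (from BASIC): a step preserves the invariant. -/
def InvStatement : Prop :=
  ∀ (Φ : ℕ → List ℕ → List ℕ) (V : ℕ → ℕ) (δ : ℕ → Data) (u : ℕ → ℕ) (T : List ℕ → Prop) (i : ℕ)
    (c₀ : Cnd3) (n₀ N : ℕ), Cx Φ V δ u T i c₀ n₀ N → ∀ a a', Good Φ V δ T i c₀ N a →
    Stp T c₀ N a a' → LE δ a'.sg → a'.y = phi Φ V i a'.x → Good Φ V δ T i c₀ N a'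

/-- Part END (from KEPT, EXTR, BASIC): in an infinite process, an entered image has an entered
child. -/
def EndStatement : Prop :=
  ∀ (Φ : ℕ → List ℕ → List ℕ) (V : ℕ → ℕ) (δ : ℕ → Data) (u : ℕ → ℕ) (T : List ℕ → Prop) (i : ℕ)
    (c₀ : Cnd3) (n₀ N : ℕ), Cx Φ V δ u T i c₀ n₀ N → ∀ A : ℕ → Cfg,
    (∀ j, Good Φ V δ T i c₀ N (A j)) → (∀ j, Stp T c₀ N (A j) (A (j + 1))) →
    (∃ j, Ent N (A j) []) ∧
    ∀ j, ∀ r ∈ (A j).im, Ent N (A j) r.2 → ∃ j' > j, ∃ r' ∈ (A j').im, ∃ k : ℕ,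
      r'.1 = r.1 ++ [k] ∧ Ent N (A j') r'.2

end Pool.Agent.Lib.MP_d48993_lc.Node.Proc
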