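import Pool.Agent.Lib.MP_d48993_lc.AE.Node.Interfaces

/-!
# Project NODE (MP_d48993), module CONT: stems can be continued into a large public root (helper17)
-/

set_option autoImplicit false

namespace Pool.Agent.Lib.MP_d48993_lc.Node

namespace ContM

theorem endd_append (σ : List ℕ) (s : ℕ) (x : St) : endd x (σ ++ [s]) = tgt s := by
  simp [endd]

theorem adm_o : Adm o := by
  constructor
  · simp [o]
  · intro b hb
    simp [o] at hb

/-- the end of a valid string -/
theorem endd_facts (hB : BasicStatement) {δ : Data} (hw : Wf δ) {τ : List ℕ}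
    (h : ∀ s ∈ τ, VS δ.W s) : Adm (endd o τ) ∧ (endd o τ).1 < δ.N := by
  rcases List.eq_nil_or_concat τ with rfl | ⟨σ, s, rfl⟩
  · exact ⟨adm_o, hw.pos⟩
  · rw [List.concat_eq_append] at h ⊢
    rw [endd_append]
    have hs : VS δ.W s := h s (by simp)
    have he := (hB δ.W hw.inv.fit).1 s hs
    exact ⟨(hw.inv.fit _ _ he).2.1, he.2.1⟩

theorem vstr_prefix (hC : CodesStatement) {W : World} {σ τ : List ℕ} (h : σ <+: τ)
    (hτ : VStr W o τ (endd o τ)) : VStr W o σ (endd o σ) := by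
  obtain ⟨ρ, rfl⟩ := h
  obtain ⟨-, -, -, -, -, -, -, -, -, -, -, hch, -⟩ := hC
  refine ⟨((hch o σ ρ _).1 hτ.1).1, fun s hs => hτ.2 s (by simp [hs])⟩

/-- the continuation -/
def nxt (f : List ℕ × List ℕ × List ℕ → ℕ) (e : List ℕ × List ℕ × List ℕ) :
    List ℕ × List ℕ × List ℕ := (e.1, e.2.1, e.2.2 ++ [f e])

end ContM

open ContM in
theorem cont (hC : CodesStatement) (hB : BasicStatement) (hM : MonoStatement)
    (hA : AccanStatement) (hCan : CanStatement) : ContStatement := by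
  intro δ T c hw hf hcv
  classical
  -- the ends of the stems
  have hx : ∀ e ∈ c.2, Adm (endd o e.2.2) ∧ (endd o e.2.2).1 < δ.N := fun e he =>
    endd_facts hB hw (hcv.stem e he).2.2
  choose! Kf hKf using fun (x : St) (h : Adm x ∧ x.1 < δ.N) => hCan δ hw hf x h.1 h.2
  obtain ⟨K0, hK0⟩ : ∃ K0 : ℕ, ∀ e ∈ c.2, Kf (endd o e.2.2) ≤ K0 := by
    refine ⟨(c.2.map fun e => Kf (endd o e.2.2)).sum, fun e he => ?_⟩
    exact List.single_le_sum (by simp) _ (List.mem_map.2 ⟨e, he, rfl⟩)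
  refine ⟨K0 + c.2.length + 2, ?_⟩
  intro δ' u hw' hext hu hNu hKu
  have hE := hM.2.2.1 δ δ' hw hext
  have hVS : ∀ s, VS δ.W s → VS δ'.W s := hM.1 δ.N δ.W δ'.W hE (fun x t h => h.2.1)
  -- the targets
  have hadm : ∀ j : ℕ, j < c.2.length → Adm (ow (u, []) j) := by
    intro j hj
    constructor
    · simp [ow]
      omega
    · intro b hb
      simp [ow] at hb
      subst hb
      show b < sz u
      omega
  have hrk : ∀ j : ℕ, rk (ow (u, []) j) = sz u - 1 := by
    intro j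
    simp [rk, ow]
  have hex : ∀ e : List ℕ × List ℕ × List ℕ, e ∈ c.2 → ∃ s, VS δ'.W s ∧ src s = endd o e.2.2 ∧
      tgt s = ow (u, []) (c.2.idxOf e) ∧ Ex s = [] := by
    intro e he
    have h1 := hK0 e he
    have hidx : c.2.idxOf e < c.2.length := List.idxOf_lt_length_iff.2 he
    refine hKf (endd o e.2.2) (hx e he) δ' hw' hext _ (hadm _ hidx) hu hNu ?_ ?_
    · rw [hrk]
      omega
    · show _ ≤ sz u
      omega
  choose! f hf1 hf2 hf3 hf4 using hex
  have hroot : Nd c [] := by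
    obtain ⟨p, hp⟩ := hcv.root
    exact ⟨_, hp, List.nil_prefix⟩
  have hNdv : ∀ ν, Nd c ν → VStr δ'.W o ν (endd o ν) := by
    rintro ν ⟨e, he, hν⟩
    refine vstr_prefix hC hν ?_
    exact ⟨(hcv.stem e he).2.1, fun s hs => hVS s ((hcv.stem e he).2.2 s hs)⟩
  have hNdr : ∀ ν, Nd c ν → (endd o ν).1 < δ.N := by
    rintro ν ⟨e, he, hν⟩
    exact (endd_facts hB hw (vstr_prefix hC hν (hcv.stem e he).2).2).2
  have hown : δ'.W.own u = none := by
    show ((δ'.2.2.2.2.find? (fun p => p.1 = u)).map Prod.snd) = none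
    rw [Option.map_eq_none_iff, List.find?_eq_none]
    intro p hp hpu
    have h1 := (hw'.own p hp).2
    rw [decide_eq_true_eq] at hpu
    exact h1 (hpu ▸ hu)
  have hac := hA δ' (Nd c) (u, []) (c.2.map fun e => (e.2.2, f e)) hw' hcv.ac hroot hNdv
    (by
      rintro ν ν' hνν ⟨e, he, hν⟩
      exact ⟨e, he, hνν.trans hν⟩)
    (by
      intro ν hν
      exact lt_of_lt_of_le (hNdr ν hν) hNu)
    (by
      intro p hp j hcl
      rw [List.mem_map] at hp
      obtain ⟨e, he, rfl⟩ := hp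
      have hlt := (hx e he).2
      cases hcl with
      | cone _ h =>
        have h1 : u = (endd o e.2.2).1 := h.1
        omega
      | own _ w h _ =>
        rw [hown] at h
        exact absurd h (by simp))
    (by
      intro p hp
      rw [List.mem_map] at hp
      obtain ⟨e, he, rfl⟩ := hp
      exact ⟨⟨e, he, List.prefix_rfl⟩, hf1 e he, hf4 e he, hf2 e he, _, hf3 e he⟩)
    (by
      intro p hp p' hp' h
      rw [List.mem_map] at hp hp'
      obtain ⟨e, he, rfl⟩ := hp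
      obtain ⟨e', he', rfl⟩ := hp'
      simp only [hf3 e he, hf3 e' he'] at h
      have h1 : c.2.idxOf e = c.2.idxOf e' := by
        simpa [ow] using h
      have h2 : e = e' := (List.idxOf_inj he).1 h1
      rw [h2])
  have hmem : ∀ e', e' ∈ c.2.map (nxt f) ↔ ∃ e ∈ c.2, nxt f e = e' := fun e' => List.mem_map
  have hsym : ∀ e ∈ c.2, ¬ VS δ.W (f e) := by
    intro e he hv
    have h1 := ((hB δ.W hw.inv.fit).1 _ hv).2.1
    rw [hf3 e he] at h1
    have h2 : u < δ.N := h1
    omega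
  refine ⟨(c.1, c.2.map (nxt f)), ?_, ?_, ?_, ?_⟩
  · -- validity
    refine ⟨?_, ?_, ?_, ?_, ?_, ?_, ?_, ?_, ?_⟩
    · obtain ⟨p, hp⟩ := hcv.root
      exact ⟨_, (hmem _).2 ⟨_, hp, rfl⟩⟩
    · intro e₁ h₁ e₂ h₂ h
      obtain ⟨e, he, rfl⟩ := (hmem _).1 h₁
      obtain ⟨e', he', rfl⟩ := (hmem _).1 h₂
      rw [hcv.uniq e he e' he' h]
    · intro e₁ h₁
      obtain ⟨e, he, rfl⟩ := (hmem _).1 h₁
      exact hcv.mem e he
    · intro e₁ h₁
      obtain ⟨e, he, rfl⟩ := (hmem _).1 h₁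
      have := hcv.img e he
      exact ⟨this.1, fun s hs => hVS s (this.2 s hs)⟩
    · intro e₁ h₁
      obtain ⟨e, he, rfl⟩ := (hmem _).1 h₁
      obtain ⟨h1, h2, h3⟩ := hcv.stem e he
      refine ⟨h1.trans (List.prefix_append _ _), ?_, ?_⟩
      · obtain ⟨-, -, -, -, -, -, -, -, -, -, -, hch, -⟩ := hC
        refine (hch o e.2.2 [f e] _).2 ⟨h2, ?_⟩
        refine ⟨hf2 e he, ?_⟩
        show tgt (f e) = endd o (e.2.2 ++ [f e])
        rw [endd_append]
      · intro s hs
        have hs' : s ∈ e.2.2 ++ [f e] := hs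
        rw [List.mem_append, List.mem_singleton] at hs'
        rcases hs' with hs' | rfl
        · exact hVS s (h3 s hs')
        · exact hf1 e he
    · intro e₁ h₁ e₂ h₂
      obtain ⟨e, he, rfl⟩ := (hmem _).1 h₁
      obtain ⟨e', he', rfl⟩ := (hmem _).1 h₂
      exact hcv.emb e he e' he'
    · intro e₁ h₁ e₂ h₂ h
      obtain ⟨e, he, rfl⟩ := (hmem _).1 h₁
      obtain ⟨e', he', rfl⟩ := (hmem _).1 h₂
      refine hcv.stemEmb e he e' he' ?_
      have h' : e'.2.1 <+: e.2.2 ++ [f e] := h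
      rw [List.prefix_concat_iff] at h'
      rcases h' with h' | h'
      · exfalso
        refine hsym e he ((hcv.img e' he').2 (f e) ?_)
        rw [h']
        simp
      · exact h'
    · intro e₁ h₁ hne
      obtain ⟨e, he, rfl⟩ := (hmem _).1 h₁
      obtain ⟨e', he', h'⟩ := hcv.parent e he hne
      exact ⟨_, (hmem _).2 ⟨e', he', rfl⟩, h'⟩
    · have hset : Nd (c.1, c.2.map (nxt f)) = fun ν => Nd c ν ∨
          ∃ p ∈ c.2.map fun e => (e.2.2, f e), ν = p.1 ++ [p.2] := by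
        funext ν
        rw [eq_iff_iff]
        constructor
        · rintro ⟨e₁, h₁, h⟩
          obtain ⟨e, he, rfl⟩ := (hmem _).1 h₁
          have h' : ν <+: e.2.2 ++ [f e] := h
          rw [List.prefix_concat_iff] at h'
          rcases h' with h' | h'
          · exact Or.inr ⟨_, List.mem_map.2 ⟨e, he, rfl⟩, h'⟩
          · exact Or.inl ⟨e, he, h'⟩
        · rintro (⟨e, he, h⟩ | ⟨p, hp, rfl⟩)
          · exact ⟨_, (hmem _).2 ⟨e, he, rfl⟩, h.trans (List.prefix_append _ _)⟩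
          · rw [List.mem_map] at hp
            obtain ⟨e, he, rfl⟩ := hp
            exact ⟨_, (hmem _).2 ⟨e, he, rfl⟩, List.prefix_rfl⟩
      rw [hset]
      exact hac
  · -- extension
    refine ⟨List.prefix_rfl, ?_, ?_, ?_⟩
    · intro e he
      exact ⟨_, List.prefix_append _ _, (hmem _).2 ⟨e, he, rfl⟩⟩
    · intro e₁ h₁ h
      obtain ⟨e, he, rfl⟩ := (hmem _).1 h₁
      exact absurd rfl (h e he)
    · intro n hn
      simp at hn
  · refine ⟨rfl, ?_, ?_⟩
    · intro e he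
      refine ⟨f e, hf1 e he, hf4 e he, hf2 e he, ?_, (hmem _).2 ⟨e, he, rfl⟩⟩
      rw [hf3 e he]
      rfl
    · intro e₁ h₁
      obtain ⟨e, he, rfl⟩ := (hmem _).1 h₁
      exact ⟨e, he, rfl⟩
  · intro e₁ h₁
    obtain ⟨e, he, rfl⟩ := (hmem _).1 h₁
    show (endd o (e.2.2 ++ [f e])).1 = u
    rw [endd_append, hf3 e he]
    rfl

end Pool.Agent.Lib.MP_d48993_lc.Node
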