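import Pool.Agent.Lib.MP_d48993_lc.AE.Node.Interfaces

/-!
# Project NODE (MP_d48993): module EXTR, extraction
-/

set_option autoImplicit false

namespace Pool.Agent.Lib.MP_d48993_lc.Node

namespace Extr

theorem ch_append (x : St) (σ τ : List ℕ) (z : St) (h : Ch x (σ ++ τ) z) :
    ∃ y, Ch x σ y ∧ Ch y τ z := by
  induction σ generalizing x with
  | nil => exact ⟨x, rfl, h⟩
  | cons s σ ih =>
    obtain ⟨h1, h2⟩ := h
    obtain ⟨y, hy1, hy2⟩ := ih (tgt s) h2
    exact ⟨y, ⟨h1, hy1⟩, hy2⟩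

theorem ch_endd (x : St) (τ : List ℕ) (y : St) (h : Ch x τ y) : y = endd x τ := by
  induction τ generalizing x with
  | nil => exact h.symm
  | cons s τ ih =>
    obtain ⟨h1, h2⟩ := h
    have := ih (tgt s) h2
    rw [this]
    unfold endd
    rw [List.getLast?_cons]
    cases τ.getLast? <;> rfl

theorem src_last (ν : List ℕ) (s : ℕ) (z : St) (h : Ch o ν z) (hs : ν.getLast? = some s) :
    src s = endd o ν.dropLast := by
  have e : ν = ν.dropLast ++ [s] := by
    rw [List.getLast?_eq_some_iff] at hs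
    obtain ⟨ys, rfl⟩ := hs
    simp
  rw [e] at h
  obtain ⟨y, hy1, hy2⟩ := ch_append _ _ _ _ h
  have h3 := ch_endd _ _ _ hy1
  rw [← h3]
  exact hy2.1

theorem endd_last (x : St) (ν : List ℕ) (s : ℕ) (hs : ν.getLast? = some s) :
    endd x ν = tgt s := by
  unfold endd
  rw [hs]
  rfl

theorem cone_refl (x : St) : Cone x x := ⟨rfl, List.prefix_refl _⟩

end Extr

open Extr

theorem extr (hB : BasicStatement) : ExtrStatement := by
  intro W S hI hAC hV hP
  obtain ⟨-, -, -, hroots, hsrc, -⟩ := hB W hI.fit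
  refine ⟨?_, ?_, ?_⟩
  · rintro v π π' ⟨ν, hS, hne, hd, hv⟩ ⟨ν', hS', hne', hd', hv'⟩
    by_contra hc
    have hd2 : ν.dropLast ≠ ν'.dropLast := by rw [hd, hd']; exact hc
    have hn : ν ≠ ν' := fun h => hd2 (by rw [h])
    exact (hAC ν ν' hS hS' hne hne' hn).1 hd2 v ⟨hv, hv'⟩
  · intro ν s a b hS hs hE
    have hne : ν ≠ [] := by
      rintro rfl
      simp at hs
    have hVs : VS W s := (hV ν hS).2 s (List.mem_of_getLast? hs)
    have hx : src s = endd o ν.dropLast := src_last ν s _ (hV ν hS).1 hs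
    refine ⟨⟨ν, hS, hne, rfl, s, hs, a, b, hE, cone_refl b⟩, ?_⟩
    rcases hsrc s hVs a b hE with h | ⟨a', b', hE', hc⟩
    · by_cases hd : ν.dropLast = []
      · left
        refine ⟨?_, hd⟩
        have h0 : src s = o := by rw [hx, hd]; rfl
        rw [h0] at h
        obtain ⟨h1, -⟩ := h
        have hf : Fit a b := hI.fit a b (hroots s hVs a b hE).1
        have hA : Adm a := hf.1
        have h2 : a.2.length ≤ sz a.1 := hA.1
        have h3 : a.1 = 0 := h1
        have h4 : sz a.1 = 0 := by rw [h3]; simp [sz]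
        have h5 : a.2 = [] := by
          rw [h4] at h2
          exact List.length_eq_zero_iff.1 (Nat.le_zero.1 h2)
        exact Prod.ext h3 h5
      · right
        right
        refine ⟨hd, ν.dropLast, hP _ _ (List.dropLast_prefix ν) hS, hd, rfl, ?_⟩
        obtain ⟨s', hs'⟩ : ∃ s', ν.dropLast.getLast? = some s' :=
          ⟨_, List.getLast?_eq_some_getLast hd⟩
        refine ⟨s', hs', src s', tgt s', HE.top s', ?_⟩
        rw [← endd_last o ν.dropLast s' hs', ← hx]
        exact h
    · right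
      left
      exact ⟨ν, hS, hne, rfl, s, hs, a', b', hE', hc⟩
  · rintro v ⟨ν, hS, hne, hd, s, hs, a, b, hE, hc⟩
    have hVs : VS W s := (hV ν hS).2 s (List.mem_of_getLast? hs)
    have hf : Fit a b := hI.fit a b (hroots s hVs a b hE).1
    have h1 : a.1 < b.1 := hf.2.2.1
    have h2 : (0 : ℕ) = b.1 := hc.1
    omega

end Pool.Agent.Lib.MP_d48993_lc.Node
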