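import Pool.Agent.Lib.MP_d48993_lc.AE.Node.Ltree
import Pool.Agent.Lib.MP_d48993_lc.Red

/-!
# Module HP (helper79): property (H)

Every path of the tree of the limit computes (with `V`) a path of every tree `Tr e` which is
computed by the generic paths.
-/

set_option autoImplicit false

namespace Pool.Agent.Lib.MP_d48993_lc.Node

open MP_8c048d_lc (pre join RecF Sig Clo Cop Del)

namespace Hp

open Ltree

/-! ### Computability -/

/-- The strings `μ j`, with the help of the odd part of `F`. -/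
def muF (μ₀ : List ℕ) (i₀ : ℕ) (j : ℕ) (F : ℕ → ℕ) : List ℕ :=
  Nat.rec (motive := fun _ => List ℕ) μ₀
    (fun k r => r ++ ((Ap (F (2 * (i₀ + k) + 1)))[0]?).getD []) j

theorem muF_zero (μ₀ : List ℕ) (i₀ : ℕ) (F : ℕ → ℕ) : muF μ₀ i₀ 0 F = μ₀ := rfl

theorem muF_succ (μ₀ : List ℕ) (i₀ j : ℕ) (F : ℕ → ℕ) :
    muF μ₀ i₀ (j + 1) F = muF μ₀ i₀ j F ++ ((Ap (F (2 * (i₀ + j) + 1)))[0]?).getD [] := rfl

theorem recF_mu (cAp : Computable Ap) (μ₀ : List ℕ) (i₀ : ℕ) :
    RecF (fun (j : ℕ) (F : ℕ → ℕ) => muF μ₀ i₀ j F) := by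
  have e1 : Computable (fun q : Unit × ℕ × List ℕ => 2 * (i₀ + q.2.1) + 1) := by
    have h : Primrec (fun q : Unit × ℕ × List ℕ => 2 * (i₀ + q.2.1) + 1) :=
      Primrec.succ.comp (Primrec.nat_mul.comp (Primrec.const 2)
        (Primrec.nat_add.comp (Primrec.const i₀) (Primrec.fst.comp Primrec.snd)))
    exact h.to_comp
  have e2 : Computable (fun s : ℕ => ((Ap s)[0]?).getD []) :=
    Computable.option_getD (Computable.list_getElem?.comp cAp (Computable.const 0))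
      (Computable.const [])
  have e3 : RecF (fun (q : Unit × ℕ × List ℕ) (F : ℕ → ℕ) =>
      ((Ap (F (2 * (i₀ + q.2.1) + 1)))[0]?).getD []) := (RecF.at e1).comp e2
  have e4 : RecF (fun (q : Unit × ℕ × List ℕ) (F : ℕ → ℕ) =>
      q.2.2 ++ ((Ap (F (2 * (i₀ + q.2.1) + 1)))[0]?).getD []) :=
    ((RecF.of_computable (f := fun q : Unit × ℕ × List ℕ => q.2.2)
      (Computable.snd.comp Computable.snd)).pair e3).comp
      (g := fun p : List ℕ × List ℕ => p.1 ++ p.2)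
      (Computable.list_append.comp Computable.fst Computable.snd)
  have e5 := RecF.natRec (α := Unit) (g := fun _ _ => μ₀)
    (RecF.of_computable (Computable.const μ₀)) e4
  exact e5.comp₁ (f := fun j : ℕ => ((), j)) (Computable.pair (Computable.const ()) Computable.id)

/-- The oracle `V` (even part of `F`) and the string `l`. -/
def jF (l : List ℕ) (F : ℕ → ℕ) : List ℕ :=
  pre (join (fun i => F (2 * i)) (fun i => (l[i]?).getD 0)) (2 * l.length)

theorem jF_join (V O : ℕ → ℕ) (l : List ℕ) : jF l (join V O) = jnV V l := by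
  unfold jF jnV
  simp only [MP_8c048d_lc.join_even]

theorem recF_jF : RecF (fun (l : List ℕ) (F : ℕ → ℕ) => jF l F) := by
  have e1 : RecF (fun (p : List ℕ × ℕ) (F : ℕ → ℕ) => F (2 * p.2)) :=
    RecF.at ((Primrec.nat_mul.comp (Primrec.const 2) Primrec.snd).to_comp)
  have e2 : RecF (fun (p : List ℕ × ℕ) (_ : ℕ → ℕ) => (p.1[p.2]?).getD 0) :=
    RecF.of_computable (Computable.option_getD
      (Computable.list_getElem?.comp Computable.fst Computable.snd) (Computable.const 0))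
  have e3 := RecF.joinF (α := List ℕ) (Ψ := fun _ F i => F (2 * i))
    (Φ := fun l _ i => (l[i]?).getD 0) e1 e2
  have e4 := RecF.pre' (α := List ℕ)
    (Ψ := fun l F => join (fun i => F (2 * i)) (fun i => (l[i]?).getD 0)) e3
  have e5 : Computable (fun l : List ℕ => (l, 2 * l.length)) :=
    (Primrec.pair Primrec.id
      (Primrec.nat_mul.comp (Primrec.const 2) Primrec.list_length)).to_comp
  exact e4.comp₁ (f := fun l : List ℕ => (l, 2 * l.length)) e5

theorem recF_val {Φ : ℕ → List ℕ → List ℕ} (hΦ : Computable₂ Φ) (cAp : Computable Ap)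
    (a : ℕ) (μ₀ : List ℕ) (i₀ : ℕ) :
    RecF (fun (p : ℕ × ℕ) (F : ℕ → ℕ) => (Φ a (jF (muF μ₀ i₀ p.2 F) F))[p.1]?) := by
  have e1 : RecF (fun (j : ℕ) (F : ℕ → ℕ) => jF (muF μ₀ i₀ j F) F) :=
    RecF.bind recF_jF (recF_mu cAp μ₀ i₀)
  have e2 : RecF (fun (p : ℕ × ℕ) (F : ℕ → ℕ) => jF (muF μ₀ i₀ p.2 F) F) :=
    e1.comp₁ (f := fun p : ℕ × ℕ => p.2) Computable.snd
  have e3 : Computable (fun q : ℕ × List ℕ => (Φ a q.2)[q.1]?) :=
    Computable.list_getElem?.comp (hΦ.comp (Computable.const a) Computable.snd) Computable.fst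
  exact ((RecF.of_computable (f := fun p : ℕ × ℕ => p.1) Computable.fst).pair e2).comp
    (g := fun q : ℕ × List ℕ => (Φ a q.2)[q.1]?) e3

/-- A path computed as the limit of growing strings. -/
theorem hasPath_of {Φ : ℕ → List ℕ → List ℕ} (hΦ : Computable₂ Φ) (cAp : Computable Ap)
    (a : ℕ) (μ₀ : List ℕ) (i₀ : ℕ) (V O : ℕ → ℕ) (T : List ℕ → Prop)
    (hT : ∀ σ τ, σ <+: τ → T τ → T σ)
    (h1 : ∀ j, T (phi Φ V a (muF μ₀ i₀ j (join V O))))
    (h2 : ∀ j j', j ≤ j' → phi Φ V a (muF μ₀ i₀ j (join V O)) <+: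
      phi Φ V a (muF μ₀ i₀ j' (join V O)))
    (h3 : ∀ M : ℕ, ∃ j, M ≤ (phi Φ V a (muF μ₀ i₀ j (join V O))).length) :
    HasPath (join V O) T := by
  set ψ : ℕ → List ℕ := fun j => phi Φ V a (muF μ₀ i₀ j (join V O)) with hψ
  let P : ℕ → ℕ → (ℕ → ℕ) → Prop := fun n m F =>
    (Φ a (jF (muF μ₀ i₀ m.unpair.1 F) F))[n]? = some m.unpair.2
  have hP : Cop (fun (p : ℕ × ℕ) F => P p.1 p.2 F) := by
    have e1 : RecF (fun (p : ℕ × ℕ) (F : ℕ → ℕ) =>
        (Φ a (jF (muF μ₀ i₀ p.2.unpair.1 F) F))[p.1]?) :=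
      (recF_val hΦ cAp a μ₀ i₀).comp₁ (f := fun p : ℕ × ℕ => (p.1, p.2.unpair.1))
        (Computable.pair Computable.fst (Computable.fst.comp
          (Primrec.unpair.to_comp.comp Computable.snd)))
    have e2 : RecF (fun (p : ℕ × ℕ) (_ : ℕ → ℕ) => (some p.2.unpair.2 : Option ℕ)) :=
      RecF.of_computable (Computable.option_some.comp (Computable.snd.comp
        (Primrec.unpair.to_comp.comp Computable.snd)))
    exact MP_8c048d_lc.Cop.of_recF (e1.pair e2) (p := fun q : Option ℕ × Option ℕ => q.1 = q.2)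
      cp_eq
  have hval : ∀ n m, P n m (join V O) ↔ (ψ m.unpair.1)[n]? = some m.unpair.2 := by
    intro n m
    show (Φ a (jF (muF μ₀ i₀ m.unpair.1 (join V O)) (join V O)))[n]? = some m.unpair.2 ↔ _
    rw [jF_join]
    rfl
  obtain ⟨f', hf', hf1⟩ := redMu P hP (join V O) (by
    intro n
    obtain ⟨j, hj⟩ := h3 (n + 1)
    have hj' : n < (ψ j).length := hj
    refine ⟨Nat.pair j ((ψ j)[n]'hj'), ?_⟩
    rw [hval]
    simp only [Nat.unpair_pair]
    exact List.getElem?_eq_getElem _)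
  have hrec : RecF (fun (n : ℕ) (G : ℕ → ℕ) => (G n).unpair.2) :=
    (RecF.at (f := fun n : ℕ => n) Computable.id).comp (g := fun m : ℕ => m.unpair.2)
      (Computable.snd.comp Primrec.unpair.to_comp)
  refine ⟨fun n => (f' n).unpair.2, red1_trans hrec hf', fun k => ?_⟩
  obtain ⟨j, hj⟩ := h3 k
  have key : pre (fun n => (f' n).unpair.2) k = (ψ j).take k := by
    apply List.ext_getElem?
    intro n
    rw [MP_8c048d_lc.pre_getElem?]
    by_cases hn : n < k
    · rw [if_pos hn, List.getElem?_take_of_lt hn]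
      have h4 := (hval n (f' n)).1 (hf1 n)
      rcases le_total j (f' n).unpair.1 with h5 | h5
      · obtain ⟨r, hr⟩ := h2 _ _ h5
        rw [← hψ] at *
        have h6 : (ψ (f' n).unpair.1)[n]? = (ψ j)[n]? := by
          show (phi Φ V a (muF μ₀ i₀ (f' n).unpair.1 (join V O)))[n]? = _
          rw [← hr, List.getElem?_append_left (by omega)]
        rw [← h6, h4]
      · obtain ⟨r, hr⟩ := h2 _ _ h5
        have h7 : n < (ψ (f' n).unpair.1).length := by
          by_contra h8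
          rw [List.getElem?_eq_none (by omega)] at h4
          exact absurd h4 (by simp)
        have h6 : (ψ (f' n).unpair.1)[n]? = (ψ j)[n]? := by
          show _ = (phi Φ V a (muF μ₀ i₀ j (join V O)))[n]?
          rw [← hr, List.getElem?_append_left h7]
        rw [← h6, h4]
    · rw [if_neg hn, List.getElem?_eq_none]
      rw [List.length_take]
      omega
  rw [key]
  exact hT _ _ (List.take_prefix _ _) (h1 j)

/-! ### Strings -/

theorem jnV_mono (V : ℕ → ℕ) {ρ ρ' : List ℕ} (h : ρ <+: ρ') : jnV V ρ <+: jnV V ρ' := by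
  obtain ⟨r, rfl⟩ := h
  unfold jnV
  have h1 : pre (join V (fun i => (ρ[i]?).getD 0)) (2 * ρ.length) =
      pre (join V (fun i => ((ρ ++ r)[i]?).getD 0)) (2 * ρ.length) := by
    apply MP_8c048d_lc.pre_congr
    intro i hi
    unfold join
    by_cases h2 : i % 2 = 0
    · rw [if_pos h2, if_pos h2]
    · rw [if_neg h2, if_neg h2]
      show (ρ[i / 2]?).getD 0 = ((ρ ++ r)[i / 2]?).getD 0
      rw [List.getElem?_append_left (by omega)]
  rw [h1]
  have h2 : 2 * ρ.length ≤ 2 * (ρ ++ r).length := by rw [List.length_append]; omega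
  have h3 := MP_8c048d_lc.pre_take (join V (fun i => ((ρ ++ r)[i]?).getD 0))
    (2 * (ρ ++ r).length) (2 * ρ.length)
  rw [min_eq_left h2] at h3
  rw [← h3]
  exact List.take_prefix _ _

theorem phi_mono {Φ : ℕ → List ℕ → List ℕ} (hΦ : IsEnum Φ) (V : ℕ → ℕ) (a : ℕ)
    {ρ ρ' : List ℕ} (h : ρ <+: ρ') : phi Φ V a ρ <+: phi Φ V a ρ' :=
  hΦ.mono _ _ _ (jnV_mono V h)

/-! ### The path -/

section

variable {Φ : ℕ → List ℕ → List ℕ} {Tr : ℕ → List ℕ → Prop} {TU : List ℕ → Prop} {V : ℕ → ℕ}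
  {δ : ℕ → Data} {u : ℕ → ℕ} {O : ℕ → ℕ}

/-- The main states of a path. -/
def xs (O : ℕ → ℕ) (i : ℕ) : St := endd o (pre O i)

theorem symb (hC : CodesStatement) (hM : MonoStatement) (h : Lim Φ Tr TU V δ u)
    (hO : ∀ k, LE δ (pre O k)) (i : ℕ) :
    src (O i) = xs O i ∧ tgt (O i) = xs O (i + 1) ∧ ∃ n, ∀ m, n ≤ m → VS (δ m).W (O i) := by
  obtain ⟨n, hn⟩ := hO (i + 1)
  obtain ⟨-, -, -, -, -, -, -, -, -, -, -, c2, -⟩ := hC
  have h1 := hn.1
  rw [MP_8c048d_lc.pre_succ, c2] at h1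
  obtain ⟨-, h2, h3⟩ := h1
  refine ⟨h2, ?_, n, fun m hm => ?_⟩
  · have h4 : tgt (O i) = endd o (pre O i ++ [O i]) := h3
    rw [h4, ← MP_8c048d_lc.pre_succ]
    rfl
  · refine (vstr_mono hM h hm hn).2 (O i) ?_
    rw [MP_8c048d_lc.pre_succ]
    simp

theorem fit (hC : CodesStatement) (hB : BasicStatement) (hM : MonoStatement)
    (h : Lim Φ Tr TU V δ u) (hO : ∀ k, LE δ (pre O k)) (i : ℕ) : Fit (xs O i) (xs O (i + 1)) := by
  obtain ⟨h1, h2, n, h3⟩ := symb hC hM h hO i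
  rw [← h1, ← h2]
  exact dfit _ _ _ ((hB (δ n).W (dfit _)).1 _ (h3 n le_rfl))

theorem xs_adm (hC : CodesStatement) (hB : BasicStatement) (hM : MonoStatement)
    (h : Lim Φ Tr TU V δ u) (hO : ∀ k, LE δ (pre O k)) (i : ℕ) : Adm (xs O i) :=
  (fit hC hB hM h hO i).1

theorem xs_large (hC : CodesStatement) (hB : BasicStatement) (hM : MonoStatement)
    (h : Lim Φ Tr TU V δ u) (hO : ∀ k, LE δ (pre O k)) (i : ℕ) :
    i ≤ (xs O i).1 ∧ i ≤ rk (xs O i) := by
  induction i with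
  | zero => exact ⟨Nat.zero_le _, Nat.zero_le _⟩
  | succ i ih =>
    obtain ⟨-, -, f1, f2, -⟩ := fit hC hB hM h hO i
    exact ⟨lt_of_le_of_lt ih.1 f1, lt_of_le_of_lt ih.2 f2⟩

theorem pub_iff (h : Lim Φ Tr TU V δ u) (m r : ℕ) : r ∈ (δ m).pub ↔ ∃ n < m, r = u n := by
  induction m with
  | zero => rw [h.zero.1]; simp
  | succ m ih =>
    rw [h.pub, List.mem_append, ih, List.mem_singleton]
    constructor
    · rintro (⟨n, hn, rfl⟩ | rfl)
      · exact ⟨n, by omega, rfl⟩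
      · exact ⟨m, by omega, rfl⟩
    · rintro ⟨n, hn, rfl⟩
      by_cases h1 : n = m
      · right; rw [h1]
      · left; exact ⟨n, by omega, rfl⟩

/-- A private edge appears at some stage. -/
theorem prv_stage (h : Lim Φ Tr TU V δ u) (p : St × St) (m : ℕ) (hp : p ∈ (δ m).prv) :
    ∃ n, u n ≤ p.1.1 ∧ p.2.1 < (δ (n + 1)).N := by
  induction m with
  | zero => rw [h.zero.2] at hp; simp at hp
  | succ m ih =>
    by_cases h1 : p ∈ (δ m).prv
    · exact ih h1
    · exact ⟨m, h.prv m p hp h1, ((h.wf (m + 1)).prv p hp).2.1⟩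

theorem N_mono (hM : MonoStatement) (h : Lim Φ Tr TU V δ u) {m n : ℕ} (hmn : m ≤ n) :
    (δ m).N ≤ (δ n).N := (lim_dext hM h m n hmn).N

/-- A path meets infinitely many public states. -/
theorem exists_pub (hC : CodesStatement) (hB : BasicStatement) (hM : MonoStatement)
    (h : Lim Φ Tr TU V δ u) (hO : ∀ k, LE δ (pre O k)) (k : ℕ) :
    ∃ i, k ≤ i ∧ ∃ n, (xs O i).1 = u n := by
  by_contra hcon
  push Not at hcon
  have key : ∀ i, k ≤ i → ∃ n, (δ n).N ≤ (xs O i).1 ∧ (xs O (i + 1)).1 < (δ (n + 1)).N := by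
    intro i hi
    obtain ⟨h1, h2, m, h3⟩ := symb hC hM h hO i
    have he := (hB (δ m).W (dfit _)).1 _ (h3 m le_rfl)
    rw [h1, h2] at he
    obtain ⟨-, -, he⟩ := he
    rcases he with he | he
    · obtain ⟨n, -, hn⟩ := (pub_iff h m _).1 he
      exact absurd hn (hcon (i + 1) (by omega) n)
    · obtain ⟨n, hn1, hn2⟩ := prv_stage h _ m he
      exact ⟨n, (h.root n).1.trans hn1, hn2⟩
  obtain ⟨n₀, -, hn₀⟩ := key k le_rfl
  have bd : ∀ i, k ≤ i → (xs O (i + 1)).1 < (δ (n₀ + 1)).N := by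
    intro i hi
    induction i, hi using Nat.le_induction with
    | base => exact hn₀
    | succ i hi ih =>
      obtain ⟨n', h1, h2⟩ := key (i + 1) (by omega)
      have h3 : n' ≤ n₀ := by
        by_contra h4
        have := N_mono hM h (show n₀ + 1 ≤ n' by omega)
        omega
      exact lt_of_lt_of_le h2 (N_mono hM h (by omega))
  have h5 := bd (max k (δ (n₀ + 1)).N) (le_max_left _ _)
  have h6 := (xs_large hC hB hM h hO (max k (δ (n₀ + 1)).N + 1)).1
  have h7 := le_max_right k (δ (n₀ + 1)).N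
  omega

/-- The first side string of the symbol number `i`. -/
theorem side (hC : CodesStatement) (hB : BasicStatement) (hM : MonoStatement)
    (h : Lim Φ Tr TU V δ u) (hO : ∀ k, LE δ (pre O k)) (i : ℕ) (hi : 0 < rk (xs O i)) :
    ∃ n, ∀ m, n ≤ m → ∃ β s', ((Ap (O i))[0]?).getD [] = β ++ [s'] ∧
      (δ m).W.adv (ow (xs O i) 0) = some β ∧
      VStr (δ m).W (ow (xs O i) 0) (β ++ [s']) (ow (xs O (i + 1)) 0) := by
  obtain ⟨h1, h2, n, h3⟩ := symb hC hM h hO i
  refine ⟨n, fun m hm => ?_⟩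
  have hs := h3 m hm
  obtain ⟨-, -, -, -, -, b6, b7, -⟩ := hB (δ m).W (dfit _)
  have hr : 0 < rk (src (O i)) := by rw [h1]; exact hi
  have hsz : 0 < 2 * sz (src (O i)).1 := by
    unfold rk at hr
    omega
  obtain ⟨α, hα1, hα2⟩ := b6 (O i) hs hr 0 hsz
  obtain ⟨β, hβ1, hβ2⟩ := b7 (O i) hs hr
  obtain ⟨s', hs1, -⟩ := hβ2 0 (by norm_num)
  have hα : α = β ++ [s'] := by
    rw [hα1] at hs1
    exact Option.some.inj hs1
  refine ⟨β, s', ?_, ?_, ?_⟩
  · rw [hs1]; rfl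
  · rw [← h1]; exact hβ1
  · rw [← hα, ← h1, ← h2]
    exact hα2

end

end Hp

open Ltree Hp

theorem hp (hC : CodesStatement) (hB : BasicStatement) (hM : MonoStatement)
    (hCan : CanStatement) : HpStatement := by
  intro Φ Tr TU V δ u hΦ hTr h e hG O hO
  obtain ⟨a, ρ, hρ, hgen⟩ := hG
  have hC' := hC
  obtain ⟨-, -, -, -, -, -, cAp, -, -, -, c1, c2, c3⟩ := hC'
  -- the start
  obtain ⟨n₁, hn₁⟩ := hρ
  obtain ⟨hzA, hzN⟩ := end_adm hB (h.wf n₁) hn₁
  obtain ⟨K, hK⟩ := hCan (δ n₁) (h.wf n₁) (h.full n₁) (endd o ρ) hzA hzN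
  obtain ⟨i₀, hi₀, n₀, hn₀⟩ := exists_pub hC hB hM h hO (max (K + 1) (δ n₁).N)
  have hlarge := xs_large hC hB hM h hO i₀
  have hm1 := le_max_left (K + 1) (δ n₁).N
  have hm2 := le_max_right (K + 1) (δ n₁).N
  have hrk : K + 1 ≤ rk (xs O i₀) := by omega
  have hrk' : K + 1 ≤ sz (xs O i₀).1 - (xs O i₀).2.length := hrk
  obtain ⟨s, hs, hs1, hs2, -⟩ := hK (δ (max n₁ (n₀ + 1))) (h.wf _)
    (lim_dext hM h _ _ (le_max_left _ _)) (ow (xs O i₀) 0)
    (adm_ow (xs_adm hC hB hM h hO i₀) (by omega))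
    (by
      show (xs O i₀).1 ∈ _
      rw [hn₀, pub_iff h]
      exact ⟨n₀, lt_of_lt_of_le (Nat.lt_succ_self _) (le_max_right _ _), rfl⟩)
    (by show (δ n₁).N ≤ (xs O i₀).1; omega)
    (by
      show K ≤ sz (xs O i₀).1 - ((xs O i₀).2 ++ [0]).length
      rw [List.length_append, List.length_singleton]
      omega)
    (by show K ≤ sz (xs O i₀).1; omega)
  have hμ₀ : VStr (δ (max n₁ (n₀ + 1))).W o (ρ ++ [s]) (ow (xs O i₀) 0) := by
    have e1 := vstr_mono hM h (le_max_left n₁ (n₀ + 1)) hn₁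
    have e2 := vstr_single hs
    rw [hs1, hs2] at e2
    exact vstr_append hC e1 e2
  set F := join V O with hF
  set μ : ℕ → List ℕ := fun j => muF (ρ ++ [s]) i₀ j F with hμ
  have hμs : ∀ j, μ (j + 1) = μ j ++ ((Ap (O (i₀ + j)))[0]?).getD [] := by
    intro j
    show muF (ρ ++ [s]) i₀ (j + 1) F = _
    rw [muF_succ, hF, MP_8c048d_lc.join_odd]
  have hpos : ∀ j, 0 < rk (xs O (i₀ + j)) := by
    intro j
    have := (xs_large hC hB hM h hO (i₀ + j)).2
    omega
  have hμv : ∀ j, ∃ n, ∀ m, n ≤ m → VStr (δ m).W o (μ j) (ow (xs O (i₀ + j)) 0) := by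
    intro j
    induction j with
    | zero => exact ⟨_, fun m hm => vstr_mono hM h hm hμ₀⟩
    | succ j ih =>
      obtain ⟨n, hn⟩ := ih
      obtain ⟨n', hn'⟩ := side hC hB hM h hO (i₀ + j) (hpos j)
      refine ⟨max n n', fun m hm => ?_⟩
      obtain ⟨β, s', e1, -, e2⟩ := hn' m ((le_max_right _ _).trans hm)
      rw [hμs j, e1]
      exact vstr_append hC (hn m ((le_max_left _ _).trans hm)) e2
  have hμp : ∀ j j', j ≤ j' → μ j <+: μ j' := by
    intro j j' hj
    induction j', hj using Nat.le_induction with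
    | base => exact List.prefix_refl _
    | succ j' _ ih =>
      rw [hμs j']
      exact ih.trans (List.prefix_append _ _)
  have hρμ : ∀ j, ρ <+: μ j := fun j =>
    (List.prefix_append ρ [s]).trans (hμp 0 j (Nat.zero_le _))
  have hLE : ∀ j, LE δ (μ j) := fun j => by
    obtain ⟨n, hn⟩ := hμv j
    exact ⟨n, vstr_end hC (hn n le_rfl)⟩
  refine hasPath_of hΦ.comp cAp a (ρ ++ [s]) i₀ V O (Tr e) (hTr.tree e)
    (fun j => (hgen (μ j) (hρμ j) (hLE j)).1) (fun j j' hj => phi_mono hΦ V a (hμp j j' hj)) ?_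
  intro M
  -- a public state of large root
  obtain ⟨i, hi, n, hn⟩ := exists_pub hC hB hM h hO (max i₀ (δ (max a M + 1)).N)
  obtain ⟨j, rfl⟩ : ∃ j, i = i₀ + j := ⟨i - i₀, by have := le_max_left i₀ (δ (max a M + 1)).N; omega⟩
  have hnC : max a M < n := by
    by_contra h4
    have e1 := N_mono hM h (show n + 1 ≤ max a M + 1 by omega)
    have e2 := h.lt n
    have e3 := (xs_large hC hB hM h hO (i₀ + j)).1
    have e4 := le_max_right i₀ (δ (max a M + 1)).N
    omega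
  have han : a < n := lt_of_le_of_lt (le_max_left _ _) hnC
  have hMn : M < n := lt_of_le_of_lt (le_max_right _ _) hnC
  have hyA : Adm (ow (xs O (i₀ + j)) 0) := adm_ow (xs_adm hC hB hM h hO _) (hpos j)
  obtain ⟨α, hα, hhit⟩ := h.hit n (ow (xs O (i₀ + j)) 0) hyA ⟨_, rfl⟩ hn
  obtain ⟨n₂, hn₂⟩ := hμv j
  obtain ⟨n₃, hn₃⟩ := side hC hB hM h hO (i₀ + j) (hpos j)
  set m := max (n + 1) (max n₂ n₃) with hm
  have hm1' : n + 1 ≤ m := le_max_left _ _
  have hm2' : n₂ ≤ m := (le_max_left _ _).trans (le_max_right _ _)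
  have hm3' : n₃ ≤ m := (le_max_right _ _).trans (le_max_right _ _)
  obtain ⟨β, s', e1, e2, e3⟩ := hn₃ m hm3'
  have hαβ : α = β := by
    have e4 := (hM.2.2.1 _ _ (h.wf (n + 1)) (lim_dext hM h _ _ hm1')).adv _ _ hα
    rw [e2] at e4
    exact (Option.some.inj e4).symm
  subst hαβ
  have hv1 : VStr (δ (n + 1)).W o (μ j) (ow (xs O (i₀ + j)) 0) := by
    refine vstr_back hB hM (h.wf _) (h.full _) (lim_dext hM h _ _ hm1') (hn₂ m hm2') ?_
    show (xs O (i₀ + j)).1 < _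
    rw [hn]
    exact h.lt n
  have hpre : μ j ++ α <+: μ (j + 1) := by
    rw [hμs j, e1, ← List.append_assoc]
    exact List.prefix_append _ _
  rcases hhit (μ j) hv1 a han M hMn with h5 | h5
  · exact ⟨j + 1, h5.trans (phi_mono hΦ V a hpre).length_le⟩
  · exfalso
    have hLα : LE δ (μ j ++ α) := by
      obtain ⟨n₄, hn₄⟩ := hLE (j + 1)
      obtain ⟨r, hr⟩ := hpre
      refine ⟨n₄, ?_, fun t ht => hn₄.2 t (by rw [← hr]; exact List.mem_append_left _ ht)⟩
      have e4 := hn₄.1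
      rw [← hr, c2] at e4
      exact e4.1
    obtain ⟨ρ'', hp1, hp2, hp3⟩ := (hgen (μ j ++ α) ((hρμ j).trans (List.prefix_append _ _))
      hLα).2 M
    obtain ⟨μ', rfl⟩ := hp1
    obtain ⟨n₅, hn₅⟩ := hp2
    have hn₆ := vstr_mono hM h (le_max_right (n + 1) n₅) hn₅
    have hend : endd o (μ j ++ α) = endd (ow (xs O (i₀ + j)) 0) α := by
      rw [c3, ← c1 _ _ _ hv1.1]
    have hv2 : VStr (δ (max (n + 1) n₅)).W (endd (ow (xs O (i₀ + j)) 0) α) μ'
        (endd o (μ j ++ α ++ μ')) := by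
      refine ⟨?_, fun t ht => hn₆.2 t (List.mem_append_right _ ht)⟩
      rw [← hend]
      exact ((c2 _ _ _ _).1 hn₆.1).2
    have h6 := h5 (δ (max (n + 1) n₅)) (lim_dext hM h _ _ (le_max_left _ _)) (h.wf _) (h.full _)
      μ' _ hv2
    have h7 : M ≤ (phi Φ V a (μ j ++ α ++ μ')).length := hp3
    omega

end Pool.Agent.Lib.MP_d48993_lc.Node
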