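import Pool.Agent.Lib.MP_d48993_lc.AE.Node.Adopta
import Pool.Agent.Lib.MP_d48993_lc.AE.Node.Adoptb
import Pool.Agent.Lib.MP_d48993_lc.AE.Node.Baire
import Pool.Agent.Lib.MP_d48993_lc.AE.Node.Basic
import Pool.Agent.Lib.MP_d48993_lc.AE.Node.Can
import Pool.Agent.Lib.MP_d48993_lc.AE.Node.Codes
import Pool.Agent.Lib.MP_d48993_lc.AE.Node.Cont
import Pool.Agent.Lib.MP_d48993_lc.AE.Node.Decc
import Pool.Agent.Lib.MP_d48993_lc.AE.Node.Decide
import Pool.Agent.Lib.MP_d48993_lc.AE.Node.Decv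
import Pool.Agent.Lib.MP_d48993_lc.AE.Node.Dens3
import Pool.Agent.Lib.MP_d48993_lc.AE.Node.Extr
import Pool.Agent.Lib.MP_d48993_lc.AE.Node.Finv
import Pool.Agent.Lib.MP_d48993_lc.AE.Node.Hp
import Pool.Agent.Lib.MP_d48993_lc.AE.Node.Kills
import Pool.Agent.Lib.MP_d48993_lc.AE.Node.LimcB
import Pool.Agent.Lib.MP_d48993_lc.AE.Node.Limit
import Pool.Agent.Lib.MP_d48993_lc.AE.Node.Ltree
import Pool.Agent.Lib.MP_d48993_lc.AE.Node.Ltree0
import Pool.Agent.Lib.MP_d48993_lc.AE.Node.Mono
import Pool.Agent.Lib.MP_d48993_lc.AE.Node.Node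
import Pool.Agent.Lib.MP_d48993_lc.AE.Node.Own
import Pool.Agent.Lib.MP_d48993_lc.AE.Node.Recur
import Pool.Agent.Lib.MP_d48993_lc.AE.Node.Stagea
import Pool.Agent.Lib.MP_d48993_lc.AE.Node.Xreal

/-!
# Project NODE (MP_d48993): the assembly
-/

set_option autoImplicit false

namespace Pool.Agent.Lib.MP_d48993_lc.Node

/-- The modules from the statements that are not proved yet. -/
theorem node_all (hAcc : AccanStatement) (hProc : ProcStatement) : NodeStatement := by
  have hC := codes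
  have hB := basic hC
  have hM := mono hC hB
  have hO := own hB
  have hF := finv hC hB
  have hDV := decv hC
  have hDC := decc hC hDV
  have hCan := can hC hM
  have hSt := stagea hC (adopta hC hB hM hO) hF hM hB
  have hK := kills (adoptb hC hB hM) hC hB hM hDV hDC
  have hCont := cont hC hB hM hAcc hCan
  have hDens := dens3 hC hB hM hCan hAcc
  have hL0 := ltree0 hC hB hM hCan
  have hLim := limit hC hB hM hDV hDC hSt hK hCont hCan limcB
  exact node_of hLim (ltree hC hB hM hDV hCan) (hp hC hB hM hCan)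
    (xreal (decide_of hL0 hProc baire) hDens hL0)

end Pool.Agent.Lib.MP_d48993_lc.Node
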