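import Pool.Agent.Lib.MP_d48993_lc.AE.Node.Adopta

/-!
# Project NODE (MP_d48993): module ADOPTB, second part

All private edges of an extension `δ'` that start at roots `≥ u`, together with the whole advice of
the new roots, are adopted. Later extensions of the adopted data can be merged with `δ'`.
-/

set_option autoImplicit false

namespace Pool.Agent.Lib.MP_d48993_lc.Node.Adoptb2

open Pool.Agent.Lib.MP_d48993_lc.Node

/-! ## Worlds -/

/-- Closures depend on the owners only. -/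
theorem inCl_own {W W' : World} (h : ∀ r w, W.own r = some w → W'.own r = some w) {a x : St}
    (hx : InCl W a x) : InCl W' a x := by
  induction hx with
  | cone x hc => exact InCl.cone _ hc
  | own x w ho _ ih => exact InCl.own _ w (h _ _ ho) ih

/-- A state `v^0` is admissible, when `v` has a positive rank. -/
theorem adm_zero {v : St} (hv : Adm v) (hr : 0 < rk v) : Adm (ow v 0) ∧ Zero (ow v 0) := by
  have hlen : v.2.length < sz v.1 := by unfold rk at hr; omega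
  refine ⟨⟨?_, ?_⟩, ⟨v, rfl⟩⟩
  · show (v.2 ++ [0]).length ≤ sz v.1
    simp only [List.length_append, List.length_cons, List.length_nil]
    omega
  · intro b hb
    rcases List.mem_append.mp hb with hb | hb
    · exact hv.2 b hb
    · have : b = 0 := by simpa using hb
      subst this
      show 0 < sz v.1
      omega

/-- The advice that is used by symbols is defined in full data. -/
theorem adv_isSome {δ : Data} (hf : Full δ) {v : St} (hv : Adm v) (hr : 0 < rk v)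
    (hN : v.1 < δ.N) : (δ.W.adv (ow v 0)).isSome := by
  by_cases hp : v.1 ∈ δ.pub
  · exact hf _ (adm_zero hv hr).1 (adm_zero hv hr).2 hp
  · show (((δ.advL.find? (fun p => p.1 = ow v 0)).map Prod.snd).or
      (if v.1 < δ.N ∧ v.1 ∉ δ.pub then some [] else none)).isSome
    rw [if_pos ⟨hN, hp⟩]
    cases (δ.advL.find? (fun p => p.1 = ow v 0)).map Prod.snd <;> rfl

theorem dext_own {δ δ' : Data} (h : DExt δ δ') (r : ℕ) (w : St) (hw : δ.W.own r = some w) :
    δ'.W.own r = some w := by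
  obtain ⟨l, hl, -⟩ := h.own
  have h1 : (δ.ownL.find? (fun p => p.1 = r)).map Prod.snd = some w := hw
  show (δ'.ownL.find? (fun p => p.1 = r)).map Prod.snd = some w
  rw [hl, List.find?_append]
  rw [Option.map_eq_some_iff] at h1 ⊢
  obtain ⟨p, hp, hpw⟩ := h1
  exact ⟨p, by rw [hp]; rfl, hpw⟩

/-! ## The adopted data -/

/-- The adopted data: the private edges of the list `P`. -/
def mid (δ δ' : Data) (P : List (St × St)) : Data :=
  (δ'.N, δ.pub, δ.prv ++ P, δ.advL ++ δ'.advL.filter (fun p => δ.N ≤ p.1.1), δ'.ownL)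

section

variable {δ δ' : Data} {P : List (St × St)} {u : ℕ}

theorem mid_adv_lt (hN : δ.N ≤ δ'.N) (x : St) (hx : x.1 < δ.N) :
    (mid δ δ' P).W.adv x = δ.W.adv x :=
  Adopta.adv_lt (y := o) (P := P) hN x hx

theorem mid_adv_ge (hwf : Wf δ) (x : St) (hx : δ.N ≤ x.1) :
    (mid δ δ' P).W.adv x = ((δ'.advL.find? (fun p => p.1 = x)).map Prod.snd).or
      (if x.1 < δ'.N then some [] else none) :=
  Adopta.adv_ge (y := o) (P := P) hwf x hx

theorem mid_a2 (hwf : Wf δ) (x : St) (a : List ℕ) (hx : δ.N ≤ x.1)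
    (ha : δ'.W.adv x = some a) : (mid δ δ' P).W.adv x = some a := by
  rw [mid_adv_ge hwf x hx]
  have ha' : ((δ'.advL.find? (fun p => p.1 = x)).map Prod.snd).or
      (if x.1 < δ'.N ∧ x.1 ∉ δ'.pub then some [] else none) = some a := ha
  cases hf : (δ'.advL.find? (fun p => p.1 = x)).map Prod.snd with
  | some b =>
    rw [hf] at ha'
    exact ha'
  | none =>
    rw [hf] at ha'
    simp only [Option.none_or] at ha' ⊢
    split_ifs at ha' with h3
    rw [if_pos h3.1]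
    exact ha'

theorem mid_a3 (hwf : Wf δ) (x : St) (a : List ℕ) (hx : δ.N ≤ x.1)
    (ha : (mid δ δ' P).W.adv x = some a) : δ'.W.adv x = some a ∨ a = [] := by
  rw [mid_adv_ge hwf x hx] at ha
  have ha' : δ'.W.adv x = ((δ'.advL.find? (fun p => p.1 = x)).map Prod.snd).or
      (if x.1 < δ'.N ∧ x.1 ∉ δ'.pub then some [] else none) := rfl
  cases hf : (δ'.advL.find? (fun p => p.1 = x)).map Prod.snd with
  | some b =>
    rw [hf] at ha' ha
    left
    rw [ha']
    exact ha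
  | none =>
    rw [hf] at ha
    simp only [Option.none_or] at ha
    split_ifs at ha with h3
    right
    exact (Option.some.inj ha).symm

theorem mid_e1 (hN : δ.N ≤ δ'.N) (hP : ∀ p ∈ P, δ'.W.edge p.1 p.2 ∧ δ.N ≤ p.2.1)
    (x t : St) (ht : t.1 < δ.N) : (mid δ δ' P).W.edge x t ↔ δ.W.edge x t := by
  show (Fit x t ∧ t.1 < δ'.N ∧ (t.1 ∈ δ.pub ∨ (x, t) ∈ δ.prv ++ P)) ↔
    (Fit x t ∧ t.1 < δ.N ∧ (t.1 ∈ δ.pub ∨ (x, t) ∈ δ.prv))
  constructor
  · rintro ⟨h1, -, h2⟩
    refine ⟨h1, ht, h2.imp id (fun h => ?_)⟩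
    rcases List.mem_append.mp h with h | h
    · exact h
    · have := (hP _ h).2
      simp only at this
      omega
  · rintro ⟨h1, -, h2⟩
    exact ⟨h1, by omega, h2.imp id (fun h => List.mem_append_left _ h)⟩

theorem mid_e2 (hwf : Wf δ) (hP : ∀ p ∈ P, δ'.W.edge p.1 p.2 ∧ δ.N ≤ p.2.1)
    (x t : St) (ht : δ.N ≤ t.1) : (mid δ δ' P).W.edge x t ↔ (x, t) ∈ P := by
  show (Fit x t ∧ t.1 < δ'.N ∧ (t.1 ∈ δ.pub ∨ (x, t) ∈ δ.prv ++ P)) ↔ _
  constructor
  · rintro ⟨h1, h2, h3⟩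
    rcases h3 with h3 | h3
    · have := hwf.pub _ h3
      omega
    · rcases List.mem_append.mp h3 with h | h
      · have := (hwf.prv _ h).2.1
        simp only at this
        omega
      · exact h
  · intro h
    obtain ⟨h1, -⟩ := hP _ h
    exact ⟨h1.1, h1.2.1, Or.inr (List.mem_append_right _ h)⟩

theorem mid_dext (hext : DExt δ δ') (hP : ∀ p ∈ P, δ'.W.edge p.1 p.2 ∧ δ.N ≤ p.2.1) :
    DExt δ (mid δ δ' P) := by
  refine ⟨hext.N, ⟨[], by simp [mid], by simp⟩, ⟨P, rfl, fun p hp => (hP p hp).2⟩,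
    ⟨_, rfl, fun p hp => Or.inl ?_⟩, hext.own⟩
  have := (List.mem_filter.mp hp).2
  simpa using this

theorem mid_full (hext : DExt δ δ') (hwf : Wf δ) (hf : Full δ) : Full (mid δ δ' P) := by
  intro y h1 h2 h3
  rw [mid_adv_lt hext.N y (hwf.pub _ h3)]
  exact hf y h1 h2 h3

/-- The edges of the adopted data are edges of `δ'`. -/
theorem mid_sub (hM : MonoStatement) (hwf : Wf δ) (hext : DExt δ δ')
    (hP : ∀ p ∈ P, δ'.W.edge p.1 p.2 ∧ δ.N ≤ p.2.1) (x t : St) (h : (mid δ δ' P).W.edge x t) :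
    δ'.W.edge x t := by
  by_cases ht : t.1 < δ.N
  · rw [mid_e1 hext.N hP x t ht] at h
    exact ((hM.2.2.1 δ δ' hwf hext).edge x t ht).mpr h
  · rw [mid_e2 hwf hP x t (by omega)] at h
    exact (hP _ h).1

/-- Validity in the adopted data, for symbols of `δ'` whose new edges are in `P`. -/
theorem mid_vs (hC : CodesStatement) (hB : BasicStatement) (hM : MonoStatement) (hwf : Wf δ)
    (hf : Full δ) (hwf' : Wf δ') (hext : DExt δ δ')
    (hP : ∀ p ∈ P, δ'.W.edge p.1 p.2 ∧ δ.N ≤ p.2.1) {s : ℕ} (hs : VS δ'.W s)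
    (h : ∀ v v', HE s v v' → δ.N ≤ v'.1 → (v, v') ∈ P) : VS (mid δ δ' P).W s := by
  have hE := hM.2.2.1 δ δ' hwf hext
  have hB' := (hB δ'.W hwf'.inv.fit).2.2.2.1 s hs
  refine Adopta.transfer hC hs (fun v v' hv => ?_) (fun v v' hv hr a ha => ?_)
  · obtain ⟨h1, -⟩ := hB' v v' hv
    by_cases ht : v'.1 < δ.N
    · exact (mid_e1 hext.N hP v v' ht).mpr ((hE.edge v v' ht).mp h1)
    · exact (mid_e2 hwf hP v v' (by omega)).mpr (h v v' hv (by omega))
  · obtain ⟨h1, -⟩ := hB' v v' hv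
    by_cases ht : v.1 < δ.N
    · have hadm := (hwf'.inv.fit _ _ h1).1
      obtain ⟨b, hb⟩ := Option.isSome_iff_exists.mp (adv_isSome hf hadm hr ht)
      have h2 := hE.adv _ _ hb
      rw [ha] at h2
      rw [mid_adv_lt hext.N (ow v 0) ht, hb, h2]
    · exact mid_a2 hwf _ _ (show δ.N ≤ v.1 by omega) ha

/-- The adopted data are well formed, when `P` has all edges that start at new roots. -/
theorem mid_wf (hC : CodesStatement) (hB : BasicStatement) (hM : MonoStatement) (hwf : Wf δ)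
    (hf : Full δ) (hwf' : Wf δ') (hext : DExt δ δ')
    (hP : ∀ p ∈ P, δ'.W.edge p.1 p.2 ∧ δ.N ≤ p.2.1)
    (hP' : ∀ x t, δ'.W.edge x t → δ.N ≤ x.1 → (x, t) ∈ P) : Wf (mid δ δ' P) where
  pos := lt_of_lt_of_le hwf.pos hext.N
  zero := hwf.zero
  pub r hr := lt_of_lt_of_le (hwf.pub r hr) hext.N
  prv p hp := by
    rcases List.mem_append.mp hp with h | h
    · obtain ⟨h1, h2, h3⟩ := hwf.prv p h
      exact ⟨h1, lt_of_lt_of_le h2 hext.N, h3⟩
    · obtain ⟨h1, h2⟩ := hP p h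
      refine ⟨h1.1, h1.2.1, fun h3 => ?_⟩
      have := hwf.pub _ h3
      omega
  adv p hp := by
    rcases List.mem_append.mp hp with h | h
    · exact lt_of_lt_of_le (hwf.adv p h) hext.N
    · exact hwf'.adv p (List.mem_filter.mp h).1
  advNodup := by
    show ((δ.advL ++ δ'.advL.filter (fun p => δ.N ≤ p.1.1)).map Prod.fst).Nodup
    rw [List.map_append, List.nodup_append]
    refine ⟨hwf.advNodup, hwf'.advNodup.sublist (List.filter_sublist.map _), ?_⟩
    intro a ha b hb hab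
    obtain ⟨p, hp, rfl⟩ := List.mem_map.mp ha
    obtain ⟨q, hq, rfl⟩ := List.mem_map.mp hb
    have h1 := hwf.adv p hp
    have h2 := (List.mem_filter.mp hq).2
    simp only [decide_eq_true_eq] at h2
    rw [hab] at h1
    omega
  own p hp := by
    obtain ⟨h1, h2⟩ := hwf'.own p hp
    obtain ⟨l, hl, -⟩ := hext.pub
    exact ⟨h1, fun h3 => h2 (by rw [hl]; exact List.mem_append_left _ h3)⟩
  ownNodup := hwf'.ownNodup
  inv := by
    have hE := hM.2.2.1 δ δ' hwf hext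
    have hown : ∀ r, (mid δ δ' P).W.own r = δ'.W.own r := fun _ => rfl
    have hcl : ∀ a x, InCl δ'.W a x → InCl (mid δ δ' P).W a x := fun a x hx =>
      inCl_own (W := δ'.W) (W' := (mid δ δ' P).W) (fun r w h => h) hx
    have hadv : ∀ x a, (mid δ δ' P).W.adv x = some a → a ≠ [] → δ'.W.adv x = some a := by
      intro x a ha hne
      by_cases hx : x.1 < δ.N
      · rw [mid_adv_lt hext.N x hx] at ha
        exact hE.adv _ _ ha
      · exact (mid_a3 hwf x a (by omega) ha).resolve_right hne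
    refine ⟨fun x t h => h.1, ?_, ?_, ?_, ?_, ?_⟩
    · intro x a ha hne
      exact hwf'.inv.advForm _ _ (hadv x a ha hne) hne
    · intro x a ha
      by_cases hne : a = []
      · subst hne
        exact ⟨rfl, fun s hs => by simp at hs⟩
      · have ha' := hadv x a ha hne
        obtain ⟨h1, h2⟩ := hwf'.inv.advValid _ _ ha'
        refine ⟨h1, fun s hs => ?_⟩
        by_cases hx : x.1 < δ.N
        · rw [mid_adv_lt hext.N x hx] at ha
          have h3 := (hwf.inv.advValid _ _ ha).2 s hs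
          exact hM.1 δ.N δ.W (mid δ δ' P).W (hM.2.2.1 δ _ hwf (mid_dext hext hP))
            (fun x t h => h.2.1) s h3
        · refine mid_vs hC hB hM hwf hf hwf' hext hP (h2 s hs) (fun v v' hv _ => ?_)
          obtain ⟨h4, h5, -⟩ := (hB δ'.W hwf'.inv.fit).2.2.2.1 s (h2 s hs) v v' hv
          have h6 := Adopta.ch_src hB hwf'.inv.fit a x _ h1 h2 s hs
          exact hP' v v' h4 (by omega)
    · intro r w hw
      exact hwf'.inv.ownLt r w hw
    · intro x t w hxt hw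
      exact hcl _ _ (hwf'.inv.edgeOwn x t w (mid_sub hM hwf hext hP x t hxt) hw)
    · intro x a s v v' ha hs hv
      have hne : a ≠ [] := by
        rintro rfl
        simp at hs
      exact hcl _ _ (hwf'.inv.advOwn x a s v v' (hadv x a ha hne) hs hv)

end

/-! ## Merging -/

/-- The merged data: the new part of `δ₃` is added to `δ'`. -/
def mrg (δ' δ₃ : Data) (lp : List ℕ) (lv : List (St × St)) (la : List (St × List ℕ)) : Data :=
  (δ₃.N, δ'.pub ++ lp, δ'.prv ++ lv, δ'.advL ++ la.filter (fun p => δ'.N ≤ p.1.1), δ₃.ownL)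

section

variable {δ δ' δ₃ : Data} {P lv : List (St × St)} {lp : List ℕ} {la : List (St × List ℕ)}
  {lo : List (ℕ × St)}

/-- The lists of an extension of the adopted data. -/
structure Lst (δ δ' δ₃ : Data) (P : List (St × St)) (lp : List ℕ) (lv : List (St × St))
    (la : List (St × List ℕ)) (lo : List (ℕ × St)) : Prop where
  N : δ'.N ≤ δ₃.N
  pub : δ₃.pub = δ.pub ++ lp
  pub' : ∀ r ∈ lp, δ'.N ≤ r
  prv : δ₃.prv = (δ.prv ++ P) ++ lv
  prv' : ∀ p ∈ lv, δ'.N ≤ p.2.1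
  adv : δ₃.advL = (δ.advL ++ δ'.advL.filter (fun p => δ.N ≤ p.1.1)) ++ la
  own : δ₃.ownL = δ'.ownL ++ lo
  own' : ∀ p ∈ lo, δ'.N ≤ p.1

theorem mrg_e1 (h : Lst δ δ' δ₃ P lp lv la lo) (x t : St) (ht : t.1 < δ'.N) :
    (mrg δ' δ₃ lp lv la).W.edge x t ↔ δ'.W.edge x t := by
  show (Fit x t ∧ t.1 < δ₃.N ∧ (t.1 ∈ δ'.pub ++ lp ∨ (x, t) ∈ δ'.prv ++ lv)) ↔
    (Fit x t ∧ t.1 < δ'.N ∧ (t.1 ∈ δ'.pub ∨ (x, t) ∈ δ'.prv))
  have hN := h.N
  constructor
  · rintro ⟨h1, -, h2⟩
    refine ⟨h1, ht, ?_⟩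
    rcases h2 with h2 | h2
    · rcases List.mem_append.mp h2 with h3 | h3
      · exact Or.inl h3
      · have := h.pub' _ h3
        omega
    · rcases List.mem_append.mp h2 with h3 | h3
      · exact Or.inr h3
      · have := h.prv' _ h3
        simp only at this
        omega
  · rintro ⟨h1, -, h2⟩
    exact ⟨h1, by omega, h2.imp (fun h => List.mem_append_left _ h)
      (fun h => List.mem_append_left _ h)⟩

theorem mrg_e2 (hwf : Wf δ) (hwf' : Wf δ') (hN : δ.N ≤ δ'.N)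
    (hP : ∀ p ∈ P, δ'.W.edge p.1 p.2 ∧ δ.N ≤ p.2.1) (h : Lst δ δ' δ₃ P lp lv la lo) (x t : St)
    (ht : δ'.N ≤ t.1) : (mrg δ' δ₃ lp lv la).W.edge x t ↔ δ₃.W.edge x t := by
  show (Fit x t ∧ t.1 < δ₃.N ∧ (t.1 ∈ δ'.pub ++ lp ∨ (x, t) ∈ δ'.prv ++ lv)) ↔
    (Fit x t ∧ t.1 < δ₃.N ∧ (t.1 ∈ δ₃.pub ∨ (x, t) ∈ δ₃.prv))
  rw [h.pub, h.prv]
  have h1 : t.1 ∈ δ'.pub ++ lp ↔ t.1 ∈ δ.pub ++ lp := by
    simp only [List.mem_append]
    constructor
    · rintro (h2 | h2)
      · have := hwf'.pub _ h2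
        omega
      · exact Or.inr h2
    · rintro (h2 | h2)
      · have := hwf.pub _ h2
        omega
      · exact Or.inr h2
  have h2 : (x, t) ∈ δ'.prv ++ lv ↔ (x, t) ∈ (δ.prv ++ P) ++ lv := by
    simp only [List.mem_append]
    constructor
    · rintro (h2 | h2)
      · have := (hwf'.prv _ h2).2.1
        simp only at this
        omega
      · exact Or.inr h2
    · rintro ((h2 | h2) | h2)
      · have := (hwf.prv _ h2).2.1
        simp only at this
        omega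
      · have h5 : t.1 < δ'.N := (hP _ h2).1.2.1
        omega
      · exact Or.inr h2
  rw [h1, h2]

theorem mrg_a1 (h : Lst δ δ' δ₃ P lp lv la lo) (x : St) (hx : x.1 < δ'.N) :
    (mrg δ' δ₃ lp lv la).W.adv x = δ'.W.adv x := by
  show (((δ'.advL ++ la.filter (fun p => δ'.N ≤ p.1.1)).find?
    (fun p => p.1 = x)).map Prod.snd).or
      (if x.1 < δ₃.N ∧ x.1 ∉ δ'.pub ++ lp then some [] else none) =
    ((δ'.advL.find? (fun p => p.1 = x)).map Prod.snd).or
      (if x.1 < δ'.N ∧ x.1 ∉ δ'.pub then some [] else none)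
  have hN := h.N
  rw [List.find?_append, Adopta.find_none (List.filter _ _) x, Option.or_none]
  · have h1 : (x.1 < δ₃.N ∧ x.1 ∉ δ'.pub ++ lp) ↔ (x.1 < δ'.N ∧ x.1 ∉ δ'.pub) := by
      constructor
      · rintro ⟨-, h2⟩
        exact ⟨hx, fun h3 => h2 (List.mem_append_left _ h3)⟩
      · rintro ⟨-, h2⟩
        refine ⟨by omega, fun h3 => ?_⟩
        rcases List.mem_append.mp h3 with h3 | h3
        · exact h2 h3
        · have := h.pub' _ h3
          omega
    simp only [h1]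
  · intro p hp hpx
    have h2 := (List.mem_filter.mp hp).2
    simp only [decide_eq_true_eq] at h2
    rw [hpx] at h2
    omega

theorem mrg_a2 (hwf : Wf δ) (hwf' : Wf δ') (hN : δ.N ≤ δ'.N) (h : Lst δ δ' δ₃ P lp lv la lo)
    (x : St) (hx : δ'.N ≤ x.1) : (mrg δ' δ₃ lp lv la).W.adv x = δ₃.W.adv x := by
  show (((δ'.advL ++ la.filter (fun p => δ'.N ≤ p.1.1)).find?
    (fun p => p.1 = x)).map Prod.snd).or
      (if x.1 < δ₃.N ∧ x.1 ∉ δ'.pub ++ lp then some [] else none) =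
    ((δ₃.advL.find? (fun p => p.1 = x)).map Prod.snd).or
      (if x.1 < δ₃.N ∧ x.1 ∉ δ₃.pub then some [] else none)
  rw [h.pub, h.adv, List.find?_append, Adopta.find_none δ'.advL x, Option.none_or,
    Adopta.find_filter _ _ _ hx, List.find?_append, Adopta.find_none (_ ++ _) x, Option.none_or]
  · have h1 : (x.1 < δ₃.N ∧ x.1 ∉ δ'.pub ++ lp) ↔ (x.1 < δ₃.N ∧ x.1 ∉ δ.pub ++ lp) := by
      simp only [List.mem_append, not_or]
      constructor
      · rintro ⟨h2, -, h4⟩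
        exact ⟨h2, fun h5 => by have := hwf.pub _ h5; omega, h4⟩
      · rintro ⟨h2, -, h4⟩
        exact ⟨h2, fun h5 => by have := hwf'.pub _ h5; omega, h4⟩
    simp only [h1]
  · intro p hp hpx
    rcases List.mem_append.mp hp with h2 | h2
    · have := hwf.adv p h2
      rw [hpx] at this
      omega
    · have := hwf'.adv p (List.mem_filter.mp h2).1
      rw [hpx] at this
      omega
  · intro p hp hpx
    have := hwf'.adv p hp
    rw [hpx] at this
    omega

theorem mrg_dext (h : Lst δ δ' δ₃ P lp lv la lo) : DExt δ' (mrg δ' δ₃ lp lv la) := by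
  refine ⟨h.N, ⟨lp, rfl, h.pub'⟩, ⟨lv, rfl, h.prv'⟩, ⟨_, rfl, fun p hp => Or.inl ?_⟩,
    ⟨lo, h.own, h.own'⟩⟩
  have := (List.mem_filter.mp hp).2
  simpa using this

theorem mrg_full (hwf : Wf δ) (hwf' : Wf δ') (hN : δ.N ≤ δ'.N) (hf' : Full δ') (hf₃ : Full δ₃)
    (h : Lst δ δ' δ₃ P lp lv la lo) : Full (mrg δ' δ₃ lp lv la) := by
  intro y h1 h2 h3
  rcases List.mem_append.mp h3 with h4 | h4
  · rw [mrg_a1 h y (hwf'.pub _ h4)]
    exact hf' y h1 h2 h4
  · rw [mrg_a2 hwf hwf' hN h y (h.pub' _ h4)]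
    exact hf₃ y h1 h2 (by rw [h.pub]; exact List.mem_append_right _ h4)

theorem mrg_vs (hC : CodesStatement) (hB : BasicStatement) (hM : MonoStatement) (hwf : Wf δ)
    (hf : Full δ) (hwf' : Wf δ') (hf' : Full δ') (hext : DExt δ δ')
    (hP : ∀ p ∈ P, δ'.W.edge p.1 p.2 ∧ δ.N ≤ p.2.1) (hwf2 : Wf (mid δ δ' P)) (hwf₃ : Wf δ₃)
    (hext₃ : DExt (mid δ δ' P) δ₃) (h : Lst δ δ' δ₃ P lp lv la lo) {s : ℕ} (hs : VS δ₃.W s) :
    VS (mrg δ' δ₃ lp lv la).W s := by
  have hE := hM.2.2.1 δ δ' hwf hext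
  have hE3 := hM.2.2.1 _ δ₃ hwf2 hext₃
  have hB' := (hB δ₃.W hwf₃.inv.fit).2.2.2.1 s hs
  refine Adopta.transfer hC hs (fun v v' hv => ?_) (fun v v' hv hr a ha => ?_)
  · obtain ⟨h1, -⟩ := hB' v v' hv
    by_cases ht : v'.1 < δ'.N
    · exact (mrg_e1 h v v' ht).mpr (mid_sub hM hwf hext hP v v' ((hE3.edge v v' ht).mp h1))
    · exact (mrg_e2 hwf hwf' hext.N hP h v v' (by omega)).mpr h1
  · obtain ⟨h1, -⟩ := hB' v v' hv
    by_cases ht : v.1 < δ'.N
    · have hadm := (hwf₃.inv.fit _ _ h1).1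
      obtain ⟨c, hc⟩ := Option.isSome_iff_exists.mp (adv_isSome hf' hadm hr ht)
      have h2 : (mid δ δ' P).W.adv (ow v 0) = some c := by
        by_cases ht' : v.1 < δ.N
        · obtain ⟨b, hb⟩ := Option.isSome_iff_exists.mp (adv_isSome hf hadm hr ht')
          have h3 := hE.adv _ _ hb
          rw [hc] at h3
          rw [mid_adv_lt hext.N (ow v 0) ht', hb, h3]
        · exact mid_a2 hwf _ _ (show δ.N ≤ v.1 by omega) hc
      have h3 := hE3.adv _ _ h2
      rw [ha] at h3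
      rw [mrg_a1 h (ow v 0) ht, hc, h3]
    · rw [mrg_a2 hwf hwf' hext.N h (ow v 0) (show δ'.N ≤ v.1 by omega)]
      exact ha

theorem mrg_wf (hC : CodesStatement) (hB : BasicStatement) (hM : MonoStatement) (hwf : Wf δ)
    (hf : Full δ) (hwf' : Wf δ') (hf' : Full δ') (hext : DExt δ δ')
    (hP : ∀ p ∈ P, δ'.W.edge p.1 p.2 ∧ δ.N ≤ p.2.1) (hwf2 : Wf (mid δ δ' P)) (hwf₃ : Wf δ₃)
    (hext₃ : DExt (mid δ δ' P) δ₃) (h : Lst δ δ' δ₃ P lp lv la lo) :
    Wf (mrg δ' δ₃ lp lv la) where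
  pos := lt_of_lt_of_le hwf'.pos h.N
  zero := by
    intro h0
    rcases List.mem_append.mp h0 with h1 | h1
    · exact hwf'.zero h1
    · have := h.pub' _ h1
      have := hwf'.pos
      omega
  pub r hr := by
    rcases List.mem_append.mp hr with h1 | h1
    · exact lt_of_lt_of_le (hwf'.pub r h1) h.N
    · exact hwf₃.pub r (by rw [h.pub]; exact List.mem_append_right _ h1)
  prv p hp := by
    rcases List.mem_append.mp hp with h1 | h1
    · obtain ⟨h2, h3, h4⟩ := hwf'.prv p h1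
      refine ⟨h2, lt_of_lt_of_le h3 h.N, fun h5 => ?_⟩
      rcases List.mem_append.mp h5 with h6 | h6
      · exact h4 h6
      · have := h.pub' _ h6
        omega
    · obtain ⟨h2, h3, h4⟩ := hwf₃.prv p (by rw [h.prv]; exact List.mem_append_right _ h1)
      refine ⟨h2, h3, fun h5 => ?_⟩
      have h7 := h.prv' _ h1
      rcases List.mem_append.mp h5 with h6 | h6
      · have := hwf'.pub _ h6
        omega
      · exact h4 (by rw [h.pub]; exact List.mem_append_right _ h6)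
  adv p hp := by
    rcases List.mem_append.mp hp with h1 | h1
    · exact lt_of_lt_of_le (hwf'.adv p h1) h.N
    · exact hwf₃.adv p (by rw [h.adv]; exact List.mem_append_right _ (List.mem_filter.mp h1).1)
  advNodup := by
    show ((δ'.advL ++ la.filter (fun p => δ'.N ≤ p.1.1)).map Prod.fst).Nodup
    rw [List.map_append, List.nodup_append]
    have h1 : (la.map Prod.fst).Nodup := by
      have := hwf₃.advNodup
      rw [h.adv, List.map_append, List.nodup_append] at this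
      exact this.2.1
    refine ⟨hwf'.advNodup, h1.sublist (List.filter_sublist.map _), ?_⟩
    intro a ha b hb hab
    obtain ⟨p, hp, rfl⟩ := List.mem_map.mp ha
    obtain ⟨q, hq, rfl⟩ := List.mem_map.mp hb
    have h2 := hwf'.adv p hp
    have h3 := (List.mem_filter.mp hq).2
    simp only [decide_eq_true_eq] at h3
    rw [hab] at h2
    omega
  own p hp := by
    have hp3 : p ∈ δ₃.ownL := hp
    obtain ⟨h1, h2⟩ := hwf₃.own p hp3
    refine ⟨h1, fun h5 => ?_⟩
    rcases List.mem_append.mp h5 with h6 | h6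
    · rw [h.own] at hp3
      rcases List.mem_append.mp hp3 with h7 | h7
      · exact (hwf'.own p h7).2 h6
      · have := h.own' p h7
        have := hwf'.pub _ h6
        omega
    · exact h2 (by rw [h.pub]; exact List.mem_append_right _ h6)
  ownNodup := hwf₃.ownNodup
  inv := by
    have hE4 := hM.2.2.1 δ' _ hwf' (mrg_dext h)
    have hown : ∀ r w, δ'.W.own r = some w → (mrg δ' δ₃ lp lv la).W.own r = some w :=
      dext_own (mrg_dext h)
    refine ⟨fun x t h => h.1, ?_, ?_, ?_, ?_, ?_⟩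
    · intro x a ha hne
      by_cases hx : x.1 < δ'.N
      · rw [mrg_a1 h x hx] at ha
        exact hwf'.inv.advForm _ _ ha hne
      · rw [mrg_a2 hwf hwf' hext.N h x (by omega)] at ha
        exact hwf₃.inv.advForm _ _ ha hne
    · intro x a ha
      by_cases hx : x.1 < δ'.N
      · rw [mrg_a1 h x hx] at ha
        obtain ⟨h1, h2⟩ := hwf'.inv.advValid _ _ ha
        exact ⟨h1, fun s hs => hM.1 δ'.N δ'.W _ hE4 (fun x t h => h.2.1) s (h2 s hs)⟩
      · rw [mrg_a2 hwf hwf' hext.N h x (by omega)] at ha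
        obtain ⟨h1, h2⟩ := hwf₃.inv.advValid _ _ ha
        exact ⟨h1, fun s hs => mrg_vs hC hB hM hwf hf hwf' hf' hext hP hwf2 hwf₃ hext₃ h (h2 s hs)⟩
    · intro r w hw
      exact hwf₃.inv.ownLt r w hw
    · intro x t w hxt hw
      by_cases ht : t.1 < δ'.N
      · rw [mrg_e1 h x t ht] at hxt
        rw [hE4.own _ ht] at hw
        exact inCl_own hown (hwf'.inv.edgeOwn x t w hxt hw)
      · rw [mrg_e2 hwf hwf' hext.N hP h x t (by omega)] at hxt
        exact inCl_own (W := δ₃.W) (W' := (mrg δ' δ₃ lp lv la).W) (fun r w h => h)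
          (hwf₃.inv.edgeOwn x t w hxt hw)
    · intro x a s v v' ha hs hv
      by_cases hx : x.1 < δ'.N
      · rw [mrg_a1 h x hx] at ha
        exact inCl_own hown (hwf'.inv.advOwn x a s v v' ha hs hv)
      · rw [mrg_a2 hwf hwf' hext.N h x (by omega)] at ha
        exact inCl_own (W := δ₃.W) (W' := (mrg δ' δ₃ lp lv la).W) (fun r w h => h)
          (hwf₃.inv.advOwn x a s v v' ha hs hv)

end

/-- The second part of ADOPTB. -/
theorem part2 (hC : CodesStatement) (hB : BasicStatement) (hM : MonoStatement)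
    (δ δ' : Data) (u : ℕ) (L : List (List ℕ)) (hwf : Wf δ) (hf : Full δ) (hwf' : Wf δ')
    (hf' : Full δ') (hext : DExt δ δ') (hu : u < δ.N)
    (hL : ∀ ρ ∈ L, VStr δ'.W o ρ (endd o ρ) ∧ ∀ s ∈ ρ, ∀ v v', HE s v v' → δ.N ≤ v'.1 → u ≤ v.1) :
    ∃ δ'' : Data, Wf δ'' ∧ Full δ'' ∧ DExt δ δ'' ∧ δ''.pub = δ.pub ∧ δ''.N = δ'.N ∧
      (∀ ρ ∈ L, VStr δ''.W o ρ (endd o ρ)) ∧ (∀ p ∈ δ''.prv, p ∉ δ.prv → u ≤ p.1.1) ∧
      ∀ δ₃ : Data, Wf δ₃ → Full δ₃ → DExt δ'' δ₃ → ∃ δ₄ : Data, Wf δ₄ ∧ Full δ₄ ∧ DExt δ' δ₄ ∧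
        ∀ s, VS δ₃.W s → VS δ₄.W s := by
  obtain ⟨P, hPm⟩ := Adopta.exists_list δ'.N
    (fun x t => δ'.W.edge x t ∧ δ.N ≤ t.1 ∧ u ≤ x.1) (by
      rintro x t ⟨h3, -⟩
      have h4 := h3.1
      have h5 := h3.2.1
      exact ⟨h4.1, h4.2.1, lt_trans h4.2.2.1 h5, h5⟩)
  have hP : ∀ p ∈ P, δ'.W.edge p.1 p.2 ∧ δ.N ≤ p.2.1 := fun p hp =>
    ⟨((hPm p).mp hp).1, ((hPm p).mp hp).2.1⟩
  have hP' : ∀ x t, δ'.W.edge x t → δ.N ≤ x.1 → (x, t) ∈ P := by
    intro x t h1 h2
    have h3 := h1.1.2.2.1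
    exact (hPm (x, t)).mpr ⟨h1, by simp only; omega, by simp only; omega⟩
  have hwf2 := mid_wf hC hB hM hwf hf hwf' hext hP hP'
  refine ⟨mid δ δ' P, hwf2, mid_full hext hwf hf, mid_dext hext hP, rfl, rfl, ?_, ?_, ?_⟩
  · intro ρ hρ
    obtain ⟨⟨h1, h2⟩, h3⟩ := hL ρ hρ
    refine ⟨h1, fun s hs => mid_vs hC hB hM hwf hf hwf' hext hP (h2 s hs) (fun v v' hv hN => ?_)⟩
    obtain ⟨h4, -⟩ := (hB δ'.W hwf'.inv.fit).2.2.2.1 s (h2 s hs) v v' hv
    exact (hPm (v, v')).mpr ⟨h4, hN, h3 s hs v v' hv hN⟩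
  · intro p hp hnp
    have hp' : p ∈ P := (List.mem_append.mp hp).resolve_left hnp
    exact ((hPm p).mp hp').2.2
  · intro δ₃ hwf₃ hf₃ hext₃
    obtain ⟨lp, hp1, hp2⟩ := hext₃.pub
    obtain ⟨lv, hv1, hv2⟩ := hext₃.prv
    obtain ⟨la, ha1, -⟩ := hext₃.adv
    obtain ⟨lo, ho1, ho2⟩ := hext₃.own
    have hl : Lst δ δ' δ₃ P lp lv la lo := ⟨hext₃.N, hp1, hp2, hv1, hv2, ha1, ho1, ho2⟩
    exact ⟨mrg δ' δ₃ lp lv la,
      mrg_wf hC hB hM hwf hf hwf' hf' hext hP hwf2 hwf₃ hext₃ hl,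
      mrg_full hwf hwf' hext.N hf' hf₃ hl, mrg_dext hl,
      fun s hs => mrg_vs hC hB hM hwf hf hwf' hf' hext hP hwf2 hwf₃ hext₃ hl hs⟩

end Pool.Agent.Lib.MP_d48993_lc.Node.Adoptb2
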