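import Pool.Agent.Lib.MP_d48993_lc.AE.Node.ProcBase
import Pool.Agent.Lib.MP_d48993_lc.AE.Node.Basic
import Pool.Agent.Lib.MP_d48993_lc.AE.Node.Mono
import Pool.Agent.Lib.MP_d48993_lc.AE.Node.Accan

/-!
# Module PROC, part CARRY: the strings go along with the driver (helper9)
-/

set_option autoImplicit false

namespace Pool.Agent.Lib.MP_d48993_lc.Node.Proc

open MP_8c048d_lc (pre join RecF Sig Clo Cop Del)

/-- The strings go along with the driver: all properties. The new symbols are the canonical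
symbols of the lanes `2 * i`, `i ≥ 1`, of the symbols of the driver. -/
def CarryStatementF : Prop :=
  ∀ (δ : ℕ → Data) (u : ℕ → ℕ), LimD δ u → ∀ (σ τ : List ℕ) (L : List (List ℕ)),
    LE δ (σ ++ τ) → (∀ p ∈ L, LE δ p) → Pos (endd o σ) L → AC (Dn L) →
    ∃ f : List ℕ → List ℕ,
      (∀ p ∈ L, p <+: f p ∧ LE δ (f p) ∧ (f p).length = p.length + τ.length ∧
        (∀ s ∈ f p, s ∈ p ∨ (Ex s = [] ∧ ∃ g ∈ τ, [s] ∈ Ap g ∧ ∃ i, 1 ≤ i ∧
          src s = ow (src g) i ∧ tgt s = ow (tgt g) (2 * i))) ∧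
        ∀ ν, ν <+: f p → ν <+: p ∨ (endd o σ).1 < (endd o ν).1) ∧
      Pos (endd o (σ ++ τ)) (L.map f) ∧ AC (Dn (L.map f))

/-- CARRY with one more clause: the new states are not own states number `0` of states of the
driver. -/
def CarryStatement2 : Prop :=
  ∀ (δ : ℕ → Data) (u : ℕ → ℕ), LimD δ u → ∀ (σ τ : List ℕ) (L : List (List ℕ)),
    LE δ (σ ++ τ) → (∀ p ∈ L, LE δ p) → Pos (endd o σ) L → AC (Dn L) →
    ∃ f : List ℕ → List ℕ,
      (∀ p ∈ L, p <+: f p ∧ LE δ (f p) ∧ (∀ s ∈ f p, s ∈ p ∨ ∃ g ∈ τ, ∃ α ∈ Ap g, s ∈ α) ∧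
        (∀ s ∈ f p, s ∈ p ∨ ∀ g ∈ τ, tgt s ≠ ow (tgt g) 0) ∧
        ∀ ν, ν <+: f p → ν <+: p ∨ (endd o σ).1 < (endd o ν).1) ∧
      Pos (endd o (σ ++ τ)) (L.map f) ∧ AC (Dn (L.map f))

theorem ow_inj {z z' : St} {i j : ℕ} (h : ow z i = ow z' j) : z = z' ∧ i = j := by
  unfold ow at h
  have h1 := congrArg Prod.fst h
  have h2 := congrArg Prod.snd h
  simp only at h1 h2
  obtain ⟨h3, h4⟩ := List.append_inj' h2 rfl
  exact ⟨Prod.ext h1 h3, by simpa using h4⟩

theorem ow_ne_nil (z : St) (i : ℕ) : (ow z i).2 ≠ [] := by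
  unfold ow; simp

theorem pfx_snoc {ν p : List ℕ} {s : ℕ} (h : ν <+: p ++ [s]) : ν <+: p ∨ ν = p ++ [s] := by
  rcases List.prefix_concat_iff.1 (by simpa [List.concat_eq_append] using h) with h1 | h1
  · exact Or.inr (by simpa using h1)
  · exact Or.inl h1

theorem ac_mono {S S' : List ℕ → Prop} (h : ∀ ν, S' ν → S ν) (hS : AC S) : AC S' :=
  fun ν ν' h1 h2 => hS ν ν' (h ν h1) (h ν' h2)

/-- The edge of the last symbol. -/
theorem last_edge (hB : BasicStatement) {W : World} (hF : ∀ x t, W.edge x t → Fit x t)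
    {p : List ℕ} (h : VStr W o p (endd o p)) (hne : p ≠ []) : ∃ x, W.edge x (endd o p) := by
  obtain ⟨π, s, rfl⟩ := Accan.exists_snoc hne
  rw [endd_snoc]
  exact ⟨_, (hB W hF).1 s (h.2 s (by simp))⟩

/-- One symbol of the driver, in a world. -/
theorem carryW1 (hB : BasicStatement) (hO : OwnStatement) {W : World} (hI : Inv W) (σ : List ℕ)
    (g : ℕ) (L : List (List ℕ)) (hσ : VStr W o (σ ++ [g]) (endd o (σ ++ [g])))
    (hval : ∀ p ∈ L, VStr W o p (endd o p)) (hP : Pos (endd o σ) L) (hAC : AC (Dn L)) :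
    ∃ f : List ℕ → ℕ, (∀ p ∈ L, VStr W o (p ++ [f p]) (endd o (p ++ [f p])) ∧ Ex (f p) = [] ∧
        [f p] ∈ Ap g ∧
        (∃ i, 1 ≤ i ∧ src (f p) = ow (src g) i ∧ tgt (f p) = ow (tgt g) (2 * i)) ∧
        (endd o σ).1 < (tgt (f p)).1) ∧
      Pos (tgt g) (L.map fun p => p ++ [f p]) ∧ AC (Dn (L.map fun p => p ++ [f p])) := by
  classical
  have hF := hI.fit
  obtain ⟨b1, -, -, b4, -, -, -, b8, -⟩ := hB W hF
  obtain ⟨o1, -, -, -, o5, -⟩ := hO W hI
  have hgv : VS W g := hσ.2 g (by simp)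
  have hsrc : src g = endd o σ := (ch_append.1 hσ.1).2.1
  have hedge := b1 g hgv
  obtain ⟨f1, f2, f3, f4, f5⟩ := hF _ _ hedge
  have hlt : (endd o σ).1 < (tgt g).1 := by rw [← hsrc]; exact f3
  -- the choice of the symbols
  have hch : ∀ p : List ℕ, ∃ s : ℕ, p ∈ L → ∃ i, 1 ≤ i ∧ endd o p = ow (src g) i ∧
      VS W s ∧ Ex s = [] ∧ [s] ∈ Ap g ∧ src s = ow (src g) i ∧
      tgt s = ow (tgt g) (2 * i) := by
    intro p
    by_cases h1 : p ∈ L
    · obtain ⟨i, hi, h2⟩ := hP.en p h1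
      rw [← hsrc] at h2
      have hne : p ≠ [] := by
        rintro rfl
        exact ow_ne_nil _ _ (congrArg Prod.snd h2).symm
      obtain ⟨x, h3⟩ := last_edge hB hF (hval p h1) hne
      obtain ⟨-, h4, -⟩ := hF _ _ h3
      rw [h2] at h4
      have h5 : (ow (src g) i).2.length = (src g).2.length + 1 := by unfold ow; simp
      have h6 : (ow (src g) i).1 = (src g).1 := rfl
      have h7 : i < sz (src g).1 := h4.2 i (by unfold ow; simp)
      have h8 := h4.1
      rw [h5, h6] at h8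
      have h9 : 0 < rk (src g) := by unfold rk; omega
      obtain ⟨s, g1, g2, g3, g4, g5⟩ := b8 g hgv h9 (2 * i) (by omega) (by omega)
      rw [show 2 * i / 2 = i by omega] at g4
      exact ⟨s, fun _ => ⟨i, hi, h2, g2, g3, List.mem_of_getElem? g1, g4, g5⟩⟩
    · exact ⟨0, fun h => absurd h h1⟩
  choose f hf using hch
  have hinj : ∀ p ∈ L, ∀ p' ∈ L, tgt (f p) = tgt (f p') → p = p' := by
    intro p h1 p' h2 h3
    obtain ⟨i, -, h4, -, -, -, -, h5⟩ := hf p h1
    obtain ⟨i', -, h4', -, -, -, -, h5'⟩ := hf p' h2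
    rw [h5, h5'] at h3
    have h6 : i = i' := by have := (ow_inj h3).2; omega
    exact hP.inj p h1 p' h2 (by rw [h4, h4', h6])
  refine ⟨f, fun p h1 => ?_, ⟨?_, ?_⟩, ?_⟩
  · obtain ⟨i, g0, g1, g2, g3, g4, g5, g6⟩ := hf p h1
    refine ⟨⟨?_, ?_⟩, g3, g4, ⟨i, g0, g5, g6⟩, by rw [g6]; exact hlt⟩
    · rw [endd_snoc]
      refine ch_append.2 ⟨(hval p h1).1, ?_, rfl⟩
      rw [g5, g1]
    · intro s hs
      rcases List.mem_append.1 hs with h2 | h2
      · exact (hval p h1).2 s h2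
      · rw [List.mem_singleton.1 h2]
        exact g2
  · intro q hq
    obtain ⟨p, h1, rfl⟩ := List.mem_map.1 hq
    obtain ⟨i, g0, -, -, -, -, -, g6⟩ := hf p h1
    exact ⟨2 * i, by omega, by rw [endd_snoc]; exact g6⟩
  · intro q hq q' hq' h3
    obtain ⟨p, h1, rfl⟩ := List.mem_map.1 hq
    obtain ⟨p', h2, rfl⟩ := List.mem_map.1 hq'
    rw [endd_snoc, endd_snoc] at h3
    rw [hinj p h1 p' h2 h3]
  · -- AC
    have hroot : ∀ ν, (ν = [] ∨ Dn L ν) → (endd o ν).1 < (tgt g).1 := by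
      rintro ν (rfl | ⟨p, h1, h2⟩)
      · have : (endd o ([] : List ℕ)).1 = 0 := rfl
        omega
      · obtain ⟨i, -, h3⟩ := hP.en p h1
        have h4 : (endd o ν).1 ≤ (endd o p).1 := by
          obtain ⟨μ, rfl⟩ := h2
          have h5 := hval _ h1
          have h6 : VStr W (endd o ν) μ (endd o (ν ++ μ)) :=
            ⟨by rw [endd_append]; exact (by
                have := (ch_append.1 h5.1).2
                rw [endd_append] at this
                exact this), fun s hs => h5.2 s (List.mem_append_right _ hs)⟩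
          have := (vstr_root hB hF h6).1
          omega
        rw [h3] at h4
        have h5 : (ow (endd o σ) i).1 = (endd o σ).1 := rfl
        omega
    have key := Accan.accan (W := W) (S := fun ν => ν = [] ∨ Dn L ν)
      ⟨hI, (by
        rintro ν ν' (rfl | h1) h2 h3 h4 h5
        · exact absurd rfl h3
        · rcases h2 with rfl | h2
          · exact absurd rfl h4
          · exact hAC ν ν' h1 h2 h3 h4 h5), (by
        rintro ν (rfl | ⟨p, h1, h2⟩)
        · exact ⟨rfl, fun s hs => absurd hs (List.not_mem_nil)⟩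
        · exact vstr_pfx (hval p h1) h2), (by
        rintro ν ν' h1 (rfl | ⟨p, h2, h3⟩)
        · exact Or.inl (List.prefix_nil.1 h1)
        · exact Or.inr ⟨p, h2, h1.trans h3⟩)⟩ hB hO (tgt g) (L.map fun p => (p, f p))
      hroot
      (by
        intro q hq j hI'
        obtain ⟨p, h1, rfl⟩ := List.mem_map.1 hq
        obtain ⟨i, -, g1, -⟩ := hf p h1
        simp only at hI'
        rw [g1] at hI'
        have h2 := o5 _ _ _ hedge hI' (by
          show (src g).1 < (tgt g).1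
          exact f3)
        have h3 := ((o1 _ _ h2).2 rfl).2.length_le
        have h4 : (ow (ow (src g) i) j).2.length = (src g).2.length + 2 := by unfold ow; simp
        omega)
      (by
        intro q hq
        obtain ⟨p, h1, rfl⟩ := List.mem_map.1 hq
        obtain ⟨i, g0, g1, g2, g3, g4, g5, g6⟩ := hf p h1
        exact ⟨Or.inr ⟨p, h1, List.prefix_rfl⟩, g2, g3, g5.trans g1.symm, 2 * i, g6⟩)
      (by
        intro q hq q' hq' h3
        obtain ⟨p, h1, rfl⟩ := List.mem_map.1 hq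
        obtain ⟨p', h2, rfl⟩ := List.mem_map.1 hq'
        rw [hinj p h1 p' h2 h3])
    refine ac_mono ?_ key
    rintro ν ⟨q, hq, h2⟩
    obtain ⟨p, h1, rfl⟩ := List.mem_map.1 hq
    rcases pfx_snoc h2 with h3 | h3
    · exact Or.inl (Or.inr ⟨p, h1, h3⟩)
    · exact Or.inr ⟨(p, f p), List.mem_map.2 ⟨p, h1, rfl⟩, h3⟩

/-- CARRY in a world, all properties. -/
theorem carryW (hB : BasicStatement) (hO : OwnStatement) {W : World} (hI : Inv W)
    (σ τ : List ℕ) (L : List (List ℕ)) (hσ : VStr W o (σ ++ τ) (endd o (σ ++ τ)))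
    (hp : ∀ p ∈ L, VStr W o p (endd o p)) (hP : Pos (endd o σ) L) (hAC : AC (Dn L)) :
    ∃ f : List ℕ → List ℕ,
      (∀ p ∈ L, p <+: f p ∧ VStr W o (f p) (endd o (f p)) ∧
        (f p).length = p.length + τ.length ∧
        (∀ s ∈ f p, s ∈ p ∨ (Ex s = [] ∧ ∃ g ∈ τ, [s] ∈ Ap g ∧ ∃ i, 1 ≤ i ∧
          src s = ow (src g) i ∧ tgt s = ow (tgt g) (2 * i))) ∧
        ∀ ν, ν <+: f p → ν <+: p ∨ (endd o σ).1 < (endd o ν).1) ∧
      Pos (endd o (σ ++ τ)) (L.map f) ∧ AC (Dn (L.map f)) := by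
  induction τ generalizing σ L with
  | nil =>
    refine ⟨id, fun p h1 => ⟨List.prefix_rfl, hp p h1, rfl, fun s hs => Or.inl hs,
      fun ν h => Or.inl h⟩, ?_, ?_⟩
    · rw [List.append_nil, List.map_id]; exact hP
    · rw [List.map_id]; exact hAC
  | cons g τ ih =>
    have e : σ ++ g :: τ = (σ ++ [g]) ++ τ := by simp
    rw [e] at hσ
    have hσ1 : VStr W o (σ ++ [g]) (endd o (σ ++ [g])) := vstr_pfx hσ (List.prefix_append _ _)
    obtain ⟨f, h1, h2, h3⟩ := carryW1 hB hO hI σ g L hσ1 hp hP hAC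
    obtain ⟨f', h4, h5, h6⟩ := ih (σ ++ [g]) (L.map fun p => p ++ [f p]) hσ
      (fun q hq => by
        obtain ⟨p, hp', rfl⟩ := List.mem_map.1 hq
        exact (h1 p hp').1) (by rw [endd_snoc]; exact h2) h3
    have hm : (L.map fun p => p ++ [f p]).map f' = L.map fun p => f' (p ++ [f p]) := by
      rw [List.map_map]; rfl
    rw [hm] at h5 h6
    refine ⟨fun p => f' (p ++ [f p]), fun p hpL => ?_, by rw [e]; exact h5, h6⟩
    obtain ⟨g1, g2, g3, g4, g5⟩ := h4 _ (List.mem_map.2 ⟨p, hpL, rfl⟩)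
    obtain ⟨k1, k2, k3, ⟨i, k4, k5, k6⟩, k7⟩ := h1 p hpL
    refine ⟨(List.prefix_append _ _).trans g1, g2, ?_, fun s hs => ?_, fun ν hν => ?_⟩
    · rw [g3]; simp only [List.length_append, List.length_cons, List.length_nil]; omega
    · rcases g4 s hs with h7 | ⟨h7, g', h8, h9⟩
      · rcases List.mem_append.1 h7 with h8 | h8
        · exact Or.inl h8
        · right
          rw [List.mem_singleton.1 h8]
          exact ⟨k2, g, List.mem_cons_self, k3, i, k4, k5, k6⟩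
      · exact Or.inr ⟨h7, g', List.mem_cons_of_mem _ h8, h9⟩
    · have hgt : (endd o σ).1 < (tgt g).1 := by rw [k6] at k7; exact k7
      rcases g5 ν hν with h7 | h7
      · rcases pfx_snoc h7 with h8 | h8
        · exact Or.inl h8
        · right
          rw [h8, endd_snoc]
          exact k7
      · right
        rw [endd_snoc] at h7
        omega

/-- CARRY in a growing family of worlds, all properties. -/
theorem carryS (hB : BasicStatement) (hM : MonoStatement) (hO : OwnStatement) {δ : ℕ → Data}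
    (hwf : ∀ n, Wf (δ n)) (hext : ∀ m n, m ≤ n → DExt (δ m) (δ n)) (σ τ : List ℕ)
    (L : List (List ℕ)) (hσ : LE δ (σ ++ τ)) (hp : ∀ p ∈ L, LE δ p) (hP : Pos (endd o σ) L)
    (hAC : AC (Dn L)) :
    ∃ f : List ℕ → List ℕ,
      (∀ p ∈ L, p <+: f p ∧ LE δ (f p) ∧ (f p).length = p.length + τ.length ∧
        (∀ s ∈ f p, s ∈ p ∨ (Ex s = [] ∧ ∃ g ∈ τ, [s] ∈ Ap g ∧ ∃ i, 1 ≤ i ∧
          src s = ow (src g) i ∧ tgt s = ow (tgt g) (2 * i))) ∧
        ∀ ν, ν <+: f p → ν <+: p ∨ (endd o σ).1 < (endd o ν).1) ∧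
      Pos (endd o (σ ++ τ)) (L.map f) ∧ AC (Dn (L.map f)) := by
  have hmono : ∀ m n, m ≤ n → ∀ s, VS (δ m).W s → VS (δ n).W s := fun m n h s hs =>
    hM.1 (δ m).N _ _ (hM.2.2.1 _ _ (hwf m) (hext m n h)) (fun _ _ h => h.2.1) s hs
  have hst : ∀ K : List (List ℕ), (∀ p ∈ K, LE δ p) →
      ∃ m, ∀ p ∈ K, VStr (δ m).W o p (endd o p) := by
    intro K
    induction K with
    | nil => exact fun _ => ⟨0, fun p hp => absurd hp (List.not_mem_nil)⟩
    | cons q K ih =>
      intro h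
      obtain ⟨m, hm⟩ := ih fun p hp => h p (List.mem_cons_of_mem _ hp)
      obtain ⟨k, hk⟩ := h q List.mem_cons_self
      refine ⟨max m k, fun p hp => ?_⟩
      rcases List.mem_cons.1 hp with rfl | h1
      · exact ⟨hk.1, fun s hs => hmono _ _ (le_max_right _ _) s (hk.2 s hs)⟩
      · exact ⟨(hm p h1).1, fun s hs => hmono _ _ (le_max_left _ _) s ((hm p h1).2 s hs)⟩
  obtain ⟨n, hn⟩ := hst ((σ ++ τ) :: L) (by
    intro p h
    rcases List.mem_cons.1 h with rfl | h1
    · exact hσ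
    · exact hp p h1)
  obtain ⟨f, h1, h2, h3⟩ := carryW hB hO (hwf n).inv σ τ L (hn _ List.mem_cons_self)
    (fun p h => hn p (List.mem_cons_of_mem _ h)) hP hAC
  refine ⟨f, fun p hpL => ?_, h2, h3⟩
  obtain ⟨g1, g2, g3⟩ := h1 p hpL
  exact ⟨g1, ⟨n, g2⟩, g3⟩

/-- CARRY, all properties. -/
theorem carryF (hB : BasicStatement) (hM : MonoStatement) (hO : OwnStatement) :
    CarryStatementF :=
  fun _ _ hL σ τ L hσ hp hP hAC => carryS hB hM hO hL.wf hL.ext σ τ L hσ hp hP hAC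

theorem carry_two (hB : BasicStatement) (hM : MonoStatement) (hO : OwnStatement) :
    CarryStatement2 := by
  intro δ u hL σ τ L hσ hp hP hAC
  obtain ⟨f, h1, h2, h3⟩ := carryF hB hM hO δ u hL σ τ L hσ hp hP hAC
  refine ⟨f, fun p hpL => ?_, h2, h3⟩
  obtain ⟨g1, g2, -, g4, g5⟩ := h1 p hpL
  refine ⟨g1, g2, fun s hs => ?_, fun s hs => ?_, g5⟩
  · rcases g4 s hs with h4 | ⟨-, g, h4, h5, -⟩
    · exact Or.inl h4
    · exact Or.inr ⟨g, h4, [s], h5, List.mem_singleton_self _⟩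
  · rcases g4 s hs with h4 | ⟨-, g, -, -, i, h5, -, h6⟩
    · exact Or.inl h4
    · refine Or.inr fun g' _ h7 => ?_
      rw [h6] at h7
      have := (ow_inj h7).2
      omega

/-- Part CARRY. -/
theorem carry (hB : BasicStatement) (hM : MonoStatement) (hO : OwnStatement) :
    CarryStatement := by
  intro δ u hL σ τ L hσ hp hP hAC
  obtain ⟨f, h1, h2, h3⟩ := carry_two hB hM hO δ u hL σ τ L hσ hp hP hAC
  refine ⟨f, fun p hpL => ?_, h2, h3⟩
  obtain ⟨g1, g2, g3, -, g5⟩ := h1 p hpL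
  exact ⟨g1, g2, g3, g5⟩

/-- CARRY without hypotheses. -/
theorem carryF' : CarryStatementF :=
  have hB := basic codes
  carryF hB (mono codes hB) (own hB)

theorem carry_two' : CarryStatement2 :=
  have hB := basic codes
  carry_two hB (mono codes hB) (own hB)

theorem carry' : CarryStatement :=
  have hB := basic codes
  carry hB (mono codes hB) (own hB)

end Pool.Agent.Lib.MP_d48993_lc.Node.Proc
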