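import Pool.Agent.Lib.MP_d48993_lc.AE.Interfaces

/-!
# Project NODE (MP_d48993): states, symbols, worlds, validity

Paper: findings 3743 (helper1), 3751 (helper15), 3768 (2). A string is a list of codes of symbols;
a symbol `(x, t, A, E)` has a source `x`, a target `t`, the canonical side strings `A` and a finite
list `E` of extra strings.
-/

set_option autoImplicit false

namespace Pool.Agent.Lib.MP_d48993_lc.Node

/-! ## States -/

/-- A state: its root and a string. -/
abbrev St : Type := ℕ × List ℕ

/-- The size of a root: every value is taken infinitely often. -/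
def sz (u : ℕ) : ℕ := u.unpair.1

/-- The rank of a state. -/
def rk (x : St) : ℕ := sz x.1 - x.2.length

/-- Admissible states. -/
def Adm (x : St) : Prop := x.2.length ≤ sz x.1 ∧ ∀ b ∈ x.2, b < sz x.1

/-- The own state number `j` of `x`. -/
def ow (x : St) (j : ℕ) : St := (x.1, x.2 ++ [j])

/-- `y` is in the cone of `x`. -/
def Cone (x y : St) : Prop := y.1 = x.1 ∧ x.2 <+: y.2

/-- The start state. -/
def o : St := (0, [])

/-- An edge from `x` to `t` is possible. -/
def Fit (x t : St) : Prop :=
  Adm x ∧ Adm t ∧ x.1 < t.1 ∧ rk x < rk t ∧ 2 * sz x.1 ≤ sz t.1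

/-! ## Symbols -/

/-- The code of a symbol. -/
def sym (x t : St) (A : List (List ℕ)) (E : List (ℕ × List ℕ)) : ℕ := Encodable.encode (x, t, A, E)

/-- The parts of a symbol. -/
def parts (s : ℕ) : St × St × List (List ℕ) × List (ℕ × List ℕ) :=
  (Encodable.decode (α := St × St × List (List ℕ) × List (ℕ × List ℕ)) s).getD (o, o, [], [])

def src (s : ℕ) : St := (parts s).1
def tgt (s : ℕ) : St := (parts s).2.1
def Ap (s : ℕ) : List (List ℕ) := (parts s).2.2.1
def Ex (s : ℕ) : List (ℕ × List ℕ) := (parts s).2.2.2

/-- `τ` is a chain of symbols from `x` to `y`. -/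
def Ch : St → List ℕ → St → Prop
  | x, [], y => x = y
  | x, s :: τ, y => src s = x ∧ Ch (tgt s) τ y

/-- The last state of a string that starts in `x`. -/
def endd (x : St) (τ : List ℕ) : St := (τ.getLast?.map tgt).getD x

/-- The edge from `v` to `v'` occurs hereditarily in the symbol `s`. -/
inductive HE : ℕ → St → St → Prop
  | top (s : ℕ) : HE s (src s) (tgt s)
  | ap (s : ℕ) (α : List ℕ) (s' : ℕ) (v v' : St) (hα : α ∈ Ap s) (hs : s' ∈ α)
      (h : HE s' v v') : HE s v v'
  | ex (s : ℕ) (p : ℕ × List ℕ) (s' : ℕ) (v v' : St) (hp : p ∈ Ex s) (hs : s' ∈ p.2)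
      (h : HE s' v v') : HE s v v'

/-! ## Worlds and validity -/

/-- A world: the edges, the (partial) advice function, the owners of the private roots. -/
structure World where
  edge : St → St → Prop
  adv : St → Option (List ℕ)
  own : ℕ → Option St

/-- The valid symbols of a world. `α` is the advice of `ow x 0`; `c i` is the canonical (no extras)
valid symbol that ends in `ow t i`. -/
inductive VS (W : World) : ℕ → Prop
  | mk (x t : St) (A : List (List ℕ)) (E : List (ℕ × List ℕ)) (α : List ℕ) (c : ℕ → ℕ)
      (hedge : W.edge x t)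
      (h0 : rk x = 0 → A = [] ∧ E = [])
      (hα : 0 < rk x → W.adv (ow x 0) = some α)
      (hαv : 0 < rk x → ∀ s ∈ α, VS W s)
      (hαc : 0 < rk x → Ch (ow x 0) α (endd (ow x 0) α))
      (hA : 0 < rk x → A = (List.range (2 * sz x.1)).map
        (fun i => if i < 2 then α ++ [c i] else [c i]))
      (hc : 0 < rk x → ∀ i < 2 * sz x.1, VS W (c i))
      (hc' : 0 < rk x → ∀ i < 2 * sz x.1, Ex (c i) = [] ∧ tgt (c i) = ow t i ∧
        src (c i) = if i < 2 then endd (ow x 0) α else ow x (i / 2))
      (hE : E.Nodup ∧ ∀ p ∈ E, p.1 < sz x.1)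
      (hEv : ∀ p ∈ E, ∀ s ∈ p.2, VS W s)
      (hE' : ∀ p ∈ E, ∃ j < sz t.1, Ch (ow x p.1) p.2 (ow t j)) :
      VS W (sym x t A E)

/-- `τ` is a valid string from `x` to `y`. -/
def VStr (W : World) (x : St) (τ : List ℕ) (y : St) : Prop := Ch x τ y ∧ ∀ s ∈ τ, VS W s

/-- `x` is in the closure of `y`: in its cone, or its root is owned by a state of the closure. -/
inductive InCl (W : World) (y : St) : St → Prop
  | cone (x : St) (h : Cone y x) : InCl W y x
  | own (x w : St) (h : W.own x.1 = some w) (hw : InCl W y w) : InCl W y x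

/-- The invariants of a world. -/
structure Inv (W : World) : Prop where
  fit : ∀ x t, W.edge x t → Fit x t
  advForm : ∀ y α, W.adv y = some α → α ≠ [] → ∃ x, y = ow x 0 ∧ Adm y
  advValid : ∀ y α, W.adv y = some α → VStr W y α (endd y α)
  ownLt : ∀ r w, W.own r = some w → w.1 < r
  edgeOwn : ∀ x t w, W.edge x t → W.own t.1 = some w → InCl W w x
  advOwn : ∀ y α s v v', W.adv y = some α → s ∈ α → HE s v v' → InCl W y v'

/-- `W'` extends `W`, whose roots are below `N`. -/
structure Ext (N : ℕ) (W W' : World) : Prop where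
  edge : ∀ x t, t.1 < N → (W'.edge x t ↔ W.edge x t)
  adv : ∀ y α, W.adv y = some α → W'.adv y = some α
  own : ∀ r < N, W'.own r = W.own r

/-! ## Finite data -/

/-- Finite data `(N, pub, prv, adv, own)`: a bound for the roots, the public roots, the edges into
private roots, the advice, the owners of private roots. -/
abbrev Data : Type := ℕ × List ℕ × List (St × St) × List (St × List ℕ) × List (ℕ × St)

/-- The world of finite data. All states of roots below `N` which are not public and not in the
list have the empty advice. -/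
def Data.W (δ : Data) : World where
  edge x t := Fit x t ∧ t.1 < δ.1 ∧ (t.1 ∈ δ.2.1 ∨ (x, t) ∈ δ.2.2.1)
  adv y := ((δ.2.2.2.1.find? (fun p => p.1 = y)).map Prod.snd).or
    (if y.1 < δ.1 ∧ y.1 ∉ δ.2.1 then some [] else none)
  own r := (δ.2.2.2.2.find? (fun p => p.1 = r)).map Prod.snd

end Pool.Agent.Lib.MP_d48993_lc.Node
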