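import Pool.Agent.Lib.MP_d48993_lc.AE.Node.Defs

/-!
# Project NODE (MP_d48993): statements
-/

set_option autoImplicit false

namespace Pool.Agent.Lib.MP_d48993_lc.Node

open MP_8c048d_lc (pre join RecF Sig Clo Cop Del)

/-! ## Finite data -/

/-- The bound, the public roots, the edges into private roots, the advice, the owners. -/
abbrev Data.N (δ : Data) : ℕ := δ.1
abbrev Data.pub (δ : Data) : List ℕ := δ.2.1
abbrev Data.prv (δ : Data) : List (St × St) := δ.2.2.1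
abbrev Data.advL (δ : Data) : List (St × List ℕ) := δ.2.2.2.1
abbrev Data.ownL (δ : Data) : List (ℕ × St) := δ.2.2.2.2

/-- `y` is a state of the form `x^0`. -/
def Zero (y : St) : Prop := ∃ x, y = ow x 0

/-- Well formed finite data. -/
structure Wf (δ : Data) : Prop where
  pos : 0 < δ.N
  zero : 0 ∉ δ.pub
  pub : ∀ r ∈ δ.pub, r < δ.N
  prv : ∀ p ∈ δ.prv, Fit p.1 p.2 ∧ p.2.1 < δ.N ∧ p.2.1 ∉ δ.pub
  adv : ∀ p ∈ δ.advL, p.1.1 < δ.N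
  advNodup : (δ.advL.map Prod.fst).Nodup
  own : ∀ p ∈ δ.ownL, p.1 < δ.N ∧ p.1 ∉ δ.pub
  ownNodup : (δ.ownL.map Prod.fst).Nodup
  inv : Inv δ.W

/-- The advice is defined on all states `x^0` of the public roots. -/
def Full (δ : Data) : Prop := ∀ y : St, Adm y → Zero y → y.1 ∈ δ.pub → (δ.W.adv y).isSome

/-- `δ'` extends `δ`: everything new is at roots `≥ δ.N`, except new advice at states of public
roots without advice. -/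
structure DExt (δ δ' : Data) : Prop where
  N : δ.N ≤ δ'.N
  pub : ∃ l, δ'.pub = δ.pub ++ l ∧ ∀ r ∈ l, δ.N ≤ r
  prv : ∃ l, δ'.prv = δ.prv ++ l ∧ ∀ p ∈ l, δ.N ≤ p.2.1
  adv : ∃ l, δ'.advL = δ.advL ++ l ∧ ∀ p ∈ l, δ.N ≤ p.1.1 ∨
    (p.1.1 ∈ δ.pub ∧ Zero p.1 ∧ ∀ q ∈ δ.advL, q.1 ≠ p.1)
  own : ∃ l, δ'.ownL = δ.ownL ++ l ∧ ∀ p ∈ l, δ.N ≤ p.1

/-! ## Conditions over a tree `T` -/

/-- A condition: an initial segment of the real that is built, and a list of triples `(s, q, p)`: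
the node `s` of `T` has the image `q` and the stem `p` (both are strings from `o`). -/
abbrev Cnd3 : Type := List ℕ × List (List ℕ × List ℕ × List ℕ)

/-- The hereditary targets of the last symbol of the nonempty string `ν`, closed under cones. -/
def HB (ν : List ℕ) (v : St) : Prop := ∃ s, ν.getLast? = some s ∧ ∃ a b, HE s a b ∧ Cone b v

/-- The condition AC for a set of strings (closed under initial segments). -/
def AC (S : List ℕ → Prop) : Prop :=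
  ∀ ν ν', S ν → S ν' → ν ≠ [] → ν' ≠ [] → ν ≠ ν' →
    (ν.dropLast ≠ ν'.dropLast → ∀ v, ¬ (HB ν v ∧ HB ν' v)) ∧
    (ν.dropLast = ν'.dropLast → ∀ v, ¬ (Cone (endd o ν) v ∧ HB ν' v))

/-- The nodes of a condition: the initial segments of its stems. -/
def Nd (c : Cnd3) (ν : List ℕ) : Prop := ∃ e ∈ c.2, ν <+: e.2.2

/-- The condition `c` is valid in the world `W`, for the tree `T`. -/
structure CV (W : World) (T : List ℕ → Prop) (c : Cnd3) : Prop where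
  root : ∃ p, (([] : List ℕ), ([] : List ℕ), p) ∈ c.2
  uniq : ∀ e ∈ c.2, ∀ e' ∈ c.2, e.1 = e'.1 → e = e'
  mem : ∀ e ∈ c.2, T e.1
  img : ∀ e ∈ c.2, VStr W o e.2.1 (endd o e.2.1)
  stem : ∀ e ∈ c.2, e.2.1 <+: e.2.2 ∧ VStr W o e.2.2 (endd o e.2.2)
  emb : ∀ e ∈ c.2, ∀ e' ∈ c.2, (e.2.1 <+: e'.2.1 ↔ e.1 <+: e'.1)
  stemEmb : ∀ e ∈ c.2, ∀ e' ∈ c.2, e'.2.1 <+: e.2.2 → e'.1 <+: e.1
  parent : ∀ e ∈ c.2, e.1 ≠ [] → ∃ e' ∈ c.2, e'.1 = e.1.dropLast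
  ac : AC (Nd c)

/-- `c'` extends `c`. -/
structure CLe (T : List ℕ → Prop) (c c' : Cnd3) : Prop where
  px : c.1 <+: c'.1
  old : ∀ e ∈ c.2, ∃ p', e.2.2 <+: p' ∧ (e.1, e.2.1, p') ∈ c'.2
  new : ∀ e ∈ c'.2, (∀ e₀ ∈ c.2, e₀.1 ≠ e.1) → ∀ e₁ ∈ c.2, e₁.1 = e.1.dropLast → e₁.2.2 <+: e.2.1
  fact : ∀ n ∈ c'.1.drop c.1.length, ∀ s ρ, Fact n s ρ → T s → ∃ p, (s, ρ, p) ∈ c'.2

/-- The edges of the images of a condition. -/
def KE (c : Cnd3) (v v' : St) : Prop := ∃ e ∈ c.2, ∃ s ∈ e.2.1, HE s v v'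

/-! ## The limit of the construction -/

/-- The functional `i`, with the oracle `V`, on strings. -/
def phi (Φ : ℕ → List ℕ → List ℕ) (V : ℕ → ℕ) (i : ℕ) (τ : List ℕ) : List ℕ := Φ i (jnV V τ)

/-- The stems of `c'` continue the stems of `c` by one canonical symbol into states of the public
root `u` of `δ`. -/
structure Cont (δ : Data) (u : ℕ) (c c' : Cnd3) : Prop where
  px : c'.1 = c.1
  fwd : ∀ e ∈ c.2, ∃ s, VS δ.W s ∧ Ex s = [] ∧ src s = endd o e.2.2 ∧ (tgt s).1 = u ∧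
    (e.1, e.2.1, e.2.2 ++ [s]) ∈ c'.2
  bwd : ∀ e' ∈ c'.2, ∃ e ∈ c.2, e'.1 = e.1

/-- The result of the construction: a sequence of finite data. -/
structure Lim (Φ : ℕ → List ℕ → List ℕ) (Tr : ℕ → List ℕ → Prop) (TU : List ℕ → Prop) (V : ℕ → ℕ)
    (δ : ℕ → Data) (u : ℕ → ℕ) : Prop where
  wf : ∀ n, Wf (δ n)
  full : ∀ n, Full (δ n)
  ext : ∀ n, DExt (δ n) (δ (n + 1))
  zero : (δ 0).pub = [] ∧ (δ 0).prv = []
  pub : ∀ n, (δ (n + 1)).pub = (δ n).pub ++ [u n]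
  root : ∀ n, (δ n).N ≤ u n ∧ n ≤ sz (u n)
  lt : ∀ n, u n < (δ (n + 1)).N
  -- new private edges start at roots at least `u n`
  prv : ∀ n, ∀ p ∈ (δ (n + 1)).prv, p ∉ (δ n).prv → u n ≤ p.1.1
  -- 2(a): after `μ ++ α` the set `{τ : m ≤ |Φ_i(τ)|}` is hit or can never be hit
  hit : ∀ n, ∀ y : St, Adm y → Zero y → y.1 = u n → ∃ α, (δ (n + 1)).W.adv y = some α ∧
    ∀ μ, VStr (δ (n + 1)).W o μ y → ∀ i < n, ∀ m < n, m ≤ (phi Φ V i (μ ++ α)).length ∨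
      ∀ δ', DExt (δ (n + 1)) δ' → Wf δ' → Full δ' → ∀ μ' w, VStr δ'.W (endd y α) μ' w →
        (phi Φ V i (μ ++ α ++ μ')).length < m
  -- 2(b): for every functional and every valid condition over a tree `TE Tr E₀`
  kill : ∀ (i : ℕ) (E₀ : List ℕ) (c : Cnd3) (n₀ : ℕ), CV (δ n₀).W (TE Tr E₀) c → ∃ n, n₀ ≤ n ∧
    ∃ c', CV (δ (n + 1)).W (TE Tr E₀) c' ∧ CLe (TE Tr E₀) c c' ∧
      ((∀ m, n + 1 ≤ m → ¬ VStr (δ m).W o (phi Φ V i c'.1) (endd o (phi Φ V i c'.1))) ∨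
        ((∀ e ∈ c'.2, (endd o e.2.2).1 ∈ (δ (n + 1)).pub) ∧
        ∃ N, ∀ m, n + 1 ≤ m → ∀ c'', CV (δ m).W (TE Tr E₀) c'' → CLe (TE Tr E₀) c' c'' →
          VStr (δ m).W o (phi Φ V i c''.1) (endd o (phi Φ V i c''.1)) →
          ∀ s ∈ phi Φ V i c''.1, N ≤ (tgt s).1 → KE c'' (src s) (tgt s)))
  -- deciding `Φ_i(X) ∈ U`
  killU : ∀ (i : ℕ) (E₀ : List ℕ) (c : Cnd3) (n₀ : ℕ), CV (δ n₀).W (TE Tr E₀) c → ∃ n, n₀ ≤ n ∧
    ∃ c', CV (δ (n + 1)).W (TE Tr E₀) c' ∧ CLe (TE Tr E₀) c c' ∧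
      (¬ TU (phi Φ V i c'.1) ∨ ∀ m, n + 1 ≤ m → ∀ c'', CV (δ m).W (TE Tr E₀) c'' →
        CLe (TE Tr E₀) c' c'' → (phi Φ V i c''.1).length ≤ (phi Φ V i c'.1).length)
  -- a path of the tree outside `Up U`
  killN : ∀ (i : ℕ) (ρ : List ℕ) (n₀ : ℕ), VStr (δ n₀).W o ρ (endd o ρ) → ∃ n, n₀ ≤ n ∧
    ∃ ρ', ρ <+: ρ' ∧ VStr (δ (n + 1)).W o ρ' (endd o ρ') ∧
      (¬ TU (phi Φ V i ρ') ∨ ∀ m, n + 1 ≤ m → ∀ ρ'', VStr (δ m).W o ρ'' (endd o ρ'') →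
        ρ' <+: ρ'' → (phi Φ V i ρ'').length ≤ (phi Φ V i ρ').length)

/-- The tree of the limit. -/
def LE (δ : ℕ → Data) (σ : List ℕ) : Prop := ∃ n, VStr (δ n).W o σ (endd o σ)

/-! ## Modules: basic facts -/

/-- Module RECUR: functions defined by recursion along computable calls are computable. -/
def RecurStatement : Prop :=
  ∀ (α β : Type) [Primcodable α] [Primcodable β] (f : α → β) (calls : α → List α) (rk : α → ℕ)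
    (H : α × List β → β), Computable calls → Computable H →
    (∀ a, ∀ b ∈ calls a, rk b < rk a) → (∀ a, f a = H (a, (calls a).map f)) → Computable f

/-- Module CODES. -/
def CodesStatement : Prop :=
  (∀ x t A E, parts (sym x t A E) = (x, t, A, E)) ∧
  (∀ s, sym (src s) (tgt s) (Ap s) (Ex s) = s) ∧
  (∀ s α s', α ∈ Ap s → s' ∈ α → s' < s) ∧ (∀ s p s', p ∈ Ex s → s' ∈ p.2 → s' < s) ∧
  Computable src ∧ Computable tgt ∧ Computable Ap ∧ Computable Ex ∧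
  ComputablePred (fun p : St × List ℕ × St => Ch p.1 p.2.1 p.2.2) ∧
  Computable (fun p : St × List ℕ => endd p.1 p.2) ∧
  (∀ x τ y, Ch x τ y → y = endd x τ) ∧
  (∀ x σ τ z, Ch x (σ ++ τ) z ↔ Ch x σ (endd x σ) ∧ Ch (endd x σ) τ z) ∧
  (∀ x σ τ, endd x (σ ++ τ) = endd (endd x σ) τ)

/-- Module BASIC (from CODES). -/
def BasicStatement : Prop :=
  ∀ W : World, (∀ x t, W.edge x t → Fit x t) →
    (∀ s, VS W s → W.edge (src s) (tgt s)) ∧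
    (∀ s, VS W s → ∀ α ∈ Ap s, ∀ s' ∈ α, VS W s') ∧
    (∀ s, VS W s → ∀ p ∈ Ex s, ∀ s' ∈ p.2, VS W s') ∧
    -- roots of the hereditary edges
    (∀ s, VS W s → ∀ v v', HE s v v' → W.edge v v' ∧ (src s).1 ≤ v.1 ∧ v'.1 ≤ (tgt s).1 ∧
      (v.1 = (src s).1 → Cone (src s) v) ∧ (v'.1 = (tgt s).1 → Cone (tgt s) v')) ∧
    -- sources of the hereditary edges
    (∀ s, VS W s → ∀ v v', HE s v v' → Cone (src s) v ∨ ∃ a b, HE s a b ∧ Cone b v) ∧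
    -- the side strings
    (∀ s, VS W s → 0 < rk (src s) → ∀ i < 2 * sz (src s).1, ∃ α, (Ap s)[i]? = some α ∧
      VStr W (ow (src s) (i / 2)) α (ow (tgt s) i)) ∧
    (∀ s, VS W s → 0 < rk (src s) → ∃ β, W.adv (ow (src s) 0) = some β ∧
      ∀ i < 2, ∃ s', (Ap s)[i]? = some (β ++ [s']) ∧ VS W s' ∧ Ex s' = [] ∧
        src s' = endd (ow (src s) 0) β ∧ tgt s' = ow (tgt s) i) ∧
    (∀ s, VS W s → 0 < rk (src s) → ∀ i, 2 ≤ i → i < 2 * sz (src s).1 → ∃ s',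
      (Ap s)[i]? = some [s'] ∧ VS W s' ∧ Ex s' = [] ∧ src s' = ow (src s) (i / 2) ∧
        tgt s' = ow (tgt s) i) ∧
    -- uniqueness of the canonical symbol
    (∀ s s', VS W s → VS W s' → Ex s = [] → Ex s' = [] → src s = src s' → tgt s = tgt s' →
      s = s') ∧
    -- extras may be added
    (∀ s, VS W s → 0 < rk (src s) → ∀ E : List (ℕ × List ℕ), E.Nodup →
      (∀ p ∈ E, p.1 < sz (src s).1 ∧ ∃ j < sz (tgt s).1, VStr W (ow (src s) p.1) p.2 (ow (tgt s) j)) →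
      VS W (sym (src s) (tgt s) (Ap s) E))

/-- Module MONO (from CODES, BASIC). -/
def MonoStatement : Prop :=
  (∀ N W W', Ext N W W' → (∀ x t, W.edge x t → t.1 < N) → ∀ s, VS W s → VS W' s) ∧
  (∀ N W W', Ext N W W' → (∀ x t, W'.edge x t → Fit x t) → ∀ s, VS W' s → (tgt s).1 < N →
    (∀ v v', HE s v v' → 0 < rk v → (W.adv (ow v 0)).isSome) → VS W s) ∧
  (∀ δ δ' : Data, Wf δ → DExt δ δ' → Ext δ.N δ.W δ'.W) ∧
  (∀ δ δ' δ'' : Data, DExt δ δ' → Wf δ → Wf δ' → DExt δ' δ'' → DExt δ δ'') ∧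
  (∀ δ δ' : Data, Wf δ → Wf δ' → DExt δ δ' → ∀ y x, x.1 < δ.N → (InCl δ.W y x ↔ InCl δ'.W y x))

/-- Module FINV (from CODES, BASIC): finite data have finitely many valid symbols. -/
def FinvStatement : Prop :=
  ∀ δ : Data, {s | VS δ.W s}.Finite ∧ ∀ x y, {μ | VStr δ.W x μ y}.Finite

/-- Module DECV (from RECUR, CODES, BASIC): decidability. -/
def DecvStatement : Prop :=
  ComputablePred (fun p : Data × ℕ => VS p.1.W p.2) ∧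
  ComputablePred (fun p : ℕ × St × St => HE p.1 p.2.1 p.2.2) ∧
  ComputablePred (fun p : Data × St × St => InCl p.1.W p.2.1 p.2.2) ∧
  ComputablePred Wf ∧ ComputablePred Full ∧
  ComputablePred (fun p : Data × Data => DExt p.1 p.2)

/-- Module DECC (from DECV): decidability for conditions; trees `T a` uniformly computable. -/
def DeccStatement : Prop :=
  ∀ T : ℕ → List ℕ → Prop, ComputablePred (fun p : ℕ × List ℕ => T p.1 p.2) →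
    ComputablePred (fun p : Data × ℕ × Cnd3 => CV p.1.W (T p.2.1) p.2.2) ∧
    ComputablePred (fun p : ℕ × Cnd3 × Cnd3 => CLe (T p.1) p.2.1 p.2.2) ∧
    ComputablePred (fun p : Cnd3 × St × St => KE p.1 p.2.1 p.2.2)

/-- Module OWN (from BASIC): closures. -/
def OwnStatement : Prop :=
  ∀ W : World, Inv W →
    (∀ y x, InCl W y x → y.1 ≤ x.1 ∧ (x.1 = y.1 → Cone y x)) ∧
    (∀ a b v, InCl W a b → InCl W b v → InCl W a v) ∧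
    (∀ a b v, InCl W a v → InCl W b v → InCl W a b ∨ InCl W b a) ∧
    (∀ z i j v, i ≠ j → ¬ (InCl W (ow z i) v ∧ InCl W (ow z j) v)) ∧
    (∀ a v v', W.edge v v' → InCl W a v' → a.1 < v'.1 → InCl W a v) ∧
    -- all states of a root above `a.1` are together in the closure of `a`
    (∀ a v v', InCl W a v → v.1 = v'.1 → a.1 < v.1 → InCl W a v') ∧
    -- the hereditary edges of a canonical symbol
    (∀ s, VS W s → Ex s = [] → ∀ v v', HE s v v' → (v = src s ∧ v' = tgt s) ∨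
      ∃ j, InCl W (ow (src s) j) v ∧ (InCl W (ow (src s) j) v' ∨ ∃ i, i / 2 = j ∧
        Cone (ow (tgt s) i) v'))

/-- Module CAN (from BASIC, MONO): canonical symbols into large public states. -/
def CanStatement : Prop :=
  ∀ δ : Data, Wf δ → Full δ → ∀ x, Adm x → x.1 < δ.N → ∃ K : ℕ, ∀ δ' : Data, Wf δ' →
    DExt δ δ' → ∀ t, Adm t → t.1 ∈ δ'.pub → δ.N ≤ t.1 → K ≤ rk t → K ≤ sz t.1 →
    ∃ s, VS δ'.W s ∧ src s = x ∧ tgt s = t ∧ Ex s = []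

/-! ## Modules: the two steps of the construction -/

/-- Module ADOPTA (from BASIC, MONO, OWN): the advice of `y` is continued by `μ`. -/
def AdoptAStatement : Prop :=
  ∀ (δ : Data) (y : St) (α : List ℕ), Wf δ → Adm y → Zero y → y.1 ∈ δ.pub → δ.W.adv y = none →
    -- the longer states of the cone of `y` have their advice
    (∀ y', Adm y' → Zero y' → Cone y y' → y' ≠ y → (δ.W.adv y').isSome) →
    -- the roots above `y.1` are private and owned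
    (∀ r, y.1 < r → r < δ.N → ∃ w, δ.W.own r = some w ∧ y.1 ≤ w.1 ∧ (Cone w y → w = y)) →
    VStr δ.W y α (endd y α) → (∀ s ∈ α, ∀ v v', HE s v v' → InCl δ.W y v') →
    ∀ (δ' : Data), Wf δ' → Full δ' → DExt δ δ' → ∀ μ w, VStr δ'.W (endd y α) μ w →
    ∃ δ'' : Data, Wf δ'' ∧ DExt δ δ'' ∧ δ''.pub = δ.pub ∧ VStr δ''.W (endd y α) μ w ∧
      (∀ s ∈ μ, ∀ v v', HE s v v' → InCl δ''.W y v') ∧
      (∀ p ∈ δ''.prv, p ∉ δ.prv → y.1 ≤ p.1.1) ∧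
      (∀ p ∈ δ''.advL, p ∉ δ.advL → δ.N ≤ p.1.1) ∧
      ∀ r, δ.N ≤ r → r < δ''.N → δ''.W.own r = some y ∨ ∃ w', δ''.W.own r = some w' ∧ δ.N ≤ w'.1

/-- Module STAGEA (from ADOPTA, FINV, MONO, BASIC): a new public root with its advice; `φ i` are
arbitrary monotone maps. -/
def StageAStatement : Prop :=
  ∀ (φ : ℕ → List ℕ → List ℕ), (∀ i, Mon (φ i)) → ∀ (δ : Data) (n : ℕ), Wf δ → Full δ →
    ∃ (δ' : Data) (u : ℕ), Wf δ' ∧ Full δ' ∧ DExt δ δ' ∧ δ'.pub = δ.pub ++ [u] ∧ δ.N ≤ u ∧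
      n ≤ sz u ∧ u < δ'.N ∧ (∀ p ∈ δ'.prv, p ∉ δ.prv → u ≤ p.1.1) ∧
      ∀ y : St, Adm y → Zero y → y.1 = u → ∃ α, δ'.W.adv y = some α ∧
        ∀ μ, VStr δ'.W o μ y → ∀ i < n, ∀ m < n, m ≤ (φ i (μ ++ α)).length ∨
          ∀ δ'', DExt δ' δ'' → Wf δ'' → Full δ'' → ∀ μ' w, VStr δ''.W (endd y α) μ' w →
            (φ i (μ ++ α ++ μ')).length < m

/-- Module ADOPTB (from BASIC, MONO, OWN). First part: exactly the edges of the strings of `L`.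
Second part: with the edges of the advice, and the merging property. -/
def AdoptBStatement : Prop :=
  ∀ (δ δ' : Data) (u : ℕ) (L : List (List ℕ)), Wf δ → Full δ → Wf δ' → Full δ' → DExt δ δ' →
    u < δ.N →
    (∀ ρ ∈ L, VStr δ'.W o ρ (endd o ρ) ∧ ∀ s ∈ ρ, ∀ v v', HE s v v' → δ.N ≤ v'.1 → u ≤ v.1) →
    (∃ δ'' : Data, Wf δ'' ∧ Full δ'' ∧ DExt δ δ'' ∧ δ''.pub = δ.pub ∧ δ''.N = δ'.N ∧
      (∀ ρ ∈ L, VStr δ''.W o ρ (endd o ρ)) ∧ (∀ p ∈ δ''.prv, p ∉ δ.prv → u ≤ p.1.1) ∧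
      ∀ x t, δ''.W.edge x t → δ.N ≤ t.1 → ∃ ρ ∈ L, ∃ s ∈ ρ, HE s x t) ∧
    ∃ δ'' : Data, Wf δ'' ∧ Full δ'' ∧ DExt δ δ'' ∧ δ''.pub = δ.pub ∧ δ''.N = δ'.N ∧
      (∀ ρ ∈ L, VStr δ''.W o ρ (endd o ρ)) ∧ (∀ p ∈ δ''.prv, p ∉ δ.prv → u ≤ p.1.1) ∧
      ∀ δ₃ : Data, Wf δ₃ → Full δ₃ → DExt δ'' δ₃ → ∃ δ₄ : Data, Wf δ₄ ∧ Full δ₄ ∧ DExt δ' δ₄ ∧
        ∀ s, VS δ₃.W s → VS δ₄.W s

/-- Module KILLS (from ADOPTB, CODES, BASIC, MONO; SEARCH for the second and the third part). -/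
def KillsStatement : Prop :=
  ∀ (Φ : ℕ → List ℕ → List ℕ) (TU T : List ℕ → Prop) (V : ℕ → ℕ) (i : ℕ), IsEnum Φ →
    ComputablePred TU → PC TU → V ∉ Up {f | ∀ k, TU (pre f k)} → ComputablePred T → PC T →
    ∀ (δ : Data) (u : ℕ), Wf δ → Full δ → u < δ.N →
    (∀ c : Cnd3, CV δ.W T c → (∀ e ∈ c.2, u ≤ (endd o e.2.2).1) →
      -- kill
      ((∃ (δ' : Data) (c' : Cnd3), Wf δ' ∧ Full δ' ∧ DExt δ δ' ∧ δ'.pub = δ.pub ∧
        (∀ p ∈ δ'.prv, p ∉ δ.prv → u ≤ p.1.1) ∧ CV δ'.W T c' ∧ CLe T c c' ∧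
        ∃ s ∈ phi Φ V i c'.1, (tgt s).1 < δ'.N ∧ ¬ δ'.W.edge (src s) (tgt s)) ∨
      ∀ δ' : Data, Wf δ' → Full δ' → DExt δ δ' → ∀ c', CV δ'.W T c' → CLe T c c' →
        VStr δ'.W o (phi Φ V i c'.1) (endd o (phi Φ V i c'.1)) →
        ∀ s ∈ phi Φ V i c'.1, δ.N ≤ (tgt s).1 → KE c' (src s) (tgt s)) ∧
      -- killU
      ∃ (δ' : Data) (c' : Cnd3), Wf δ' ∧ Full δ' ∧ DExt δ δ' ∧ δ'.pub = δ.pub ∧
        (∀ p ∈ δ'.prv, p ∉ δ.prv → u ≤ p.1.1) ∧ CV δ'.W T c' ∧ CLe T c c' ∧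
        (¬ TU (phi Φ V i c'.1) ∨ ∀ δ'' : Data, Wf δ'' → Full δ'' → DExt δ' δ'' → ∀ c'',
          CV δ''.W T c'' → CLe T c' c'' →
          (phi Φ V i c''.1).length ≤ (phi Φ V i c'.1).length)) ∧
    -- killN
    ∀ ρ : List ℕ, VStr δ.W o ρ (endd o ρ) → u ≤ (endd o ρ).1 →
      ∃ (δ' : Data) (ρ' : List ℕ), Wf δ' ∧ Full δ' ∧ DExt δ δ' ∧ δ'.pub = δ.pub ∧
        (∀ p ∈ δ'.prv, p ∉ δ.prv → u ≤ p.1.1) ∧ ρ <+: ρ' ∧ VStr δ'.W o ρ' (endd o ρ') ∧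
        (¬ TU (phi Φ V i ρ') ∨ ∀ δ'' : Data, Wf δ'' → Full δ'' → DExt δ' δ'' → ∀ ρ'', ρ' <+: ρ'' →
          VStr δ''.W o ρ'' (endd o ρ'') → (phi Φ V i ρ'').length ≤ (phi Φ V i ρ').length)

/-- Module ACCAN (from OWN, BASIC): AC is preserved by new canonical symbols into own states of a
state `z` of a root above all roots of `S`. (If `z.1` is public then the last hypothesis but two is
automatic, since a public root is not owned.) -/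
def AccanStatement : Prop :=
  ∀ (δ : Data) (S : List ℕ → Prop) (z : St) (X : List (List ℕ × ℕ)), Wf δ → AC S → S [] →
    (∀ ν, S ν → VStr δ.W o ν (endd o ν)) → (∀ ν ν', ν <+: ν' → S ν' → S ν) →
    (∀ ν, S ν → (endd o ν).1 < z.1) → (∀ p ∈ X, ∀ j, ¬ InCl δ.W (ow (endd o p.1) j) z) →
    (∀ p ∈ X, S p.1 ∧ VS δ.W p.2 ∧ Ex p.2 = [] ∧ src p.2 = endd o p.1 ∧
      ∃ j, tgt p.2 = ow z j) →
    (∀ p ∈ X, ∀ p' ∈ X, tgt p.2 = tgt p'.2 → p = p') →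
    AC (fun ν => S ν ∨ ∃ p ∈ X, ν = p.1 ++ [p.2])

/-- Module CONT (from ACCAN, CAN): stems can be continued into a large public root. -/
def ContStatement : Prop :=
  ∀ (δ : Data) (T : List ℕ → Prop) (c : Cnd3), Wf δ → Full δ → CV δ.W T c → ∃ K : ℕ,
    ∀ (δ' : Data) (u : ℕ), Wf δ' → DExt δ δ' → u ∈ δ'.pub → δ.N ≤ u → K ≤ sz u →
    ∃ c' : Cnd3, CV δ'.W T c' ∧ CLe T c c' ∧ Cont δ' u c c' ∧ ∀ e ∈ c'.2, (endd o e.2.2).1 = u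

/-- Module LIMC: the limit of a sequence of least choices for a `Π⁰₁(V)` relation. -/
def LimcStatement : Prop :=
  ∀ (α : Type) [Primcodable α] (d : ℕ × ℕ × α × α → (ℕ → ℕ) → Bool) (I : α → Prop) (a₀ : α)
    (V : ℕ → ℕ), RecF d → I a₀ → (∀ n a, I a → ∃ a', ∀ k, d (k, n, a, a') V = true) →
    (∀ n a a', I a → (∀ k, d (k, n, a, a') V = true) → I a') →
    ∃ (A : ℕ → α) (g : ℕ × ℕ → (ℕ → ℕ) → α), RecF g ∧ A 0 = a₀ ∧
      (∀ n, I (A n) ∧ ∀ k, d (k, n, A n, A (n + 1)) V = true) ∧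
      ∀ n, ∃ s0, ∀ s ≥ s0, g (s, n) V = A n

/-- Module LIMIT (from STAGEA, KILLS, CONT, LIMC, DECV, DECC, FINV). -/
def LimitStatement : Prop :=
  ∀ (Φ : ℕ → List ℕ → List ℕ) (Tr : ℕ → List ℕ → Prop) (TU : List ℕ → Prop) (V : ℕ → ℕ),
    IsEnum Φ → IsTreeEnum Tr → ComputablePred TU → PC TU → V ∉ Up {f | ∀ k, TU (pre f k)} →
    ∃ (δ : ℕ → Data) (u : ℕ → ℕ) (g : ℕ × ℕ → (ℕ → ℕ) → Data), Lim Φ Tr TU V δ u ∧ RecF g ∧
      ∀ n, ∃ s0, ∀ s ≥ s0, g (s, n) V = δ n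

/-! ## Modules: from the limit to the theorem -/

/-- Module LTREE (from LIMIT data, DECV, MONO, CAN): the tree of the limit. -/
def LtreeStatement : Prop :=
  ∀ (Φ : ℕ → List ℕ → List ℕ) (Tr : ℕ → List ℕ → Prop) (TU : List ℕ → Prop) (V : ℕ → ℕ)
    (δ : ℕ → Data) (u : ℕ → ℕ) (g : ℕ × ℕ → (ℕ → ℕ) → Data), Lim Φ Tr TU V δ u → RecF g →
    (∀ n, ∃ s0, ∀ s ≥ s0, g (s, n) V = δ n) →
    (∃ A : ℕ × List ℕ → (ℕ → ℕ) → Bool, RecF A ∧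
      ∀ σ, ∃ s0, ∀ s ≥ s0, (A (s, σ) V = true ↔ LE δ σ)) ∧
    LE δ [] ∧ PC (LE δ) ∧ (∀ σ, LE δ σ → ∃ n, LE δ (σ ++ [n])) ∧
    -- a string is valid in the limit iff it is valid as soon as its roots are below the bound
    (∀ σ n, (endd o σ).1 < (δ n).N → (LE δ σ ↔ VStr (δ n).W o σ (endd o σ))) ∧
    (∀ m n, m ≤ n → DExt (δ m) (δ n)) ∧ ∀ n, n ≤ (δ n).N

/-- Module HP (from LTREE, CAN, MONO, BASIC): property (H). -/
def HpStatement : Prop :=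
  ∀ (Φ : ℕ → List ℕ → List ℕ) (Tr : ℕ → List ℕ → Prop) (TU : List ℕ → Prop) (V : ℕ → ℕ)
    (δ : ℕ → Data) (u : ℕ → ℕ), IsEnum Φ → IsTreeEnum Tr → Lim Φ Tr TU V δ u →
    ∀ e, GenF Φ Tr V (LE δ) e → ∀ O : ℕ → ℕ, (∀ k, LE δ (pre O k)) → HasPath (join V O) (Tr e)

/-- The level of a state. -/
def Lev (S : List ℕ → Prop) (v : St) (π : List ℕ) : Prop :=
  ∃ ν, S ν ∧ ν ≠ [] ∧ ν.dropLast = π ∧ HB ν v

/-- Module EXTR (from BASIC): extraction. -/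
def ExtrStatement : Prop :=
  ∀ (W : World) (S : List ℕ → Prop), Inv W → AC S → (∀ ν, S ν → VStr W o ν (endd o ν)) →
    (∀ ν ν', ν <+: ν' → S ν' → S ν) →
    (∀ v π π', Lev S v π → Lev S v π' → π = π') ∧
    (∀ ν s a b, S ν → ν.getLast? = some s → HE s a b → Lev S b ν.dropLast ∧
      ((a = o ∧ ν.dropLast = []) ∨ Lev S a ν.dropLast ∨
        (ν.dropLast ≠ [] ∧ Lev S a ν.dropLast.dropLast))) ∧
    (∀ v, ¬ Lev S o v)

/-- Module BAIRE (from IsEnum): a generic path which computes no path of finitely many trees. -/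
def BaireStatement : Prop :=
  ∀ (Φ : ℕ → List ℕ → List ℕ) (Tr : ℕ → List ℕ → Prop) (V : ℕ → ℕ) (E : List ℕ → Prop)
    (E₀ : List ℕ) (D : ℕ → List ℕ → Prop), IsEnum Φ → IsTreeEnum Tr → E [] → PC E →
    (∀ σ, E σ → ∃ n, E (σ ++ [n])) → (∀ e ∈ E₀, ¬ GenF Φ Tr V E e) →
    (∀ k σ, E σ → ∃ τ, σ <+: τ ∧ E τ ∧ D k τ) →
    ∃ G : ℕ → ℕ, (∀ k, E (pre G k)) ∧ (∀ k, ∃ n, D k (pre G n)) ∧
      ∀ e ∈ E₀, ¬ HasPath (join V G) (Tr e)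

/-- Module PROC (from LTREE, EXTR, ACCAN, CAN, SEARCH): the process. -/
def ProcStatement : Prop :=
  ∀ (Φ : ℕ → List ℕ → List ℕ) (Tr : ℕ → List ℕ → Prop) (TU : List ℕ → Prop) (V : ℕ → ℕ)
    (δ : ℕ → Data) (u : ℕ → ℕ), IsEnum Φ → IsTreeEnum Tr → Lim Φ Tr TU V δ u →
    ∀ (i : ℕ) (E₀ : List ℕ) (c : Cnd3) (n₀ N : ℕ), CV (δ n₀).W (TE Tr E₀) c →
    (∀ e ∈ c.2, (endd o e.2.2).1 ∈ (δ n₀).pub) →
    -- (K)
    (∀ m, n₀ ≤ m → ∀ c', CV (δ m).W (TE Tr E₀) c' → CLe (TE Tr E₀) c c' →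
      VStr (δ m).W o (phi Φ V i c'.1) (endd o (phi Φ V i c'.1)) →
      ∀ s ∈ phi Φ V i c'.1, N ≤ (tgt s).1 → KE c' (src s) (tgt s)) →
    -- nothing decides
    (∀ m, n₀ ≤ m → ∀ c', CV (δ m).W (TE Tr E₀) c' → CLe (TE Tr E₀) c c' →
      LE δ (phi Φ V i c'.1) ∧ ∀ k : ℕ, ∃ m', m ≤ m' ∧ ∃ c'', CV (δ m').W (TE Tr E₀) c'' ∧
        CLe (TE Tr E₀) c' c'' ∧ k ≤ (phi Φ V i c''.1).length) →
    ∃ D : ℕ → List ℕ → Prop, (∀ k σ, LE δ σ → ∃ τ, σ <+: τ ∧ LE δ τ ∧ D k τ) ∧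
      ∀ G : ℕ → ℕ, (∀ k, LE δ (pre G k)) → (∀ k, ∃ n, D k (pre G n)) →
        HasPath (join V G) (TE Tr E₀)

/-- Module DECIDE (from Lim.kill, PROC, BAIRE, TEC, LTREE). -/
def DecideStatement : Prop :=
  ∀ (Φ : ℕ → List ℕ → List ℕ) (Tr : ℕ → List ℕ → Prop) (TU : List ℕ → Prop) (V : ℕ → ℕ)
    (δ : ℕ → Data) (u : ℕ → ℕ), IsEnum Φ → IsTreeEnum Tr → Lim Φ Tr TU V δ u →
    ∀ (i : ℕ) (E₀ : List ℕ), (∀ e ∈ E₀, ¬ GenF Φ Tr V (LE δ) e) → ∀ (c : Cnd3) (n₀ : ℕ),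
    CV (δ n₀).W (TE Tr E₀) c → ∃ n c', n₀ ≤ n ∧ CV (δ n).W (TE Tr E₀) c' ∧
      CLe (TE Tr E₀) c c' ∧ (¬ LE δ (phi Φ V i c'.1) ∨ ∃ k : ℕ, ∀ m, n ≤ m → ∀ c'',
        CV (δ m).W (TE Tr E₀) c'' → CLe (TE Tr E₀) c' c'' → (phi Φ V i c''.1).length < k)

/-- Module DENS3 (from CONT, ACCAN, CAN, LTREE): density. -/
def Dens3Statement : Prop :=
  ∀ (Φ : ℕ → List ℕ → List ℕ) (Tr : ℕ → List ℕ → Prop) (TU : List ℕ → Prop) (V : ℕ → ℕ)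
    (δ : ℕ → Data) (u : ℕ → ℕ), IsTreeEnum Tr → Lim Φ Tr TU V δ u →
    ∀ (T : List ℕ → Prop), PC T → T [] →
    (∃ c n, CV (δ n).W T c ∧ c.1 = []) ∧
    (∀ c n, CV (δ n).W T c → ∀ e ∈ c.2, ∀ k, T (e.1 ++ [k]) → ∃ c' m, n ≤ m ∧
      CV (δ m).W T c' ∧ CLe T c c' ∧ ∃ e' ∈ c'.2, e'.1 = e.1 ++ [k]) ∧
    (∀ c n, CV (δ n).W T c → ∀ e ∈ c.2,
      CV (δ n).W T (c.1 ++ [Encodable.encode (e.1, e.2.1)], c.2) ∧
      CLe T c (c.1 ++ [Encodable.encode (e.1, e.2.1)], c.2)) ∧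
    -- conditions restrict to smaller trees
    (∀ (T' : List ℕ → Prop) c n, PC T' → T' [] → (∀ s, T' s → T s) → CV (δ n).W T c →
      ∃ c', CV (δ n).W T' c' ∧ c'.1 = c.1 ∧ ∀ e, e ∈ c'.2 ↔ e ∈ c.2 ∧ T' e.1)

/-- Module XREAL (from DECIDE, DENS3, LTREE, CUT's Step3-like bookkeeping). -/
def XrealStatement : Prop :=
  ∀ (Φ : ℕ → List ℕ → List ℕ) (Tr : ℕ → List ℕ → Prop) (TU : List ℕ → Prop) (V : ℕ → ℕ)
    (δ : ℕ → Data) (u : ℕ → ℕ), IsEnum Φ → IsTreeEnum Tr → ComputablePred TU → PC TU →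
    Lim Φ Tr TU V δ u →
    (∃ O : ℕ → ℕ, (∀ k, LE δ (pre O k)) ∧ join V O ∉ Up {f | ∀ k, TU (pre f k)}) ∧
    ∃ X : ℕ → ℕ, (∀ O : ℕ → ℕ, (∀ k, LE δ (pre O k)) → ¬ Red O (join V X)) ∧
      join V X ∉ Up {f | ∀ k, TU (pre f k)} ∧
      ∀ e, ¬ GenF Φ Tr V (LE δ) e → HMapE X (LE δ) (Tr e)

end Pool.Agent.Lib.MP_d48993_lc.Node
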