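import Pool.Agent.Lib.MP_d48993_lc.AE.Node.LimitAux

/-!
# Project NODE (MP_d48993), module LIMIT: the relation between two stages
-/

set_option autoImplicit false
set_option synthInstance.maxSize 2000

namespace Pool.Agent.Lib.MP_d48993_lc.Node.Limit

open MP_8c048d_lc (pre join RecF Sig Clo Cop Del)

attribute [local fun_prop] Computable cid cconst ccomp cfst csnd cpair

/-- Tasks: kind, functional, code of the trees, condition, string. -/
abbrev Task : Type := ℕ × ℕ × ℕ × Cnd3 × List ℕ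

/-- Stages: data, public root, flag, condition, string. -/
abbrev Stg : Type := Data × ℕ × ℕ × Cnd3 × List ℕ

/-- The task of stage `n`. -/
def tsk (n : ℕ) : Task :=
  (Encodable.decode (α := Task) n.unpair.1).getD (3, 0, 0, ([], []), [])

theorem tsk_pair (t : Task) (k : ℕ) : tsk (Nat.pair (Encodable.encode t) k) = t := by
  simp only [tsk, Nat.unpair_pair, Encodable.encodek, Option.getD_some]

theorem tsk_comp : Computable tsk :=
  Computable.option_getD (Computable.decode.comp (Primrec.fst.comp Primrec.unpair).to_comp)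
    (Computable.const _)

/-- Task, number, old data, new data, public root, flag, condition, string. -/
abbrev EP : Type := Task × ℕ × Data × Data × ℕ × ℕ × Cnd3 × List ℕ

/-- The functional of the task. -/
abbrev EP.i (q : EP) : ℕ := q.1.2.1
/-- The trees of the task. -/
abbrev EP.e (q : EP) : ℕ := q.1.2.2.1
/-- The condition of the task. -/
abbrev EP.c (q : EP) : Cnd3 := q.1.2.2.2.1
/-- The string of the task. -/
abbrev EP.ρ (q : EP) : List ℕ := q.1.2.2.2.2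
/-- The number of the stage. -/
abbrev EP.n (q : EP) : ℕ := q.2.1
/-- The old data. -/
abbrev EP.d (q : EP) : Data := q.2.2.1
/-- The new data. -/
abbrev EP.d' (q : EP) : Data := q.2.2.2.1
/-- The new public root. -/
abbrev EP.u (q : EP) : ℕ := q.2.2.2.2.1
/-- The flag. -/
abbrev EP.fl (q : EP) : ℕ := q.2.2.2.2.2.1
/-- The new condition. -/
abbrev EP.c' (q : EP) : Cnd3 := q.2.2.2.2.2.2.1
/-- The new string. -/
abbrev EP.ρ' (q : EP) : List ℕ := q.2.2.2.2.2.2.2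

def ex (p : ℕ × Stg × Stg) : EP :=
  (tsk p.1, p.1, p.2.1.1, p.2.2.1, p.2.2.2.1, p.2.2.2.2.1, p.2.2.2.2.2.1, p.2.2.2.2.2.2)

theorem ex_comp : Computable ex := by
  unfold ex
  have := tsk_comp
  fun_prop

/-! ### The relations -/

/-- `τ` is a valid string of `δ` from `o`. -/
abbrev VO (δ : Data) (τ : List ℕ) : Prop := VStr δ.W o τ (endd o τ)

def R1 (q : EP) : Prop :=
  Lat q.d q.d' ∧ q.d'.pub = q.d.pub ++ [q.u] ∧ q.d.N ≤ q.u ∧ q.n ≤ sz q.u ∧ q.u < q.d'.N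

def R2 (q : EP) : Prop := ∀ p : St × St, p ∈ q.d'.prv ∧ p ∉ q.d.prv → q.u ≤ p.1.1

def R3 (Φ : ℕ → List ℕ → List ℕ) (V : ℕ → ℕ) (q : EP) : Prop :=
  ∀ z : (St × List ℕ) × List ℕ × (ℕ × ℕ) × Data × List ℕ × St,
    ((Adm z.1.1 ∧ z.1.1.2.reverse.head? = some 0 ∧ z.1.1.1 = q.u ∧ z.1 ∈ q.d'.advL) ∧
    (VStr q.d'.W o z.2.1 z.1.1 ∧ z.2.2.1.1 < q.n ∧ z.2.2.1.2 < q.n ∧
      (phi Φ V z.2.2.1.1 (z.2.1 ++ z.1.2)).length < z.2.2.1.2) ∧
    Lat q.d' z.2.2.2.1 ∧ VStr z.2.2.2.1.W (endd z.1.1 z.1.2) z.2.2.2.2.1 z.2.2.2.2.2) →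
    (phi Φ V z.2.2.1.1 (z.2.1 ++ z.1.2 ++ z.2.2.2.2.1)).length < z.2.2.1.2

def R4 (Tr : ℕ → List ℕ → Prop) (q : EP) : Prop :=
  (q.1.1 ≤ 1 ∧ q.fl = 0) → ∀ c₁ : Cnd3,
    ¬ (CV q.d'.W (TT Tr q.e) c₁ ∧ CLe (TT Tr q.e) q.c c₁ ∧ ARoot q.u c₁)

def R5 (Tr : ℕ → List ℕ → Prop) (q : EP) : Prop :=
  (q.1.1 ≤ 1 ∧ q.fl ≠ 0) → CV q.d'.W (TT Tr q.e) q.c' ∧ CLe (TT Tr q.e) q.c q.c'

def R6 (Φ : ℕ → List ℕ → List ℕ) (V : ℕ → ℕ) (q : EP) : Prop :=
  (q.1.1 = 0 ∧ q.fl = 1) → ∀ δ : Data, Lat q.d' δ → ¬ VO δ (phi Φ V q.i q.c'.1)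

def R7 (q : EP) : Prop :=
  (q.1.1 = 0 ∧ 2 ≤ q.fl) → ∀ e ∈ q.c'.2, (endd o e.2.2).1 ∈ q.d'.pub

def R8 (Φ : ℕ → List ℕ → List ℕ) (Tr : ℕ → List ℕ → Prop) (V : ℕ → ℕ) (q : EP) : Prop :=
  (q.1.1 = 0 ∧ 2 ≤ q.fl) → ∀ z : Data × Cnd3 × ℕ,
    (Lat q.d' z.1 ∧ CV z.1.W (TT Tr q.e) z.2.1 ∧ CLe (TT Tr q.e) q.c' z.2.1 ∧
      VO z.1 (phi Φ V q.i z.2.1.1) ∧ z.2.2 ∈ phi Φ V q.i z.2.1.1 ∧
      q.d'.N ≤ (tgt z.2.2).1) → KE z.2.1 (src z.2.2) (tgt z.2.2)

def R9 (Φ : ℕ → List ℕ → List ℕ) (TU : List ℕ → Prop) (V : ℕ → ℕ) (q : EP) : Prop :=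
  (q.1.1 = 1 ∧ q.fl = 1) → ¬ TU (phi Φ V q.i q.c'.1)

def R10 (Φ : ℕ → List ℕ → List ℕ) (Tr : ℕ → List ℕ → Prop) (V : ℕ → ℕ) (q : EP) : Prop :=
  (q.1.1 = 1 ∧ 2 ≤ q.fl) → ∀ z : Data × Cnd3,
    (Lat q.d' z.1 ∧ CV z.1.W (TT Tr q.e) z.2 ∧ CLe (TT Tr q.e) q.c' z.2) →
    (phi Φ V q.i z.2.1).length ≤ (phi Φ V q.i q.c'.1).length

def R11 (q : EP) : Prop :=
  (q.1.1 = 2 ∧ q.fl = 0) → ∀ ρ₁ : List ℕ, ¬ (q.ρ <+: ρ₁ ∧ VO q.d' ρ₁ ∧ (endd o ρ₁).1 = q.u)

def R12 (q : EP) : Prop := (q.1.1 = 2 ∧ q.fl ≠ 0) → q.ρ <+: q.ρ' ∧ VO q.d' q.ρ'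

def R13 (Φ : ℕ → List ℕ → List ℕ) (TU : List ℕ → Prop) (V : ℕ → ℕ) (q : EP) : Prop :=
  (q.1.1 = 2 ∧ q.fl = 1) → ¬ TU (phi Φ V q.i q.ρ')

def R14 (Φ : ℕ → List ℕ → List ℕ) (V : ℕ → ℕ) (q : EP) : Prop :=
  (q.1.1 = 2 ∧ 2 ≤ q.fl) → ∀ z : Data × List ℕ, (Lat q.d' z.1 ∧ VO z.1 z.2 ∧ q.ρ' <+: z.2) →
    (phi Φ V q.i z.2).length ≤ (phi Φ V q.i q.ρ').length

/-- The relation between two stages. -/
structure RR (Φ : ℕ → List ℕ → List ℕ) (Tr : ℕ → List ℕ → Prop) (TU : List ℕ → Prop) (V : ℕ → ℕ)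
    (q : EP) : Prop where
  r1 : R1 q
  r2 : R2 q
  r3 : R3 Φ V q
  r4 : R4 Tr q
  r5 : R5 Tr q
  r6 : R6 Φ V q
  r7 : R7 q
  r8 : R8 Φ Tr V q
  r9 : R9 Φ TU V q
  r10 : R10 Φ Tr V q
  r11 : R11 q
  r12 : R12 q
  r13 : R13 Φ TU V q
  r14 : R14 Φ V q

section

variable {Φ : ℕ → List ℕ → List ℕ} {Tr : ℕ → List ℕ → Prop} {TU : List ℕ → Prop}

/-! ### They are closed -/

theorem clo1 (hv : DecvStatement) : Clo (fun (q : EP) (_ : ℕ → ℕ) => R1 q) := by
  have hsz : Computable sz := (Primrec.fst.comp Primrec.unpair).to_comp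
  have h1 : Cop (fun (q : EP) (_ : ℕ → ℕ) => Lat q.d q.d') := cop_lat hv (by fun_prop) (by fun_prop)
  have h2 : Cop (fun (q : EP) (_ : ℕ → ℕ) => q.d'.pub = q.d.pub ++ [q.u]) := by
    have e1 : Computable (fun q : EP => q.d.pub ++ [q.u]) :=
      Computable.list_append.comp (by fun_prop)
        (Computable.list_cons.comp (by fun_prop) (Computable.const []))
    exact cop_eq (by fun_prop) e1
  have h3 : Cop (fun (q : EP) (_ : ℕ → ℕ) => q.d.N ≤ q.u) := cop_le (by fun_prop) (by fun_prop)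
  have h4 : Cop (fun (q : EP) (_ : ℕ → ℕ) => q.n ≤ sz q.u) := cop_le (by fun_prop) (by fun_prop)
  have h5 : Cop (fun (q : EP) (_ : ℕ → ℕ) => q.u < q.d'.N) := cop_lt (by fun_prop) (by fun_prop)
  exact Clo.of_cop (h1.and (h2.and (h3.and (h4.and h5))))

theorem clo2 : Clo (fun (q : EP) (_ : ℕ → ℕ) => R2 q) := by
  refine Clo.all (P := fun (q : EP) (p : St × St) (_ : ℕ → ℕ) =>
    p ∈ q.d'.prv ∧ p ∉ q.d.prv → q.u ≤ p.1.1) (Clo.of_cop (Cop.imp (Cop.and ?_ (Cop.not ?_)) ?_))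
  · exact cop_mem (f := fun x : EP × (St × St) => x.2) (by fun_prop) (by fun_prop)
  · exact cop_mem (f := fun x : EP × (St × St) => x.2) (by fun_prop) (by fun_prop)
  · exact cop_le (by fun_prop) (by fun_prop)


theorem cop_tu (hTU : ComputablePred TU) (hΦ : Computable₂ Φ) {f : EP → ℕ} (hf : Computable f)
    {g : EP → List ℕ} (hg : Computable g) : Cop (fun (q : EP) V => TU (phi Φ V (f q) (g q))) :=
  cop_sub (P := fun (_ : EP) b _ => TU b) ((Cop.of_computable hTU).comp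
    (f := fun p : EP × List ℕ => p.2) (by fun_prop)) (phi_rec hΦ hf hg)

theorem cop_vphi (hv : DecvStatement) (hcd : CodesStatement) (hΦ : Computable₂ Φ) {α : Type}
    [Primcodable α] {d : α → Data} (hd : Computable d) {f : α → ℕ} (hf : Computable f)
    {g : α → List ℕ} (hg : Computable g) : Cop (fun (q : α) V => VO (d q) (phi Φ V (f q) (g q))) :=
  cop_sub (P := fun (a : α) b _ => VO (d a) b) (cop_vo hv hcd
    (f := fun p : α × List ℕ => d p.1) (hd.comp Computable.fst) (g := fun p : α × List ℕ => p.2)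
    Computable.snd) (phi_rec hΦ hf hg)

theorem cop_mphi (hΦ : Computable₂ Φ) {α : Type}
    [Primcodable α] {d : α → ℕ} (hd : Computable d) {f : α → ℕ} (hf : Computable f)
    {g : α → List ℕ} (hg : Computable g) : Cop (fun (q : α) V => d q ∈ phi Φ V (f q) (g q)) :=
  cop_sub (P := fun (a : α) b _ => d a ∈ b) (cop_mem (f := fun p : α × List ℕ => d p.1)
    (hd.comp Computable.fst) (g := fun p : α × List ℕ => p.2) Computable.snd) (phi_rec hΦ hf hg)

theorem cop_lphi (hΦ : Computable₂ Φ) {α : Type}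
    [Primcodable α] {f f' : α → ℕ} (hf : Computable f) (hf' : Computable f')
    {g g' : α → List ℕ} (hg : Computable g) (hg' : Computable g') :
    Cop (fun (q : α) V => (phi Φ V (f q) (g q)).length ≤ (phi Φ V (f' q) (g' q)).length) :=
  cop_sub (P := fun (_ : α) (b : List ℕ × List ℕ) _ => b.1.length ≤ b.2.length)
    (cop_le (f := fun p : α × List ℕ × List ℕ => p.2.1.length)
      (Computable.list_length.comp (by fun_prop)) (g := fun p : α × List ℕ × List ℕ => p.2.2.length)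
      (Computable.list_length.comp (by fun_prop))) ((phi_rec hΦ hf hg).pair (phi_rec hΦ hf' hg'))

theorem cop_nphi (hΦ : Computable₂ Φ) {α : Type}
    [Primcodable α] {f m : α → ℕ} (hf : Computable f) (hm : Computable m)
    {g : α → List ℕ} (hg : Computable g) :
    Cop (fun (q : α) V => (phi Φ V (f q) (g q)).length < m q) :=
  cop_sub (P := fun (a : α) (b : List ℕ) _ => b.length < m a)
    (cop_lt (f := fun p : α × List ℕ => p.2.length)
      (Computable.list_length.comp (by fun_prop)) (g := fun p : α × List ℕ => m p.1)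
      (hm.comp Computable.fst)) (phi_rec hΦ hf hg)

theorem clo4 (hc : DeccStatement) (hcd : CodesStatement)
    (hTr : ComputablePred (fun p : ℕ × List ℕ => Tr p.1 p.2)) :
    Clo (fun (q : EP) (_ : ℕ → ℕ) => R4 Tr q) := by
  refine Clo.imp (Cop.and (cop_le (by fun_prop) (by fun_prop)) (cop_eq (by fun_prop)
    (by fun_prop))) (Clo.all (P := fun (q : EP) (c₁ : Cnd3) (_ : ℕ → ℕ) =>
    ¬ (CV q.d'.W (TT Tr q.e) c₁ ∧ CLe (TT Tr q.e) q.c c₁ ∧ ARoot q.u c₁)) (Clo.of_cop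
      (Cop.not (Cop.and ?_ (Cop.and ?_ ?_)))))
  · exact cop_cv hc hTr (f := fun p : EP × Cnd3 => p.1.d') (by fun_prop) (by fun_prop)
      (by fun_prop)
  · exact cop_cle hc hTr (e := fun p : EP × Cnd3 => p.1.e) (by fun_prop) (by fun_prop)
      (by fun_prop)
  · exact cop_aroot hcd (f := fun p : EP × Cnd3 => p.1.u) (by fun_prop) (by fun_prop)

theorem clo5 (hc : DeccStatement)
    (hTr : ComputablePred (fun p : ℕ × List ℕ => Tr p.1 p.2)) :
    Clo (fun (q : EP) (_ : ℕ → ℕ) => R5 Tr q) :=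
  Clo.of_cop (Cop.imp (Cop.and (cop_le (by fun_prop) (by fun_prop))
    (Cop.not (cop_eq (by fun_prop) (by fun_prop)))) (Cop.and
      (cop_cv hc hTr (by fun_prop) (by fun_prop) (by fun_prop))
      (cop_cle hc hTr (by fun_prop) (by fun_prop) (by fun_prop))))

theorem clo6 (hv : DecvStatement) (hcd : CodesStatement) (hΦ : Computable₂ Φ) :
    Clo (fun (q : EP) V => R6 Φ V q) := by
  refine Clo.imp (Cop.and (cop_eq (by fun_prop) (by fun_prop)) (cop_eq (by fun_prop)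
    (by fun_prop))) (Clo.all (P := fun (q : EP) (δ : Data) V =>
    Lat q.d' δ → ¬ VO δ (phi Φ V q.i q.c'.1)) (Clo.of_cop (Cop.imp ?_ (Cop.not ?_))))
  · exact cop_lat hv (f := fun p : EP × Data => p.1.d') (by fun_prop) (by fun_prop)
  · exact cop_vphi hv hcd hΦ (d := fun p : EP × Data => p.2) (by fun_prop) (by fun_prop)
      (by fun_prop)

theorem clo7 (hcd : CodesStatement) : Clo (fun (q : EP) (_ : ℕ → ℕ) => R7 q) := by
  refine Clo.of_cop (Cop.imp (Cop.and (cop_eq (by fun_prop) (by fun_prop)) (cop_le (by fun_prop)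
    (by fun_prop))) ?_)
  refine cop_ball (P := fun (q : EP) (e : List ℕ × List ℕ × List ℕ) (_ : ℕ → ℕ) =>
    (endd o e.2.2).1 ∈ q.d'.pub) ?_ (by fun_prop) ([], [], [])
  exact cop_mem (f := fun p : EP × (List ℕ × List ℕ × List ℕ) => (endd o p.2.2.2).1)
    (Computable.fst.comp (endd_o hcd (by fun_prop))) (by fun_prop)

theorem clo8 (hv : DecvStatement) (hc : DeccStatement) (hcd : CodesStatement)
    (hTr : ComputablePred (fun p : ℕ × List ℕ => Tr p.1 p.2)) (hΦ : Computable₂ Φ) :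
    Clo (fun (q : EP) V => R8 Φ Tr V q) := by
  have htgt : Computable tgt := hcd.2.2.2.2.2.1
  refine Clo.imp (Cop.and (cop_eq (by fun_prop) (by fun_prop)) (cop_le (by fun_prop)
    (by fun_prop))) (Clo.all (P := fun (q : EP) (z : Data × Cnd3 × ℕ) V =>
    (Lat q.d' z.1 ∧ CV z.1.W (TT Tr q.e) z.2.1 ∧ CLe (TT Tr q.e) q.c' z.2.1 ∧
      VO z.1 (phi Φ V q.i z.2.1.1) ∧ z.2.2 ∈ phi Φ V q.i z.2.1.1 ∧
      q.d'.N ≤ (tgt z.2.2).1) → KE z.2.1 (src z.2.2) (tgt z.2.2)) (Clo.of_cop (Cop.imp (Cop.and ?_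
      (Cop.and ?_ (Cop.and ?_ (Cop.and ?_ (Cop.and ?_ ?_))))) ?_)))
  · exact cop_lat hv (f := fun p : EP × (Data × Cnd3 × ℕ) => p.1.d') (by fun_prop) (by fun_prop)
  · exact cop_cv hc hTr (f := fun p : EP × (Data × Cnd3 × ℕ) => p.2.1) (by fun_prop) (by fun_prop)
      (by fun_prop)
  · exact cop_cle hc hTr (e := fun p : EP × (Data × Cnd3 × ℕ) => p.1.e) (by fun_prop)
      (by fun_prop) (by fun_prop)
  · exact cop_vphi hv hcd hΦ (d := fun p : EP × (Data × Cnd3 × ℕ) => p.2.1) (by fun_prop)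
      (by fun_prop) (by fun_prop)
  · exact cop_mphi hΦ (d := fun p : EP × (Data × Cnd3 × ℕ) => p.2.2.2) (by fun_prop)
      (by fun_prop) (by fun_prop)
  · exact cop_le (f := fun p : EP × (Data × Cnd3 × ℕ) => p.1.d'.N) (by fun_prop)
      (Computable.fst.comp (htgt.comp (by fun_prop)))
  · exact cop_ke hc hcd (f := fun p : EP × (Data × Cnd3 × ℕ) => p.2.2.1) (by fun_prop)
      (g := fun p : EP × (Data × Cnd3 × ℕ) => p.2.2.2) (by fun_prop)

theorem clo9 (hTU : ComputablePred TU) (hΦ : Computable₂ Φ) :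
    Clo (fun (q : EP) V => R9 Φ TU V q) :=
  Clo.of_cop (Cop.imp (Cop.and (cop_eq (by fun_prop) (by fun_prop)) (cop_eq (by fun_prop)
    (by fun_prop))) (Cop.not (cop_tu hTU hΦ (by fun_prop) (by fun_prop))))

theorem clo10 (hv : DecvStatement) (hc : DeccStatement)
    (hTr : ComputablePred (fun p : ℕ × List ℕ => Tr p.1 p.2)) (hΦ : Computable₂ Φ) :
    Clo (fun (q : EP) V => R10 Φ Tr V q) := by
  refine Clo.imp (Cop.and (cop_eq (by fun_prop) (by fun_prop)) (cop_le (by fun_prop)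
    (by fun_prop))) (Clo.all (P := fun (q : EP) (z : Data × Cnd3) V =>
    (Lat q.d' z.1 ∧ CV z.1.W (TT Tr q.e) z.2 ∧ CLe (TT Tr q.e) q.c' z.2) →
    (phi Φ V q.i z.2.1).length ≤ (phi Φ V q.i q.c'.1).length) (Clo.of_cop (Cop.imp (Cop.and ?_
      (Cop.and ?_ ?_)) ?_)))
  · exact cop_lat hv (f := fun p : EP × (Data × Cnd3) => p.1.d') (by fun_prop) (by fun_prop)
  · exact cop_cv hc hTr (f := fun p : EP × (Data × Cnd3) => p.2.1) (by fun_prop) (by fun_prop)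
      (by fun_prop)
  · exact cop_cle hc hTr (e := fun p : EP × (Data × Cnd3) => p.1.e) (by fun_prop)
      (by fun_prop) (by fun_prop)
  · exact cop_lphi hΦ (f := fun p : EP × (Data × Cnd3) => p.1.i) (by fun_prop) (by fun_prop)
      (by fun_prop) (by fun_prop)

theorem clo11 (hv : DecvStatement) (hcd : CodesStatement) :
    Clo (fun (q : EP) (_ : ℕ → ℕ) => R11 q) := by
  refine Clo.imp (Cop.and (cop_eq (by fun_prop) (by fun_prop)) (cop_eq (by fun_prop)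
    (by fun_prop))) (Clo.all (P := fun (q : EP) (ρ₁ : List ℕ) (_ : ℕ → ℕ) =>
    ¬ (q.ρ <+: ρ₁ ∧ VO q.d' ρ₁ ∧ (endd o ρ₁).1 = q.u)) (Clo.of_cop
      (Cop.not (Cop.and ?_ (Cop.and ?_ ?_)))))
  · exact cop_prefix (f := fun p : EP × List ℕ => p.1.ρ) (by fun_prop) (by fun_prop)
  · exact cop_vo hv hcd (f := fun p : EP × List ℕ => p.1.d') (by fun_prop) (by fun_prop)
  · exact cop_eq (f := fun p : EP × List ℕ => (endd o p.2).1)
      (Computable.fst.comp (endd_o hcd (by fun_prop))) (by fun_prop)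

theorem clo12 (hv : DecvStatement) (hcd : CodesStatement) :
    Clo (fun (q : EP) (_ : ℕ → ℕ) => R12 q) :=
  Clo.of_cop (Cop.imp (Cop.and (cop_eq (by fun_prop) (by fun_prop))
    (Cop.not (cop_eq (by fun_prop) (by fun_prop)))) (Cop.and
      (cop_prefix (by fun_prop) (by fun_prop))
      (cop_vo hv hcd (by fun_prop) (by fun_prop))))

theorem clo13 (hTU : ComputablePred TU) (hΦ : Computable₂ Φ) :
    Clo (fun (q : EP) V => R13 Φ TU V q) :=
  Clo.of_cop (Cop.imp (Cop.and (cop_eq (by fun_prop) (by fun_prop)) (cop_eq (by fun_prop)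
    (by fun_prop))) (Cop.not (cop_tu hTU hΦ (by fun_prop) (by fun_prop))))

theorem clo14 (hv : DecvStatement) (hcd : CodesStatement) (hΦ : Computable₂ Φ) :
    Clo (fun (q : EP) V => R14 Φ V q) := by
  refine Clo.imp (Cop.and (cop_eq (by fun_prop) (by fun_prop)) (cop_le (by fun_prop)
    (by fun_prop))) (Clo.all (P := fun (q : EP) (z : Data × List ℕ) V =>
    (Lat q.d' z.1 ∧ VO z.1 z.2 ∧ q.ρ' <+: z.2) →
    (phi Φ V q.i z.2).length ≤ (phi Φ V q.i q.ρ').length) (Clo.of_cop (Cop.imp (Cop.and ?_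
      (Cop.and ?_ ?_)) ?_)))
  · exact cop_lat hv (f := fun p : EP × (Data × List ℕ) => p.1.d') (by fun_prop) (by fun_prop)
  · exact cop_vo hv hcd (f := fun p : EP × (Data × List ℕ) => p.2.1) (by fun_prop) (by fun_prop)
  · exact cop_prefix (f := fun p : EP × (Data × List ℕ) => p.1.ρ') (by fun_prop) (by fun_prop)
  · exact cop_lphi hΦ (f := fun p : EP × (Data × List ℕ) => p.1.i) (by fun_prop) (by fun_prop)
      (by fun_prop) (by fun_prop)

theorem clo3 (hv : DecvStatement) (hcd : CodesStatement) (hΦ : Computable₂ Φ) :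
    Clo (fun (q : EP) V => R3 Φ V q) := by
  have happ : ∀ {α : Type} [Primcodable α] {f g : α → List ℕ}, Computable f → Computable g →
      Computable (fun a => f a ++ g a) := fun hf hg => Computable.list_append.comp hf hg
  have hen : ∀ {α : Type} [Primcodable α] {f : α → St} {g : α → List ℕ}, Computable f →
      Computable g → Computable (fun a => endd (f a) (g a)) := fun hf hg =>
    hcd.2.2.2.2.2.2.2.2.2.1.comp (hf.pair hg)
  refine Clo.all (P := fun (q : EP) (z : (St × List ℕ) × List ℕ × (ℕ × ℕ) × Data × List ℕ × St) V =>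
    ((Adm z.1.1 ∧ z.1.1.2.reverse.head? = some 0 ∧ z.1.1.1 = q.u ∧ z.1 ∈ q.d'.advL) ∧
    (VStr q.d'.W o z.2.1 z.1.1 ∧ z.2.2.1.1 < q.n ∧ z.2.2.1.2 < q.n ∧
      (phi Φ V z.2.2.1.1 (z.2.1 ++ z.1.2)).length < z.2.2.1.2) ∧
    Lat q.d' z.2.2.2.1 ∧ VStr z.2.2.2.1.W (endd z.1.1 z.1.2) z.2.2.2.2.1 z.2.2.2.2.2) →
    (phi Φ V z.2.2.1.1 (z.2.1 ++ z.1.2 ++ z.2.2.2.2.1)).length < z.2.2.1.2)
    (Clo.of_cop (Cop.imp (Cop.and (Cop.and ?_ (Cop.and ?_ (Cop.and ?_ ?_)))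
      (Cop.and (Cop.and ?_ (Cop.and ?_ (Cop.and ?_ ?_))) (Cop.and ?_ ?_))) ?_))
  · exact cop_adm.comp (f := fun p : EP × ((St × List ℕ) × List ℕ × (ℕ × ℕ) × Data × List ℕ × St) =>
      p.2.1.1) (by fun_prop)
  · exact cop_eq (f := fun p : EP × ((St × List ℕ) × List ℕ × (ℕ × ℕ) × Data × List ℕ × St) =>
      p.2.1.1.2.reverse.head?) (Primrec.list_head?.to_comp.comp
        (Primrec.list_reverse.to_comp.comp (by fun_prop))) (by fun_prop)
  · exact cop_eq (f := fun p : EP × ((St × List ℕ) × List ℕ × (ℕ × ℕ) × Data × List ℕ × St) =>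
      p.2.1.1.1) (by fun_prop) (by fun_prop)
  · exact cop_mem (f := fun p : EP × ((St × List ℕ) × List ℕ × (ℕ × ℕ) × Data × List ℕ × St) =>
      p.2.1) (by fun_prop) (by fun_prop)
  · exact (cop_vstr hv hcd).comp (f := fun p : EP × ((St × List ℕ) × List ℕ × (ℕ × ℕ) × Data ×
      List ℕ × St) => (p.1.d', o, p.2.2.1, p.2.1.1)) (by fun_prop)
  · exact cop_lt (f := fun p : EP × ((St × List ℕ) × List ℕ × (ℕ × ℕ) × Data × List ℕ × St) =>
      p.2.2.2.1.1) (by fun_prop) (by fun_prop)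
  · exact cop_lt (f := fun p : EP × ((St × List ℕ) × List ℕ × (ℕ × ℕ) × Data × List ℕ × St) =>
      p.2.2.2.1.2) (by fun_prop) (by fun_prop)
  · exact cop_nphi hΦ (f := fun p : EP × ((St × List ℕ) × List ℕ × (ℕ × ℕ) × Data × List ℕ × St) =>
      p.2.2.2.1.1) (by fun_prop) (by fun_prop) (happ (by fun_prop) (by fun_prop))
  · exact cop_lat hv (f := fun p : EP × ((St × List ℕ) × List ℕ × (ℕ × ℕ) × Data × List ℕ × St) =>
      p.1.d') (by fun_prop) (by fun_prop)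
  · exact (cop_vstr hv hcd).comp (f := fun p : EP × ((St × List ℕ) × List ℕ × (ℕ × ℕ) × Data ×
      List ℕ × St) => (p.2.2.2.2.1, endd p.2.1.1 p.2.1.2, p.2.2.2.2.2.1, p.2.2.2.2.2.2))
      (Computable.pair (by fun_prop) (Computable.pair (hen (by fun_prop) (by fun_prop))
        (by fun_prop)))
  · exact cop_nphi hΦ (f := fun p : EP × ((St × List ℕ) × List ℕ × (ℕ × ℕ) × Data × List ℕ × St) =>
      p.2.2.2.1.1) (by fun_prop) (by fun_prop) (happ (happ (by fun_prop) (by fun_prop))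
        (by fun_prop))

/-- The relation is closed. -/
theorem cloRR (hv : DecvStatement) (hc : DeccStatement) (hcd : CodesStatement)
    (hTr : ComputablePred (fun p : ℕ × List ℕ => Tr p.1 p.2)) (hΦ : Computable₂ Φ)
    (hTU : ComputablePred TU) : Clo (fun (q : EP) V => RR Φ Tr TU V q) := by
  refine ((clo1 hv).and (clo2.and ((clo3 hv hcd hΦ).and ((clo4 hc hcd hTr).and
    ((clo5 hc hTr).and ((clo6 hv hcd hΦ).and ((clo7 hcd).and ((clo8 hv hc hcd hTr hΦ).and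
    ((clo9 hTU hΦ).and ((clo10 hv hc hTr hΦ).and ((clo11 hv hcd).and ((clo12 hv hcd).and
    ((clo13 hTU hΦ).and (clo14 hv hcd hΦ)))))))))))))).congr fun q V => ?_
  constructor
  · rintro ⟨h1, h2, h3, h4, h5, h6, h7, h8, h9, h10, h11, h12, h13, h14⟩
    exact ⟨h1, h2, h3, h4, h5, h6, h7, h8, h9, h10, h11, h12, h13, h14⟩
  · rintro ⟨h1, h2, h3, h4, h5, h6, h7, h8, h9, h10, h11, h12, h13, h14⟩
    exact ⟨h1, h2, h3, h4, h5, h6, h7, h8, h9, h10, h11, h12, h13, h14⟩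

end

end Pool.Agent.Lib.MP_d48993_lc.Node.Limit
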