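import Pool.Agent.Lib.MP_d48993_lc.AE.Node.Interfaces
import Pool.Agent.Lib.MP_d48993_lc.Red
import Pool.Agent.Lib.MP_d48993_lc.Cls

/-!
# Project NODE (MP_d48993), module NODE: the node theorem from LIMIT, LTREE, HP and XREAL
-/

set_option autoImplicit false

namespace Pool.Agent.Lib.MP_d48993_lc.Node

open MP_8c048d_lc (pre join RecF Sig Clo Cop Del)

/-- A stronger oracle. -/
theorem hmapE_mono {Y Z : ℕ → ℕ} {E T : List ℕ → Prop} (h : Red Y Z) (hY : HMapE Y E T) :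
    HMapE Z E T := by
  obtain ⟨H, hH, h1⟩ := hY
  exact ⟨H, hH.trans h, h1⟩

theorem node_of (hLim : LimitStatement) (hLt : LtreeStatement) (hHp : HpStatement)
    (hX : XrealStatement) : NodeStatement := by
  intro Φ Tr hΦ hTr U V hU hV
  obtain ⟨TU, ⟨hTU, hPC⟩, rfl⟩ := closed_tree hU
  have hV' : V ∉ Up {f | ∀ k, TU (pre f k)} := hV
  obtain ⟨δ, u, g, hL, hg, hgl⟩ := hLim Φ Tr TU V hΦ hTr hTU hPC hV'
  obtain ⟨⟨A, hA, hAl⟩, hnil, hpc, hext, -, -, -⟩ := hLt Φ Tr TU V δ u g hL hg hgl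
  obtain ⟨hO, X, hX1, hX2, hX3⟩ := hX Φ Tr TU V δ u hΦ hTr hTU hPC hL
  exact ⟨A, LE δ, hA, hAl, hnil, hpc, hext, hHp Φ Tr TU V δ u hΦ hTr hL, hO, join V X,
    red_left V X, hX1, hX2, fun e he => hmapE_mono (red_right V X) (hX3 e he)⟩

end Pool.Agent.Lib.MP_d48993_lc.Node
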