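import Pool.Agent.Lib.MP_d48993_lc.AE.Node.ProcEnd
import Pool.Agent.Lib.MP_d48993_lc.Step2b
import Pool.Agent.Lib.MP_d48993_lc.Tec

/-!
# Module PROC (helper3): assembly
-/

set_option autoImplicit false

namespace Pool.Agent.Lib.MP_d48993_lc.Node

open MP_8c048d_lc (pre join RecF Sig Clo Cop Del)

namespace Proc

open Step2c (cp_comp)
open Step2b (eqPair' memPair prefixPair)

/-- The limit. -/
theorem limD_of (hL0 : Ltree0Statement) {Φ : ℕ → List ℕ → List ℕ} {Tr : ℕ → List ℕ → Prop}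
    {TU : List ℕ → Prop} {V : ℕ → ℕ} {δ : ℕ → Data} {u : ℕ → ℕ} (h : Lim Φ Tr TU V δ u) :
    LimD δ u := by
  obtain ⟨h1, h2, h3, h4, h5, h6⟩ := hL0 Φ Tr TU V δ u h
  exact ⟨h.wf, h.full, h5, h6, h.root, fun n => by rw [h.pub n]; simp, h1, h2, h3, h4⟩

theorem pre_pfx (G : ℕ → ℕ) {k l : ℕ} (h : k ≤ l) : pre G k <+: pre G l := by
  have : pre G k = (pre G l).take k := by
    rw [MP_8c048d_lc.pre_take, Nat.min_eq_left h]
  rw [this]
  exact List.take_prefix _ _

theorem eq_pre {G : ℕ → ℕ} {σ : List ℕ} {n : ℕ} (h : σ <+: pre G n) : σ = pre G σ.length := by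
  have h1 := List.prefix_iff_eq_take.1 h
  have h2 := h.length_le
  rw [MP_8c048d_lc.length_pre] at h2
  rw [MP_8c048d_lc.pre_take, Nat.min_eq_left h2] at h1
  exact h1

/-- The configuration with a given code. -/
def dc (n : ℕ) : Cfg := (Encodable.decode (α := Cfg) n).getD ([], [], ([], [], []), [])

theorem dc_encode (a : Cfg) : dc (Encodable.encode a) = a := by
  unfold dc
  rw [Encodable.encodek]
  rfl

theorem dc_comp : Computable dc :=
  Computable.option_getD Computable.decode (Computable.const _)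

/-- The relation of the second search: an entered child, at a later stage. -/
def R2 (N : ℕ) (a a' : ℕ × List ℕ × List ℕ) (F : ℕ → ℕ) : Prop :=
  a.1 < a'.1 ∧ a'.2.1.length = a.2.1.length + 1 ∧ a.2.1 <+: a'.2.1 ∧
    (a'.2.1, a'.2.2) ∈ (dc (F (a'.1 - 1))).im ∧ Ent N (dc (F (a'.1 - 1))) a'.2.2

abbrev Q2 : Type := ℕ × List ℕ × List ℕ

theorem r2_cop {N : ℕ} (hE : ComputablePred (fun p : Cfg × List ℕ => Ent N p.1 p.2)) :
    Cop (fun (p : Q2 × Q2) F => R2 N p.1 p.2 F) := by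
  -- the value of the oracle
  have hφ : RecF (fun (p : Q2 × Q2) (F : ℕ → ℕ) => (p, F (p.2.1 - 1))) := by
    refine RecF.pair (RecF.of_computable Computable.id) (RecF.at (f := fun p : Q2 × Q2 =>
      p.2.1 - 1) ?_)
    exact (Primrec.nat_sub.comp (Primrec.fst.comp Primrec.snd) (Primrec.const 1)).to_comp
  have c1 : Computable (fun q : (Q2 × Q2) × ℕ => q.1.1) := Computable.fst.comp Computable.fst
  have c2 : Computable (fun q : (Q2 × Q2) × ℕ => q.1.2) := Computable.snd.comp Computable.fst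
  have c3 : Computable (fun q : (Q2 × Q2) × ℕ => dc q.2) := dc_comp.comp Computable.snd
  have e1 : ComputablePred (fun q : (Q2 × Q2) × ℕ => q.1.1.1 < q.1.2.1) := by
    have h : PrimrecPred (fun p : ℕ × ℕ => p.1 < p.2) := Primrec.nat_lt
    exact cp_comp h.computablePred (f := fun q : (Q2 × Q2) × ℕ => (q.1.1.1, q.1.2.1))
      (Computable.pair (Computable.fst.comp c1) (Computable.fst.comp c2))
  have e2 : ComputablePred (fun q : (Q2 × Q2) × ℕ =>
      q.1.2.2.1.length = q.1.1.2.1.length + 1) :=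
    cp_comp (eqPair' (α := ℕ)) (f := fun q : (Q2 × Q2) × ℕ =>
      (q.1.2.2.1.length, q.1.1.2.1.length + 1))
      (Computable.pair
        (Computable.list_length.comp (Computable.fst.comp (Computable.snd.comp c2)))
        (Computable.succ.comp
          (Computable.list_length.comp (Computable.fst.comp (Computable.snd.comp c1)))))
  have e3 : ComputablePred (fun q : (Q2 × Q2) × ℕ => q.1.1.2.1 <+: q.1.2.2.1) :=
    cp_comp prefixPair (f := fun q : (Q2 × Q2) × ℕ => (q.1.1.2.1, q.1.2.2.1))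
      (Computable.pair (Computable.fst.comp (Computable.snd.comp c1))
        (Computable.fst.comp (Computable.snd.comp c2)))
  have e4 : ComputablePred (fun q : (Q2 × Q2) × ℕ =>
      (q.1.2.2.1, q.1.2.2.2) ∈ (dc q.2).im) :=
    cp_comp (memPair (α := Im)) (f := fun q : (Q2 × Q2) × ℕ =>
      ((q.1.2.2.1, q.1.2.2.2), (dc q.2).im))
      (Computable.pair (Computable.pair (Computable.fst.comp (Computable.snd.comp c2))
        (Computable.snd.comp (Computable.snd.comp c2)))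
        (Computable.fst.comp (Computable.snd.comp (Computable.fst.comp
          (Computable.snd.comp (Computable.snd.comp c3))))))
  have e5 : ComputablePred (fun q : (Q2 × Q2) × ℕ => Ent N (dc q.2) q.1.2.2.2) :=
    cp_comp hE (f := fun q : (Q2 × Q2) × ℕ => (dc q.2, q.1.2.2.2))
      (Computable.pair c3 (Computable.snd.comp (Computable.snd.comp c2)))
  have a1 := Cop.of_recF hφ e1
  have a2 := Cop.of_recF hφ e2
  have a3 := Cop.of_recF hφ e3
  have a4 := Cop.of_recF hφ e4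
  have a5 := Cop.of_recF hφ e5
  exact (a1.and (a2.and (a3.and (a4.and a5)))).congr fun p F => Iff.rfl

/-- The sets which the driver has to meet. -/
def DD (Φ : ℕ → List ℕ → List ℕ) (V : ℕ → ℕ) (δ : ℕ → Data) (T : List ℕ → Prop) (i : ℕ)
    (c₀ : Cnd3) (N : ℕ) : ℕ → List ℕ → Prop
  | 0, τ => ∃ a : Cfg, a.sg <+: τ ∧ Good Φ V δ T i c₀ N a
  | k + 1, τ => ∀ a : Cfg, Encodable.encode a = k → a.sg.length ≤ τ.length ∧
      (a.sg <+: τ → Good Φ V δ T i c₀ N a → ∃ a' : Cfg, a'.sg <+: τ ∧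
        a'.y = phi Φ V i a'.x ∧ Stp T c₀ N a a')

/-- Strings of the limit can be made longer. -/
theorem long_ext {δ : ℕ → Data} {u : ℕ → ℕ} (hL : LimD δ u) {σ : List ℕ} (h : LE δ σ) (n : ℕ) :
    ∃ τ, σ <+: τ ∧ LE δ τ ∧ n ≤ τ.length := by
  induction n with
  | zero => exact ⟨σ, List.prefix_refl _, h, Nat.zero_le _⟩
  | succ n ih =>
    obtain ⟨τ, h1, h2, h3⟩ := ih
    obtain ⟨k, hk⟩ := hL.ned τ h2
    exact ⟨τ ++ [k], h1.trans (List.prefix_append _ _), hk, by simp; omega⟩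

theorem dd_dense {Φ : ℕ → List ℕ → List ℕ} {V : ℕ → ℕ} {δ : ℕ → Data} {u : ℕ → ℕ}
    {T : List ℕ → Prop} {i : ℕ} {c₀ : Cnd3} {n₀ N : ℕ} (hSt : StartStatement)
    (hSp : StepStatement) (hX : Cx Φ V δ u T i c₀ n₀ N) (k : ℕ) (σ : List ℕ) (hσ : LE δ σ) :
    ∃ τ, σ <+: τ ∧ LE δ τ ∧ DD Φ V δ T i c₀ N k τ := by
  cases k with
  | zero =>
    obtain ⟨a, h1, h2⟩ := hSt Φ V δ u T i c₀ n₀ N hX σ hσ
    exact ⟨a.sg, h1, h2.le, a, List.prefix_refl _, h2⟩
  | succ k =>
    by_cases hk : ∃ a : Cfg, Encodable.encode a = k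
    · obtain ⟨a, ha⟩ := hk
      have hu : ∀ b : Cfg, Encodable.encode b = k → b = a := fun b hb =>
        Encodable.encode_injective (hb.trans ha.symm)
      obtain ⟨τ, h1, h2, h3⟩ := long_ext hX.lim hσ a.sg.length
      by_cases hg : a.sg <+: τ ∧ Good Φ V δ T i c₀ N a
      · obtain ⟨a', h4, h5, h6, h7⟩ := hSp Φ V δ u T i c₀ n₀ N hX a hg.2 τ h2 hg.1
        refine ⟨a'.sg, h1.trans h4, h5, fun b hb => ?_⟩
        rw [hu b hb]
        exact ⟨h3.trans h4.length_le, fun _ _ => ⟨a', List.prefix_refl _, h6, h7⟩⟩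
      · refine ⟨τ, h1, h2, fun b hb => ?_⟩
        rw [hu b hb]
        exact ⟨h3, fun h4 h5 => absurd ⟨h4, h5⟩ hg⟩
    · exact ⟨σ, List.prefix_refl _, hσ, fun a ha => absurd ⟨a, ha⟩ hk⟩

theorem main {Φ : ℕ → List ℕ → List ℕ} {V : ℕ → ℕ} {δ : ℕ → Data} {u : ℕ → ℕ}
    {T : List ℕ → Prop} {i : ℕ} {c₀ : Cnd3} {n₀ N : ℕ} (hS : SearchStatement)
    (hComp : CompStatement) (hOra : OraStatement) (hInv : InvStatement) (hEnd : EndStatement)
    (hT : ComputablePred T) (hX : Cx Φ V δ u T i c₀ n₀ N) {G : ℕ → ℕ}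
    (hG : ∀ k, LE δ (pre G k)) (hD : ∀ k, ∃ n, DD Φ V δ T i c₀ N k (pre G n)) :
    HasPath (join V G) T := by
  obtain ⟨hc1, hc2⟩ := hComp T c₀ N hT
  obtain ⟨P, hP, hP'⟩ := hOra Φ i hX.enum
  -- the first search
  obtain ⟨n, a₀, h1, h2⟩ := hD 0
  have hR : Cop (fun (p : Cfg × Cfg) F => P p.2 F ∧ Stp T c₀ N p.1 p.2) :=
    (hP.comp Computable.snd).and (Cop.of_computable hc1)
  obtain ⟨A, hA0, hA1, hA2⟩ := hS Cfg (fun a a' F => P a' F ∧ Stp T c₀ N a a') hR (join V G)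
    (fun a => Good Φ V δ T i c₀ N a ∧ a.sg = pre G a.sg.length) a₀ ⟨h2, eq_pre h1⟩ (by
      rintro a ⟨h3, h4⟩
      obtain ⟨n, hn⟩ := hD (Encodable.encode a + 1)
      obtain ⟨h5, h6⟩ := hn a rfl
      rw [MP_8c048d_lc.length_pre] at h5
      obtain ⟨a', h7, h8, h9⟩ := h6 (by rw [h4]; exact pre_pfx G h5) h3
      exact ⟨a', (hP' V G a').2 ⟨eq_pre h7, h8⟩, h9⟩) (by
      rintro a a' ⟨h3, h4⟩ ⟨h5, h6⟩
      obtain ⟨h7, h8⟩ := (hP' V G a').1 h5
      refine ⟨hInv Φ V δ u T i c₀ n₀ N hX a a' h3 h6 ?_ h8, h7⟩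
      rw [h7]
      exact hG _)
  have hgd : ∀ j, Good Φ V δ T i c₀ N (A j) ∧ (A j).sg = pre G (A j).sg.length := by
    intro j
    induction j with
    | zero => rw [hA0]; exact ⟨h2, eq_pre h1⟩
    | succ j ih =>
      obtain ⟨h5, h6⟩ := hA1 j
      obtain ⟨h7, h8⟩ := (hP' V G (A (j + 1))).1 h5
      refine ⟨hInv Φ V δ u T i c₀ n₀ N hX (A j) _ ih.1 h6 ?_ h8, h7⟩
      rw [h7]
      exact hG _
  obtain ⟨⟨j₀, hj₀⟩, hch⟩ := hEnd Φ V δ u T i c₀ n₀ N hX A (fun j => (hgd j).1)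
    (fun j => (hA1 j).2)
  have hred : Red (fun j => Encodable.encode (A (j + 1))) (join V G) :=
    hA2 (fun p _ => Encodable.encode p.2)
      (RecF.of_computable (Computable.encode.comp Computable.snd))
  set F : ℕ → ℕ := fun j => Encodable.encode (A (j + 1)) with hF
  have hdc : ∀ j, 0 < j → dc (F (j - 1)) = A j := by
    intro j hj
    rw [hF]
    show dc (Encodable.encode (A (j - 1 + 1))) = A j
    rw [dc_encode, Nat.sub_add_cancel hj]
  -- the second search
  obtain ⟨B, hB0, hB1, hB2⟩ := hS Q2 (R2 N) (r2_cop hc2) F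
    (fun q => (q.2.1, q.2.2) ∈ (A q.1).im ∧ Ent N (A q.1) q.2.2) (j₀, [], [])
    ⟨(hgd j₀).1.sta.mv.root, hj₀⟩ (by
      rintro ⟨j, w, q⟩ ⟨h3, h4⟩
      obtain ⟨j', hj', r', h5, k, h6, h7⟩ := hch j (w, q) h3 h4
      have e := hdc j' (by omega)
      refine ⟨(j', r'.1, r'.2), hj', ?_, ?_, ?_, ?_⟩
      · show r'.1.length = w.length + 1
        rw [h6]; simp
      · show w <+: r'.1
        rw [h6]; exact List.prefix_append _ _
      · show (r'.1, r'.2) ∈ (dc (F (j' - 1))).im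
        rw [e]; exact h5
      · show Ent N (dc (F (j' - 1))) r'.2
        rw [e]; exact h7) (by
      rintro a a' _ ⟨h3, _, _, h4, h5⟩
      rw [hdc a'.1 (by omega)] at h4 h5
      exact ⟨h4, h5⟩)
  have hB3 : ∀ n, ((B n).2.1, (B n).2.2) ∈ (A (B n).1).im ∧ (B n).2.1.length = n := by
    intro n
    induction n with
    | zero => rw [hB0]; exact ⟨(hgd j₀).1.sta.mv.root, rfl⟩
    | succ n ih =>
      obtain ⟨h3, h4, _, h5, _⟩ := hB1 n
      rw [hdc _ (by omega)] at h5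
      exact ⟨h5, by rw [h4, ih.2]⟩
  refine ⟨fun j => (B (j + 1)).2.1.getD j 0, ?_, fun k => ?_⟩
  · have h3 := hB2 (fun p _ => p.2.2.1.getD p.1 0) (RecF.of_computable ?_)
    · exact h3.trans hred
    · exact ((Primrec.list_getD 0).comp
        (Primrec.fst.comp (Primrec.snd.comp Primrec.snd)) Primrec.fst).to_comp
  · have h3 : pre (fun j => (B (j + 1)).2.1.getD j 0) k = (B k).2.1 := by
      induction k with
      | zero =>
        have := (hB3 0).2
        rw [List.length_eq_zero_iff] at this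
        rw [this]; rfl
      | succ k ih =>
        rw [MP_8c048d_lc.pre_succ, ih]
        obtain ⟨_, h4, ⟨l, hl⟩, _⟩ := hB1 k
        have h5 : l.length = 1 := by
          have := congrArg List.length hl
          rw [List.length_append, h4] at this
          omega
        obtain ⟨x, hx⟩ := List.length_eq_one_iff.1 h5
        have h6 := (hB3 k).2
        rw [← hl, hx]
        congr 1
        have h7 : ((B k).2.1 ++ [x]).getD k 0 = x := by
          rw [List.getD_eq_getElem?_getD, List.getElem?_append_right (by omega), h6]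
          simp
        rw [h7]
    rw [h3]
    exact (hgd _).1.sta.mv.memT _ (hB3 k).1

end Proc

open Proc in
/-- Module PROC, from its parts. -/
theorem proc_of (hL0 : Ltree0Statement) (hS : SearchStatement) (hComp : CompStatement)
    (hOra : OraStatement) (hInv : InvStatement) (hEnd : EndStatement) (hSt : StartStatement)
    (hSp : StepStatement) : ProcStatement := by
  intro Φ Tr TU V δ u hΦ hTr hL i E₀ c n₀ N hc _ hK hnd
  have hX : Cx Φ V δ u (TE Tr E₀) i c n₀ N := ⟨hΦ, limD_of hL0 hL, hc, hK, hnd⟩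
  refine ⟨DD Φ V δ (TE Tr E₀) i c N, fun k σ hσ => dd_dense hSt hSp hX k σ hσ,
    fun G hG hD => main hS hComp hOra hInv hEnd (te_comp hTr.comp E₀) hX hG hD⟩

end Pool.Agent.Lib.MP_d48993_lc.Node
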