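import Pool.Agent.Lib.MP_d48993_lc.AE.Node.ProcInv

/-!
# Module PROC: an infinite process gives a path (helper3)
-/

set_option autoImplicit false

namespace Pool.Agent.Lib.MP_d48993_lc.Node.Proc

open MP_8c048d_lc (pre join RecF Sig Clo Cop Del)

section Ctx

variable {Φ : ℕ → List ℕ → List ℕ} {V : ℕ → ℕ} {δ : ℕ → Data} {u : ℕ → ℕ} {T : List ℕ → Prop}
  {i : ℕ} {c₀ : Cnd3} {n₀ N : ℕ}

/-- An infinite process. -/
structure Prc (Φ : ℕ → List ℕ → List ℕ) (V : ℕ → ℕ) (δ : ℕ → Data) (T : List ℕ → Prop) (i : ℕ)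
    (c₀ : Cnd3) (N : ℕ) (A : ℕ → Cfg) : Prop where
  good : ∀ j, Good Φ V δ T i c₀ N (A j)
  step : ∀ j, Stp T c₀ N (A j) (A (j + 1))

variable {A : ℕ → Cfg}

theorem Prc.ypx (hX : Cx Φ V δ u T i c₀ n₀ N) (h : Prc Φ V δ T i c₀ N A) {j k : ℕ}
    (hjk : j ≤ k) : (A j).y <+: (A k).y := by
  induction k, hjk using Nat.le_induction with
  | base => exact List.prefix_refl _
  | succ k _ ih =>
    refine ih.trans ?_
    rw [(h.good k).yeq, (h.good (k + 1)).yeq]
    exact phi_mono hX.enum V i (h.step k).x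

theorem Prc.im (h : Prc Φ V δ T i c₀ N A) {j k : ℕ} (hjk : j ≤ k) {r : Im}
    (hr : r ∈ (A j).im) : r ∈ (A k).im := by
  induction k, hjk using Nat.le_induction with
  | base => exact hr
  | succ k _ ih => exact (h.step k).im r ih

theorem Prc.ent (hX : Cx Φ V δ u T i c₀ n₀ N) (h : Prc Φ V δ T i c₀ N A) {j k : ℕ}
    (hjk : j ≤ k) {B : List ℕ} (hB : Ent N (A j) B) : Ent N (A k) B :=
  hB.mono (h.ypx hX hjk) fun _ hr => h.im hjk hr

theorem Prc.sub (h : Prc Φ V δ T i c₀ N A) {j k : ℕ} (hjk : j ≤ k) {B : Im}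
    (hB : B ∈ (A j).S) : B ∈ (A k).S := by
  induction k, hjk using Nat.le_induction with
  | base => exact hB
  | succ k _ ih => exact (h.step k).sub B ih

/-- The split nodes of an old label are old. -/
theorem Prc.fix (h : Prc Φ V δ T i c₀ N A) {j k : ℕ} (hjk : j ≤ k) {r : Im}
    (hr : r ∈ (A j).im) {B : Im} (hB : B ∈ (A k).S) (e : B.1 = r.1) : B ∈ (A j).S := by
  induction k, hjk using Nat.le_induction with
  | base => exact hB
  | succ k hjk ih =>
    rcases (h.step k).new B hB with h1 | ⟨h1, _⟩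
    · exact ih h1
    · exact absurd e.symm (h1 r (h.im hjk hr))

/-- Stems are long. -/
theorem Prc.len (h : Prc Φ V δ T i c₀ N A) (j : ℕ) : ∀ p ∈ (A j).st, j ≤ p.2.length := by
  induction j with
  | zero => intro p _; exact Nat.zero_le _
  | succ j ih =>
    intro p hp
    obtain ⟨q, h1, _, h3⟩ := (h.step j).up p hp
    have := ih q h1
    omega

theorem Prc.ylen (h : Prc Φ V δ T i c₀ N A) (j : ℕ) : j ≤ (A j).y.length := by
  induction j with
  | zero => exact Nat.zero_le _
  | succ j ih =>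
    have := (h.step j).y
    omega

/-- Later stems are above earlier stems. -/
theorem Prc.up (h : Prc Φ V δ T i c₀ N A) {j k : ℕ} (hjk : j ≤ k) :
    ∀ p ∈ (A k).st, ∃ q ∈ (A j).st, q.2 <+: p.2 := by
  induction k, hjk using Nat.le_induction with
  | base => intro p hp; exact ⟨p, hp, List.prefix_refl _⟩
  | succ k _ ih =>
    intro p hp
    obtain ⟨q, h1, h2, _⟩ := (h.step k).up p hp
    obtain ⟨q', h3, h4⟩ := ih q h1
    exact ⟨q', h3, h4.trans h2⟩

/-- Entered strings are arbitrarily long. -/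
theorem Prc.long (hB : BasicStatement) (hM : MonoStatement) (hX : Cx Φ V δ u T i c₀ n₀ N)
    (h : Prc Φ V δ T i c₀ N A) (L J : ℕ) : ∃ j, J ≤ j ∧ ∃ B, B.length = L ∧ Ent N (A j) B := by
  by_contra hcon
  have hno : ∀ j, J ≤ j → ∀ B, Ent N (A j) B → B.length < L := by
    intro j hj B hE
    by_contra h1
    have h1 : L ≤ B.length := by omega
    refine hcon ⟨j, hj, B.take L, ?_, hE.pfx (List.take_prefix _ _)⟩
    rw [List.length_take, Nat.min_eq_left h1]
  -- the root of the driver at stage `L`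
  set z : St := endd o (A L).sg with hz
  set j : ℕ := max (max J L) (max N z.1 + 1) with hj
  have hjJ : J ≤ j := (le_max_left _ _).trans (le_max_left _ _)
  have hjL : L ≤ j := (le_max_right _ _).trans (le_max_left _ _)
  have hjM : max N z.1 + 1 ≤ j := le_max_right _ _
  have hy := (h.good j).ley hM hX
  have hlen := h.ylen j
  have hne : (A j).y ≠ [] := by
    intro h1
    rw [h1] at hlen
    simp at hlen
    omega
  obtain ⟨ys, s, hys⟩ : ∃ ys s, (A j).y = ys ++ [s] :=
    ⟨_, _, (List.dropLast_append_getLast hne).symm⟩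
  have hs : s ∈ (A j).y := by rw [hys]; simp
  have hroot : j ≤ (tgt s).1 := by
    have h1 := (le_len hB hX.lim hy).1
    rw [hys, endd_snoc, ← hys] at h1
    omega
  have hN : N ≤ (tgt s).1 := by
    have : N ≤ max N z.1 := le_max_left _ _
    omega
  have hz1 : z.1 < (tgt s).1 := by
    have : z.1 ≤ max N z.1 := le_max_right _ _
    omega
  obtain ⟨π, hπ⟩ := (h.good j).lvl hM hX hs hN
  have hent : Ent N (A j) π := ent_iff.2 ⟨s, hs, hN, π, List.prefix_refl _, hπ⟩
  obtain ⟨r, hr, k, hk, h1, h2⟩ := hπ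
  have hkL : k < L := by
    have := hno j hjJ π hent
    rw [h1, List.length_take, Nat.min_eq_left hk.le] at this
    exact this
  obtain ⟨p', hp', hpr⟩ := (h.good j).sta.mv.stem r hr
  have h3 := (h.good j).sta.mv.imst hr hp' hpr
  obtain ⟨p, hp, h4⟩ := h.up hjL p' hp'
  have h5 := h.len L p hp
  -- the symbol number `k` of `p`
  have h6 : r.2.getD k 0 = p.2.getD k 0 := by
    have e1 := getElem?_pfx h3 hk
    have e2 := getElem?_pfx h4 (j := k) (by omega)
    rw [List.getD_eq_getElem?_getD, List.getD_eq_getElem?_getD, e1, e2]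
  have hkp : k < p.2.length := by omega
  have hmem : p.2.getD k 0 ∈ p.2 := by
    rw [List.getD_eq_getElem _ _ hkp]
    exact List.getElem_mem hkp
  have hple : LE δ p.2 := (le_iff hM hX.lim).2
    ⟨(h.good L).sta.mv.chn p hp, (h.good L).val p hp⟩
  have h7 := (le_len hB hX.lim hple).2 _ hmem
  rw [h6] at h2
  have h8 := he_root hB hX.lim ((h.good L).val p hp _ hmem) h2
  obtain ⟨b, _, hb⟩ := (h.good L).sta.en p hp
  have h9 : (endd o p.2).1 = z.1 := by rw [hb]; rfl
  omega

/-- The labels are closed under initial segments. -/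
theorem MV.labs {C : MC} (h : MV T C) {s t : List ℕ} (hst : s <+: t) :
    (∃ r ∈ C.im, r.1 = t) → ∃ r ∈ C.im, r.1 = s := by
  obtain ⟨l, rfl⟩ := hst
  induction l using List.reverseRecOn with
  | nil =>
    intro h1
    rwa [List.append_nil] at h1
  | append_singleton l k ih =>
    rintro ⟨r, hr, h1⟩
    obtain ⟨r', hr', h2⟩ := h.par r hr (by rw [h1]; simp)
    refine ih ⟨r', hr', ?_⟩
    rw [h2, h1, ← List.append_assoc, List.dropLast_concat]

/-- The first stage of an image. -/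
theorem Prc.first (h : Prc Φ V δ T i c₀ N A) {J j : ℕ} (hJ : J ≤ j) {r : Im}
    (hr : r ∈ (A j).im) (hno : r ∉ (A J).im) : ∃ k, J ≤ k ∧ k < j ∧ r ∉ (A k).im ∧
      r ∈ (A (k + 1)).im := by
  induction j, hJ using Nat.le_induction with
  | base => exact absurd hr hno
  | succ j hj ih =>
    by_cases h1 : r ∈ (A j).im
    · obtain ⟨k, h2, h3, h4⟩ := ih h1
      exact ⟨k, h2, by omega, h4⟩
    · exact ⟨j, hj, by omega, h1, hr⟩

/-- A bound for the lengths of finitely many strings. -/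
theorem exists_len (l : List Im) : ∃ L, ∀ r ∈ l, r.2.length < L := by
  induction l with
  | nil => exact ⟨0, fun r hr => absurd hr (List.not_mem_nil)⟩
  | cons a l ih =>
    obtain ⟨L, hL⟩ := ih
    refine ⟨max L (a.2.length + 1), fun r hr => ?_⟩
    rcases List.mem_cons.1 hr with rfl | h1
    · exact lt_of_lt_of_le (Nat.lt_succ_self _) (le_max_right _ _)
    · exact lt_of_lt_of_le (hL r h1) (le_max_left _ _)

/-- If no child of the entered image `r` is entered then there are late kept stems of its label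
above split nodes that are entered at some time. -/
theorem Prc.late (hB : BasicStatement) (hM : MonoStatement) (hE : ExtrStatement)
    (hX : Cx Φ V δ u T i c₀ n₀ N) (h : Prc Φ V δ T i c₀ N A) {j : ℕ} {r : Im}
    (hr : r ∈ (A j).im) (hent : Ent N (A j) r.2)
    (hno : ¬ ∃ j' > j, ∃ r' ∈ (A j').im, ∃ k : ℕ, r'.1 = r.1 ++ [k] ∧ Ent N (A j') r'.2)
    {J : ℕ} (hJ : j ≤ J) : ∃ k, J ≤ k ∧ ∃ p ∈ (A k).st, p.1 = r.1 ∧ ¬ Kld N (A k) p ∧
      ∃ B ∈ (A j).S, B.1 = r.1 ∧ B.2 <+: p.2 ∧ ∃ l, Ent N (A l) B.2 := by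
  obtain ⟨L1, hL1⟩ := exists_len (A J).im
  obtain ⟨L2, hL2⟩ := exists_len (A j).S
  obtain ⟨j', hj', Q, hQ, hE1⟩ := h.long hB hM hX (max L1 L2) (J + 1)
  have hjj' : j ≤ j' := by omega
  have hJj' : J ≤ j' := by omega
  have hrJ := h.im hJ hr
  have hrj' := h.im hjj' hr
  have hmv := (h.good j').sta.mv
  obtain ⟨s, hs, hN, r', hr', m, hm, h1, h2⟩ := hE1
  have hE1 : Ent N (A j') Q := ⟨s, hs, hN, r', hr', m, hm, h1, h2⟩
  have hrl : r.2.length < Q.length := by
    rw [hQ]
    exact lt_of_lt_of_le (hL1 r hrJ) (le_max_left _ _)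
  have hrQ : r.2 <+: Q := by
    rcases (h.good j').cmp hB hM hE hX (h.ent hX hjj' hent) hE1 with h3 | h3
    · exact h3
    · have := h3.length_le
      omega
  have hQr : Q <+: r'.2 := h1.trans (List.take_prefix _ _)
  have hlt : Q.length < r'.2.length := by
    have h3 := h1.length_le
    rw [List.length_take, Nat.min_eq_left hm.le] at h3
    omega
  have h3 : r.1 <+: r'.1 := (hmv.emb r hrj' r' hr').1 (hrQ.trans hQr)
  obtain ⟨w, hw⟩ := h3
  cases w with
  | nil =>
    rw [List.append_nil] at hw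
    have := hmv.uniq r hrj' r' hr' hw
    rw [← this] at hlt
    omega
  | cons k w =>
    have h4 : r.1 ++ [k] <+: r'.1 := ⟨w, by rw [← hw]; simp⟩
    obtain ⟨q, hq, hq1⟩ := hmv.labs h4 ⟨r', hr', rfl⟩
    have h5 : q.2 <+: r'.2 := (hmv.emb q hq r' hr').2 (by rw [hq1]; exact h4)
    rcases cmp_pfx hQr h5 with h6 | h6
    swap
    · exact absurd ⟨j', by omega, q, hq, k, hq1, hE1.pfx h6⟩ hno
    -- `q` is declared late
    have h7 : q ∉ (A J).im := by
      intro h7
      have h8 := hL1 q h7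
      have h9 := h6.length_le
      rw [hQ] at h9
      have := le_max_left L1 L2
      omega
    obtain ⟨l, h8, h9, h10, h11⟩ := h.first hJj' hq h7
    have h12 : ∀ r₀ ∈ (A l).im, r₀.1 ≠ q.1 := by
      intro r₀ h12 h13
      have h14 := hmv.uniq r₀ (h.im h9.le h12) q hq h13
      rw [h14] at h12
      exact h10 h12
    have h13 : q.1.dropLast = r.1 := by rw [hq1, List.dropLast_concat]
    obtain ⟨p, h14, h15, h16, h17⟩ := (h.step l).ch q h11 h12
      ⟨r, h.im (hJ.trans h8) hr, h13.symm⟩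
    rw [h13] at h16
    obtain ⟨B, h18, h19, h20⟩ := (h.good l).sta.s2 p h14
    have h21 : B ∈ (A j).S := h.fix (hJ.trans h8) hr h18 (h19.trans h16)
    refine ⟨l, h8, p, h14, h16, h15, B, h21, h19.trans h16, h20, j', ?_⟩
    refine hE1.pfx ?_
    rcases cmp_pfx (h20.trans h17) h6 with h22 | h22
    · exact h22
    · have h23 := h22.length_le
      have h24 := hL2 B h21
      rw [hQ] at h23
      have := le_max_right L1 L2
      omega

theorem Prc.child (hB : BasicStatement) (hM : MonoStatement) (hE : ExtrStatement)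
    (hX : Cx Φ V δ u T i c₀ n₀ N) (h : Prc Φ V δ T i c₀ N A) {j : ℕ} {r : Im}
    (hr : r ∈ (A j).im) (hent : Ent N (A j) r.2) :
    ∃ j' > j, ∃ r' ∈ (A j').im, ∃ k : ℕ, r'.1 = r.1 ++ [k] ∧ Ent N (A j') r'.2 := by
  by_contra hno
  obtain ⟨_, _, _, _, _, _, B, hB1, hB2, _, l, hB3⟩ :=
    h.late hB hM hE hX hr hent hno (le_refl j)
  obtain ⟨k, hk, p, hp, hpr, hkp, B', hB1', hB2', hB4', l', hB3'⟩ :=
    h.late hB hM hE hX hr hent hno (le_max_left j l)
  have hjk : j ≤ k := (le_max_left _ _).trans hk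
  have hlk : l ≤ k := (le_max_right _ _).trans hk
  have h1 : B = B' := by
    rcases (h.good (max l l')).cmp hB hM hE hX (h.ent hX (le_max_left l l') hB3)
      (h.ent hX (le_max_right l l') hB3') with h2 | h2
    · exact (h.good j).sta.s1 B hB1 B' hB1' (hB2.trans hB2'.symm) h2
    · exact ((h.good j).sta.s1 B' hB1' B hB1 (hB2'.trans hB2.symm) h2).symm
  refine hkp ⟨B', h.sub hjk hB1', hB2'.trans hpr.symm, hB4', ?_⟩
  rw [← h1]
  exact h.ent hX hlk hB3

end Ctx

/-- Part END. -/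
theorem endp (hB : BasicStatement) (hM : MonoStatement) (hE : ExtrStatement) :
    EndStatement := by
  intro Φ V δ u T i c₀ n₀ N hX A h1 h2
  have h : Prc Φ V δ T i c₀ N A := ⟨h1, h2⟩
  refine ⟨?_, fun j r hr hent => h.child hB hM hE hX hr hent⟩
  obtain ⟨j, _, B, h3, h4⟩ := h.long hB hM hX 0 0
  exact ⟨j, h4.pfx List.nil_prefix⟩

end Pool.Agent.Lib.MP_d48993_lc.Node.Proc
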