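import Pool.Agent.Lib.MP_d48993_lc.AE.Node.ProcBase

/-!
# Module PROC: the invariant, entered strings (helper3)
-/

set_option autoImplicit false

namespace Pool.Agent.Lib.MP_d48993_lc.Node.Proc

open MP_8c048d_lc (pre join RecF Sig Clo Cop Del)

/-- Entered strings remain entered. -/
theorem Ent.mono {N : ℕ} {a a' : Cfg} (hy : a.y <+: a'.y) (him : ∀ r ∈ a.im, r ∈ a'.im)
    {A : List ℕ} (h : Ent N a A) : Ent N a' A := by
  obtain ⟨s, h1, h2, r, h3, m, h4⟩ := h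
  exact ⟨s, hy.subset h1, h2, r, him r h3, m, h4⟩

theorem Ent.pfx {N : ℕ} {a : Cfg} {A A' : List ℕ} (h : Ent N a A) (hA : A' <+: A) :
    Ent N a A' := by
  obtain ⟨s, h1, h2, r, h3, m, h4, h5, h6⟩ := h
  exact ⟨s, h1, h2, r, h3, m, h4, hA.trans h5, h6⟩

/-- Strings below a common string are comparable. -/
theorem cmp_pfx {A B C : List ℕ} (h : A <+: C) (h' : B <+: C) : A <+: B ∨ B <+: A :=
  List.prefix_or_prefix_of_prefix h h'

/-- A stem above a split node which is not entered is not killed. -/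
theorem not_kld {T : List ℕ → Prop} {c₀ : Cnd3} {N : ℕ} {a : Cfg} (h : Sta T c₀ a) {A p : Im}
    (hA : A ∈ a.S) (hAp : A.1 = p.1) (hle : A.2 <+: p.2) (hE : ¬ Ent N a A.2) : ¬ Kld N a p := by
  rintro ⟨B, hB, h1, h2, h3⟩
  have h4 : A = B := by
    rcases cmp_pfx hle h2 with h5 | h5
    · exact h.s1 A hA B hB (hAp.trans h1.symm) h5
    · exact (h.s1 B hB A hA (h1.trans hAp.symm) h5).symm
  rw [h4] at hE
  exact hE h3

section Ctx

variable {Φ : ℕ → List ℕ → List ℕ} {V : ℕ → ℕ} {δ : ℕ → Data} {u : ℕ → ℕ} {T : List ℕ → Prop}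
  {i : ℕ} {c₀ : Cnd3} {n₀ N : ℕ}

/-- Choices of stems of a good configuration are valid conditions, and extend `c₀`. -/
theorem Good.sel (hM : MonoStatement) (hX : Cx Φ V δ u T i c₀ n₀ N) {a : Cfg}
    (h : Good Φ V δ T i c₀ N a) {ch : Im → Im}
    (hch : ∀ r ∈ a.im, ch r ∈ a.st ∧ (ch r).1 = r.1) :
    CLe T c₀ (sel a.C ch) ∧ ∃ m₁, n₀ ≤ m₁ ∧ ∀ m, m₁ ≤ m → CV (δ m).W T (sel a.C ch) := by
  refine ⟨sel_cle h.sta.ex0 hch, ?_⟩
  obtain ⟨m₁, h1, h2⟩ := vs_strs hM hX.lim n₀ (a.st.map Prod.snd) fun q hq s hs => by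
    obtain ⟨p, hp, rfl⟩ := List.mem_map.1 hq
    exact h.val p hp s hs
  exact ⟨m₁, h1, fun m hm => sel_cv h.sta.mv hch fun p hp s hs =>
    h2 m hm p.2 (List.mem_map.2 ⟨p, hp, rfl⟩) s hs⟩

/-- `y` is valid. -/
theorem Good.ley (hM : MonoStatement) (hX : Cx Φ V δ u T i c₀ n₀ N) {a : Cfg}
    (h : Good Φ V δ T i c₀ N a) : LE δ a.y := by
  obtain ⟨ch, hch⟩ := exists_ch h.sta.mv.stem
  obtain ⟨h1, m₁, h2, h3⟩ := h.sel hM hX hch
  rw [h.yeq]
  exact (hX.nd m₁ h2 _ (h3 m₁ (le_refl _)) h1).1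

/-- `π` is the level of the target of `s`, seen in the images. -/
def Lvl (a : Cfg) (s : ℕ) (π : List ℕ) : Prop :=
  ∃ r ∈ a.im, ∃ m < r.2.length, π = r.2.take m ∧ HE (r.2.getD m 0) (src s) (tgt s)

theorem ent_iff {a : Cfg} {A : List ℕ} : Ent N a A ↔
    ∃ s ∈ a.y, N ≤ (tgt s).1 ∧ ∃ π, A <+: π ∧ Lvl a s π := by
  constructor
  · rintro ⟨s, h1, h2, r, h3, m, h4, h5, h6⟩
    exact ⟨s, h1, h2, _, h5, r, h3, m, h4, rfl, h6⟩
  · rintro ⟨s, h1, h2, _, h5, r, h3, m, h4, rfl, h6⟩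
    exact ⟨s, h1, h2, r, h3, m, h4, h5, h6⟩

/-- The edges of `y` into large roots have levels. -/
theorem Good.lvl (hM : MonoStatement) (hX : Cx Φ V δ u T i c₀ n₀ N) {a : Cfg}
    (h : Good Φ V δ T i c₀ N a) {s : ℕ} (hs : s ∈ a.y) (hN : N ≤ (tgt s).1) :
    ∃ π, Lvl a s π := by
  obtain ⟨ch, hch⟩ := exists_ch h.sta.mv.stem
  obtain ⟨h1, m₁, h2, h3⟩ := h.sel hM hX hch
  obtain ⟨m₂, h4, h5⟩ := le_from hM hX.lim (h.ley hM hX) m₁
  have h6 := h5 m₂ (le_refl _)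
  rw [h.yeq] at h6 hs
  obtain ⟨e, he, s', hs', h7⟩ := hX.K m₂ (h2.trans h4) _ (h3 m₂ h4) h1 h6 s hs hN
  obtain ⟨r, hr, rfl⟩ := mem_sel.1 he
  have hs'' : s' ∈ r.2 := hs'
  obtain ⟨k, hk, h8⟩ := List.getElem_of_mem hs''
  refine ⟨r.2.take k, r, hr, k, hk, rfl, ?_⟩
  rw [List.getD_eq_getElem _ _ hk, h8]
  exact h7

theorem take_snoc {l : List ℕ} {m : ℕ} (hm : m < l.length) :
    l.take (m + 1) = l.take m ++ [l.getD m 0] := by
  rw [List.getD_eq_getElem _ _ hm, List.take_succ_eq_append_getElem hm]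

/-- Levels by extraction: uniqueness, and the level of the source. -/
theorem Good.extr (hM : MonoStatement) (hE : ExtrStatement)
    (hX : Cx Φ V δ u T i c₀ n₀ N) {a : Cfg} (h : Good Φ V δ T i c₀ N a) :
    (∀ v π π', Lev (MNd a.C) v π → Lev (MNd a.C) v π' → π = π') ∧
    (∀ s π, Lvl a s π → Lev (MNd a.C) (tgt s) π ∧
      ((src s = o ∧ π = []) ∨ Lev (MNd a.C) (src s) π ∨
        (π ≠ [] ∧ Lev (MNd a.C) (src s) π.dropLast))) ∧
    ∀ v, ¬ Lev (MNd a.C) o v := by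
  obtain ⟨m, _, h2⟩ := vs_strs hM hX.lim n₀ (a.st.map Prod.snd) fun q hq s hs => by
    obtain ⟨p, hp, rfl⟩ := List.mem_map.1 hq
    exact h.val p hp s hs
  have hv : ∀ ν, MNd a.C ν → VStr (δ m).W o ν (endd o ν) := by
    rintro ν ⟨p, hp, hν⟩
    exact vstr_pfx ⟨h.sta.mv.chn p hp, h2 m (le_refl _) p.2 (List.mem_map.2 ⟨p, hp, rfl⟩)⟩ hν
  have hp : ∀ ν ν', ν <+: ν' → MNd a.C ν' → MNd a.C ν := by
    rintro ν ν' hν ⟨p, hp, hν'⟩
    exact ⟨p, hp, hν.trans hν'⟩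
  obtain ⟨h3, h4, h5⟩ := hE (δ m).W (MNd a.C) (hX.lim.wf m).inv h.sta.mv.ac hv hp
  refine ⟨h3, ?_, h5⟩
  rintro s π ⟨r, hr, k, hk, rfl, h6⟩
  obtain ⟨p, hp1, hp2⟩ := h.sta.mv.stem r hr
  have hn : MNd a.C (r.2.take (k + 1)) :=
    ⟨p, hp1, (List.take_prefix _ _).trans (h.sta.mv.imst hr hp1 hp2)⟩
  have h7 : (r.2.take (k + 1)).getLast? = some (r.2.getD k 0) := by
    rw [take_snoc hk]
    simp
  have h8 : (r.2.take (k + 1)).dropLast = r.2.take k := by
    rw [take_snoc hk]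
    simp
  have h9 := h4 _ _ _ _ hn h7 h6
  rw [h8] at h9
  exact h9

/-- Levels increase along `y`. -/
theorem Good.climb (hB : BasicStatement) (hM : MonoStatement) (hE : ExtrStatement)
    (hX : Cx Φ V δ u T i c₀ n₀ N) {a : Cfg} (h : Good Φ V δ T i c₀ N a) (k l : ℕ) (hkl : k ≤ l)
    (hl : l < a.y.length) (hN : N ≤ (tgt (a.y.getD k 0)).1) {π π' : List ℕ}
    (h1 : Lvl a (a.y.getD k 0) π) (h2 : Lvl a (a.y.getD l 0) π') :
    π <+: π' ∧ N ≤ (tgt (a.y.getD l 0)).1 := by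
  obtain ⟨hu, hs, hno⟩ := h.extr hM hE hX
  have hy := (le_iff hM hX.lim).1 (h.ley hM hX)
  induction l, hkl using Nat.le_induction generalizing π' with
  | base =>
    rw [hu _ _ _ (hs _ _ h1).1 (hs _ _ h2).1]
    exact ⟨List.prefix_refl _, hN⟩
  | succ l hkl ih =>
    have hl' : l < a.y.length := by omega
    have hmem : a.y.getD l 0 ∈ a.y := by
      rw [List.getD_eq_getElem _ _ hl']
      exact List.getElem_mem hl'
    have hmem' : a.y.getD (l + 1) 0 ∈ a.y := by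
      rw [List.getD_eq_getElem _ _ hl]
      exact List.getElem_mem hl
    have hsrc := ch_mem hy.1 l hl
    have hN' : N ≤ (tgt (a.y.getD l 0)).1 := by
      by_cases hkl' : k = l
      · rw [← hkl']; exact hN
      · -- roots increase
        have hrt : ∀ j, k ≤ j → j < a.y.length → N ≤ (tgt (a.y.getD j 0)).1 := by
          intro j hj
          induction j, hj using Nat.le_induction with
          | base => intro _; exact hN
          | succ j hj ihj =>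
            intro hj2
            have h3 := ihj (by omega)
            have h4 := ch_mem hy.1 j hj2
            have hm : a.y.getD (j + 1) 0 ∈ a.y := by
              rw [List.getD_eq_getElem _ _ hj2]
              exact List.getElem_mem hj2
            have h5 := (fit_vsl hB hX.lim (hy.2 _ hm)).2.2.1
            rw [h4] at h5
            omega
        exact hrt l hkl hl'
    obtain ⟨π'', h3⟩ := h.lvl hM hX hmem hN'
    obtain ⟨h4, _⟩ := ih hl' h3
    have h5 := (fit_vsl hB hX.lim (hy.2 _ hmem')).2.2.1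
    rw [hsrc] at h5
    refine ⟨?_, by omega⟩
    have h6 := (hs _ _ h3).1
    rcases (hs _ _ h2).2 with ⟨h7, _⟩ | h7 | ⟨_, h7⟩
    · rw [hsrc] at h7
      rw [h7] at h6
      exact absurd h6 (hno _)
    · rw [hsrc] at h7
      rw [← hu _ _ _ h6 h7]
      exact h4
    · rw [hsrc] at h7
      rw [hu _ _ _ h6 h7] at h4
      exact h4.trans (List.dropLast_prefix _)

/-- Entered strings are comparable. -/
theorem Good.cmp (hB : BasicStatement) (hM : MonoStatement) (hE : ExtrStatement)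
    (hX : Cx Φ V δ u T i c₀ n₀ N) {a : Cfg} (h : Good Φ V δ T i c₀ N a) {A A' : List ℕ}
    (h1 : Ent N a A) (h2 : Ent N a A') : A <+: A' ∨ A' <+: A := by
  obtain ⟨s, hs, hN, π, hA, hl⟩ := ent_iff.1 h1
  obtain ⟨s', hs', hN', π', hA', hl'⟩ := ent_iff.1 h2
  obtain ⟨k, hk, h3⟩ := List.getElem_of_mem hs
  obtain ⟨k', hk', h3'⟩ := List.getElem_of_mem hs'
  have e : a.y.getD k 0 = s := by rw [List.getD_eq_getElem _ _ hk, h3]
  have e' : a.y.getD k' 0 = s' := by rw [List.getD_eq_getElem _ _ hk', h3']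
  rcases le_total k k' with hkk | hkk
  · have h4 := (h.climb hB hM hE hX k k' hkk hk' (by rw [e]; exact hN) (π := π) (π' := π')
      (by rw [e]; exact hl) (by rw [e']; exact hl')).1
    exact cmp_pfx (hA.trans h4) hA'
  · have h4 := (h.climb hB hM hE hX k' k hkk hk (by rw [e']; exact hN') (π := π') (π' := π)
      (by rw [e']; exact hl') (by rw [e]; exact hl)).1
    exact cmp_pfx hA (hA'.trans h4)

end Ctx

/-- Part KEPT. -/
theorem kept (hB : BasicStatement) (hM : MonoStatement) (hE : ExtrStatement) :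
    KeptStatement := by
  intro Φ V δ u T i c₀ n₀ N hX a h
  refine ⟨fun A A' => h.cmp hB hM hE hX, fun r hr => ?_⟩
  obtain ⟨p, hp, hpr⟩ := h.sta.mv.stem r hr
  obtain ⟨A, hA, h1, h2⟩ := h.sta.s2 p hp
  have key : ∀ B ∈ a.S, B.1 = r.1 → ¬ Ent N a B.2 → ∃ p ∈ a.st, p.1 = r.1 ∧ ¬ Kld N a p := by
    intro B hB hBr hBE
    rcases h.s3 B hB with h3 | ⟨q, hq, h4, h5⟩
    · exact absurd h3 hBE
    · exact ⟨q, hq, h4.trans hBr, not_kld h.sta hB h4.symm h5 hBE⟩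
  by_cases hAE : Ent N a A.2
  · obtain ⟨B, hB, h3, h4⟩ := h.sta.s4 A hA
    refine key B hB (h3.trans (h1.trans hpr)) fun hBE => ?_
    rcases h.cmp ‹_› hM hE hX hAE hBE with h5 | h5
    · exact h4 (h.sta.s1 A hA B hB h3.symm h5).symm
    · exact h4 (h.sta.s1 B hB A hA h3 h5)
  · exact key A hA (h1.trans hpr) hAE

/-- Part INV. -/
theorem inv (hB : BasicStatement) (hM : MonoStatement) : InvStatement := by
  intro Φ V δ u T i c₀ n₀ N hX a a' h hs hle hy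
  have hyy : a.y <+: a'.y := by
    rw [h.yeq, hy]
    exact phi_mono hX.enum V i hs.x
  refine ⟨hs.sta, hle, fun p hp s hsp => ?_, hy, fun A hA => ?_⟩
  · rcases hs.cert p hp s hsp with ⟨p₀, h1, h2⟩ | ⟨g, h1, h2⟩
    · exact h.val p₀ h1 s h2
    · exact vsl_in hB hX.lim (((le_iff hM hX.lim).1 hle).2 g h1) h2
  · rcases hs.new A hA with h1 | ⟨_, h1⟩
    · by_cases hE : Ent N a A.2
      · exact Or.inl (hE.mono hyy hs.im)
      · rcases h.s3 A h1 with h2 | ⟨p, h2, h3, h4⟩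
        · exact absurd h2 hE
        · obtain ⟨p', h5, h6, h7⟩ := hs.st p h2 (not_kld h.sta h1 h3.symm h4 hE)
          exact Or.inr ⟨p', h5, h6.trans h3, h4.trans h7⟩
    · exact Or.inr h1

end Pool.Agent.Lib.MP_d48993_lc.Node.Proc
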